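import Pool.Agent.W254.PA.LogP

/-!
# The Iwasawa logarithm commutes with the Galois group of `ℚ_p`
-/

set_option autoImplicit false

namespace Run7.h788

open Pool.Agent.W245.PB (IsIwasawaLog)

variable {p : ℕ} [hp : Fact p.Prime]

theorem norm_aut (σ : PadicAlgCl p ≃ₐ[ℚ_[p]] PadicAlgCl p) (x : PadicAlgCl p) : ‖σ x‖ = ‖x‖ := by
  rw [← PadicAlgCl.spectralNorm_eq, ← PadicAlgCl.spectralNorm_eq]
  exact (spectralNorm_eq_of_equiv σ x).symm

theorem isometry_aut (σ : PadicAlgCl p ≃ₐ[ℚ_[p]] PadicAlgCl p) : Isometry σ := by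
  apply AddMonoidHomClass.isometry_of_norm
  exact norm_aut σ

/-- the Galois group commutes with the logarithm -/
theorem log_aut {L : PadicAlgCl p → PadicAlgCl p} (hL : IsIwasawaLog p L)
    (σ : PadicAlgCl p ≃ₐ[ℚ_[p]] PadicAlgCl p) {α : PadicAlgCl p} (hα : α ≠ 0) :
    σ (L α) = L (σ α) := by
  have hpne : (p : PadicAlgCl p) ≠ 0 := Nat.cast_ne_zero.2 hp.out.ne_zero
  obtain ⟨N, hN, a, ha⟩ := Pool.Agent.W254.PA.exists_norm_pow p α hα
  obtain ⟨M, hM, hM2⟩ := Pool.Agent.W254.PA.exists_pow_near p _ ha 1 one_pos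
  have key : ∀ β : PadicAlgCl p, β ≠ 0 → L ((β ^ N * (p : PadicAlgCl p) ^ a) ^ M) =
      ((M * N : ℕ) : PadicAlgCl p) * L β := by
    intro β hβ
    have hv0 : β ^ N * (p : PadicAlgCl p) ^ a ≠ 0 :=
      mul_ne_zero (pow_ne_zero _ hβ) (zpow_ne_zero _ hpne)
    rw [hL.pow hv0, hL.mul _ _ (pow_ne_zero _ hβ) (zpow_ne_zero _ hpne), hL.pow hβ,
      hL.zpow hpne, hL.prime]
    push_cast
    ring
  obtain ⟨z, hz⟩ : ∃ z : PadicAlgCl p, z = (α ^ N * (p : PadicAlgCl p) ^ a) ^ M - 1 := ⟨_, rfl⟩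
  rw [← hz] at hM2
  have h1 : 1 + z = (α ^ N * (p : PadicAlgCl p) ^ a) ^ M := by rw [hz]; ring
  have h2 : 1 + σ z = (σ α ^ N * (p : PadicAlgCl p) ^ a) ^ M := by
    have h3 := congrArg σ h1
    rw [map_add, map_one, map_pow, map_mul, map_pow, map_zpow₀, map_natCast] at h3
    exact h3
  have hs := (hL.ser z hM2).map σ.toRingEquiv.toRingHom (isometry_aut σ).continuous
  have hs' := hL.ser (σ z) (by rw [norm_aut]; exact hM2)
  have h4 : σ (L (1 + z)) = L (1 + σ z) := by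
    refine hs.unique ?_
    convert hs' using 1
    funext n
    change σ ((-1 : PadicAlgCl p) ^ n * z ^ (n + 1) / ((n : PadicAlgCl p) + 1)) = _
    rw [map_div₀, map_mul, map_pow, map_neg, map_one, map_pow, map_add, map_natCast, map_one]
  rw [h1, h2, key α hα, key (σ α) ((map_ne_zero σ).2 hα), map_mul, map_natCast] at h4
  have h5 : ((M * N : ℕ) : PadicAlgCl p) ≠ 0 := by
    exact_mod_cast (Nat.mul_pos hM hN).ne'
  exact mul_left_cancel₀ h5 h4

end Run7.h788
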