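import Pool.Agent.Run7.h788.MobRel
import Pool.Agent.Run7.h788.GalLog
import Pool.Agent.N770.Four2
import Pool.Agent.N770.PLogs

/-!
# Galois conjugates of counterexamples to the strong four exponentials conjecture
-/

set_option autoImplicit false

namespace Run7.h788

open Polynomial IntermediateField Matrix
open Pool.Agent.N770 (Eqv IsCounter Counter SixExp sixExp_padic)
open Pool.Agent.W254.PA (LtE logs)
open Pool.Agent.W245.PB (IsIwasawaLog)

variable {p : ℕ} [Fact p.Prime] {L : PadicAlgCl p → PadicAlgCl p}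

/-- the space of linear forms in logarithms is stable under the Galois group -/
theorem logs_stable (hL : IsIwasawaLog p L) (g : GG p) {x : PadicAlgCl p}
    (hx : x ∈ LtE (logs L)) : g x ∈ LtE (logs L) := by
  unfold LtE at hx ⊢
  induction hx using Submodule.span_induction with
  | mem x hx =>
    rcases hx with hx | ⟨α, hα, halg, rfl⟩
    · rw [Set.mem_singleton_iff.1 hx, map_one]
      exact Submodule.subset_span (Or.inl rfl)
    · rw [log_aut hL g hα]
      exact Submodule.subset_span (Or.inr ⟨g α, (_root_.map_ne_zero g).2 hα,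
        isAlgebraic_aut g halg, rfl⟩)
  | zero => rw [map_zero]; exact Submodule.zero_mem _
  | add x y _ _ hx hy => rw [map_add]; exact Submodule.add_mem _ hx hy
  | smul c x _ hx =>
    have h1 : g (c • x) = res g c • g x := by
      rw [Algebra.smul_def, Algebra.smul_def, map_mul]
      rfl
    rw [h1]
    exact Submodule.smul_mem _ _ hx

theorem mem_of_pair {S : Submodule (QQ p) (PadicAlgCl p)} {a c x : PadicAlgCl p} (ha : a ∈ S)
    (hc : c ∈ S) (hx : x ∈ Submodule.span (QQ p) ({a, c} : Set (PadicAlgCl p))) : x ∈ S := by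
  have h1 : Submodule.span (QQ p) ({a, c} : Set (PadicAlgCl p)) ≤ S := by
    rw [Submodule.span_le]
    rintro y (rfl | rfl)
    · exact ha
    · exact hc
  exact h1 hx

/-- **The conjugates stay in the plane of the first column.** -/
theorem crit (hL : IsIwasawaLog p L) (E : IntermediateField ℚ_[p] (PadicAlgCl p))
    {t a c : PadicAlgCl p} (htE : t ∈ E) (ht : ¬ IsAlgebraic ℚ t)
    (ha : a ∈ LtE (logs L)) (hc : c ∈ LtE (logs L)) (hta : t * a ∈ LtE (logs L))
    (htc : t * c ∈ LtE (logs L)) (hli : LinearIndependent (QQ p) ![a, c])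
    (g : GG p) (hg : g ∈ E.fixingSubgroup) {x : PadicAlgCl p}
    (hx : x ∈ Submodule.span (QQ p) ({a, c} : Set (PadicAlgCl p))) :
    g x ∈ Submodule.span (QQ p) ({a, c} : Set (PadicAlgCl p)) := by
  by_contra hcon
  have hrange : Set.range ![a, c] = ({a, c} : Set (PadicAlgCl p)) := by
    rw [Matrix.range_cons, Matrix.range_cons, Matrix.range_empty, Set.union_empty]
    rfl
  have hli3 : LinearIndependent (QQ p) (Fin.cons (g x) ![a, c] : Fin 3 → PadicAlgCl p) := by
    rw [linearIndependent_finCons]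
    refine ⟨hli, ?_⟩
    rw [hrange]
    exact hcon
  have htx : t * x ∈ LtE (logs L) := by
    obtain ⟨u, v, rfl⟩ := Submodule.mem_span_pair.1 hx
    rw [mul_add, mul_smul_comm, mul_smul_comm]
    exact Submodule.add_mem _ (Submodule.smul_mem _ _ hta) (Submodule.smul_mem _ _ htc)
  refine sixExp_padic hL t ?_ _ hli3 ?_ ?_
  · rintro k rfl
    exact ht (mem_QQ.1 k.2)
  · intro j
    fin_cases j
    · exact logs_stable hL g (mem_of_pair ha hc hx)
    · exact ha
    · exact hc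
  · intro j
    fin_cases j
    · change t * g x ∈ _
      have h1 : t * g x = g (t * x) := by rw [map_mul, fixed_of_mem E htE hg]
      rw [h1]
      exact logs_stable hL g htx
    · exact hta
    · exact htc

/-- first properties of a singular matrix with independent rows and independent columns -/
theorem counter_ne {M : Matrix (Fin 2) (Fin 2) (PadicAlgCl p)} (h : IsCounter (QQ p) M) :
    M 0 0 ≠ 0 ∧ ¬ IsAlgebraic ℚ (M 0 1 / M 0 0) ∧ ¬ IsAlgebraic ℚ (M 1 0 / M 0 0) ∧
      M 1 1 = M 0 1 / M 0 0 * M 1 0 := by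
  have hc := h.counter
  have ha : M 0 0 ≠ 0 := by
    intro h0
    have h1 : M 0 1 * M 1 0 = 0 := by rw [← hc.det, h0, zero_mul]
    rcases mul_eq_zero.1 h1 with h2 | h2
    · have := (hc.row_li 1 0 (by simp [h0]) (by simp [h2])).1
      exact one_ne_zero this
    · have := (hc.col_li 1 0 (by simp [h0]) (by simp [h2])).1
      exact one_ne_zero this
  have hd : M 1 1 = M 0 1 / M 0 0 * M 1 0 := by
    have := hc.det
    field_simp
    linear_combination this
  refine ⟨ha, ?_, ?_, hd⟩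
  · intro halg
    obtain ⟨k, hk⟩ : ∃ k : QQ p, (k : PadicAlgCl p) = M 0 1 / M 0 0 := ⟨⟨_, mem_QQ.2 halg⟩, rfl⟩
    have hk' : ∀ z : PadicAlgCl p, k • z = M 0 1 / M 0 0 * z := fun z => by
      rw [Algebra.smul_def, ← hk]
      rfl
    have := (hc.col_li k (-1) (by rw [hk', neg_smul, one_smul]; field_simp; ring)
      (by rw [hk', neg_smul, one_smul, hd]; ring)).2
    simp at this
  · intro halg
    obtain ⟨k, hk⟩ : ∃ k : QQ p, (k : PadicAlgCl p) = M 1 0 / M 0 0 := ⟨⟨_, mem_QQ.2 halg⟩, rfl⟩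
    have hk' : ∀ z : PadicAlgCl p, k • z = M 1 0 / M 0 0 * z := fun z => by
      rw [Algebra.smul_def, ← hk]
      rfl
    have := (hc.row_li k (-1) (by rw [hk', neg_smul, one_smul]; field_simp; ring)
      (by rw [hk', neg_smul, one_smul, hd]; field_simp; ring)).2
    simp at this

theorem li_pair {x y : PadicAlgCl p} (hx : x ≠ 0) (h : ¬ IsAlgebraic ℚ (y / x)) :
    LinearIndependent (QQ p) ![x, y] := by
  rw [LinearIndependent.pair_iff]
  intro u v huv
  rw [Algebra.smul_def, Algebra.smul_def] at huv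
  have huv' : (u : PadicAlgCl p) * x + v * y = 0 := huv
  have h1 : (v : PadicAlgCl p) * (y / x) + u = 0 := by
    field_simp
    linear_combination huv'
  exact (lin_zero h v u h1).symm

/-- the matrix can be transformed to a matrix over `E` -/
def DefOver (E : IntermediateField ℚ_[p] (PadicAlgCl p))
    (M : Matrix (Fin 2) (Fin 2) (PadicAlgCl p)) : Prop :=
  ∃ M' : Matrix (Fin 2) (Fin 2) (PadicAlgCl p), Eqv (QQ p) M M' ∧ ∀ i j, M' i j ∈ E

theorem Eqv.transpose {M M' : Matrix (Fin 2) (Fin 2) (PadicAlgCl p)} (h : Eqv (QQ p) M M') :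
    Eqv (QQ p) M.transpose M'.transpose := by
  obtain ⟨A, B, hA, hB, rfl⟩ := h
  refine ⟨B.transpose, A.transpose, by rwa [det_transpose], by rwa [det_transpose], ?_⟩
  rw [transpose_mul, transpose_mul, Matrix.mul_assoc, transpose_map, transpose_map]

theorem DefOver.transpose {E : IntermediateField ℚ_[p] (PadicAlgCl p)}
    {M : Matrix (Fin 2) (Fin 2) (PadicAlgCl p)} (h : DefOver E M) : DefOver E M.transpose := by
  obtain ⟨M', h, hE⟩ := h
  exact ⟨M'.transpose, Eqv.transpose h, fun i j => hE j i⟩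

theorem isCounter_transpose {M : Matrix (Fin 2) (Fin 2) (PadicAlgCl p)}
    (h : IsCounter (QQ p) M) : IsCounter (QQ p) M.transpose :=
  ⟨by rw [det_transpose]; exact h.1, h.2.2, h.2.1⟩

/-- equivalent matrices have equivalent ratios -/
theorem mob_of_eqv {M M' : Matrix (Fin 2) (Fin 2) (PadicAlgCl p)} (hM : IsCounter (QQ p) M)
    (h : Eqv (QQ p) M M') : Mob (M 0 1 / M 0 0) (M' 0 1 / M' 0 0) := by
  obtain ⟨ha, ht, hs, hd⟩ := counter_ne hM
  obtain ⟨A, B, hA, hB, rfl⟩ := h
  obtain ⟨t, htt⟩ : ∃ t, t = M 0 1 / M 0 0 := ⟨_, rfl⟩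
  have hb : M 0 1 = t * M 0 0 := by rw [htt]; field_simp
  rw [← htt] at ht hd ⊢
  have hl : (B 1 0 : PadicAlgCl p) * t + B 0 0 ≠ 0 := by
    intro h0
    obtain ⟨h1, h2⟩ := lin_zero ht _ _ h0
    rw [det_fin_two, h1, h2] at hB
    simp at hB
  have hr : (A 0 0 : PadicAlgCl p) * M 0 0 + A 0 1 * M 1 0 ≠ 0 := by
    intro h0
    have h3 : (A 0 1 : PadicAlgCl p) * (M 1 0 / M 0 0) + A 0 0 = 0 := by
      field_simp
      linear_combination h0
    obtain ⟨h1, h2⟩ := lin_zero hs _ _ h3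
    rw [det_fin_two, h1, h2] at hA
    simp at hA
  have e0 : (A.map (algebraMap (QQ p) (PadicAlgCl p)) * M *
      B.map (algebraMap (QQ p) (PadicAlgCl p))) 0 0 =
      ((A 0 0 : PadicAlgCl p) * M 0 0 + A 0 1 * M 1 0) * ((B 1 0 : PadicAlgCl p) * t + B 0 0) := by
    simp only [Matrix.mul_apply, Fin.sum_univ_two, Matrix.map_apply]
    change ((A 0 0 : PadicAlgCl p) * M 0 0 + (A 0 1 : PadicAlgCl p) * M 1 0) * (B 0 0 : QQ p) +
      ((A 0 0 : PadicAlgCl p) * M 0 1 + (A 0 1 : PadicAlgCl p) * M 1 1) * (B 1 0 : QQ p) = _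
    rw [hd, hb]
    ring
  have e1 : (A.map (algebraMap (QQ p) (PadicAlgCl p)) * M *
      B.map (algebraMap (QQ p) (PadicAlgCl p))) 0 1 =
      ((A 0 0 : PadicAlgCl p) * M 0 0 + A 0 1 * M 1 0) * ((B 1 1 : PadicAlgCl p) * t + B 0 1) := by
    simp only [Matrix.mul_apply, Fin.sum_univ_two, Matrix.map_apply]
    change ((A 0 0 : PadicAlgCl p) * M 0 0 + (A 0 1 : PadicAlgCl p) * M 1 0) * (B 0 1 : QQ p) +
      ((A 0 0 : PadicAlgCl p) * M 0 1 + (A 0 1 : PadicAlgCl p) * M 1 1) * (B 1 1 : QQ p) = _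
    rw [hd, hb]
    ring
  rw [e0, e1]
  refine ⟨!![B 1 1, B 0 1; B 1 0, B 0 0], ?_, ?_⟩
  · rw [det_fin_two_of]
    rw [det_fin_two] at hB
    intro h0
    exact hB (by linear_combination h0)
  · simp only [of_apply, cons_val', cons_val_zero, cons_val_one, cons_val_fin_one]
    rw [mul_div_mul_left _ _ hr, div_mul_cancel₀ _ hl]

/-- **Descent.** -/
theorem defOver_of_mob (hL : IsIwasawaLog p L) (E : IntermediateField ℚ_[p] (PadicAlgCl p))
    {M : Matrix (Fin 2) (Fin 2) (PadicAlgCl p)} (hM : IsCounter (QQ p) M)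
    (hML : ∀ i j, M i j ∈ LtE (logs L)) {t' : PadicAlgCl p} (ht'E : t' ∈ E)
    (h : Mob (M 0 1 / M 0 0) t') : DefOver E M := by
  obtain ⟨ha, ht, hs, hd⟩ := counter_ne hM
  have ht'alg := h.not_alg ht
  obtain ⟨P, hP, h⟩ := h
  obtain ⟨t, htt⟩ : ∃ t, t = M 0 1 / M 0 0 := ⟨_, rfl⟩
  have hb : M 0 1 = t * M 0 0 := by rw [htt]; field_simp
  rw [← htt] at ht hd h
  have hl := den_ne ht hP
  obtain ⟨l, hl'⟩ : ∃ l, l = (P 1 0 : PadicAlgCl p) * t + P 1 1 := ⟨_, rfl⟩
  rw [← hl'] at hl h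
  have hsm : ∀ (k : QQ p) (z : PadicAlgCl p), k • z = (k : PadicAlgCl p) * z :=
    fun k z => Algebra.smul_def k z
  -- the new first column
  have ha' : l * M 0 0 ∈ LtE (logs L) := by
    have h1 : l * M 0 0 = P 1 0 • M 0 1 + P 1 1 • M 0 0 := by
      rw [hsm, hsm, hb, hl']
      ring
    rw [h1]
    exact Submodule.add_mem _ (Submodule.smul_mem _ _ (hML _ _)) (Submodule.smul_mem _ _ (hML _ _))
  have hc' : l * M 1 0 ∈ LtE (logs L) := by
    have h1 : l * M 1 0 = P 1 0 • M 1 1 + P 1 1 • M 1 0 := by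
      rw [hsm, hsm, hd, hl']
      ring
    rw [h1]
    exact Submodule.add_mem _ (Submodule.smul_mem _ _ (hML _ _)) (Submodule.smul_mem _ _ (hML _ _))
  have hta' : t' * (l * M 0 0) ∈ LtE (logs L) := by
    have h1 : t' * (l * M 0 0) = P 0 0 • M 0 1 + P 0 1 • M 0 0 := by
      rw [hsm, hsm, hb]
      linear_combination M 0 0 * h
    rw [h1]
    exact Submodule.add_mem _ (Submodule.smul_mem _ _ (hML _ _)) (Submodule.smul_mem _ _ (hML _ _))
  have htc' : t' * (l * M 1 0) ∈ LtE (logs L) := by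
    have h1 : t' * (l * M 1 0) = P 0 0 • M 1 1 + P 0 1 • M 1 0 := by
      rw [hsm, hsm, hd]
      linear_combination M 1 0 * h
    rw [h1]
    exact Submodule.add_mem _ (Submodule.smul_mem _ _ (hML _ _)) (Submodule.smul_mem _ _ (hML _ _))
  obtain ⟨a', ha'eq⟩ : ∃ a', a' = l * M 0 0 := ⟨_, rfl⟩
  obtain ⟨c', hc'eq⟩ : ∃ c', c' = l * M 1 0 := ⟨_, rfl⟩
  rw [← ha'eq] at ha' hta'
  rw [← hc'eq] at hc' htc'
  have hli : LinearIndependent (QQ p) ![a', c'] := by
    apply li_pair
    · rw [ha'eq]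
      exact mul_ne_zero hl ha
    · rw [ha'eq, hc'eq, mul_div_mul_left _ _ hl]
      exact hs
  obtain ⟨U, hU⟩ : ∃ U, U = Submodule.span (QQ p) ({a', c'} : Set (PadicAlgCl p)) := ⟨_, rfl⟩
  have hdesc := descent_sub E U (fun g hg x hx => by
    rw [hU] at hx ⊢
    exact crit hL E ht'E ht'alg ha' hc' hta' htc' hli g hg hx)
  have haU : a' ∈ U := by rw [hU]; exact Submodule.subset_span (Or.inl rfl)
  have hcU : c' ∈ U := by rw [hU]; exact Submodule.subset_span (Or.inr rfl)
  -- two independent elements of `U` in `E`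
  have hex : ∃ u₀ u₁, u₀ ∈ U ∧ u₀ ∈ E ∧ u₁ ∈ U ∧ u₁ ∈ E ∧ LinearIndependent (QQ p) ![u₀, u₁] := by
    by_contra hcon
    push Not at hcon
    have hne : ∃ u₀, u₀ ∈ U ∧ u₀ ∈ E ∧ u₀ ≠ 0 := by
      by_contra hcon2
      push Not at hcon2
      have h1 : U ≤ ⊥ := by
        rw [hdesc, Submodule.span_le]
        rintro x ⟨hx1, hx2⟩
        exact hcon2 x hx1 hx2
      have h2 := h1 haU
      rw [Submodule.mem_bot] at h2
      exact hli.ne_zero 0 h2
    obtain ⟨u₀, h0U, h0E, h0⟩ := hne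
    have h1 : U ≤ Submodule.span (QQ p) {u₀} := by
      rw [hdesc, Submodule.span_le]
      rintro x ⟨hx1, hx2⟩
      have h2 := hcon u₀ x h0U h0E hx1 hx2
      rw [LinearIndependent.pair_iff' h0] at h2
      push Not at h2
      obtain ⟨k, hk⟩ := h2
      exact Submodule.mem_span_singleton.2 ⟨k, hk⟩
    obtain ⟨k, hk⟩ := Submodule.mem_span_singleton.1 (h1 haU)
    obtain ⟨k', hk'⟩ := Submodule.mem_span_singleton.1 (h1 hcU)
    have h3 := LinearIndependent.pair_iff.1 hli k' (-k) (by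
      rw [← hk, ← hk', smul_smul, smul_smul, ← add_smul]
      have : k' * k + -k * k' = 0 := by ring
      rw [this, zero_smul])
    have h4 : k = 0 := neg_eq_zero.1 h3.2
    rw [h4, zero_smul] at hk
    exact hli.ne_zero 0 hk.symm
  obtain ⟨u₀, u₁, h0U, h0E, h1U, h1E, hu⟩ := hex
  rw [hU] at h0U h1U
  obtain ⟨α₀, β₀, h0⟩ := Submodule.mem_span_pair.1 h0U
  obtain ⟨α₁, β₁, h1⟩ := Submodule.mem_span_pair.1 h1U
  refine ⟨!![u₀, t' * u₀; u₁, t' * u₁], ⟨!![α₀, β₀; α₁, β₁], !![P 1 1, P 0 1; P 1 0, P 0 0],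
    ?_, ?_, ?_⟩, ?_⟩
  · rw [det_fin_two_of]
    intro hdet
    rw [LinearIndependent.pair_iff] at hu
    have h2 := hu β₁ (-β₀) (by
      rw [← h0, ← h1, hsm, hsm, hsm, hsm, hsm, hsm]
      have hdet' : (α₀ : PadicAlgCl p) * β₁ - β₀ * α₁ = 0 := by exact_mod_cast hdet
      push_cast
      linear_combination a' * hdet')
    have h3 := hu α₁ (-α₀) (by
      rw [← h0, ← h1, hsm, hsm, hsm, hsm, hsm, hsm]
      have hdet' : (α₀ : PadicAlgCl p) * β₁ - β₀ * α₁ = 0 := by exact_mod_cast hdet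
      push_cast
      linear_combination (-c') * hdet')
    have h4 : α₀ = 0 := neg_eq_zero.1 h3.2
    have h5 : β₀ = 0 := neg_eq_zero.1 h2.2
    have h6 : u₀ = 0 := by rw [← h0, h4, h5, zero_smul, zero_smul, add_zero]
    have h7 := hu 1 0 (by rw [h6]; simp)
    exact one_ne_zero h7.1
  · rw [det_fin_two_of]
    rw [det_fin_two] at hP
    intro h0
    exact hP (by linear_combination h0)
  · have hcol : ∀ i, M i 1 = t * M i 0 := by
      intro i
      fin_cases i
      · exact hb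
      · exact hd
    have key : ∀ (α β : QQ p) (u : PadicAlgCl p), α • a' + β • c' = u →
        u = ((α : PadicAlgCl p) * M 0 0 + β * M 1 0) * P 1 1 +
          ((α : PadicAlgCl p) * M 0 1 + β * M 1 1) * P 1 0 ∧
        t' * u = ((α : PadicAlgCl p) * M 0 0 + β * M 1 0) * P 0 1 +
          ((α : PadicAlgCl p) * M 0 1 + β * M 1 1) * P 0 0 := by
      intro α β u hu
      rw [hsm, hsm, ha'eq, hc'eq] at hu
      rw [hcol 0, hcol 1]
      constructor
      · rw [← hu, hl']
        ring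
      · rw [← hu]
        linear_combination ((α : PadicAlgCl p) * M 0 0 + β * M 1 0) * h
    obtain ⟨k1, k2⟩ := key α₀ β₀ u₀ h0
    obtain ⟨k3, k4⟩ := key α₁ β₁ u₁ h1
    ext i j
    simp only [Matrix.mul_apply, Fin.sum_univ_two, Matrix.map_apply]
    fin_cases i <;> fin_cases j
    · exact k1
    · exact k2
    · exact k3
    · exact k4
  · intro i j
    fin_cases i <;> fin_cases j
    · exact h0E
    · exact E.mul_mem ht'E h0E
    · exact h1E
    · exact E.mul_mem ht'E h1E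

theorem eqv_map_of_defOver {E : IntermediateField ℚ_[p] (PadicAlgCl p)}
    {M : Matrix (Fin 2) (Fin 2) (PadicAlgCl p)} (h : DefOver E M) {g : GG p}
    (hg : g ∈ E.fixingSubgroup) : Eqv (QQ p) M (M.map g) := by
  obtain ⟨M', h, hE⟩ := h
  have h2 : Eqv (QQ p) (M.map g) M' := by
    obtain ⟨A, B, hA, hB, hM'⟩ := h
    refine ⟨A.map (res g), B.map (res g), det_res g hA, det_res g hB, ?_⟩
    have h3 : M' = M'.map g := by
      ext i j
      exact (fixed_of_mem E (hE i j) hg).symm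
    have h4 : M'.map g = (A.map (algebraMap (QQ p) (PadicAlgCl p))).map g * M.map g *
        (B.map (algebraMap (QQ p) (PadicAlgCl p))).map g := by
      rw [hM', Matrix.map_mul, Matrix.map_mul]
    rw [h3, h4]
    rfl
  exact h.trans h2.symm

theorem isCounter_map {M : Matrix (Fin 2) (Fin 2) (PadicAlgCl p)} (g : GG p) :
    (M.map g) 0 1 / (M.map g) 0 0 = g (M 0 1 / M 0 0) := by
  rw [map_div₀]
  rfl

/-- **The smallest field of definition of a counterexample.** -/
theorem field_of_definition (hL : IsIwasawaLog p L) {M : Matrix (Fin 2) (Fin 2) (PadicAlgCl p)}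
    (hM : IsCounter (QQ p) M) (hML : ∀ i j, M i j ∈ LtE (logs L)) :
    ∃ E₀ : IntermediateField ℚ_[p] (PadicAlgCl p), FiniteDimensional ℚ_[p] E₀ ∧
      ∀ E : IntermediateField ℚ_[p] (PadicAlgCl p),
        (E₀ ≤ E ↔ DefOver E M) ∧
        (E₀ ≤ E ↔ ∃ t' ∈ E, Mob (M 0 1 / M 0 0) t') ∧
        (E₀ ≤ E ↔ ∃ s' ∈ E, Mob (M 1 0 / M 0 0) s') ∧
        (E₀ ≤ E ↔ ∀ g ∈ E.fixingSubgroup, Eqv (QQ p) M (M.map g)) := by
  have main : ∀ M : Matrix (Fin 2) (Fin 2) (PadicAlgCl p), IsCounter (QQ p) M →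
      (∀ i j, M i j ∈ LtE (logs L)) → ∀ E : IntermediateField ℚ_[p] (PadicAlgCl p),
      (modField (M 0 1 / M 0 0) ≤ E ↔ DefOver E M) := by
    intro M hM hML E
    obtain ⟨ha, ht, hs, hd⟩ := counter_ne hM
    rw [modField_le_iff' ht]
    constructor
    · rintro ⟨t', ht'E, ht'⟩
      exact defOver_of_mob hL E hM hML ht'E ht'
    · rintro ⟨M', hM', hE⟩
      exact ⟨_, E.div_mem (hE 0 1) (hE 0 0), mob_of_eqv hM hM'⟩
  obtain ⟨ha, ht, hs, hd⟩ := counter_ne hM
  refine ⟨modField (M 0 1 / M 0 0), finDim_modField _, fun E => ⟨main M hM hML E,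
    modField_le_iff' ht E, ?_, ?_⟩⟩
  · rw [main M hM hML E]
    have h1 := main M.transpose (isCounter_transpose hM) (fun i j => hML j i) E
    have h2 : DefOver E M ↔ DefOver E M.transpose :=
      ⟨fun h => h.transpose, fun h => by simpa using h.transpose⟩
    rw [h2, ← h1]
    exact modField_le_iff' hs E
  · constructor
    · intro h g hg
      exact eqv_map_of_defOver ((main M hM hML E).1 h) hg
    · intro h
      rw [modField_le_iff]
      intro g hg
      have h1 := mob_of_eqv hM (h g hg)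
      rwa [isCounter_map] at h1

end Run7.h788
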