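import Pool.Agent.Run7.h788.RandFree
import Pool.Agent.R350.GU

/-!
# Random rows of singular `2 × 2` matrices
-/

set_option autoImplicit false

namespace Run7.h788

open Module Finset Pool.Agent.R350

open Classical in
/-- A union bound: for every index `j` the other coordinates are fixed. -/
theorem count_update {n : ℕ} {α : Type} (Y : Finset α) (bad : Fin n → (Fin n → α) → Prop) (B : ℝ)
    (hB0 : 0 ≤ B)
    (h : ∀ j P, ((Y.filter fun p => bad j (Function.update P j p)).card : ℝ) ≤ B) :
    (((Fintype.piFinset fun _ : Fin n => Y).filter fun P => ∃ j, bad j P).card : ℝ) ≤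
      n * (B * (Y.card : ℝ) ^ (n - 1)) := by
  set U : Finset (Fin n → α) := Fintype.piFinset fun _ : Fin n => Y with hU
  have hB : ∀ j : Fin n, ((U.filter fun P => bad j P).card : ℝ) ≤
      B * (Y.card : ℝ) ^ (n - 1) := by
    intro j
    obtain ⟨m, rfl⟩ : ∃ m, n = m + 1 := ⟨n - 1, by have := j.2; omega⟩
    set Z : Finset (Fin m → α) := Fintype.piFinset fun _ : Fin m => Y with hZ
    have hfib : (U.filter fun P => bad j P).card =
        ∑ q ∈ Z, ((U.filter fun P => bad j P).filter fun P => j.removeNth P = q).card := by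
      apply Finset.card_eq_sum_card_fiberwise
      intro P hP
      have h1 := Fintype.mem_piFinset.1 (Finset.mem_filter.1 hP).1
      exact Fintype.mem_piFinset.2 fun i => h1 _
    have hone : ∀ q ∈ Z,
        (((U.filter fun P => bad j P).filter fun P => j.removeNth P = q).card : ℝ) ≤ B := by
      intro q _
      by_cases hY : Nonempty α
      swap
      · have h0 : (U.filter fun P => bad j P).filter (fun P => j.removeNth P = q) = ∅ := by
          rw [Finset.eq_empty_iff_forall_notMem]
          intro P _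
          exact hY ⟨P 0⟩
        rw [h0]
        simpa using hB0
      obtain ⟨a₀⟩ := hY
      refine le_trans (Nat.cast_le.2 ?_) (h j (j.insertNth a₀ q))
      refine Finset.card_le_card_of_injOn (fun P => P j) ?_ ?_
      · intro P hP
        rw [Finset.mem_coe, Finset.mem_filter, Finset.mem_filter] at hP
        rw [Finset.mem_coe, Finset.mem_filter]
        refine ⟨(Fintype.mem_piFinset.1 hP.1.1) j, ?_⟩
        have h2 : Function.update (j.insertNth a₀ q : Fin (m + 1) → α) j (P j) = P := by
          rw [Fin.update_insertNth, ← hP.2]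
          exact Fin.insertNth_self_removeNth j P
        rw [h2]
        exact hP.1.2
      · intro P hP P' hP' hPP
        rw [Finset.mem_coe, Finset.mem_filter] at hP hP'
        rw [← Fin.insertNth_self_removeNth j P, ← Fin.insertNth_self_removeNth j P', hP.2, hP'.2]
        have hPP' : P j = P' j := hPP
        rw [hPP']
    rw [hfib]
    push_cast
    refine (Finset.sum_le_sum hone).trans (le_of_eq ?_)
    rw [Finset.sum_const, hZ, Fintype.card_piFinset_const, nsmul_eq_mul]
    push_cast
    ring
  have hsub : U.filter (fun P => ∃ j, bad j P) ⊆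
      (Finset.univ : Finset (Fin n)).biUnion fun j => U.filter fun P => bad j P := by
    intro P hP
    rw [Finset.mem_filter] at hP
    obtain ⟨hPU, j, hj⟩ := hP
    rw [Finset.mem_biUnion]
    exact ⟨j, Finset.mem_univ j, Finset.mem_filter.2 ⟨hPU, hj⟩⟩
  have h1 := (Finset.card_le_card hsub).trans Finset.card_biUnion_le
  have h2 : ((U.filter fun P => ∃ j, bad j P).card : ℝ) ≤
      ∑ j : Fin n, ((U.filter fun P => bad j P).card : ℝ) := by exact_mod_cast h1
  refine h2.trans ((Finset.sum_le_sum fun j _ => hB j).trans (le_of_eq ?_))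
  rw [Finset.sum_const, Finset.card_univ, Fintype.card_fin, nsmul_eq_mul]

open Classical in
/-- **Matrices with a random row.** -/
theorem rand_two (n m v : ℕ) : ∃ (k₀ C : ℕ) (δ : ℝ), 0 < δ ∧ ∀ k ≥ k₀, ∀ (K κ A : Type) [Field K]
    [Field κ] [CharZero κ] [Field A] [CharZero A]
    [Algebra K A] [Algebra κ A] [Algebra K κ] [IsScalarTower K κ A]
    (L : Submodule κ A), HypV v L → (1 : A) ∈ L → ∀ V : Submodule K A, Module.Finite K V →
    finrank K V ≤ m →
    ∀ lam : Fin n → Fin k → A, (∀ j i, lam j i ∈ L ⊔ Submodule.span κ (V : Set A)) →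
    (∀ j, LinearIndependent κ (lam j)) →
    ∀ X : Finset ℚ, X.Nonempty → ∀ ζ : Fin n → A, (∀ j, ζ j ∈ L ⊔ Submodule.span κ (V : Set A)) →
    (((Fintype.piFinset fun _ : Fin n => Fintype.piFinset fun _ : Fin k => X).filter (fun P =>
      ¬ Good2f V L (fun j => ζ j + ∑ i, (P j i : A) * lam j i))).card : ℝ) ≤
      C * (X.card : ℝ) ^ ((n * k : ℝ) - δ * k) := by
  obtain ⟨M, hM⟩ : ∃ M, M = m + n + 1 := ⟨_, rfl⟩
  obtain ⟨k₀, C, δ, hδ, h⟩ := rand_one 1 (M * (M + (v + m)) * M + M) (v + m)
  refine ⟨k₀, n * C, δ, hδ, fun k hk K κ A _ _ _ _ _ _ _ _ _ L hL h1L V hVf hVm lam hlam hli X hX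
    ζ hζ => ?_⟩
  have hspan := spanK_finite (κ := κ) V
  have hyp := hL.sup (Submodule.span κ (V : Set A)) ((finrank_spanK_le V).trans hVm)
  have hfinH : ∀ (j : Fin n) (y : Fin n → A), Module.Finite κ (hullSp κ (stage V y j)) := by
    intro j y
    have := stage_finite V y j
    exact hullSp_finite _
  have hrankH : ∀ (j : Fin n) (y : Fin n → A), finrank κ (hullSp κ (stage V y j)) ≤ M := by
    intro j y
    have := stage_finite V y j
    have h1 := finrank_hullSp_le (κ := κ) (stage V y j)
    have h2 := finrank_stage_le V y j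
    omega
  obtain ⟨L', hL'⟩ : ∃ L', L' = L ⊔ Submodule.span κ (V : Set A) := ⟨_, rfl⟩
  rw [← hL'] at hyp hlam hζ
  have h1L' : (1 : A) ∈ L' := by rw [hL']; exact Submodule.mem_sup_left h1L
  let y : (Fin n → Fin k → ℚ) → Fin n → A := fun P j => ζ j + ∑ i, (P j i : A) * lam j i
  have hyL : ∀ P j, y P j ∈ L' := fun P j =>
    L'.add_mem (hζ j) (L'.sum_mem fun s _ => ratCast_mul_mem L' (hlam j s) _)
  let F : Fin n → (Fin n → A) → Submodule κ A := fun j z =>
    suppSp (v + m) L' (hullSp κ (stage V z j)) ⊔ hullSp κ (stage V z j)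
  have hF : ∀ j z, Module.Finite κ (F j z) ∧ finrank κ (F j z) ≤ M * (M + (v + m)) * M + M := by
    intro j z
    have h1 := hfinH j z
    have h2 := (suppSp_spec hyp (hullSp κ (stage V z j))).1
    have h3 := (suppSp_spec hyp (hullSp κ (stage V z j))).2.1
    have h4 := hrankH j z
    refine ⟨inferInstance, (Submodule.finrank_add_le_finrank_add_finrank _ _).trans ?_⟩
    refine Nat.add_le_add (h3.trans ?_) h4
    gcongr
  set Y : Finset (Fin k → ℚ) := Fintype.piFinset fun _ : Fin k => X with hY
  obtain ⟨bad, hbad⟩ : ∃ bad : Fin n → (Fin n → Fin k → ℚ) → Prop, bad = fun j P =>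
    y P j ∈ F j (y P) ∨ ¬ GD 1 L' (hullSp κ (stage V (y P) j)) (y P j) := ⟨_, rfl⟩
  obtain ⟨a, ha⟩ : ∃ a : ℝ, a = (X.card : ℝ) := ⟨_, rfl⟩
  have ha1 : 1 ≤ a := by
    rw [ha]
    exact_mod_cast hX.card_pos
  have ha0 : 0 < a := by linarith
  have hYc : (Y.card : ℝ) = a ^ (k : ℝ) := by
    rw [hY, Fintype.card_piFinset_const, ha]
    push_cast
    rw [Real.rpow_natCast]
  have key := count_update (n := n) Y bad (C * a ^ ((k : ℝ) - δ * k)) (by positivity) (by
    intro j P
    have h1 := h k hk κ A L' (hullSp κ (stage V (y P) j)) (F j (y P)) (hfinH j _) (hF j _).1 hyp h1L'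
      (one_mem_hullSp _) ((hrankH j _).trans (Nat.le_add_left _ _)) (hF j _).2 (lam j) (hlam j)
      (hli j) X hX (ζ j) (hζ j)
    rw [← ha] at h1
    refine le_trans (Nat.cast_le.2 (Finset.card_le_card ?_)) h1
    intro p hp
    rw [Finset.mem_filter] at hp ⊢
    refine ⟨hp.1, ?_⟩
    have e1 : ∀ i < j, y (Function.update P j p) i = y P i := by
      intro i hi
      change ζ i + ∑ s, ((Function.update P j p) i s : A) * lam i s = ζ i + ∑ s, (P i s : A) * lam i s
      rw [Function.update_of_ne hi.ne]
    have e2 : stage V (y (Function.update P j p)) j = stage V (y P) j :=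
      stage_congr V j fun i hi => e1 i hi
    have e3 : y (Function.update P j p) j = ζ j + ∑ i, (p i : A) * lam j i := by
      change ζ j + ∑ s, ((Function.update P j p) j s : A) * lam j s = _
      rw [Function.update_self]
    have h2 := hp.2
    rw [hbad] at h2
    change y (Function.update P j p) j ∈ suppSp (v + m) L'
      (hullSp κ (stage V (y (Function.update P j p)) j)) ⊔
        hullSp κ (stage V (y (Function.update P j p)) j) ∨
      ¬ GD 1 L' (hullSp κ (stage V (y (Function.update P j p)) j))
        (y (Function.update P j p) j) at h2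
    rw [e2, e3] at h2
    exact h2)
  refine le_trans (Nat.cast_le.2 (Finset.card_le_card ?_)) (key.trans ?_)
  · intro P hP
    rw [Finset.mem_filter] at hP ⊢
    refine ⟨hP.1, ?_⟩
    by_contra hno
    push Not at hno
    apply hP.2
    have hno' : ∀ j, y P j ∉ F j (y P) ∧ GD 1 L' (hullSp κ (stage V (y P) j)) (y P j) := by
      intro j
      have := hno j
      rw [hbad] at this
      change ¬ (_ ∨ _) at this
      push Not at this
      exact this
    subst hL'
    refine good2f_of V hyp (y P) (fun i => hyL P i) (fun j => (hno' j).1) (fun j => ?_)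
    have := hfinH j (y P)
    exact GD.not_exc (one_mem_hullSp _) (hno' j).2
  · rw [hYc, ← ha]
    rcases Nat.eq_zero_or_pos n with hn | hn
    · subst hn
      simp
    · obtain ⟨n', rfl⟩ : ∃ n', n = n' + 1 := ⟨n - 1, by omega⟩
      rw [Nat.add_sub_cancel, ← Real.rpow_natCast, ← Real.rpow_mul ha0.le]
      push_cast
      rw [mul_assoc (C : ℝ), ← Real.rpow_add ha0, mul_assoc]
      apply le_of_eq
      congr 3
      ring

end Run7.h788
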