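import Pool.Agent.W254.HP.Rat
import Pool.Agent.H340R2.LW2

/-!
# Polynomials whose values are linear forms in logarithms
-/

set_option autoImplicit false

namespace Run7.h788.ExpSp

open Module Finset Pool.Agent.H301R2.SSE Polynomial
open scoped Pointwise

/-- the product inequality modulo a space of finite dimension -/
theorem product_mod (X W Y F : Submodule QB ℂ) [Module.Finite QB X] [Module.Finite QB W]
    [Module.Finite QB Y] [Module.Finite QB F] (hW : W ≤ Lt ⊔ F)
    (hY : ∀ x ∈ X, ∀ w ∈ W, x * w ∈ Y) :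
    finrank QB X * finrank QB W ≤ finrank QB Y + finrank QB X * (finrank QB X - 1 + finrank QB F) := by
  let ψ : W →ₗ[QB] (ℂ ⧸ Lt) := Lt.mkQ.comp W.subtype
  let φ : F →ₗ[QB] (ℂ ⧸ Lt) := Lt.mkQ.comp F.subtype
  have hrange : LinearMap.range ψ ≤ LinearMap.range φ := by
    rintro _ ⟨y, rfl⟩
    obtain ⟨a, ha, b, hb, hab⟩ := Submodule.mem_sup.1 (hW y.2)
    refine ⟨⟨b, hb⟩, ?_⟩
    have h0 : Lt.mkQ a = 0 := (Submodule.Quotient.mk_eq_zero Lt).2 ha
    have h1 : Lt.mkQ (y : ℂ) = Lt.mkQ b := by
      rw [← hab, map_add, h0, zero_add]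
    exact h1.symm
  have hr : finrank QB (LinearMap.range ψ) ≤ finrank QB F :=
    (Submodule.finrank_mono hrange).trans (LinearMap.finrank_range_le φ)
  have hk := LinearMap.finrank_range_add_finrank_ker ψ
  let W' : Submodule QB ℂ := (LinearMap.ker ψ).map W.subtype
  have hW' : finrank QB W' = finrank QB (LinearMap.ker ψ) :=
    (Submodule.equivMapOfInjective W.subtype Subtype.val_injective (LinearMap.ker ψ)).finrank_eq.symm
  have hW'L : W' ≤ Lt := by
    rintro _ ⟨y, hy, rfl⟩
    exact (Submodule.Quotient.mk_eq_zero Lt).1 hy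
  have hW'W : W' ≤ W := by
    rintro _ ⟨y, -, rfl⟩
    exact y.2
  have h1 := Pool.Agent.W254.HP.product_le X W' Y hW'L (fun x hx w hw => hY x hx w (hW'W hw))
  rw [hW'] at h1
  have h2 : finrank QB W ≤ finrank QB (LinearMap.ker ψ) + finrank QB F := by omega
  calc finrank QB X * finrank QB W
      ≤ finrank QB X * (finrank QB (LinearMap.ker ψ) + finrank QB F) := Nat.mul_le_mul_left _ h2
    _ = finrank QB X * finrank QB (LinearMap.ker ψ) + finrank QB X * finrank QB F := by ring
    _ ≤ (finrank QB Y + finrank QB X * (finrank QB X - 1)) + finrank QB X * finrank QB F :=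
        Nat.add_le_add_right h1 _
    _ = _ := by ring

/-- the theorem of Lindemann and Weierstrass -/
theorem exp_li (S : Finset ℂ) (hS : ∀ s ∈ S, IsAlgebraic ℚ s) :
    LinearIndependent QB (fun s : S => Complex.exp s) := by
  rw [Fintype.linearIndependent_iff]
  intro c hc s
  have h2 := Pool.Agent.H340R2.LW.lindemann_weierstrass (Finset.univ : Finset S)
    (fun s => (s : ℂ)) (fun s => ((c s : QB) : ℂ)) (fun i _ => hS _ i.2)
    (fun i _ => mem_QB.1 (c i).2) (fun i _ j _ hij => Subtype.ext hij)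
    (by
      rw [← hc]
      exact Finset.sum_congr rfl fun i _ => rfl) s (Finset.mem_univ s)
  exact Subtype.ext h2

/-- the combinations `∑ c_s e^s` such that `z ∑ c_s e^s` is in the space `L` -/
noncomputable def exc (L : Submodule QB ℂ) (S : Finset ℂ) (z : ℂ) : Submodule QB (S → QB) :=
  L.comap (Fintype.linearCombination QB (fun s : S => z * Complex.exp s))

theorem exc_bound (F : Submodule QB ℂ) [Module.Finite QB F] {z : ℂ} (hz : z ≠ 0) (S B : Finset ℂ)
    (hS : ∀ s ∈ S, IsAlgebraic ℚ s) (hB : ∀ s ∈ B, IsAlgebraic ℚ s) :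
    B.card * finrank QB (exc (Lt ⊔ F) S z) ≤
      (S + B).card + B.card * (B.card - 1 + finrank QB F) := by
  classical
  set Φ := Fintype.linearCombination QB (fun s : S => z * Complex.exp s) with hΦ
  have hli : LinearIndependent QB (fun s : S => z * Complex.exp s) := by
    have h1 := (exp_li S hS).map' (LinearMap.mulLeft QB z) (by
      rw [LinearMap.ker_eq_bot]
      exact mul_right_injective₀ hz)
    exact h1
  have hinj : Function.Injective Φ := by
    rw [← LinearMap.ker_eq_bot, LinearMap.ker_eq_bot']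
    intro c hc
    rw [hΦ, Fintype.linearCombination_apply] at hc
    exact funext fun s => Fintype.linearIndependent_iff.1 hli c hc s
  let W : Submodule QB ℂ := (exc (Lt ⊔ F) S z).map Φ
  have hWr : finrank QB W = finrank QB (exc (Lt ⊔ F) S z) :=
    (Submodule.equivMapOfInjective Φ hinj _).finrank_eq.symm
  let X : Submodule QB ℂ := Submodule.span QB (Set.range fun b : B => Complex.exp b)
  have hXr : finrank QB X = B.card := by
    have := finrank_span_eq_card (exp_li B hB)
    rwa [Fintype.card_coe] at this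
  let Y : Submodule QB ℂ := Submodule.span QB (((S + B).image fun s => z * Complex.exp s : Finset ℂ) :
    Set ℂ)
  have hYr : finrank QB Y ≤ (S + B).card :=
    (finrank_span_finset_le_card _).trans Finset.card_image_le
  have : Module.Finite QB X := FiniteDimensional.span_of_finite _ (Set.finite_range _)
  have : Module.Finite QB Y := FiniteDimensional.span_of_finite _ (Finset.finite_toSet _)
  have : Module.Finite QB W := inferInstance
  have hWL : W ≤ Lt ⊔ F := by
    rintro _ ⟨c, hc, rfl⟩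
    exact hc
  have hW0 : W ≤ Submodule.span QB (Set.range fun s : S => z * Complex.exp s) := by
    rintro _ ⟨c, -, rfl⟩
    rw [hΦ, Fintype.linearCombination_apply]
    exact Submodule.sum_mem _ fun s _ => Submodule.smul_mem _ _ (Submodule.subset_span ⟨s, rfl⟩)
  have hXY : X * Submodule.span QB (Set.range fun s : S => z * Complex.exp s) ≤ Y := by
    change Submodule.span QB _ * Submodule.span QB _ ≤ Submodule.span QB _
    rw [Submodule.span_mul_span, Submodule.span_le]
    rintro _ ⟨_, ⟨b, rfl⟩, _, ⟨s, rfl⟩, rfl⟩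
    refine Submodule.subset_span ?_
    rw [Finset.mem_coe, Finset.mem_image]
    refine ⟨(s : ℂ) + b, Finset.add_mem_add s.2 b.2, ?_⟩
    change z * Complex.exp ((s : ℂ) + b) = Complex.exp b * (z * Complex.exp s)
    rw [Complex.exp_add]
    ring
  have := product_mod X W Y F hWL (fun x hx w hw => hXY (Submodule.mul_mem_mul hx (hW0 hw)))
  rw [hXr, hWr] at this
  exact this.trans (Nat.add_le_add_right hYr _)

/-- the polynomials `P` of degree at most `D` such that `z P(t)` is in the space `L` -/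
noncomputable def polys (L : Submodule QB ℂ) (t z : ℂ) (D : ℕ) : Submodule QB QB[X] :=
  degreeLT QB (D + 1) ⊓ L.comap ((LinearMap.mulLeft QB z).comp (aeval t).toLinearMap)

theorem polys_bound (F : Submodule QB ℂ) [Module.Finite QB F] {t z : ℂ} (ht : Transcendental ℚ t)
    (hz : z ≠ 0) (D h : ℕ) :
    h * finrank QB (polys (Lt ⊔ F) t z D) ≤ D + h + h * (h - 1 + finrank QB F) := by
  classical
  rcases Nat.eq_zero_or_pos h with rfl | hh
  · simp
  set Φ : QB[X] →ₗ[QB] ℂ := (LinearMap.mulLeft QB z).comp (aeval t).toLinearMap with hΦ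
  have hinj : Function.Injective Φ := by
    rw [← LinearMap.ker_eq_bot, LinearMap.ker_eq_bot']
    intro P hP
    by_contra hP0
    have h1 : z * aeval t P = 0 := hP
    rcases mul_eq_zero.1 h1 with h2 | h2
    · exact hz h2
    · exact Pool.Agent.W254.HP.aeval_ne_zero ht hP0 h2
  have : Module.Finite QB (degreeLT QB (D + 1)) :=
    Module.Finite.equiv (degreeLTEquiv QB (D + 1)).symm
  have : Module.Finite QB (polys (Lt ⊔ F) t z D) :=
    Submodule.finiteDimensional_of_le (inf_le_left : polys (Lt ⊔ F) t z D ≤ degreeLT QB (D + 1))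
  let W : Submodule QB ℂ := (polys (Lt ⊔ F) t z D).map Φ
  have hWr : finrank QB W = finrank QB (polys (Lt ⊔ F) t z D) :=
    (Submodule.equivMapOfInjective Φ hinj _).finrank_eq.symm
  let X : Submodule QB ℂ := Submodule.span QB (Set.range fun i : Fin h => t ^ (i : ℕ))
  have hXr : finrank QB X = h := by
    have := finrank_span_eq_card (Pool.Agent.W254.HP.pow_indep ht h)
    rwa [Fintype.card_fin] at this
  let Y : Submodule QB ℂ := (degreeLT QB (D + h)).map Φ
  have : Module.Finite QB (degreeLT QB (D + h)) :=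
    Module.Finite.equiv (degreeLTEquiv QB (D + h)).symm
  have hYr : finrank QB Y ≤ D + h := by
    refine (Submodule.finrank_map_le _ _).trans ?_
    rw [(degreeLTEquiv QB (D + h)).finrank_eq, Module.finrank_fin_fun]
  have : Module.Finite QB X := FiniteDimensional.span_of_finite _ (Set.finite_range _)
  have hWL : W ≤ Lt ⊔ F := by
    rintro _ ⟨c, hc, rfl⟩
    exact hc.2
  have hXY : ∀ x ∈ X, ∀ w ∈ W, x * w ∈ Y := by
    intro x hx w hw
    obtain ⟨P, hP, rfl⟩ := hw
    induction hx using Submodule.span_induction with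
    | mem y hy =>
      obtain ⟨i, rfl⟩ := hy
      refine ⟨Polynomial.X ^ (i : ℕ) * P, ?_, ?_⟩
      · rw [SetLike.mem_coe, mem_degreeLT]
        rcases eq_or_ne P 0 with rfl | hP0
        · simp
        · have h1 := (mem_degreeLT.1 hP.1)
          rw [degree_mul, degree_X_pow, degree_eq_natDegree hP0]
          rw [degree_eq_natDegree hP0] at h1
          have h2 : P.natDegree < D + 1 := by exact_mod_cast h1
          have h3 : (i : ℕ) + P.natDegree < D + h := by have := i.2; omega
          exact_mod_cast h3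
      · change z * aeval t (Polynomial.X ^ (i : ℕ) * P) = t ^ (i : ℕ) * (z * aeval t P)
        rw [map_mul, map_pow, aeval_X]
        ring
    | zero =>
      rw [zero_mul]
      exact Submodule.zero_mem _
    | add a b _ _ ha hb =>
      rw [add_mul]
      exact Submodule.add_mem _ ha hb
    | smul c a _ ha =>
      rw [smul_mul_assoc]
      exact Submodule.smul_mem _ _ ha
  have := product_mod X W Y F hWL hXY
  rw [hXr, hWr] at this
  exact this.trans (Nat.add_le_add_right hYr _)

theorem sqrt_bound {m D N : ℕ} (h : ∀ h : ℕ, h * m ≤ D + h + h * (h - 1 + N)) :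
    (m : ℝ) ≤ 2 * √(D : ℝ) + 1 + N := by
  rcases Nat.eq_zero_or_pos D with rfl | hD
  · have := h 1
    simp only [one_mul, zero_add, Nat.sub_self] at this
    simp only [Nat.cast_zero, Real.sqrt_zero, mul_zero, zero_add]
    exact_mod_cast this
  · have hs : 0 < √(D : ℝ) := Real.sqrt_pos.2 (by exact_mod_cast hD)
    obtain ⟨k, hk⟩ : ∃ k, k = ⌈√(D : ℝ)⌉₊ := ⟨_, rfl⟩
    have hk1 : √(D : ℝ) ≤ k := by rw [hk]; exact Nat.le_ceil _
    have hk2 : (k : ℝ) < √(D : ℝ) + 1 := by rw [hk]; exact Nat.ceil_lt_add_one hs.le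
    have hk0 : 0 < k := by
      rw [hk]
      exact Nat.ceil_pos.2 hs
    have hkr : (0 : ℝ) < k := by exact_mod_cast hk0
    have h1 := h k
    have h2 : k * m ≤ D + k * (k + N) := by
      refine h1.trans (le_of_eq ?_)
      obtain ⟨j, rfl⟩ : ∃ j, k = j + 1 := ⟨k - 1, by omega⟩
      simp only [Nat.add_sub_cancel]
      ring
    have h3 : (k : ℝ) * m ≤ D + k * (k + N) := by exact_mod_cast h2
    have h4 : (D : ℝ) ≤ √(D : ℝ) * k := by
      calc (D : ℝ) = √(D : ℝ) * √(D : ℝ) := (Real.mul_self_sqrt (Nat.cast_nonneg D)).symm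
        _ ≤ √(D : ℝ) * k := mul_le_mul_of_nonneg_left hk1 hs.le
    have h5 : (k : ℝ) * m ≤ k * (2 * √(D : ℝ) + 1 + N) := by
      nlinarith
    exact le_of_mul_le_mul_left h5 hkr

theorem polys_sqrt (F : Submodule QB ℂ) [Module.Finite QB F] {t z : ℂ} (ht : Transcendental ℚ t)
    (hz : z ≠ 0) (D : ℕ) :
    (finrank QB (polys (Lt ⊔ F) t z D) : ℝ) ≤ 2 * √(D : ℝ) + 1 + finrank QB F :=
  sqrt_bound fun h => polys_bound F ht hz D h

/-- the space of all `∑ z_j P_j(t)` with polynomials `P_j` of degree at most `D` -/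
noncomputable def modV {M : ℕ} (z : Fin M → ℂ) (t : ℂ) (D : ℕ) : Submodule QB ℂ :=
  Submodule.span QB (Set.range fun p : Fin M × Fin (D + 1) => z p.1 * t ^ (p.2 : ℕ))

instance {M : ℕ} (z : Fin M → ℂ) (t : ℂ) (D : ℕ) : Module.Finite QB (modV z t D) :=
  FiniteDimensional.span_of_finite _ (Set.finite_range _)

theorem modV_le {M : ℕ} (z : Fin M → ℂ) (t : ℂ) (D : ℕ) :
    finrank QB (modV z t D) ≤ M * (D + 1) := by
  refine (finrank_range_le_card _).trans ?_
  rw [Fintype.card_prod, Fintype.card_fin, Fintype.card_fin]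

theorem module_bound (F : Submodule QB ℂ) [Module.Finite QB F] {t : ℂ} (ht : Transcendental ℚ t)
    {M : ℕ} (z : Fin M → ℂ) (D h : ℕ) :
    h * finrank QB (modV z t D ⊓ (Lt ⊔ F) : Submodule QB ℂ) ≤
      M * (D + h) + h * (h - 1 + finrank QB F) := by
  classical
  rcases Nat.eq_zero_or_pos h with rfl | hh
  · simp
  let W : Submodule QB ℂ := modV z t D ⊓ (Lt ⊔ F)
  let X : Submodule QB ℂ := Submodule.span QB (Set.range fun i : Fin h => t ^ (i : ℕ))
  have hXr : finrank QB X = h := by
    have := finrank_span_eq_card (Pool.Agent.W254.HP.pow_indep ht h)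
    rwa [Fintype.card_fin] at this
  have : Module.Finite QB X := FiniteDimensional.span_of_finite _ (Set.finite_range _)
  have : Module.Finite QB W := Submodule.finiteDimensional_of_le (inf_le_left : W ≤ modV z t D)
  have hYr : finrank QB (modV z t (D + (h - 1))) ≤ M * (D + h) := by
    refine (modV_le z t _).trans (le_of_eq ?_)
    congr 1
    omega
  have hXY : X * modV z t D ≤ modV z t (D + (h - 1)) := by
    change Submodule.span QB _ * Submodule.span QB _ ≤ Submodule.span QB _
    rw [Submodule.span_mul_span]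
    refine Submodule.span_mono ?_
    rintro _ ⟨_, ⟨i, rfl⟩, _, ⟨p, rfl⟩, rfl⟩
    refine ⟨(p.1, ⟨(i : ℕ) + p.2, ?_⟩), ?_⟩
    · have h1 := i.2
      have h2 := p.2.2
      omega
    · change z p.1 * t ^ ((i : ℕ) + p.2) = t ^ (i : ℕ) * (z p.1 * t ^ (p.2 : ℕ))
      rw [pow_add]
      ring
  have := product_mod X W (modV z t (D + (h - 1))) F inf_le_right
    (fun x hx w hw => hXY (Submodule.mul_mem_mul hx hw.1))
  rw [hXr] at this
  exact this.trans (Nat.add_le_add_right hYr _)

theorem sqrt_bound' {m M D N : ℕ} (h : ∀ h : ℕ, h * m ≤ M * (D + h) + h * (h - 1 + N)) :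
    (m : ℝ) ≤ 2 * √((M : ℝ) * D) + M + N := by
  rcases Nat.eq_zero_or_pos (M * D) with hD | hD
  · have h1 := h 1
    have h2 : M * (D + 1) = M := by rw [mul_add, hD, zero_add, mul_one]
    rw [h2] at h1
    simp only [one_mul, Nat.sub_self, zero_add] at h1
    have h3 : (M : ℝ) * D = 0 := by exact_mod_cast hD
    rw [h3, Real.sqrt_zero, mul_zero, zero_add]
    exact_mod_cast h1
  · have hs : 0 < √((M : ℝ) * D) := Real.sqrt_pos.2 (by exact_mod_cast hD)
    obtain ⟨k, hk⟩ : ∃ k, k = ⌈√((M : ℝ) * D)⌉₊ := ⟨_, rfl⟩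
    have hk1 : √((M : ℝ) * D) ≤ k := by rw [hk]; exact Nat.le_ceil _
    have hk2 : (k : ℝ) < √((M : ℝ) * D) + 1 := by rw [hk]; exact Nat.ceil_lt_add_one hs.le
    have hk0 : 0 < k := by
      rw [hk]
      exact Nat.ceil_pos.2 hs
    have hkr : (0 : ℝ) < k := by exact_mod_cast hk0
    have h1 := h k
    have h3 : (k : ℝ) * m ≤ M * (D + k) + k * ((k - 1 : ℕ) + N) := by exact_mod_cast h1
    have h6 : ((k - 1 : ℕ) : ℝ) = k - 1 := by
      rw [Nat.cast_sub hk0]
      simp
    rw [h6] at h3
    have h4 : (M : ℝ) * D ≤ √((M : ℝ) * D) * k := by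
      calc (M : ℝ) * D = √((M : ℝ) * D) * √((M : ℝ) * D) :=
            (Real.mul_self_sqrt (by positivity)).symm
        _ ≤ √((M : ℝ) * D) * k := mul_le_mul_of_nonneg_left hk1 hs.le
    have h5 : (k : ℝ) * m ≤ k * (2 * √((M : ℝ) * D) + M + N) := by
      nlinarith
    exact le_of_mul_le_mul_left h5 hkr

theorem module_sqrt (F : Submodule QB ℂ) [Module.Finite QB F] {t : ℂ} (ht : Transcendental ℚ t)
    {M : ℕ} (z : Fin M → ℂ) (D : ℕ) :
    (finrank QB (modV z t D ⊓ (Lt ⊔ F) : Submodule QB ℂ) : ℝ) ≤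
      2 * √((M : ℝ) * D) + M + finrank QB F :=
  sqrt_bound' fun h => module_bound F ht z D h

/-- elements with algebraic exponentials are in the exceptional space -/
theorem exists_transcendental {U F : Submodule QB ℂ} [Module.Finite QB U] {m : ℕ}
    {y : Fin m → ℂ} (hy : ∀ i, y i ∈ U) (hli : LinearIndependent QB y)
    (hm : finrank QB (U ⊓ (Lt ⊔ F) : Submodule QB ℂ) < m) :
    ∃ i, ∀ f ∈ F, ¬ IsAlgebraic ℚ (Complex.exp (y i + f)) := by
  by_contra hno
  push Not at hno
  have h1 : ∀ i, y i ∈ (U ⊓ (Lt ⊔ F) : Submodule QB ℂ) := by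
    intro i
    obtain ⟨f, hf, h2⟩ := hno i
    refine ⟨hy i, ?_⟩
    have h3 : y i + f ∈ Lt := Submodule.subset_span (Or.inr h2)
    have h4 := Submodule.sub_mem (Lt ⊔ F) (Submodule.mem_sup_left h3) (Submodule.mem_sup_right hf)
    rwa [add_sub_cancel_right] at h4
  have h2 : Submodule.span QB (Set.range y) ≤ U ⊓ (Lt ⊔ F) := by
    rw [Submodule.span_le]
    rintro _ ⟨i, rfl⟩
    exact h1 i
  have : Module.Finite QB (U ⊓ (Lt ⊔ F) : Submodule QB ℂ) :=
    Submodule.finiteDimensional_of_le inf_le_left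
  have h3 := Submodule.finrank_mono h2
  rw [finrank_span_eq_card hli, Fintype.card_fin] at h3
  omega

theorem exists_transcendental' {F : Submodule QB ℂ} [Module.Finite QB F] {t z : ℂ}
    (ht : Transcendental ℚ t) (hz : z ≠ 0) {D m : ℕ} {P : Fin m → QB[X]}
    (hP : ∀ i, (P i).natDegree ≤ D) (hli : LinearIndependent QB P)
    (hm : 2 * √(D : ℝ) + 1 + finrank QB F < m) :
    ∃ i, ∀ f ∈ F, ¬ IsAlgebraic ℚ (Complex.exp (z * aeval t (P i) + f)) := by
  by_contra hno
  push Not at hno
  have h1 : ∀ i, P i ∈ polys (Lt ⊔ F) t z D := by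
    intro i
    obtain ⟨f, hf, h2⟩ := hno i
    refine ⟨?_, ?_⟩
    · rw [SetLike.mem_coe, mem_degreeLT]
      exact lt_of_le_of_lt degree_le_natDegree (by exact_mod_cast Nat.lt_succ_of_le (hP i))
    · have h3 : z * aeval t (P i) + f ∈ Lt := Submodule.subset_span (Or.inr h2)
      have h4 := Submodule.sub_mem (Lt ⊔ F) (Submodule.mem_sup_left h3)
        (Submodule.mem_sup_right hf)
      rwa [add_sub_cancel_right] at h4
  have h2 : Submodule.span QB (Set.range P) ≤ polys (Lt ⊔ F) t z D := by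
    rw [Submodule.span_le]
    rintro _ ⟨i, rfl⟩
    exact h1 i
  have : Module.Finite QB (degreeLT QB (D + 1)) :=
    Module.Finite.equiv (degreeLTEquiv QB (D + 1)).symm
  have : Module.Finite QB (polys (Lt ⊔ F) t z D) :=
    Submodule.finiteDimensional_of_le (inf_le_left : polys (Lt ⊔ F) t z D ≤ degreeLT QB (D + 1))
  have h3 := Submodule.finrank_mono h2
  rw [finrank_span_eq_card hli, Fintype.card_fin] at h3
  have h4 := polys_sqrt F ht hz D
  have h5 : (m : ℝ) ≤ finrank QB (polys (Lt ⊔ F) t z D) := by exact_mod_cast h3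
  linarith

end Run7.h788.ExpSp
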