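import Pool.Agent.Run7.h788.RandFree
import Pool.Agent.Y918.EL.Second

/-!
# Composition: relations in two groups of variables
-/

set_option autoImplicit false

namespace Run7.h788

open Module Finset MvPolynomial Pool.Agent.R350
open Pool.Agent.W245 (famExt famExt_finite)
open Pool.Agent.W245.EB (NoRelS NoRelTot)

section

variable {κ C : Type*} [Field κ] [Field C] [Algebra κ C] {σ τ : Type*} [Fintype σ] [Fintype τ]

/-- the monomials of degree at most `D` in every variable -/
def mons (x : σ → C) (D : ℕ) : (σ → Fin (D + 1)) → C := fun f => ∏ i, x i ^ (f i : ℕ)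

/-- the space generated by the products of the elements of `W` with the monomials -/
def monSp (W : Submodule κ C) (x : σ → C) (D : ℕ) : Submodule κ C :=
  W * Submodule.span κ (Set.range (mons x D))

theorem mul_mem_monSp (W : Submodule κ C) (x : σ → C) (D : ℕ) {w : C} (hw : w ∈ W) (μ : σ → ℕ)
    (hμ : ∀ i, μ i ≤ D) : w * ∏ i, x i ^ μ i ∈ monSp W x D :=
  Submodule.mul_mem_mul hw (Submodule.subset_span
    ⟨fun i => ⟨μ i, Nat.lt_succ_of_le (hμ i)⟩, rfl⟩)

/-- substitution of values for the first group of variables, coefficients in a space -/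
theorem subst_firstW (t : σ → C) (D : ℕ) (W : Submodule κ C) (hT : NoRelS W D t)
    (P : MvPolynomial (σ ⊕ τ) C) (hPW : ∀ β, P.coeff β ∈ W)
    (hP : ∀ i, P.degreeOf (Sum.inl i) ≤ D) :
    ∃ P' : MvPolynomial τ C, (∀ β, P'.coeff β ∈ monSp W t D) ∧ (P' = 0 → P = 0) ∧
      (∀ y : τ → C, eval y P' = eval (Sum.elim t y) P) ∧
      ∀ β ∈ P'.support, ∃ γ ∈ P.support, ∀ j, β j = γ (Sum.inr j) := by
  classical
  let e : (σ ⊕ τ →₀ ℕ) ≃ (σ →₀ ℕ) × (τ →₀ ℕ) := Finsupp.sumFinsuppEquivProdFinsupp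
  have e1 : ∀ γ i, (e γ).1 i = γ (Sum.inl i) := fun γ i => Finsupp.fst_sumFinsuppEquivProdFinsupp γ i
  have e2 : ∀ γ j, (e γ).2 j = γ (Sum.inr j) := fun γ j => Finsupp.snd_sumFinsuppEquivProdFinsupp γ j
  let P' : MvPolynomial τ C := ∑ γ ∈ P.support,
    monomial (e γ).2 (P.coeff γ * ∏ i, t i ^ γ (Sum.inl i))
  have hcoef : ∀ β, P'.coeff β = ∑ γ ∈ P.support.filter (fun γ => (e γ).2 = β),
      P.coeff γ * ∏ i, t i ^ γ (Sum.inl i) := by
    intro β
    simp only [P', coeff_sum, coeff_monomial]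
    rw [Finset.sum_filter]
  have hdeg : ∀ γ ∈ P.support, ∀ i, γ (Sum.inl i) ≤ D := by
    intro γ hγ i
    have := hP i
    rw [degreeOf_eq_sup] at this
    exact (Finset.le_sup (f := fun m : σ ⊕ τ →₀ ℕ => m (Sum.inl i)) hγ).trans this
  refine ⟨P', ?_, ?_, ?_, ?_⟩
  · intro β
    rw [hcoef]
    refine Submodule.sum_mem _ fun γ hγ => ?_
    exact mul_mem_monSp W t D (hPW γ) _ (hdeg γ (Finset.mem_filter.1 hγ).1)
  · intro h0
    ext γ0
    rw [coeff_zero]
    by_cases hγ0 : γ0 ∈ P.support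
    · set Q : MvPolynomial σ C := ∑ γ ∈ P.support.filter (fun γ => (e γ).2 = (e γ0).2),
        monomial (e γ).1 (P.coeff γ) with hQ
      have hQc : ∀ γ ∈ P.support.filter (fun γ => (e γ).2 = (e γ0).2),
          Q.coeff (e γ).1 = P.coeff γ := by
        intro γ hγ
        rw [hQ, coeff_sum, Finset.sum_eq_single γ, coeff_monomial, if_pos rfl]
        · intro γ' hγ' hne
          rw [coeff_monomial, if_neg]
          intro h3
          apply hne
          apply e.injective
          exact Prod.ext h3 ((Finset.mem_filter.1 hγ').2.trans (Finset.mem_filter.1 hγ).2.symm)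
        · intro h3
          exact (h3 hγ).elim
      have hQs : ∀ s ∈ Q.support, ∃ γ ∈ P.support.filter (fun γ => (e γ).2 = (e γ0).2),
          s = (e γ).1 := by
        intro s hs
        rw [MvPolynomial.mem_support_iff, hQ, coeff_sum] at hs
        obtain ⟨γ, hγ, h⟩ := Finset.exists_ne_zero_of_sum_ne_zero hs
        refine ⟨γ, hγ, ?_⟩
        rw [coeff_monomial] at h
        by_contra hne
        exact h (if_neg fun h' => hne h'.symm)
      have h1 := hT Q (fun i => by
        rw [degreeOf_eq_sup, Finset.sup_le_iff]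
        intro s hs
        obtain ⟨γ, hγ, rfl⟩ := hQs s hs
        rw [e1]
        exact hdeg γ (Finset.mem_filter.1 hγ).1 i) (fun s => by
        by_cases hs : s ∈ Q.support
        · obtain ⟨γ, hγ, rfl⟩ := hQs s hs
          rw [hQc γ hγ]
          exact hPW γ
        · rw [notMem_support_iff.1 hs]
          exact W.zero_mem) (by
        rw [hQ, map_sum, ← coeff_zero (R := C) (e γ0).2, ← h0, hcoef]
        refine Finset.sum_congr rfl fun γ _ => ?_
        rw [eval_monomial, Finsupp.prod_fintype _ _ (fun i => pow_zero _)]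
        simp only [e1])
      have h2 := hQc γ0 (Finset.mem_filter.2 ⟨hγ0, rfl⟩)
      rw [h1, coeff_zero] at h2
      exact h2.symm
    · exact notMem_support_iff.1 hγ0
  · intro y
    simp only [P', map_sum, MvPolynomial.eval_monomial]
    conv_rhs => rw [MvPolynomial.as_sum P, map_sum]
    refine Finset.sum_congr rfl fun γ _ => ?_
    rw [eval_monomial, Finsupp.prod_fintype _ _ (fun i => pow_zero _),
      Finsupp.prod_fintype _ _ (fun i => pow_zero _), Fintype.prod_sum_type]
    simp only [e2, Sum.elim_inl, Sum.elim_inr]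
    ring
  · intro β hβ
    rw [MvPolynomial.mem_support_iff, hcoef] at hβ
    obtain ⟨γ, hγ, -⟩ := Finset.exists_ne_zero_of_sum_ne_zero hβ
    refine ⟨γ, (Finset.mem_filter.1 hγ).1, fun j => ?_⟩
    rw [← (Finset.mem_filter.1 hγ).2, e2]

omit [Fintype σ] [Fintype τ] in
theorem degreeOf_of_support {R : Type*} [CommSemiring R] {P : MvPolynomial (σ ⊕ τ) R}
    {P' : MvPolynomial τ C}
    (h : ∀ β ∈ P'.support, ∃ γ ∈ P.support, ∀ j, β j = γ (Sum.inr j)) {D : ℕ} {j : τ}
    (hP : P.degreeOf (Sum.inr j) ≤ D) : P'.degreeOf j ≤ D := by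
  rw [degreeOf_eq_sup, Finset.sup_le_iff]
  intro β hβ
  obtain ⟨γ, hγ, hγ2⟩ := h β hβ
  rw [hγ2]
  rw [degreeOf_eq_sup, Finset.sup_le_iff] at hP
  exact hP γ hγ

/-- composition -/
theorem noRelS_comp {W : Submodule κ C} {D : ℕ} {x : σ → C} {y : τ → C} (hx : NoRelS W D x)
    (hy : NoRelS (monSp W x D) D y) : NoRelS W D (Sum.elim x y) := by
  intro P hP hPW h0
  obtain ⟨P', h1, h2, h3, h4⟩ := subst_firstW x D W hx P hPW fun i => hP _
  exact h2 (hy P' (fun j => degreeOf_of_support h4 (hP _)) h1 ((h3 y).trans h0))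

theorem noRelS_of_tot {W : Submodule κ C} {D : ℕ} {x : σ → C}
    (h : NoRelTot W (Fintype.card σ * D) x) : NoRelS W D x := by
  intro Q hQ hQW h0
  refine h Q ?_ hQW h0
  unfold totalDegree
  rw [Finset.sup_le_iff]
  intro s hs
  rw [Finsupp.sum_fintype _ _ (fun _ => rfl)]
  refine (Finset.sum_le_card_nsmul Finset.univ _ D fun i _ => ?_).trans (by
    rw [Finset.card_univ, smul_eq_mul])
  have := hQ i
  rw [degreeOf_eq_sup, Finset.sup_le_iff] at this
  exact this s hs

omit [Fintype σ] in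
theorem NoRelS.mono' {W : Submodule κ C} {D D' : ℕ} {x : σ → C} (h : NoRelS W D' x)
    (hD : D ≤ D') : NoRelS W D x := fun Q h1 h2 h3 => h Q (fun i => (h1 i).trans hD) h2 h3

/-- `y` is independent modulo `F`, and `x`, `y` have no relation with coefficients in `W`, of degree at
most `D` in every `x i` and `y i`, which is linear in elements of `L` independent modulo `F` and `y` -/
def NoRelJ (L W F : Submodule κ C) (D : ℕ) (x : σ → C) {n : ℕ} (y : Fin n → C) : Prop :=
  (∀ c : Fin n → κ, ∑ i, c i • y i ∈ F → ∀ i, c i = 0) ∧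
  ∀ (r : ℕ) (l : Fin r → C), (∀ j, l j ∈ L) →
    (∀ c : Fin r → κ, ∑ j, c j • l j ∈ F ⊔ Submodule.span κ (Set.range y) → ∀ j, c j = 0) →
    ∀ P : MvPolynomial (σ ⊕ (Fin n ⊕ Fin r)) C, (∀ β, P.coeff β ∈ W) →
      (∀ i, P.degreeOf (Sum.inl i) ≤ D) → (∀ i, P.degreeOf (Sum.inr (Sum.inl i)) ≤ D) →
      (∀ β ∈ P.support, ∑ j, β (Sum.inr (Sum.inr j)) ≤ 1) →
      eval (Sum.elim x (Sum.elim y l)) P = 0 → P = 0

theorem noRelJ_of {L W F : Submodule κ C} {D : ℕ} {x : σ → C} {n : ℕ} {y : Fin n → C}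
    (hx : NoRelS W D x) (hy : NoRel' L (monSp W x D) F D y) : NoRelJ L W F D x y := by
  refine ⟨hy.1, fun r l hl hli P hPW h1 h2 h3 h0 => ?_⟩
  obtain ⟨P', h4, h5, h6, h7⟩ := subst_firstW x D W hx P hPW h1
  apply h5
  refine hy.2 r l hl hli P' h4 (fun i => degreeOf_of_support h7 (h2 i)) ?_ ((h6 _).trans h0)
  intro β hβ
  obtain ⟨γ, hγ, hγ2⟩ := h7 β hβ
  simp only [hγ2]
  exact h3 γ hγ

end

/-- counting in two steps -/
theorem count_prod {α β : Type} (S : Finset α) (T : Finset β) (b₁ : α → Prop) (b₂ : α → β → Prop)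
    [DecidablePred b₁] [∀ s, DecidablePred (b₂ s)] [DecidablePred fun p : α × β => b₁ p.1 ∨ b₂ p.1 p.2]
    (B₁ B₂ : ℝ) (h0 : 0 ≤ B₂) (h₁ : ((S.filter b₁).card : ℝ) ≤ B₁)
    (h₂ : ∀ s ∈ S, ¬ b₁ s → ((T.filter (b₂ s)).card : ℝ) ≤ B₂) :
    (((S ×ˢ T).filter fun p => b₁ p.1 ∨ b₂ p.1 p.2).card : ℝ) ≤ B₁ * T.card + S.card * B₂ := by
  classical
  have hfib : ((S ×ˢ T).filter fun p => b₁ p.1 ∨ b₂ p.1 p.2).card =
      ∑ s ∈ S, (((S ×ˢ T).filter fun p => b₁ p.1 ∨ b₂ p.1 p.2).filter fun p => p.1 = s).card := by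
    apply Finset.card_eq_sum_card_fiberwise
    intro p hp
    exact (Finset.mem_product.1 (Finset.mem_filter.1 hp).1).1
  have hone : ∀ s ∈ S,
      ((((S ×ˢ T).filter fun p => b₁ p.1 ∨ b₂ p.1 p.2).filter fun p => p.1 = s).card : ℝ) ≤
        (if b₁ s then (T.card : ℝ) else 0) + B₂ := by
    intro s hs
    by_cases hb : b₁ s
    · rw [if_pos hb]
      have : (((S ×ˢ T).filter fun p => b₁ p.1 ∨ b₂ p.1 p.2).filter fun p => p.1 = s).card ≤
          T.card := by
        refine Finset.card_le_card_of_injOn (fun p => p.2) ?_ ?_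
        · intro p hp
          rw [Finset.mem_coe, Finset.mem_filter, Finset.mem_filter] at hp
          exact (Finset.mem_product.1 hp.1.1).2
        · intro p hp q hq hpq
          rw [Finset.mem_coe, Finset.mem_filter] at hp hq
          exact Prod.ext (hp.2.trans hq.2.symm) hpq
      have h3 : ((((S ×ˢ T).filter fun p => b₁ p.1 ∨ b₂ p.1 p.2).filter
          fun p => p.1 = s).card : ℝ) ≤ T.card := by exact_mod_cast this
      linarith
    · rw [if_neg hb, zero_add]
      refine le_trans (Nat.cast_le.2 ?_) (h₂ s hs hb)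
      refine Finset.card_le_card_of_injOn (fun p => p.2) ?_ ?_
      · intro p hp
        rw [Finset.mem_coe, Finset.mem_filter, Finset.mem_filter] at hp
        rw [Finset.mem_coe, Finset.mem_filter]
        refine ⟨(Finset.mem_product.1 hp.1.1).2, ?_⟩
        have h4 := hp.1.2
        rw [hp.2] at h4
        exact h4.resolve_left hb
      · intro p hp q hq hpq
        rw [Finset.mem_coe, Finset.mem_filter] at hp hq
        exact Prod.ext (hp.2.trans hq.2.symm) hpq
  rw [hfib]
  push_cast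
  refine (Finset.sum_le_sum hone).trans ?_
  rw [Finset.sum_add_distrib, Finset.sum_const, nsmul_eq_mul, ← Finset.sum_filter,
    Finset.sum_const, nsmul_eq_mul]
  gcongr

theorem monSp_bound {κ C : Type} [Field κ] [Field C] [Algebra κ C] {σ : Type} [Fintype σ]
    [DecidableEq σ] (W : Submodule κ C) [Module.Finite κ W] {N : ℕ} (hN : finrank κ W ≤ N)
    (x : σ → C) (D : ℕ) : Module.Finite κ (monSp W x D) ∧
      finrank κ (monSp W x D) ≤ N * (D + 1) ^ Fintype.card σ := by
  have h := famExt_finite W N hN (mons x D)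
  refine ⟨h.1, h.2.trans (le_of_eq ?_)⟩
  rw [Fintype.card_fun, Fintype.card_fin]

end Run7.h788
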