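import Mathlib
import Pool.Agent.Run7.h893.DP.Alg

/-!
# Straight-line programs: values, degrees, a primitive recursive identity test
-/

set_option autoImplicit false

namespace Pool.Agent.Run7.h788.Slp

/-- A straight-line program with `L` gates. Each gate is the sum of two products `b = 0, 1`: of an
integer `(-1) ^ σ c`, of powers of `g` numbers, of powers of `m` variables and of powers of the earlier
gates. -/
abbrev Prog (g m L : ℕ) : Type :=
  Fin L → Fin 2 → ((ℕ × ℕ) × (Fin g → ℕ)) × ((Fin m → ℕ) × (Fin L → ℕ))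

section

variable {g m L : ℕ}

/-- the value of the gate `l` of `P` at `t`, `x` -/
def gate {R : Type*} [CommRing R] (P : Prog g m L) (t : Fin g → R) (x : Fin m → R) (l : ℕ) : R :=
  if hl : l < L then
    ∑ b, ((-1) ^ (P ⟨l, hl⟩ b).1.1.1 * ((P ⟨l, hl⟩ b).1.1.2 : R)) *
      (∏ o, t o ^ (P ⟨l, hl⟩ b).1.2 o) *
      (∏ i, x i ^ (P ⟨l, hl⟩ b).2.1 i) *
      ∏ l' : Fin l, gate P t x l' ^ (P ⟨l, hl⟩ b).2.2 ⟨l', l'.2.trans hl⟩
  else 0
termination_by l
decreasing_by exact l'.2

theorem map_gate {R S : Type*} [CommRing R] [CommRing S] (φ : R →+* S) (P : Prog g m L)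
    (t : Fin g → R) (x : Fin m → R) (l : ℕ) :
    φ (gate P t x l) = gate P (fun o => φ (t o)) (fun i => φ (x i)) l := by
  induction l using Nat.strong_induction_on with
  | _ l ih =>
    rw [gate, gate]
    split_ifs with hl
    · simp only [map_sum, map_mul, map_prod, map_pow, map_natCast, map_neg, map_one]
      refine Finset.sum_congr rfl fun b _ => ?_
      congr 1
      refine Finset.prod_congr rfl fun l' _ => ?_
      rw [ih l' l'.2]
    · exact map_zero φ

/-- a bound for the degree of the gate `l` -/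
def dg (P : Prog g m L) (l : ℕ) : ℕ :=
  if hl : l < L then
    ∑ b, ((∑ o, (P ⟨l, hl⟩ b).1.2 o) + (∑ i, (P ⟨l, hl⟩ b).2.1 i) +
      ∑ l' : Fin l, (P ⟨l, hl⟩ b).2.2 ⟨l', l'.2.trans hl⟩ * dg P l')
  else 0
termination_by l
decreasing_by exact l'.2

/-- the gate as a polynomial -/
noncomputable def poly (P : Prog g m L) (l : ℕ) : MvPolynomial (Fin g ⊕ Fin m) ℚ :=
  gate P (fun o => MvPolynomial.X (Sum.inl o)) (fun i => MvPolynomial.X (Sum.inr i)) l

theorem deg_poly (P : Prog g m L) (l : ℕ) : (poly P l).totalDegree ≤ dg P l := by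
  induction l using Nat.strong_induction_on with
  | _ l ih =>
    unfold poly
    rw [gate, dg]
    split_ifs with hl
    · refine MvPolynomial.totalDegree_finsetSum_le fun b _ => ?_
      refine le_trans ?_ (Finset.single_le_sum (f := fun b : Fin 2 =>
        ((∑ o, (P ⟨l, hl⟩ b).1.2 o) + (∑ i, (P ⟨l, hl⟩ b).2.1 i) +
          ∑ l' : Fin l, (P ⟨l, hl⟩ b).2.2 ⟨l', l'.2.trans hl⟩ * dg P l'))
        (fun _ _ => Nat.zero_le _) (Finset.mem_univ b))
      refine (MvPolynomial.totalDegree_mul _ _).trans (add_le_add ?_ ?_)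
      · refine (MvPolynomial.totalDegree_mul _ _).trans (add_le_add ?_ ?_)
        · refine (MvPolynomial.totalDegree_mul _ _).trans ?_
          have h1 : ((-1) ^ (P ⟨l, hl⟩ b).1.1.1 *
              (((P ⟨l, hl⟩ b).1.1.2 : ℕ) : MvPolynomial (Fin g ⊕ Fin m) ℚ)).totalDegree = 0 := by
            have h2 : (-1) ^ (P ⟨l, hl⟩ b).1.1.1 *
                (((P ⟨l, hl⟩ b).1.1.2 : ℕ) : MvPolynomial (Fin g ⊕ Fin m) ℚ) =
                MvPolynomial.C ((-1) ^ (P ⟨l, hl⟩ b).1.1.1 * (((P ⟨l, hl⟩ b).1.1.2 : ℕ) : ℚ)) := by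
              simp
            rw [h2, MvPolynomial.totalDegree_C]
          rw [h1, zero_add]
          refine (MvPolynomial.totalDegree_finsetProd _ _).trans (Finset.sum_le_sum fun o _ => ?_)
          refine (MvPolynomial.totalDegree_pow _ _).trans ?_
          rw [MvPolynomial.totalDegree_X, mul_one]
        · refine (MvPolynomial.totalDegree_finsetProd _ _).trans (Finset.sum_le_sum fun i _ => ?_)
          refine (MvPolynomial.totalDegree_pow _ _).trans ?_
          rw [MvPolynomial.totalDegree_X, mul_one]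
      · refine (MvPolynomial.totalDegree_finsetProd _ _).trans (Finset.sum_le_sum fun l' _ => ?_)
        exact (MvPolynomial.totalDegree_pow _ _).trans (Nat.mul_le_mul_left _ (ih l' l'.2))
    · rw [MvPolynomial.totalDegree_zero]

/-- natural numbers `a`, `b` with `a - b` the value at the point of the grid with the number `N` -/
def nn (P : Prog g m L) (B N : ℕ) (l : ℕ) : ℕ × ℕ :=
  if hl : l < L then
    (∑ b, ((P ⟨l, hl⟩ b).1.1.2 * (∏ o : Fin g, (N / B ^ (o : ℕ) % B) ^ (P ⟨l, hl⟩ b).1.2 o) *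
        (∏ i : Fin m, (N / B ^ (g + (i : ℕ)) % B) ^ (P ⟨l, hl⟩ b).2.1 i) *
        ∏ l' : Fin l, (((nn P B N l').1 - (nn P B N l').2) + ((nn P B N l').2 - (nn P B N l').1)) ^
          (P ⟨l, hl⟩ b).2.2 ⟨l', l'.2.trans hl⟩) *
        (((P ⟨l, hl⟩ b).1.1.1 + (∑ l' : Fin l, (P ⟨l, hl⟩ b).2.2 ⟨l', l'.2.trans hl⟩ *
          (1 - (1 - ((nn P B N l').2 - (nn P B N l').1)))) + 1) % 2),
      ∑ b, ((P ⟨l, hl⟩ b).1.1.2 * (∏ o : Fin g, (N / B ^ (o : ℕ) % B) ^ (P ⟨l, hl⟩ b).1.2 o) *
        (∏ i : Fin m, (N / B ^ (g + (i : ℕ)) % B) ^ (P ⟨l, hl⟩ b).2.1 i) *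
        ∏ l' : Fin l, (((nn P B N l').1 - (nn P B N l').2) + ((nn P B N l').2 - (nn P B N l').1)) ^
          (P ⟨l, hl⟩ b).2.2 ⟨l', l'.2.trans hl⟩) *
        (((P ⟨l, hl⟩ b).1.1.1 + ∑ l' : Fin l, (P ⟨l, hl⟩ b).2.2 ⟨l', l'.2.trans hl⟩ *
          (1 - (1 - ((nn P B N l').2 - (nn P B N l').1)))) % 2))
  else (0, 0)
termination_by l
decreasing_by all_goals exact l'.2

theorem sign_pow (a b h : ℕ) : ((a : ℤ) - b) ^ h =
    (-1) ^ (h * (1 - (1 - (b - a)))) * (((a - b) + (b - a) : ℕ) : ℤ) ^ h := by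
  rcases le_total b a with hab | hab
  · rw [Nat.sub_eq_zero_of_le hab]
    simp [Nat.cast_sub hab]
  · rcases Nat.eq_or_lt_of_le hab with rfl | hlt
    · simp
    · have h1 : 1 - (1 - (b - a)) = 1 := by omega
      rw [h1, mul_one, Nat.sub_eq_zero_of_le hab, zero_add, Nat.cast_sub hab, ← mul_pow]
      congr 1
      ring

theorem sign_mod (s : ℕ) : (((s + 1) % 2 : ℕ) : ℤ) - ((s % 2 : ℕ) : ℤ) = (-1) ^ s := by
  rcases Nat.even_or_odd s with hs | hs
  · rw [hs.neg_one_pow, Nat.even_iff.1 hs]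
    have : (s + 1) % 2 = 1 := by
      have := Nat.even_iff.1 hs
      omega
    rw [this]
    norm_num
  · rw [hs.neg_one_pow, Nat.odd_iff.1 hs]
    have : (s + 1) % 2 = 0 := by
      have := Nat.odd_iff.1 hs
      omega
    rw [this]
    norm_num

theorem mul_sign (M s : ℕ) : ((M * ((s + 1) % 2) : ℕ) : ℤ) - ((M * (s % 2) : ℕ) : ℤ) =
    (M : ℤ) * (-1) ^ s := by
  rw [Nat.cast_mul, Nat.cast_mul, ← mul_sub, sign_mod]

theorem nn_spec (P : Prog g m L) (B N : ℕ) (l : ℕ) :
    (((nn P B N l).1 : ℕ) : ℤ) - ((nn P B N l).2 : ℕ) =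
      gate P (fun o : Fin g => ((N / B ^ (o : ℕ) % B : ℕ) : ℤ))
        (fun i : Fin m => ((N / B ^ (g + (i : ℕ)) % B : ℕ) : ℤ)) l := by
  induction l using Nat.strong_induction_on with
  | _ l ih =>
    rw [nn, gate]
    split_ifs with hl
    · push_cast only [Nat.cast_sum]
      rw [← Finset.sum_sub_distrib]
      refine Finset.sum_congr rfl fun b _ => ?_
      rw [mul_sign, pow_add, ← Finset.prod_pow_eq_pow_sum]
      have h1 : ∏ l' : Fin l, gate P (fun o : Fin g => ((N / B ^ (o : ℕ) % B : ℕ) : ℤ))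
          (fun i : Fin m => ((N / B ^ (g + (i : ℕ)) % B : ℕ) : ℤ)) l' ^
            (P ⟨l, hl⟩ b).2.2 ⟨l', l'.2.trans hl⟩ =
          (∏ l' : Fin l, (-1 : ℤ) ^ ((P ⟨l, hl⟩ b).2.2 ⟨l', l'.2.trans hl⟩ *
            (1 - (1 - ((nn P B N l').2 - (nn P B N l').1))))) *
          ∏ l' : Fin l, ((((nn P B N l').1 - (nn P B N l').2) +
            ((nn P B N l').2 - (nn P B N l').1) : ℕ) : ℤ) ^
              (P ⟨l, hl⟩ b).2.2 ⟨l', l'.2.trans hl⟩ := by
        rw [← Finset.prod_mul_distrib]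
        refine Finset.prod_congr rfl fun l' _ => ?_
        rw [← ih l' l'.2]
        exact sign_pow _ _ _
      rw [h1]
      push_cast only [Nat.cast_mul, Nat.cast_prod, Nat.cast_pow]
      ring
    · simp

/-- the identity test: the two gates have the same values on the grid `{0, …, D}^(g + m)` -/
def Same (P : Prog g m L) (i j : ℕ) : Prop :=
  ∀ N < (dg P i + dg P j + 1) ^ (g + m),
    (nn P (dg P i + dg P j + 1) N i).1 + (nn P (dg P i + dg P j + 1) N j).2 =
      (nn P (dg P i + dg P j + 1) N j).1 + (nn P (dg P i + dg P j + 1) N i).2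

theorem eval_poly (P : Prog g m L) (l : ℕ) (t : Fin g → ℤ) (x : Fin m → ℤ) :
    MvPolynomial.eval (Sum.elim (fun o => (t o : ℚ)) (fun i => (x i : ℚ))) (poly P l) =
      ((gate P t x l : ℤ) : ℚ) := by
  have h1 := map_gate (MvPolynomial.eval (Sum.elim (fun o => (t o : ℚ)) (fun i => (x i : ℚ)))) P
    (fun o => MvPolynomial.X (Sum.inl o)) (fun i => MvPolynomial.X (Sum.inr i)) l
  have h2 := map_gate (Int.castRingHom ℚ) P t x l
  simp only [MvPolynomial.eval_X, Sum.elim_inl, Sum.elim_inr] at h1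
  exact h1.trans h2.symm

theorem same_iff (P : Prog g m L) (i j : ℕ) : Same P i j ↔ poly P i = poly P j := by
  classical
  constructor
  · intro h
    obtain ⟨B, hB⟩ : ∃ B, B = dg P i + dg P j + 1 := ⟨_, rfl⟩
    unfold Same at h
    rw [← hB] at h
    rw [← sub_eq_zero]
    refine MvPolynomial.eq_zero_of_eval_zero_at_prod_finset _
      (fun _ => (Finset.range B).image (fun n : ℕ => (n : ℚ))) (fun v => ?_) (fun z hz => ?_)
    · rw [Finset.card_image_of_injective _ Nat.cast_injective, Finset.card_range, hB]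
      refine lt_of_le_of_lt (MvPolynomial.degreeOf_le_totalDegree _ _) ?_
      refine lt_of_le_of_lt (MvPolynomial.totalDegree_sub _ _) ?_
      have h1 := deg_poly P i
      have h2 := deg_poly P j
      rw [Nat.lt_succ_iff]
      exact max_le (h1.trans (Nat.le_add_right _ _)) (h2.trans (Nat.le_add_left _ _))
    · choose n hn using fun v => Finset.mem_image.1 (hz v)
      have hn1 : ∀ v, n v < B := fun v => Finset.mem_range.1 (hn v).1
      have hz2 : z = Sum.elim (fun o => (((n (Sum.inl o) : ℕ) : ℤ) : ℚ))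
          (fun i => (((n (Sum.inr i) : ℕ) : ℤ) : ℚ)) := by
        funext v
        rcases v with v | v
        · rw [← (hn _).2]
          simp
        · rw [← (hn _).2]
          simp
      let e : Fin (g + m) → Fin B := fun a =>
        ⟨n (finSumFinEquiv.symm a), hn1 _⟩
      have h3 := h (finFunctionFinEquiv e) (finFunctionFinEquiv e).2
      have h4 : ∀ a : Fin (g + m), (finFunctionFinEquiv e : ℕ) / B ^ (a : ℕ) % B =
          n (finSumFinEquiv.symm a) := by
        intro a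
        have h5 : (finFunctionFinEquiv.symm (finFunctionFinEquiv e) a : ℕ) =
            (finFunctionFinEquiv e : ℕ) / B ^ (a : ℕ) % B := rfl
        rw [← h5, Equiv.symm_apply_apply]
      have h5 : ∀ l, (((nn P B (finFunctionFinEquiv e) l).1 : ℕ) : ℤ) -
          ((nn P B (finFunctionFinEquiv e) l).2 : ℕ) =
          gate P (fun o => ((n (Sum.inl o) : ℕ) : ℤ)) (fun i => ((n (Sum.inr i) : ℕ) : ℤ)) l := by
        intro l
        rw [nn_spec]
        congr 1
        · funext o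
          have := h4 (Fin.castAdd m o)
          rw [finSumFinEquiv_symm_apply_castAdd] at this
          exact congrArg _ this
        · funext i
          have := h4 (Fin.natAdd g i)
          rw [finSumFinEquiv_symm_apply_natAdd] at this
          exact congrArg _ this
      rw [map_sub, hz2, eval_poly, eval_poly, ← h5, ← h5, sub_eq_zero, Int.cast_inj]
      omega
  · intro h N _
    have h1 := eval_poly P i
      (fun o : Fin g => ((N / (dg P i + dg P j + 1) ^ (o : ℕ) % (dg P i + dg P j + 1) : ℕ) : ℤ))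
      (fun i' : Fin m => ((N / (dg P i + dg P j + 1) ^ (g + (i' : ℕ)) %
        (dg P i + dg P j + 1) : ℕ) : ℤ))
    rw [h, eval_poly, Int.cast_inj, ← nn_spec, ← nn_spec] at h1
    omega

theorem primrec_pow : Primrec₂ ((· ^ ·) : ℕ → ℕ → ℕ) := Primrec₂.unpaired'.1 Nat.Primrec.pow

theorem primrec_prod {α : Type*} [Primcodable α] {M : ℕ} {f : Fin M → α → ℕ}
    (hf : ∀ m, Primrec (f m)) : Primrec fun x => ∏ m, f m x := by
  classical
  have h : ∀ s : Finset (Fin M), Primrec fun x => ∏ m ∈ s, f m x := by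
    intro s
    induction s using Finset.induction_on with
    | empty =>
      simp only [Finset.prod_empty]
      exact Primrec.const 1
    | insert a s ha ih =>
      simp only [Finset.prod_insert ha]
      exact Primrec.nat_mul.comp (hf a) ih
  exact h Finset.univ

theorem primrec_nn (l : ℕ) :
    Primrec fun q : (Prog g m L × ℕ) × ℕ => nn q.1.1 q.1.2 q.2 l := by
  induction l using Nat.strong_induction_on with
  | _ l ih =>
    by_cases hl : l < L
    · have hc : ∀ b : Fin 2, Primrec fun q : (Prog g m L × ℕ) × ℕ => q.1.1 ⟨l, hl⟩ b := fun b =>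
        Primrec.fin_app.comp (Primrec.fin_app.comp (Primrec.fst.comp Primrec.fst)
          (Primrec.const (⟨l, hl⟩ : Fin L))) (Primrec.const b)
      have hpt : ∀ k : ℕ, Primrec fun q : (Prog g m L × ℕ) × ℕ => q.2 / q.1.2 ^ k % q.1.2 := fun k =>
        Primrec.nat_mod.comp (Primrec.nat_div.comp Primrec.snd
          (primrec_pow.comp (Primrec.snd.comp Primrec.fst) (Primrec.const k)))
          (Primrec.snd.comp Primrec.fst)
      have hh : ∀ (b : Fin 2) (l' : Fin l), Primrec fun q : (Prog g m L × ℕ) × ℕ =>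
          (q.1.1 ⟨l, hl⟩ b).2.2 ⟨l', l'.2.trans hl⟩ := fun b l' => Primrec.fin_app.comp
          (Primrec.snd.comp (Primrec.snd.comp (hc b))) (Primrec.const (⟨l', l'.2.trans hl⟩ : Fin L))
      have hab : ∀ l' : Fin l, Primrec fun q : (Prog g m L × ℕ) × ℕ =>
          (nn q.1.1 q.1.2 q.2 l').1 - (nn q.1.1 q.1.2 q.2 l').2 := fun l' =>
        Primrec.nat_sub.comp (Primrec.fst.comp (ih l' l'.2)) (Primrec.snd.comp (ih l' l'.2))
      have hba : ∀ l' : Fin l, Primrec fun q : (Prog g m L × ℕ) × ℕ =>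
          (nn q.1.1 q.1.2 q.2 l').2 - (nn q.1.1 q.1.2 q.2 l').1 := fun l' =>
        Primrec.nat_sub.comp (Primrec.snd.comp (ih l' l'.2)) (Primrec.fst.comp (ih l' l'.2))
      have hM : ∀ b : Fin 2, Primrec fun q : (Prog g m L × ℕ) × ℕ =>
          (q.1.1 ⟨l, hl⟩ b).1.1.2 *
            (∏ o : Fin g, (q.2 / q.1.2 ^ (o : ℕ) % q.1.2) ^ (q.1.1 ⟨l, hl⟩ b).1.2 o) *
            (∏ i : Fin m, (q.2 / q.1.2 ^ (g + (i : ℕ)) % q.1.2) ^ (q.1.1 ⟨l, hl⟩ b).2.1 i) *
            ∏ l' : Fin l, (((nn q.1.1 q.1.2 q.2 l').1 - (nn q.1.1 q.1.2 q.2 l').2) +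
              ((nn q.1.1 q.1.2 q.2 l').2 - (nn q.1.1 q.1.2 q.2 l').1)) ^
                (q.1.1 ⟨l, hl⟩ b).2.2 ⟨l', l'.2.trans hl⟩ := by
        intro b
        refine Primrec.nat_mul.comp (Primrec.nat_mul.comp (Primrec.nat_mul.comp
          (Primrec.snd.comp (Primrec.fst.comp (Primrec.fst.comp (hc b)))) (primrec_prod fun o => ?_))
          (primrec_prod fun i => ?_)) (primrec_prod fun l' => ?_)
        · exact primrec_pow.comp (hpt _) (Primrec.fin_app.comp
            (Primrec.snd.comp (Primrec.fst.comp (hc b))) (Primrec.const o))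
        · exact primrec_pow.comp (hpt _) (Primrec.fin_app.comp
            (Primrec.fst.comp (Primrec.snd.comp (hc b))) (Primrec.const i))
        · exact primrec_pow.comp (Primrec.nat_add.comp (hab l') (hba l')) (hh b l')
      have hs : ∀ b : Fin 2, Primrec fun q : (Prog g m L × ℕ) × ℕ =>
          (q.1.1 ⟨l, hl⟩ b).1.1.1 + ∑ l' : Fin l, (q.1.1 ⟨l, hl⟩ b).2.2 ⟨l', l'.2.trans hl⟩ *
            (1 - (1 - ((nn q.1.1 q.1.2 q.2 l').2 - (nn q.1.1 q.1.2 q.2 l').1))) := by
        intro b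
        refine Primrec.nat_add.comp (Primrec.fst.comp (Primrec.fst.comp (Primrec.fst.comp (hc b))))
          (Run7.h893.DP.primrec_sum fun l' => ?_)
        exact Primrec.nat_mul.comp (hh b l') (Primrec.nat_sub.comp (Primrec.const 1)
          (Primrec.nat_sub.comp (Primrec.const 1) (hba l')))
      have e : (fun q : (Prog g m L × ℕ) × ℕ => nn q.1.1 q.1.2 q.2 l) = fun q =>
          (∑ b, ((q.1.1 ⟨l, hl⟩ b).1.1.2 *
            (∏ o : Fin g, (q.2 / q.1.2 ^ (o : ℕ) % q.1.2) ^ (q.1.1 ⟨l, hl⟩ b).1.2 o) *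
            (∏ i : Fin m, (q.2 / q.1.2 ^ (g + (i : ℕ)) % q.1.2) ^ (q.1.1 ⟨l, hl⟩ b).2.1 i) *
            ∏ l' : Fin l, (((nn q.1.1 q.1.2 q.2 l').1 - (nn q.1.1 q.1.2 q.2 l').2) +
              ((nn q.1.1 q.1.2 q.2 l').2 - (nn q.1.1 q.1.2 q.2 l').1)) ^
                (q.1.1 ⟨l, hl⟩ b).2.2 ⟨l', l'.2.trans hl⟩) *
            (((q.1.1 ⟨l, hl⟩ b).1.1.1 + (∑ l' : Fin l, (q.1.1 ⟨l, hl⟩ b).2.2 ⟨l', l'.2.trans hl⟩ *
              (1 - (1 - ((nn q.1.1 q.1.2 q.2 l').2 - (nn q.1.1 q.1.2 q.2 l').1)))) + 1) % 2),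
          ∑ b, ((q.1.1 ⟨l, hl⟩ b).1.1.2 *
            (∏ o : Fin g, (q.2 / q.1.2 ^ (o : ℕ) % q.1.2) ^ (q.1.1 ⟨l, hl⟩ b).1.2 o) *
            (∏ i : Fin m, (q.2 / q.1.2 ^ (g + (i : ℕ)) % q.1.2) ^ (q.1.1 ⟨l, hl⟩ b).2.1 i) *
            ∏ l' : Fin l, (((nn q.1.1 q.1.2 q.2 l').1 - (nn q.1.1 q.1.2 q.2 l').2) +
              ((nn q.1.1 q.1.2 q.2 l').2 - (nn q.1.1 q.1.2 q.2 l').1)) ^
                (q.1.1 ⟨l, hl⟩ b).2.2 ⟨l', l'.2.trans hl⟩) *
            (((q.1.1 ⟨l, hl⟩ b).1.1.1 + ∑ l' : Fin l, (q.1.1 ⟨l, hl⟩ b).2.2 ⟨l', l'.2.trans hl⟩ *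
              (1 - (1 - ((nn q.1.1 q.1.2 q.2 l').2 - (nn q.1.1 q.1.2 q.2 l').1)))) % 2)) := by
        funext q
        rw [nn, dif_pos hl]
      rw [e]
      refine Primrec.pair (Run7.h893.DP.primrec_sum fun b => ?_)
        (Run7.h893.DP.primrec_sum fun b => ?_)
      · exact Primrec.nat_mul.comp (hM b) (Primrec.nat_mod.comp (Primrec.succ.comp (hs b))
          (Primrec.const 2))
      · exact Primrec.nat_mul.comp (hM b) (Primrec.nat_mod.comp (hs b) (Primrec.const 2))
    · have e : (fun q : (Prog g m L × ℕ) × ℕ => nn q.1.1 q.1.2 q.2 l) = fun _ => (0, 0) := by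
        funext q
        rw [nn, dif_neg hl]
      rw [e]
      exact Primrec.const (0, 0)

theorem primrec_dg (l : ℕ) : Primrec fun P : Prog g m L => dg P l := by
  induction l using Nat.strong_induction_on with
  | _ l ih =>
    by_cases hl : l < L
    · have e : (fun P : Prog g m L => dg P l) = fun P =>
          ∑ b : Fin 2, ((∑ o, (P ⟨l, hl⟩ b).1.2 o) + (∑ i, (P ⟨l, hl⟩ b).2.1 i) +
            ∑ l' : Fin l, (P ⟨l, hl⟩ b).2.2 ⟨l', l'.2.trans hl⟩ * dg P l') := by
        funext P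
        rw [dg, dif_pos hl]
      rw [e]
      refine Run7.h893.DP.primrec_sum fun b => ?_
      have hc : Primrec fun P : Prog g m L => P ⟨l, hl⟩ b :=
        Primrec.fin_app.comp (Primrec.fin_app.comp Primrec.id (Primrec.const (⟨l, hl⟩ : Fin L)))
          (Primrec.const b)
      refine Primrec.nat_add.comp (Primrec.nat_add.comp (Run7.h893.DP.primrec_sum fun o => ?_)
        (Run7.h893.DP.primrec_sum fun i => ?_)) (Run7.h893.DP.primrec_sum fun l' => ?_)
      · exact Primrec.fin_app.comp (Primrec.snd.comp (Primrec.fst.comp hc)) (Primrec.const o)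
      · exact Primrec.fin_app.comp (Primrec.fst.comp (Primrec.snd.comp hc)) (Primrec.const i)
      · exact Primrec.nat_mul.comp (Primrec.fin_app.comp (Primrec.snd.comp (Primrec.snd.comp hc))
          (Primrec.const (⟨l', l'.2.trans hl⟩ : Fin L))) (ih l' l'.2)
    · have e : (fun P : Prog g m L => dg P l) = fun _ => 0 := by
        funext P
        rw [dg, dif_neg hl]
      rw [e]
      exact Primrec.const 0

theorem forall_lt' {β : Type*} [Primcodable β] {R : ℕ → β → Prop} (hf : PrimrecRel R) :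
    PrimrecRel fun n y => ∀ x < n, R x y :=
  (hf.forall_mem_list.comp (Primrec.list_range.comp Primrec.fst) Primrec.snd).of_eq (by simp)

/-- the test is primitive recursive -/
theorem primrec_same : PrimrecPred fun q : Prog g m L × (Fin L × Fin L) => Same q.1 q.2.1 q.2.2 := by
  -- the gates with variable index
  have hg : Primrec₂ fun (l : Fin L) (q : (Prog g m L × ℕ) × ℕ) => nn q.1.1 q.1.2 q.2 l :=
    Primrec.fin_curry₁.2 fun l => primrec_nn l
  have hd : Primrec₂ fun (l : Fin L) (P : Prog g m L) => dg P l :=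
    Primrec.fin_curry₁.2 fun l => primrec_dg l
  have h1' : Primrec fun r : ℕ × ((Prog g m L × ℕ) × (Fin L × Fin L)) =>
      nn r.2.1.1 r.2.1.2 r.1 r.2.2.1 :=
    hg.comp (Primrec.fst.comp (Primrec.snd.comp Primrec.snd))
        (Primrec.pair (Primrec.fst.comp Primrec.snd) Primrec.fst)
  have h2' : Primrec fun r : ℕ × ((Prog g m L × ℕ) × (Fin L × Fin L)) =>
      nn r.2.1.1 r.2.1.2 r.1 r.2.2.2 :=
    hg.comp (Primrec.snd.comp (Primrec.snd.comp Primrec.snd))
        (Primrec.pair (Primrec.fst.comp Primrec.snd) Primrec.fst)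
  have hR : PrimrecRel fun (N : ℕ) (q : (Prog g m L × ℕ) × (Fin L × Fin L)) =>
      (nn q.1.1 q.1.2 N q.2.1).1 + (nn q.1.1 q.1.2 N q.2.2).2 =
        (nn q.1.1 q.1.2 N q.2.2).1 + (nn q.1.1 q.1.2 N q.2.1).2 :=
    Primrec.eq.comp
      (Primrec.nat_add.comp (Primrec.fst.comp h1') (Primrec.snd.comp h2'))
      (Primrec.nat_add.comp (Primrec.fst.comp h2') (Primrec.snd.comp h1'))
  have hB : Primrec fun q : Prog g m L × (Fin L × Fin L) => dg q.1 q.2.1 + dg q.1 q.2.2 + 1 :=
    Primrec.succ.comp (Primrec.nat_add.comp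
      (hd.comp (Primrec.fst.comp Primrec.snd) Primrec.fst)
      (hd.comp (Primrec.snd.comp Primrec.snd) Primrec.fst))
  have h1 := forall_lt' hR
  have h2 : Primrec fun q : Prog g m L × (Fin L × Fin L) =>
      (dg q.1 q.2.1 + dg q.1 q.2.2 + 1) ^ (g + m) := primrec_pow.comp hB (Primrec.const (g + m))
  have h3 : Primrec fun q : Prog g m L × (Fin L × Fin L) =>
      ((q.1, dg q.1 q.2.1 + dg q.1 q.2.2 + 1), q.2) :=
    Primrec.pair (Primrec.pair Primrec.fst hB) Primrec.snd
  exact PrimrecRel.comp h1 h2 h3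

end

end Pool.Agent.Run7.h788.Slp
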