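import Mathlib

/-!
# An abstract form of Galois descent for vector spaces

A group `G` acts on a field `k` and semilinearly on a `k`-vector space `W`.  If the orbit of `b ∈ k`
is finite and the stabiliser of `b` fixes `w ∈ W'`, where `W'` is a stable subspace, then `w` is a
`k`-linear combination of invariant elements of `W'`.
-/

set_option autoImplicit false

namespace Run7.h788

open Polynomial

theorem descent {G k W : Type*} [Group G] [Field k] [AddCommGroup W] [Module k W]
    (τ : G → k →+* k) (τ_mul : ∀ g h x, τ (g * h) x = τ g (τ h x)) (τ_one : ∀ x, τ 1 x = x)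
    (ρ : G → W →+ W) (ρ_mul : ∀ g h x, ρ (g * h) x = ρ g (ρ h x)) (ρ_one : ∀ x, ρ 1 x = x)
    (semi : ∀ g c x, ρ g (c • x) = τ g c • ρ g x)
    (W' : Submodule k W) (stable : ∀ g, ∀ x ∈ W', ρ g x ∈ W')
    (b : k) (fin : (Set.range fun g => τ g b).Finite)
    (w : W) (hw : w ∈ W') (stab : ∀ g, τ g b = b → ρ g w = w) :
    w ∈ Submodule.span k {x | x ∈ W' ∧ ∀ g, ρ g x = x} := by
  classical
  set O : Finset k := fin.toFinset with hO
  have memO : ∀ c, c ∈ O ↔ ∃ g, τ g b = c := fun c => by
    rw [hO, Set.Finite.mem_toFinset]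
    rfl
  have hbO : b ∈ O := (memO b).2 ⟨1, τ_one b⟩
  have hstabO : ∀ g, ∀ c ∈ O, τ g c ∈ O := by
    intro g c hc
    obtain ⟨h, rfl⟩ := (memO c).1 hc
    exact (memO _).2 ⟨g * h, τ_mul g h b⟩
  have hex : ∀ c : k, ∃ g : G, c ∈ O → τ g b = c := by
    intro c
    by_cases hc : c ∈ O
    · obtain ⟨g, hg⟩ := (memO c).1 hc
      exact ⟨g, fun _ => hg⟩
    · exact ⟨1, fun h => (hc h).elim⟩
  choose s hs using hex
  -- independence of the choice
  have hind : ∀ g h : G, τ g b = τ h b → ρ g w = ρ h w := by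
    intro g h hgh
    have h1 : τ (h⁻¹ * g) b = b := by
      rw [τ_mul, hgh, ← τ_mul, inv_mul_cancel, τ_one]
    have h2 := stab _ h1
    have h3 : ρ h (ρ (h⁻¹ * g) w) = ρ g w := by
      rw [← ρ_mul, mul_inv_cancel_left]
    rw [← h3, h2]
  let T : ℕ → W := fun j => ∑ c ∈ O, c ^ j • ρ (s c) w
  have hTfix : ∀ j g, ρ g (T j) = T j := by
    intro j g
    have h1 : ρ g (T j) = ∑ c ∈ O, (τ g c) ^ j • ρ (s (τ g c)) w := by
      change ρ g (∑ c ∈ O, c ^ j • ρ (s c) w) = _
      rw [map_sum]
      refine Finset.sum_congr rfl fun c hc => ?_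
      rw [semi, map_pow, ← ρ_mul]
      congr 1
      apply hind
      rw [τ_mul, hs c hc, hs _ (hstabO g c hc)]
    rw [h1]
    refine Finset.sum_bij (fun c _ => τ g c) (fun c hc => hstabO g c hc)
      (fun c _ c' _ h => (τ g).injective h) (fun c hc => ?_) (fun c _ => rfl)
    refine ⟨τ g⁻¹ c, hstabO _ c hc, ?_⟩
    rw [← τ_mul, mul_inv_cancel, τ_one]
  have hTmem : ∀ j, T j ∈ W' := fun j => W'.sum_mem fun c _ => W'.smul_mem _ (stable _ _ hw)
  let l : k[X] := Lagrange.basis O id b
  have hl : ∀ c ∈ O, l.eval c = if c = b then 1 else 0 := by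
    intro c hc
    split_ifs with h
    · rw [h]
      exact Lagrange.eval_basis_self Function.injective_id.injOn hbO
    · exact Lagrange.eval_basis_of_ne (v := id) (Ne.symm h) hc
  have hw' : w = ∑ j ∈ Finset.range (l.natDegree + 1), l.coeff j • T j := by
    have h1 : ∑ j ∈ Finset.range (l.natDegree + 1), l.coeff j • T j =
        ∑ c ∈ O, l.eval c • ρ (s c) w := by
      calc _ = ∑ j ∈ Finset.range (l.natDegree + 1), ∑ c ∈ O,
            (l.coeff j * c ^ j) • ρ (s c) w := by
            refine Finset.sum_congr rfl fun j _ => ?_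
            rw [Finset.smul_sum]
            exact Finset.sum_congr rfl fun c _ => by rw [smul_smul]
        _ = _ := by
            rw [Finset.sum_comm]
            refine Finset.sum_congr rfl fun c _ => ?_
            rw [eval_eq_sum_range, Finset.sum_smul]
    rw [h1, Finset.sum_eq_single_of_mem b hbO]
    · rw [hl b hbO, if_pos rfl, one_smul]
      exact (stab _ (hs b hbO)).symm
    · intro c hc hcb
      rw [hl c hc, if_neg hcb, zero_smul]
  rw [hw']
  exact Submodule.sum_mem _ fun j _ => Submodule.smul_mem _ _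
    (Submodule.subset_span ⟨hTmem j, hTfix j⟩)

end Run7.h788
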