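import Pool.Agent.Run7.h788.ExpSp

/-!
# Polynomials whose values are polynomials in one number with linear forms in logarithms as coefficients
-/

set_option autoImplicit false

namespace Run7.h788.ExpSp

open Module Finset Pool.Agent.H301R2.SSE Polynomial

/-- basis free form of the hyperplane theorem -/
theorem hyper_free {K : Type*} [AddCommGroup K] [Module QB K] [Module.Finite QB K] {d : ℕ}
    {x : Fin d → ℂ} (hx : LinearIndependent QB x) (A : K →ₗ[QB] (Fin d → ℂ))
    (hA : Function.Injective A) (h1 : ∀ κ i, A κ i ∈ Lt) (h2 : ∀ κ, ∑ i, x i * A κ i = 0) :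
    finrank QB K ≤ d * (d - 1) := by
  let b := Module.finBasis QB K
  refine Pool.Agent.W254.HP.hyperplane d _ x (fun i j => A (b j) i) hx (fun i j => h1 _ _)
    (fun j => h2 _) ?_
  exact b.linearIndependent.map' A (LinearMap.ker_eq_bot.2 hA)

/-- the polynomials of degree at most `E` whose coefficients are linear forms in logarithms -/
def Lpoly (E : ℕ) : Submodule QB ℂ[X] where
  carrier := {p | ∀ j, p.coeff j ∈ Lt ∧ (E < j → p.coeff j = 0)}
  zero_mem' := fun j => by simp
  add_mem' := fun {p q} hp hq j => by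
    rw [coeff_add]
    exact ⟨Lt.add_mem (hp j).1 (hq j).1, fun h => by rw [(hp j).2 h, (hq j).2 h, add_zero]⟩
  smul_mem' := fun c p hp j => by
    rw [coeff_smul]
    exact ⟨Lt.smul_mem c (hp j).1, fun h => by rw [(hp j).2 h, smul_zero]⟩

/-- evaluation -/
noncomputable def ev (t : ℂ) : ℂ[X] →ₗ[QB] ℂ := (Polynomial.leval t).restrictScalars QB

theorem ev_apply (t : ℂ) (p : ℂ[X]) : ev t p = p.eval t := rfl

/-- the values of these polynomials -/
noncomputable def LE (t : ℂ) (E : ℕ) : Submodule QB ℂ := (Lpoly E).map (ev t)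

theorem eval_range {p : ℂ[X]} {n : ℕ} (h : ∀ j, n ≤ j → p.coeff j = 0) (t : ℂ) :
    p.eval t = ∑ s : Fin n, t ^ (s : ℕ) * p.coeff s := by
  have h1 : p.natDegree < n ∨ p = 0 := by
    by_cases hp : p = 0
    · exact Or.inr hp
    · left
      by_contra hn
      push Not at hn
      exact hp (leadingCoeff_eq_zero.1 (h _ hn))
  rcases h1 with h1 | rfl
  · rw [eval_eq_sum_range' h1, Fin.sum_univ_eq_sum_range (fun s => t ^ s * p.coeff s) n]
    exact Finset.sum_congr rfl fun s _ => mul_comm _ _
  · simp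

theorem pigeon {E w : ℕ} (f : ℕ → ℕ) (hf : Monotone f) (h0 : f 0 = 0) (h1 : f (E + 1) = w) :
    ∃ n ≤ E, w ≤ (E + 1) * (f (n + 1) - f n) := by
  by_contra hno
  push Not at hno
  have h2 : ∑ n ∈ Finset.range (E + 1), (f (n + 1) - f n) = w := by
    rw [Finset.sum_range_tsub hf, h0, h1, Nat.sub_zero]
  have h3 : ∑ n ∈ Finset.range (E + 1), (E + 1) * (f (n + 1) - f n) <
      ∑ _n ∈ Finset.range (E + 1), w := by
    refine Finset.sum_lt_sum_of_nonempty ⟨0, by simp⟩ fun n hn => ?_
    exact hno n (by rw [Finset.mem_range] at hn; omega)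
  rw [← Finset.mul_sum, h2, Finset.sum_const, Finset.card_range, smul_eq_mul] at h3
  exact lt_irrefl _ h3

/-- the part of one degree -/
theorem core_LE {t : ℂ} (ht : Transcendental ℚ t) (E h n : ℕ) (Y : Submodule QB ℂ)
    [Module.Finite QB Y] {U : Type} [AddCommGroup U] [Module QB U] [Module.Finite QB U]
    (up : U →ₗ[QB] ℂ[X]) (hup1 : ∀ u, up u ∈ Lpoly E)
    (hup3 : ∀ (u : U) (j : ℕ), n < j → (up u).coeff j = 0)
    (hup4 : ∀ u : U, (up u).coeff n = 0 → u = 0)
    (hY : ∀ i < h, ∀ u : U, t ^ i * (up u).eval t ∈ Y) :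
    h * finrank QB U ≤ finrank QB Y + (h + E) * (h + E - 1) := by
  classical
  let Ψ : (Fin h → U) →ₗ[QB] ℂ[X] :=
    { toFun := fun c => ∑ i : Fin h, X ^ (i : ℕ) * up (c i)
      map_add' := fun a b => by
        simp only [Pi.add_apply, map_add, mul_add, Finset.sum_add_distrib]
      map_smul' := fun a b => by
        simp only [Pi.smul_apply, map_smul, mul_smul_comm, Finset.smul_sum, RingHom.id_apply] }
  have hΨ : ∀ c, Ψ c = ∑ i : Fin h, X ^ (i : ℕ) * up (c i) := fun c => rfl
  have hΨev : ∀ c, (Ψ c).eval t = ∑ i : Fin h, t ^ (i : ℕ) * (up (c i)).eval t := by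
    intro c
    rw [hΨ, eval_finsetSum]
    refine Finset.sum_congr rfl fun i _ => ?_
    rw [eval_mul, eval_pow, eval_X]
  let φ : (Fin h → U) →ₗ[QB] Y :=
    { toFun := fun c => ⟨(Ψ c).eval t, by
        rw [hΨev]
        exact Submodule.sum_mem _ fun i _ => hY i i.2 _⟩
      map_add' := fun a b => Subtype.ext (by simp)
      map_smul' := fun a b => Subtype.ext (by simp) }
  have hr := LinearMap.finrank_range_add_finrank_ker (K := QB) (V := Fin h → U) (V₂ := Y) φ
  rw [Module.finrank_pi_fintype, Finset.sum_const, Finset.card_univ, Fintype.card_fin,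
    smul_eq_mul] at hr
  have hr2 : finrank QB (LinearMap.range φ) ≤ finrank QB Y := Submodule.finrank_le _
  have hcoef : ∀ c s, (Ψ c).coeff s ∈ Lt := by
    intro c s
    rw [hΨ, finsetSum_coeff]
    refine Submodule.sum_mem _ fun i _ => ?_
    rw [coeff_X_pow_mul']
    split_ifs
    · exact (hup1 _ _).1
    · exact Submodule.zero_mem _
  have hdeg : ∀ c s, h + E ≤ s → (Ψ c).coeff s = 0 := by
    intro c s hs
    rw [hΨ, finsetSum_coeff]
    refine Finset.sum_eq_zero fun i _ => ?_
    rw [coeff_X_pow_mul']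
    split_ifs
    · refine (hup1 _ _).2 ?_
      have := i.2
      omega
    · rfl
  have hk : finrank QB (LinearMap.ker φ) ≤ (h + E) * (h + E - 1) := by
    let A : LinearMap.ker φ →ₗ[QB] (Fin (h + E) → ℂ) :=
      { toFun := fun c s => (Ψ (c : Fin h → U)).coeff s
        map_add' := fun a b => funext fun s => by simp
        map_smul' := fun a b => funext fun s => by simp }
    refine hyper_free (Pool.Agent.W254.HP.pow_indep ht (h + E)) A ?_ (fun κ i => hcoef _ _) ?_
    · rw [← LinearMap.ker_eq_bot, LinearMap.ker_eq_bot']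
      intro c hc
      have h1 : ∀ s, (Ψ (c : Fin h → U)).coeff s = 0 := by
        intro s
        rcases Nat.lt_or_ge s (h + E) with h2 | h2
        · exact congrFun hc ⟨s, h2⟩
        · exact hdeg _ _ h2
      by_contra hne
      have hex : (univ.filter fun i => (c : Fin h → U) i ≠ 0).Nonempty := by
        by_contra hempty
        rw [Finset.not_nonempty_iff_eq_empty, Finset.filter_eq_empty_iff] at hempty
        apply hne
        apply Subtype.ext
        funext i
        have := hempty (Finset.mem_univ i)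
        push Not at this
        exact this
      set i := (univ.filter fun i => (c : Fin h → U) i ≠ 0).max' hex with hi
      have hi0 : (c : Fin h → U) i ≠ 0 := (Finset.mem_filter.1 (Finset.max'_mem _ hex)).2
      have hgt : ∀ k, i < k → (c : Fin h → U) k = 0 := by
        intro k hk
        by_contra h0
        have := Finset.le_max' (univ.filter fun i => (c : Fin h → U) i ≠ 0) k (by simpa using h0)
        exact absurd hk (not_lt.2 this)
      apply hi0
      apply hup4
      have h2 := h1 ((i : ℕ) + n)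
      rw [hΨ, finsetSum_coeff] at h2
      rw [Finset.sum_eq_single i] at h2
      · rw [coeff_X_pow_mul', if_pos (Nat.le_add_right _ _), Nat.add_sub_cancel_left] at h2
        exact h2
      · intro k _ hki
        rcases lt_trichotomy k i with h3 | h3 | h3
        · rw [coeff_X_pow_mul']
          split_ifs
          · refine hup3 _ _ ?_
            have : (k : ℕ) < i := h3
            omega
          · rfl
        · exact absurd h3 hki
        · rw [hgt k h3, map_zero, mul_zero, coeff_zero]
      · intro hni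
        exact absurd (Finset.mem_univ i) hni
    · intro κ
      have h1 : (Ψ (κ : Fin h → U)).eval t = 0 := by
        have := κ.2
        rw [LinearMap.mem_ker] at this
        exact congrArg Subtype.val this
      rw [eval_range (hdeg _)] at h1
      exact h1
  omega

/-- **The product inequality for polynomials in one number.** -/
theorem product_LE {t : ℂ} (ht : Transcendental ℚ t) (E h : ℕ) (W Y : Submodule QB ℂ)
    [Module.Finite QB W] [Module.Finite QB Y] (hW : W ≤ LE t E)
    (hY : ∀ i < h, ∀ w ∈ W, t ^ i * w ∈ Y) :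
    h * finrank QB W ≤ (E + 1) * (finrank QB Y + (h + E) * (h + E - 1)) := by
  classical
  -- the lifts
  obtain ⟨p, hp1, hp2⟩ : ∃ p : W →ₗ[QB] ℂ[X], (∀ w, p w ∈ Lpoly E) ∧ ∀ w : W, (p w).eval t = w := by
    let g : Lpoly E →ₗ[QB] LE t E :=
      { toFun := fun q => ⟨ev t q, q, q.2, rfl⟩
        map_add' := fun a b => Subtype.ext (by simp)
        map_smul' := fun a b => Subtype.ext (by simp) }
    have hg : LinearMap.range g = ⊤ := by
      rw [LinearMap.range_eq_top]
      rintro ⟨_, q, hq, rfl⟩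
      exact ⟨⟨q, hq⟩, rfl⟩
    obtain ⟨s, hs⟩ := g.exists_rightInverse_of_surjective hg
    refine ⟨(Lpoly E).subtype.comp (s.comp (Submodule.inclusion hW)), fun w => (s _).2, fun w => ?_⟩
    have h1 := congrArg (fun f => ((f (Submodule.inclusion hW w) : LE t E) : ℂ)) hs
    exact h1
  -- the filtration
  let V : ℕ → Submodule QB W := fun n =>
    { carrier := {w | ∀ j, n ≤ j → (p w).coeff j = 0}
      zero_mem' := fun j _ => by simp
      add_mem' := fun {a b} ha hb j hj => by
        rw [map_add, coeff_add, ha j hj, hb j hj, add_zero]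
      smul_mem' := fun c a ha j hj => by
        rw [map_smul, coeff_smul, ha j hj, smul_zero] }
  have hVmono : Monotone V := fun a b hab w hw j hj => hw j (hab.trans hj)
  have hV0 : V 0 = ⊥ := by
    rw [eq_bot_iff]
    intro w hw
    have h1 : p w = 0 := Polynomial.ext fun j => by
      rw [coeff_zero]
      exact hw j (Nat.zero_le j)
    have h2 := hp2 w
    rw [h1, eval_zero] at h2
    exact Subtype.ext h2.symm
  have hVE : V (E + 1) = ⊤ := by
    rw [eq_top_iff]
    intro w _ j hj
    exact (hp1 w j).2 hj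
  obtain ⟨n, hn, hnw⟩ := pigeon (E := E) (w := finrank QB W) (fun n => finrank QB (V n))
    (fun a b hab => Submodule.finrank_mono (hVmono hab)) (by
      change finrank QB (V 0) = 0
      rw [hV0, finrank_bot])
    (by
      change finrank QB (V (E + 1)) = finrank QB W
      rw [hVE, finrank_top])
  obtain ⟨U, hU⟩ := Submodule.exists_isCompl ((V n).comap (V (n + 1)).subtype)
  have hUr : finrank QB (V (n + 1)) - finrank QB (V n) = finrank QB U := by
    have h1 := Submodule.finrank_add_eq_of_isCompl hU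
    have h2 := (Submodule.comapSubtypeEquivOfLe (hVmono (Nat.le_succ n))).finrank_eq
    rw [← h1, h2]
    omega
  have hUn : ∀ u ∈ U, (p ((u : V (n + 1)) : W)).coeff n = 0 → u = 0 := by
    intro u hu h0
    have h1 : u ∈ (V n).comap (V (n + 1)).subtype := by
      intro j hj
      rcases Nat.lt_or_ge n j with h2 | h2
      · exact u.2 j h2
      · have : j = n := le_antisymm h2 hj
        rw [this]
        exact h0
    have h2 : u ∈ (V n).comap (V (n + 1)).subtype ⊓ U := ⟨h1, hu⟩
    rw [hU.inf_eq_bot] at h2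
    exact h2
  have h5 : h * finrank QB U ≤ finrank QB Y + (h + E) * (h + E - 1) := by
    refine core_LE ht E h n Y (U := U) (p.comp ((V (n + 1)).subtype.comp U.subtype))
      (fun u => hp1 _) (fun u j hj => (u : V (n + 1)).2 j hj)
      (fun u hu => Subtype.ext (hUn u u.2 hu)) (fun i hi u => ?_)
    have h1 : (p ((u : V (n + 1)) : W)).eval t = (((u : V (n + 1)) : W) : ℂ) := hp2 _
    change t ^ i * (p ((u : V (n + 1)) : W)).eval t ∈ Y
    rw [h1]
    exact hY i hi _ ((u : V (n + 1)) : W).2
  rw [hUr] at hnw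
  calc h * finrank QB W ≤ h * ((E + 1) * finrank QB U) := Nat.mul_le_mul_left _ hnw
    _ = (E + 1) * (h * finrank QB U) := by ring
    _ ≤ _ := Nat.mul_le_mul_left _ h5

theorem polys_bound_LE {t z : ℂ} (ht : Transcendental ℚ t) (hz : z ≠ 0) (D E h : ℕ) :
    h * finrank QB (polys (LE t E) t z D) ≤ (E + 1) * (D + h + (h + E) * (h + E - 1)) := by
  classical
  rcases Nat.eq_zero_or_pos h with rfl | hh
  · simp
  set Φ : QB[X] →ₗ[QB] ℂ := (LinearMap.mulLeft QB z).comp (aeval t).toLinearMap with hΦ
  have hinj : Function.Injective Φ := by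
    rw [← LinearMap.ker_eq_bot, LinearMap.ker_eq_bot']
    intro P hP
    by_contra hP0
    have h1 : z * aeval t P = 0 := hP
    rcases mul_eq_zero.1 h1 with h2 | h2
    · exact hz h2
    · exact Pool.Agent.W254.HP.aeval_ne_zero ht hP0 h2
  have : Module.Finite QB (degreeLT QB (D + 1)) :=
    Module.Finite.equiv (degreeLTEquiv QB (D + 1)).symm
  have : Module.Finite QB (polys (LE t E) t z D) :=
    Submodule.finiteDimensional_of_le (inf_le_left : polys (LE t E) t z D ≤ degreeLT QB (D + 1))
  let W : Submodule QB ℂ := (polys (LE t E) t z D).map Φ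
  have hWr : finrank QB W = finrank QB (polys (LE t E) t z D) :=
    (Submodule.equivMapOfInjective Φ hinj _).finrank_eq.symm
  let Y : Submodule QB ℂ := (degreeLT QB (D + h)).map Φ
  have : Module.Finite QB (degreeLT QB (D + h)) :=
    Module.Finite.equiv (degreeLTEquiv QB (D + h)).symm
  have hYr : finrank QB Y ≤ D + h := by
    refine (Submodule.finrank_map_le _ _).trans ?_
    rw [(degreeLTEquiv QB (D + h)).finrank_eq, Module.finrank_fin_fun]
  have hWL : W ≤ LE t E := by
    rintro _ ⟨c, hc, rfl⟩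
    exact hc.2
  have hXY : ∀ i < h, ∀ w ∈ W, t ^ i * w ∈ Y := by
    intro i hi w hw
    obtain ⟨P, hP, rfl⟩ := hw
    refine ⟨Polynomial.X ^ i * P, ?_, ?_⟩
    · rw [SetLike.mem_coe, mem_degreeLT]
      rcases eq_or_ne P 0 with rfl | hP0
      · simp
      · have h1 := (mem_degreeLT.1 hP.1)
        rw [degree_mul, degree_X_pow, degree_eq_natDegree hP0]
        rw [degree_eq_natDegree hP0] at h1
        have h2 : P.natDegree < D + 1 := by exact_mod_cast h1
        have h3 : i + P.natDegree < D + h := by omega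
        exact_mod_cast h3
    · change z * aeval t (Polynomial.X ^ i * P) = t ^ i * (z * aeval t P)
      rw [map_mul, map_pow, aeval_X]
      ring
  have := product_LE ht E h W Y hWL hXY
  rw [hWr] at this
  exact this.trans (Nat.mul_le_mul_left _ (Nat.add_le_add_right hYr _))

theorem sqrt_bound_LE {m D E : ℕ}
    (h : ∀ h : ℕ, h * m ≤ (E + 1) * (D + h + (h + E) * (h + E - 1))) :
    (m : ℝ) ≤ ((E : ℝ) + 1) * (2 * √(D : ℝ) + ((E : ℝ) + 1) ^ 2) := by
  have hE : (0 : ℝ) ≤ E := Nat.cast_nonneg E
  rcases Nat.eq_zero_or_pos D with rfl | hD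
  · have h1 := h 1
    have h2 : (1 * m : ℕ) ≤ (E + 1) * (0 + 1 + (1 + E) * E) := by
      refine h1.trans (le_of_eq ?_)
      congr 3
      omega
    have h3 : (m : ℝ) ≤ (E + 1) * (0 + 1 + (1 + E) * E) := by
      have : ((1 * m : ℕ) : ℝ) ≤ (((E + 1) * (0 + 1 + (1 + E) * E) : ℕ) : ℝ) := by exact_mod_cast h2
      push_cast at this
      linarith
    simp only [Nat.cast_zero, Real.sqrt_zero, mul_zero, zero_add]
    refine h3.trans (mul_le_mul_of_nonneg_left ?_ (by linarith))
    nlinarith
  · have hs : 0 < √(D : ℝ) := Real.sqrt_pos.2 (by exact_mod_cast hD)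
    obtain ⟨k, hk⟩ : ∃ k, k = ⌈√(D : ℝ)⌉₊ := ⟨_, rfl⟩
    have hk1 : √(D : ℝ) ≤ k := by rw [hk]; exact Nat.le_ceil _
    have hk2 : (k : ℝ) < √(D : ℝ) + 1 := by rw [hk]; exact Nat.ceil_lt_add_one hs.le
    have hk0 : 0 < k := by
      rw [hk]
      exact Nat.ceil_pos.2 hs
    have hkr : (1 : ℝ) ≤ k := by exact_mod_cast hk0
    have h1 := h k
    have h3 : (k : ℝ) * m ≤ (E + 1) * (D + k + (k + E) * ((k + E - 1 : ℕ) : ℝ)) := by
      exact_mod_cast h1
    have h6 : ((k + E - 1 : ℕ) : ℝ) = k + E - 1 := by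
      rw [Nat.cast_sub (by omega)]
      push_cast
      ring
    rw [h6] at h3
    have h4 : (D : ℝ) ≤ √(D : ℝ) * k := by
      calc (D : ℝ) = √(D : ℝ) * √(D : ℝ) := (Real.mul_self_sqrt (Nat.cast_nonneg D)).symm
        _ ≤ √(D : ℝ) * k := mul_le_mul_of_nonneg_left hk1 hs.le
    have h7 : (D : ℝ) + k + (k + E) * (k + E - 1) ≤
        k * (2 * √(D : ℝ) + ((E : ℝ) + 1) ^ 2) := by
      have h8 : (E : ℝ) * E ≤ k * (E * E) := by nlinarith
      nlinarith
    have h5 : (k : ℝ) * m ≤ k * (((E : ℝ) + 1) * (2 * √(D : ℝ) + ((E : ℝ) + 1) ^ 2)) := by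
      refine h3.trans ((mul_le_mul_of_nonneg_left h7 (by linarith)).trans (le_of_eq ?_))
      ring
    exact le_of_mul_le_mul_left h5 (by linarith)

theorem polys_sqrt_LE {t z : ℂ} (ht : Transcendental ℚ t) (hz : z ≠ 0) (D E : ℕ) :
    (finrank QB (polys (LE t E) t z D) : ℝ) ≤
      ((E : ℝ) + 1) * (2 * √(D : ℝ) + ((E : ℝ) + 1) ^ 2) :=
  sqrt_bound_LE fun h => polys_bound_LE ht hz D E h

end Run7.h788.ExpSp
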