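import Mathlib

/-!
# Algebraic numbers near a given element of the algebraic closure of `ℚ_p`
-/

set_option autoImplicit false

namespace Run7.h788

open Polynomial IntermediateField

variable {p : ℕ} [Fact p.Prime]

theorem denseRange_rat : DenseRange (algebraMap ℚ ℚ_[p]) := by
  have h := Padic.denseRange_ratCast p
  convert h
  exact funext fun q => eq_ratCast _ q

/-- Krasner: the algebraic numbers `β` with `ℚ_p(β) = ℚ_p(θ)` come arbitrarily close to `θ`. -/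
theorem exists_algebraic_near (θ : PadicAlgCl p) {ε : ℝ} (hε : 0 < ε) :
    ∃ β : PadicAlgCl p, IsAlgebraic ℚ β ∧ ‖θ - β‖ < ε ∧ ℚ_[p]⟮β⟯ = ℚ_[p]⟮θ⟯ := by
  have hint : IsIntegral ℚ_[p] θ := (Algebra.IsAlgebraic.isAlgebraic θ).isIntegral
  obtain ⟨f, hf⟩ : ∃ f : ℚ_[p][X], f = minpoly ℚ_[p] θ := ⟨_, rfl⟩
  have fmon : f.Monic := hf ▸ minpoly.monic hint
  have firr : Irreducible f := hf ▸ minpoly.irreducible hint
  have fθ : aeval θ f = 0 := hf ▸ minpoly.aeval _ _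
  have fnatdeg0 : f.natDegree ≠ 0 := (Irreducible.natDegree_pos firr).ne'
  classical
  let S : Finset (PadicAlgCl p) := {x ∈ (f.rootSet (PadicAlgCl p)).toFinset | x ≠ θ}
  obtain ⟨δ, hδ0, hδε, hδS⟩ : ∃ δ : ℝ, 0 < δ ∧ δ ≤ ε ∧ ∀ x ∈ S, δ ≤ ‖θ - x‖ := by
    by_cases hS : S.Nonempty
    · obtain ⟨y, hy, hmin⟩ := S.exists_min_image (fun x => ‖θ - x‖) hS
      refine ⟨min ε ‖θ - y‖, lt_min hε ?_, min_le_left _ _, fun x hx =>
        (min_le_right _ _).trans (hmin x hx)⟩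
      rw [norm_pos_iff, sub_ne_zero]
      exact (Finset.mem_filter.1 hy).2.symm
    · rw [Finset.not_nonempty_iff_eq_empty] at hS
      exact ⟨ε, hε, le_rfl, fun x hx => by rw [hS] at hx; simp at hx⟩
  have norm_sub_le : ∀ x' : PadicAlgCl p, IsConjRoot ℚ_[p] θ x' → θ ≠ x' → δ ≤ ‖θ - x'‖ := by
    intro x' conj ne
    apply hδS
    rw [Finset.mem_filter, Set.mem_toFinset, hf,
      ← isConjRoot_iff_mem_minpoly_rootSet hint]
    exact ⟨conj, ne.symm⟩
  obtain ⟨ε', hε'0, hε'⟩ : ∃ ε' : ℝ, 0 < ε' ∧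
      ((f.natDegree + 1) * ε') ^ (f.natDegree : ℝ)⁻¹ * max ‖θ‖ 1 = δ := by
    refine ⟨(δ / (max ‖θ‖ 1)) ^ f.natDegree / (f.natDegree + 1), by positivity, ?_⟩
    rw [mul_div_cancel₀ _ (by positivity), ← Real.rpow_natCast, ← Real.rpow_mul
      (div_pos hδ0 (by positivity)).le, mul_inv_cancel₀ (by exact_mod_cast fnatdeg0),
      Real.rpow_one, div_mul_cancel₀ _ (by positivity : (max ‖θ‖ 1) > 0).ne']
  obtain ⟨g, gmon, gdeg, gcoeff⟩ :=
    exists_monic_and_natDegree_eq_and_norm_map_algebraMap_coeff_sub_lt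
      (denseRange_rat (p := p)) fmon hε'0
  obtain ⟨b, hb, hab⟩ := exists_aroots_norm_sub_lt_of_norm_coeff_sub_lt (L := PadicAlgCl p)
      hε'0 fθ fmon (gmon.map (algebraMap ℚ ℚ_[p])) (gdeg ▸ (g.natDegree_map _)) gcoeff
      (IsAlgClosed.splits _)
  rw [hε'] at hab
  have hb0 : aeval b g = 0 := by
    rw [mem_aroots] at hb
    have := hb.2
    rwa [aeval_map_algebraMap] at this
  have hbint : IsIntegral ℚ_[p] b := (Algebra.IsAlgebraic.isAlgebraic b).isIntegral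
  have hθb : θ ∈ ℚ_[p]⟮b⟯ := IsKrasner.krasner (minpoly.irreducible hint).separable
    (IsAlgClosed.splits _) hbint fun x' h1 h2 => lt_of_lt_of_le hab (norm_sub_le x' h1 h2)
  refine ⟨b, ⟨g, gmon.ne_zero, hb0⟩, hab.trans_le hδε, ?_⟩
  have hle : ℚ_[p]⟮θ⟯ ≤ ℚ_[p]⟮b⟯ := by
    rw [adjoin_simple_le_iff]
    exact hθb
  have : FiniteDimensional ℚ_[p] ℚ_[p]⟮b⟯ := adjoin.finiteDimensional hbint
  refine (IntermediateField.eq_of_le_of_finrank_le hle ?_).symm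
  rw [adjoin.finrank hbint, adjoin.finrank hint, ← hf, gdeg,
    ← g.natDegree_map (algebraMap ℚ ℚ_[p])]
  refine natDegree_le_of_dvd (minpoly.dvd _ _ ?_) (gmon.map _).ne_zero
  rw [aeval_map_algebraMap]
  exact hb0

end Run7.h788
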