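import Pool.Agent.Run7.h788.Descent
import Pool.Agent.Run7.h788.Krasner

/-!
# Descent for spaces over the field of algebraic numbers
-/

set_option autoImplicit false

namespace Run7.h788

open Polynomial IntermediateField

variable {p : ℕ} [Fact p.Prime]

/-- the algebraic numbers in the algebraic closure of `ℚ_p` -/
noncomputable abbrev QQ (p : ℕ) [Fact p.Prime] : IntermediateField ℚ (PadicAlgCl p) :=
  algebraicClosure ℚ (PadicAlgCl p)

/-- the Galois group of `ℚ_p` -/
abbrev GG (p : ℕ) [Fact p.Prime] : Type := PadicAlgCl p ≃ₐ[ℚ_[p]] PadicAlgCl p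

theorem mem_QQ {x : PadicAlgCl p} : x ∈ QQ p ↔ IsAlgebraic ℚ x := mem_algebraicClosure_iff

theorem isAlgebraic_aut (σ : GG p) {x : PadicAlgCl p} (hx : IsAlgebraic ℚ x) :
    IsAlgebraic ℚ (σ x) :=
  hx.algHom (RingHom.toRatAlgHom (σ : PadicAlgCl p →+* PadicAlgCl p))

/-- the action on the algebraic numbers -/
noncomputable def res (σ : GG p) : QQ p →+* QQ p where
  toFun x := ⟨σ x, mem_QQ.2 (isAlgebraic_aut σ (mem_QQ.1 x.2))⟩
  map_one' := Subtype.ext (map_one σ)
  map_mul' x y := Subtype.ext (map_mul σ (x : PadicAlgCl p) (y : PadicAlgCl p))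
  map_zero' := Subtype.ext (map_zero σ)
  map_add' x y := Subtype.ext (map_add σ (x : PadicAlgCl p) (y : PadicAlgCl p))

@[simp] theorem res_coe (σ : GG p) (x : QQ p) : ((res σ x : QQ p) : PadicAlgCl p) = σ x := rfl

theorem res_mul (σ τ : GG p) (x : QQ p) : res (σ * τ) x = res σ (res τ x) := rfl

theorem res_one (x : QQ p) : res (1 : GG p) x = x := rfl

theorem finite_range_aut (H : Subgroup (GG p)) (b : PadicAlgCl p) :
    (Set.range fun g : H => (g : GG p) b).Finite := by
  refine ((minpoly ℚ_[p] b).rootSet_finite (PadicAlgCl p)).subset ?_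
  rintro _ ⟨g, rfl⟩
  rw [mem_rootSet]
  refine ⟨minpoly.ne_zero (Algebra.IsAlgebraic.isAlgebraic b).isIntegral, ?_⟩
  have h := minpoly.aeval ℚ_[p] b
  have h2 : aeval ((g : GG p) b) (minpoly ℚ_[p] b) = (g : GG p) (aeval b (minpoly ℚ_[p] b)) := by
    rw [← aeval_algHom_apply]
  rw [h2, h, map_zero]

theorem finite_range_res (H : Subgroup (GG p)) (b : QQ p) :
    (Set.range fun g : H => res (g : GG p) b).Finite := by
  have h := finite_range_aut H (b : PadicAlgCl p)
  refine Set.Finite.of_finite_image (f := ((↑) : QQ p → PadicAlgCl p)) (h.subset ?_)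
    Subtype.val_injective.injOn
  rintro _ ⟨_, ⟨g, rfl⟩, rfl⟩
  exact ⟨g, rfl⟩

theorem mem_of_fixed (E : IntermediateField ℚ_[p] (PadicAlgCl p)) {x : PadicAlgCl p}
    (h : ∀ g : GG p, g ∈ E.fixingSubgroup → g x = x) : x ∈ E := by
  have h1 : IntermediateField.fixedField E.fixingSubgroup = E :=
    InfiniteGalois.fixedField_fixingSubgroup E
  rw [← h1]
  exact fun g => h g.1 g.2

theorem fixed_of_mem (E : IntermediateField ℚ_[p] (PadicAlgCl p)) {x : PadicAlgCl p} (hx : x ∈ E)
    {g : GG p} (hg : g ∈ E.fixingSubgroup) : g x = x :=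
  (IntermediateField.mem_fixingSubgroup_iff E g).1 hg x hx

/-- the stabiliser of `b` fixes `ℚ_p(b)` -/
theorem fixed_of_adjoin {b x : PadicAlgCl p} (hx : x ∈ ℚ_[p]⟮b⟯) {g : GG p} (hg : g b = b) :
    g x = x := by
  have h1 : ℚ_[p]⟮b⟯ ≤ IntermediateField.fixedField (Subgroup.zpowers g) := by
    rw [adjoin_simple_le_iff]
    rintro ⟨h, hh⟩
    obtain ⟨n, rfl⟩ := Subgroup.mem_zpowers_iff.1 hh
    have h2 : g ∈ MulAction.stabilizer (GG p) b := hg
    exact (MulAction.stabilizer (GG p) b).zpow_mem h2 n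
  exact h1 hx ⟨g, Subgroup.mem_zpowers g⟩

/-- **Descent**: a stable subspace over the algebraic numbers is spanned by its elements in `E`. -/
theorem descent_sub (E : IntermediateField ℚ_[p] (PadicAlgCl p))
    (U : Submodule (QQ p) (PadicAlgCl p))
    (hU : ∀ g : GG p, g ∈ E.fixingSubgroup → ∀ x ∈ U, g x ∈ U) :
    U = Submodule.span (QQ p) {x | x ∈ U ∧ x ∈ E} := by
  apply le_antisymm
  · intro u hu
    obtain ⟨b, hb, -, hbu⟩ := exists_algebraic_near u one_pos
    have h1 := descent (G := E.fixingSubgroup) (k := QQ p) (W := PadicAlgCl p)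
      (fun g => res (g : GG p)) (fun g h x => res_mul _ _ x) (fun x => res_one x)
      (fun g => ((g : GG p) : PadicAlgCl p →+ PadicAlgCl p))
      (fun g h x => rfl) (fun x => rfl)
      (fun g c x => by
        change (g : GG p) (c • x) = res (g : GG p) c • (g : GG p) x
        rw [Algebra.smul_def, Algebra.smul_def, map_mul]
        rfl)
      U (fun g x hx => hU g g.2 x hx) ⟨b, mem_QQ.2 hb⟩ (finite_range_res _ _) u hu
      (fun g hg => by
        have h2 : (g : GG p) b = b := congrArg Subtype.val hg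
        have h3 : u ∈ ℚ_[p]⟮b⟯ := by
          rw [hbu]
          exact mem_adjoin_simple_self _ u
        exact fixed_of_adjoin h3 h2)
    refine Submodule.span_mono ?_ h1
    rintro x ⟨hx1, hx2⟩
    exact ⟨hx1, mem_of_fixed E fun g hg => hx2 ⟨g, hg⟩⟩
  · rw [Submodule.span_le]
    exact fun x hx => hx.1

end Run7.h788
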