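import Pool.Agent.Run7.h788.Moduli3

/-!
# The smallest field which contains a fractional linear transform of a given number
-/

set_option autoImplicit false

namespace Run7.h788

open Polynomial IntermediateField Matrix

variable {p : ℕ} [Fact p.Prime]

theorem Mob.refl (t : PadicAlgCl p) : Mob t t := by
  refine ⟨1, by simp, ?_⟩
  simp

theorem Mob.symm {t s : PadicAlgCl p} (h : Mob t s) : Mob s t := by
  obtain ⟨P, hP, h⟩ := h
  refine ⟨!![P 1 1, -P 0 1; -P 1 0, P 0 0], ?_, ?_⟩
  · rw [det_fin_two_of]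
    rw [det_fin_two] at hP
    intro h0
    exact hP (by linear_combination h0)
  · simp only [of_apply, cons_val', cons_val_zero, cons_val_one, cons_val_fin_one]
    push_cast
    linear_combination -h

theorem Mob.trans {t s r : PadicAlgCl p} (h : Mob t s) (h' : Mob s r) : Mob t r := by
  obtain ⟨P, hP, h⟩ := h
  obtain ⟨Q, hQ, h'⟩ := h'
  refine ⟨Q * P, ?_, ?_⟩
  · rw [det_mul]
    exact mul_ne_zero hQ hP
  · simp only [mul_apply, Fin.sum_univ_two]
    push_cast
    linear_combination ((P 1 0 : PadicAlgCl p) * t + P 1 1) * h' +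
      ((Q 0 0 : PadicAlgCl p) - r * Q 1 0) * h

theorem Mob.map {t s : PadicAlgCl p} (h : Mob t s) (g : GG p) : Mob (g t) (g s) := by
  obtain ⟨P, hP, h⟩ := h
  refine ⟨P.map (res g), det_res g hP, ?_⟩
  have h1 := congrArg g h
  rw [map_mul, map_add, map_add, map_mul, map_mul] at h1
  exact h1

theorem Mob.not_alg {t s : PadicAlgCl p} (h : Mob t s) (ht : ¬ IsAlgebraic ℚ t) :
    ¬ IsAlgebraic ℚ s := by
  intro hs
  obtain ⟨P, hP, h⟩ := h.symm
  have h1 : (P 1 0 : PadicAlgCl p) * s + P 1 1 ≠ 0 := by
    intro h0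
    rw [h0, mul_zero] at h
    have h2 : ((P.det : QQ p) : PadicAlgCl p) = 0 := by
      by_cases h10 : P 1 0 = 0
      · rw [h10] at h0
        have h11 : (P 1 1 : PadicAlgCl p) = 0 := by
          rw [ZeroMemClass.coe_zero, zero_mul, zero_add] at h0
          exact h0
        rw [det_fin_two]
        push_cast
        rw [h10, h11]
        simp
      · have h10' : (P 1 0 : PadicAlgCl p) ≠ 0 := fun h => h10 (Subtype.ext h)
        rw [det_fin_two]
        push_cast
        have h3 : (P 1 0 : PadicAlgCl p) *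
            ((P 0 0 : PadicAlgCl p) * P 1 1 - P 0 1 * P 1 0) = 0 := by
          linear_combination (P 1 0 : PadicAlgCl p) * P 0 0 * h0 + (P 1 0 : PadicAlgCl p) ^ 2 * h
        exact (mul_eq_zero.1 h3).resolve_left h10'
    exact hP (Subtype.ext h2)
  apply ht
  have h2 : t = ((P 0 0 : PadicAlgCl p) * s + P 0 1) * ((P 1 0 : PadicAlgCl p) * s + P 1 1)⁻¹ := by
    rw [← h, mul_assoc, mul_inv_cancel₀ h1, mul_one]
  rw [h2]
  have ha : ∀ i k, IsAlgebraic ℚ (P i k : PadicAlgCl p) := fun i k => mem_QQ.1 (P i k).2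
  exact (((ha 0 0).mul hs).add (ha 0 1)).mul (((ha 1 0).mul hs).add (ha 1 1)).inv

/-- the stabiliser of the class of `t` -/
def stab (t : PadicAlgCl p) : Subgroup (GG p) where
  carrier := {g | Mob t (g t)}
  one_mem' := Mob.refl t
  mul_mem' := by
    intro g h hg hh
    exact hg.trans (hh.map g)
  inv_mem' := by
    intro g hg
    have h1 := (Mob.map hg g⁻¹).symm
    have h2 : (g⁻¹ : GG p) (g t) = t := AlgEquiv.symm_apply_apply g t
    rw [h2] at h1
    exact h1

theorem mem_stab {t : PadicAlgCl p} {g : GG p} : g ∈ stab t ↔ Mob t (g t) := Iff.rfl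

theorem adjoin_le_stab (t : PadicAlgCl p) : (ℚ_[p]⟮t⟯).fixingSubgroup ≤ stab t := by
  intro g hg
  rw [mem_stab, fixed_of_mem _ (mem_adjoin_simple_self _ t) hg]
  exact Mob.refl t

instance finDim_adjoin (t : PadicAlgCl p) : FiniteDimensional ℚ_[p] ℚ_[p]⟮t⟯ :=
  adjoin.finiteDimensional (Algebra.IsAlgebraic.isAlgebraic t).isIntegral

/-- the field of moduli of `t` -/
noncomputable def modField (t : PadicAlgCl p) : IntermediateField ℚ_[p] (PadicAlgCl p) :=
  IntermediateField.fixedField (stab t)

theorem fixing_modField (t : PadicAlgCl p) : (modField t).fixingSubgroup = stab t := by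
  have h1 : IsOpen ((stab t : Subgroup (GG p)) : Set (GG p)) :=
    Subgroup.isOpen_mono (adjoin_le_stab t) (fixingSubgroup_isOpen _)
  exact InfiniteGalois.fixingSubgroup_fixedField ⟨stab t, Subgroup.isClosed_of_isOpen _ h1⟩

theorem modField_le (t : PadicAlgCl p) : modField t ≤ ℚ_[p]⟮t⟯ := by
  intro x hx
  apply mem_of_fixed
  intro g hg
  exact hx ⟨g, adjoin_le_stab t hg⟩

theorem finDim_modField (t : PadicAlgCl p) : FiniteDimensional ℚ_[p] (modField t) := by
  have h := modField_le t
  exact FiniteDimensional.of_injective (IntermediateField.inclusion h).toLinearMap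
    (IntermediateField.inclusion h).injective

theorem modField_le_iff (t : PadicAlgCl p) (E : IntermediateField ℚ_[p] (PadicAlgCl p)) :
    modField t ≤ E ↔ ∀ g : GG p, g ∈ E.fixingSubgroup → Mob t (g t) := by
  constructor
  · intro h g hg
    have h1 : g ∈ (modField t).fixingSubgroup :=
      IntermediateField.fixingSubgroup_antitone h hg
    rw [fixing_modField] at h1
    exact h1
  · intro h x hx
    apply mem_of_fixed
    intro g hg
    exact hx ⟨g, h g hg⟩

/-- **The smallest field of definition.** -/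
theorem modField_le_iff' {t : PadicAlgCl p} (ht : ¬ IsAlgebraic ℚ t)
    (E : IntermediateField ℚ_[p] (PadicAlgCl p)) : modField t ≤ E ↔ ∃ t' ∈ E, Mob t t' := by
  rw [modField_le_iff]
  constructor
  · intro h
    exact moduli E ht h
  · rintro ⟨t', ht'E, ht'⟩ g hg
    have h1 := ht'.map g
    rw [fixed_of_mem E ht'E hg] at h1
    exact ht'.trans h1.symm

end Run7.h788
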