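import Pool.Agent.Run7.h788.Twist

/-!
# Fractional linear transformations: the field of moduli is a field of definition

Let `t` be a transcendental element of the algebraic closure of `ℚ_p`.  If every automorphism over `E`
maps `t` to a fractional linear transform of `t` with algebraic coefficients, then such a transform of
`t` lies in `E`.
-/

set_option autoImplicit false

namespace Run7.h788

open Polynomial IntermediateField Matrix

variable {p : ℕ} [Fact p.Prime]

/-- `s` is a fractional linear transform of `t` with algebraic coefficients -/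
def Mob (t s : PadicAlgCl p) : Prop :=
  ∃ P : Matrix (Fin 2) (Fin 2) (QQ p), P.det ≠ 0 ∧
    s * ((P 1 0 : PadicAlgCl p) * t + P 1 1) = (P 0 0 : PadicAlgCl p) * t + P 0 1

/-- a system of matrices which describes the action of the subgroup `H` on the class of `t` -/
structure Sys (H : Subgroup (GG p)) (t : PadicAlgCl p)
    (m : H → Matrix (Fin 2) (Fin 2) (QQ p)) (lam : H → PadicAlgCl p) : Prop where
  det : ∀ g, (m g).det ≠ 0
  ne : ∀ g, lam g ≠ 0
  eq : ∀ g : H, mp (m g) *ᵥ vv t = lam g • vv ((g : GG p) t)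

theorem exists_sys {H : Subgroup (GG p)} {t : PadicAlgCl p} (ht : ¬ IsAlgebraic ℚ t)
    (h : ∀ g : GG p, g ∈ H → Mob t (g t)) : ∃ m lam, Sys H t m lam := by
  choose m hm1 hm2 using fun g : H => h g g.2
  refine ⟨m, fun g => (m g 1 0 : PadicAlgCl p) * t + m g 1 1, hm1, fun g => den_ne ht (hm1 g),
    fun g => ?_⟩
  rw [mulVec_vv]
  funext i
  fin_cases i
  · change (m g 0 0 : PadicAlgCl p) * t + (m g 0 1 : PadicAlgCl p) =
      ((m g 1 0 : PadicAlgCl p) * t + m g 1 1) * (g : GG p) t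
    linear_combination - hm2 g
  · change _ = ((m g 1 0 : PadicAlgCl p) * t + m g 1 1) * 1
    rw [mul_one]
    rfl

section sys

variable {H : Subgroup (GG p)} {t : PadicAlgCl p} {m : H → Matrix (Fin 2) (Fin 2) (QQ p)}
  {lam : H → PadicAlgCl p}

theorem mp_res (g : GG p) (X : Matrix (Fin 2) (Fin 2) (QQ p)) (s : PadicAlgCl p) :
    mp (X.map (res g)) *ᵥ vv (g s) = fun i => g ((mp X *ᵥ vv s) i) := by
  rw [mulVec_vv, mulVec_vv]
  funext i
  fin_cases i
  · change g (X 0 0 : PadicAlgCl p) * g s + g (X 0 1 : PadicAlgCl p) =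
      g ((X 0 0 : PadicAlgCl p) * s + X 0 1)
    rw [map_add, map_mul]
  · change g (X 1 0 : PadicAlgCl p) * g s + g (X 1 1 : PadicAlgCl p) =
      g ((X 1 0 : PadicAlgCl p) * s + X 1 1)
    rw [map_add, map_mul]

theorem det_res (g : GG p) {X : Matrix (Fin 2) (Fin 2) (QQ p)} (hX : X.det ≠ 0) :
    (X.map (res g)).det ≠ 0 := by
  have h1 := RingHom.map_det (res g) X
  rw [RingHom.mapMatrix_apply] at h1
  rw [← h1]
  exact (_root_.map_ne_zero _).2 hX

theorem Sys.coc (hs : Sys H t m lam) (ht : ¬ IsAlgebraic ℚ t) (g h : H) :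
    ∃ c : QQ p, c ≠ 0 ∧ m (g * h) = c • ((m h).map (res (g : GG p)) * m g) := by
  refine prop_of ht _ _ (hs.det _) ?_ (mu := lam g * (g : GG p) (lam h)) ?_ (hs.eq (g * h)) ?_
  · rw [det_mul]
    exact mul_ne_zero (det_res _ (hs.det h)) (hs.det g)
  · exact mul_ne_zero (hs.ne g) ((_root_.map_ne_zero _).2 (hs.ne h))
  · rw [mp_mul, ← mulVec_mulVec, hs.eq g, mulVec_smul, mp_res, hs.eq h, mul_smul]
    congr 1
    funext i
    change (g : GG p) (lam h * vv ((h : GG p) t) i) = (g : GG p) (lam h) * vv _ i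
    rw [map_mul]
    congr 1
    fin_cases i
    · rfl
    · exact map_one _

/-- elements which fix `t` have scalar matrices -/
theorem Sys.scalar (hs : Sys H t m lam) (ht : ¬ IsAlgebraic ℚ t) (g : H)
    (hg : (g : GG p) t = t) : ∃ c : QQ p, c ≠ 0 ∧ m g = c • 1 := by
  have h1 := hs.eq g
  rw [hg] at h1
  obtain ⟨c, hc⟩ := scalar_of_fix ht _ h1
  refine ⟨c, ?_, hc⟩
  rintro rfl
  have h2 := hs.det g
  rw [hc, zero_smul] at h2
  simp at h2

/-- the action on the field, as ring homomorphisms -/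
noncomputable def act (g : GG p) : PadicAlgCl p →+* PadicAlgCl p := (g : PadicAlgCl p →+* _)

@[simp] theorem act_apply (g : GG p) (x : PadicAlgCl p) : act g x = g x := rfl

/-- the twisted action on matrices over the closure of `ℚ_p` -/
noncomputable def twC (m : H → Matrix (Fin 2) (Fin 2) (QQ p)) (g : H) :
    Matrix (Fin 2) (Fin 2) (PadicAlgCl p) →+ Matrix (Fin 2) (Fin 2) (PadicAlgCl p) :=
  tw (algebraMap (QQ p) (PadicAlgCl p)) act m g

/-- the twisted action on matrices of algebraic numbers -/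
noncomputable def twQ (m : H → Matrix (Fin 2) (Fin 2) (QQ p)) (g : H) :
    Matrix (Fin 2) (Fin 2) (QQ p) →+ Matrix (Fin 2) (Fin 2) (QQ p) :=
  tw (RingHom.id (QQ p)) res m g

theorem twC_mul (hs : Sys H t m lam) (ht : ¬ IsAlgebraic ℚ t) (g h : H)
    (A : Matrix (Fin 2) (Fin 2) (PadicAlgCl p)) :
    twC m (g * h) A = twC m g (twC m h A) :=
  tw_mul _ _ (fun _ _ => rfl) (fun _ _ _ => rfl) m hs.det (hs.coc ht) g h A

theorem twQ_mul (hs : Sys H t m lam) (ht : ¬ IsAlgebraic ℚ t) (g h : H)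
    (A : Matrix (Fin 2) (Fin 2) (QQ p)) :
    twQ m (g * h) A = twQ m g (twQ m h A) :=
  tw_mul _ _ (fun _ _ => rfl) (fun _ _ _ => rfl) m hs.det (hs.coc ht) g h A

theorem twC_of_fix (hs : Sys H t m lam) (ht : ¬ IsAlgebraic ℚ t) (g : H)
    (hg : (g : GG p) t = t) (A : Matrix (Fin 2) (Fin 2) (PadicAlgCl p)) :
    twC m g A = A.map (g : GG p) := by
  obtain ⟨c, hc, h⟩ := hs.scalar ht g hg
  exact tw_of_scalar _ _ m g c hc h A

theorem twQ_of_fix (hs : Sys H t m lam) (ht : ¬ IsAlgebraic ℚ t) (g : H)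
    (hg : (g : GG p) t = t) (A : Matrix (Fin 2) (Fin 2) (QQ p)) :
    twQ m g A = A.map (res (g : GG p)) := by
  obtain ⟨c, hc, h⟩ := hs.scalar ht g hg
  exact tw_of_scalar _ _ m g c hc h A

theorem twC_mp (g : H) (A : Matrix (Fin 2) (Fin 2) (QQ p)) :
    twC m g (mp A) = mp (twQ m g A) := by
  have h1 : twQ m g A = (m g)⁻¹ * A.map (res (g : GG p)) * m g := by
    unfold twQ
    rw [tw_apply]
    rfl
  rw [h1, mp_mul, mp_mul]
  rfl

theorem Sys.inv_eq (hs : Sys H t m lam) (g : H) :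
    mp ((m g)⁻¹) *ᵥ vv ((g : GG p) t) = (lam g)⁻¹ • vv t := by
  have h1 : vv ((g : GG p) t) = (lam g)⁻¹ • (mp (m g) *ᵥ vv t) := by
    rw [hs.eq g, smul_smul, inv_mul_cancel₀ (hs.ne g), one_smul]
  rw [h1, mulVec_smul, mulVec_mulVec, ← mp_mul,
    nonsing_inv_mul _ (isUnit_iff_ne_zero.2 (hs.det g)), mp_one, one_mulVec]

/-- the matrices with image in the line of `(t, 1)` -/
def colSp (t : PadicAlgCl p) : Submodule (PadicAlgCl p) (Matrix (Fin 2) (Fin 2) (PadicAlgCl p)) where
  carrier := {A | ∃ w : Fin 2 → PadicAlgCl p, A = vecMulVec (vv t) w}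
  zero_mem' := ⟨0, by ext; simp [vecMulVec_apply]⟩
  add_mem' := by
    rintro _ _ ⟨w, rfl⟩ ⟨w', rfl⟩
    exact ⟨w + w', by ext; simp [vecMulVec_apply, mul_add]⟩
  smul_mem' := by
    rintro c _ ⟨w, rfl⟩
    exact ⟨c • w, by ext; simp [vecMulVec_apply]; ring⟩

theorem twC_colSp (hs : Sys H t m lam) (g : H) :
    ∀ A ∈ colSp t, twC m g A ∈ colSp t := by
  rintro _ ⟨w, rfl⟩
  have h1 : (vecMulVec (vv t) w).map (act (g : GG p)) =
      vecMulVec (vv ((g : GG p) t)) (fun i => (g : GG p) (w i)) := by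
    ext i k
    rw [map_apply, vecMulVec_apply, vecMulVec_apply, map_mul]
    congr 1
    fin_cases i
    · rfl
    · exact map_one _
  have h2 : twC m g (vecMulVec (vv t) w) = mp ((m g)⁻¹) *
      vecMulVec (vv ((g : GG p) t)) (fun i => (g : GG p) (w i)) * mp (m g) := by
    rw [← h1]
    rfl
  rw [h2, mul_vecMulVec, vecMulVec_mul, hs.inv_eq g]
  exact ⟨(lam g)⁻¹ • ((fun i => (g : GG p) (w i)) ᵥ* mp (m g)), by
    ext i k
    rw [vecMulVec_apply, vecMulVec_apply, Pi.smul_apply, Pi.smul_apply, smul_eq_mul, smul_eq_mul]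
    ring⟩

/-- an invariant matrix with image in the line of `(t, 1)` and nonzero trace -/
theorem exists_inv_col (hs : Sys H t m lam) (ht : ¬ IsAlgebraic ℚ t) :
    ∃ A : Matrix (Fin 2) (Fin 2) (PadicAlgCl p), A ∈ colSp t ∧ (∀ g, twC m g A = A) ∧
      A.trace ≠ 0 := by
  have h1 := descent (G := H) (k := PadicAlgCl p) (W := Matrix (Fin 2) (Fin 2) (PadicAlgCl p))
    (fun g => act (g : GG p)) (fun g h x => rfl) (fun x => rfl) (fun g => twC m g)
    (fun g h A => twC_mul hs ht g h A)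
    (fun A => by
      rw [twC_of_fix hs ht 1 rfl]
      ext i k
      rfl)
    (fun g c A => tw_smul _ _ m g c A) (colSp t) (fun g A hA => twC_colSp hs g A hA)
    t (finite_range_aut H t) (vecMulVec (vv t) ![1, 0]) ⟨_, rfl⟩
    (fun g hg => by
      rw [twC_of_fix hs ht g hg]
      ext i k
      rw [map_apply, vecMulVec_apply, map_mul]
      have hg' : (g : GG p) t = t := hg
      fin_cases i <;> fin_cases k <;> simp [vv, hg'])
  by_contra hcon
  push Not at hcon
  have h2 : Submodule.span (PadicAlgCl p)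
      {x | x ∈ colSp t ∧ ∀ g : H, twC m g x = x} ≤
      LinearMap.ker (Matrix.traceLinearMap (Fin 2) (PadicAlgCl p) (PadicAlgCl p)) := by
    rw [Submodule.span_le]
    rintro x ⟨hx1, hx2⟩
    rw [SetLike.mem_coe, LinearMap.mem_ker]
    exact hcon x hx1 hx2
  have h3 := h2 h1
  rw [LinearMap.mem_ker] at h3
  have h4 : (vecMulVec (vv t) ![1, 0] : Matrix (Fin 2) (Fin 2) (PadicAlgCl p)).trace = 0 := h3
  rw [trace_fin_two, vecMulVec_apply, vecMulVec_apply] at h4
  simp [vv] at h4
  rw [h4] at ht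
  exact ht isAlgebraic_zero

/-- the invariant matrices of algebraic numbers span -/
theorem span_inv (hs : Sys H t m lam) (ht : ¬ IsAlgebraic ℚ t) :
    Submodule.span (QQ p) {A : Matrix (Fin 2) (Fin 2) (QQ p) | ∀ g, twQ m g A = A} = ⊤ := by
  obtain ⟨b, hb, -, hbt⟩ := exists_algebraic_near t one_pos
  rw [eq_top_iff]
  intro A _
  rw [matrix_eq_sum_single A]
  refine Submodule.sum_mem _ fun i _ => Submodule.sum_mem _ fun k _ => ?_
  have h1 := descent (G := H) (k := QQ p) (W := Matrix (Fin 2) (Fin 2) (QQ p))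
    (fun g => res (g : GG p)) (fun g h x => res_mul _ _ x) (fun x => res_one x)
    (fun g => twQ m g) (fun g h A => twQ_mul hs ht g h A)
    (fun A => by
      rw [twQ_of_fix hs ht 1 rfl]
      ext i k
      rfl)
    (fun g c A => tw_smul _ _ m g c A) ⊤ (fun g A hA => Submodule.mem_top)
    ⟨b, mem_QQ.2 hb⟩ (finite_range_res _ _) (Matrix.single i k 1) Submodule.mem_top
    (fun g hg => by
      have h2 : (g : GG p) b = b := congrArg Subtype.val hg
      have h3 : t ∈ ℚ_[p]⟮b⟯ := by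
        rw [hbt]
        exact mem_adjoin_simple_self _ t
      rw [twQ_of_fix hs ht g (fixed_of_adjoin h3 h2)]
      ext i' k'
      rw [map_apply]
      by_cases h4 : i = i' ∧ k = k'
      · obtain ⟨rfl, rfl⟩ := h4
        simp
      · rw [single_apply_of_ne _ _ _ _ _ h4, map_zero])
  have h5 : Matrix.single i k (A i k) = A i k • Matrix.single i k (1 : QQ p) := by
    rw [smul_single, smul_eq_mul, mul_one]
  rw [h5]
  refine Submodule.smul_mem _ _ (Submodule.span_mono ?_ h1)
  rintro x ⟨-, hx⟩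
  exact hx

end sys

end Run7.h788
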