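import Pool.Agent.Run7.h788.Moduli

/-!
# Fractional linear transformations: the field of moduli is a field of definition (end of the proof)
-/

set_option autoImplicit false

namespace Run7.h788

open Polynomial IntermediateField Matrix

variable {p : ℕ} [Fact p.Prime]

instance : IsAlgClosed (QQ p) := (algebraicClosure.isAlgClosure ℚ (PadicAlgCl p)).isAlgClosed

theorem norm_aut' (σ : GG p) (x : PadicAlgCl p) : ‖σ x‖ = ‖x‖ := by
  rw [← PadicAlgCl.spectralNorm_eq, ← PadicAlgCl.spectralNorm_eq]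
  exact (spectralNorm_eq_of_equiv σ x).symm

/-- a square root near an element of `E` lies in `E` -/
theorem sqrt_mem (E : IntermediateField ℚ_[p] (PadicAlgCl p)) {s r : PadicAlgCl p} (hs : s ∈ E)
    (h : ‖r ^ 2 - s ^ 2‖ < ‖2 * s‖ ^ 2) (hr : r ^ 2 ∈ E) : r ∈ E := by
  -- choose the sign
  have key : ∀ r : PadicAlgCl p, ‖r ^ 2 - s ^ 2‖ < ‖2 * s‖ ^ 2 → r ^ 2 ∈ E →
      ‖r - s‖ < ‖2 * s‖ → r ∈ E := by
    intro r _ hr hlt
    apply mem_of_fixed
    intro g hg
    have h1 : (g r) ^ 2 = r ^ 2 := by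
      rw [← map_pow]
      exact fixed_of_mem E hr hg
    rcases sq_eq_sq_iff_eq_or_eq_neg.1 h1 with h2 | h2
    · exact h2
    · exfalso
      have h3 : ‖-r - s‖ = ‖r - s‖ := by
        rw [← h2, ← norm_aut' g (r - s), map_sub, fixed_of_mem E hs hg]
      have h4 : (2 : PadicAlgCl p) * s = -((-r - s) + (r - s)) := by ring
      have h5 : ‖2 * s‖ ≤ max ‖-r - s‖ ‖r - s‖ := by
        rw [h4, norm_neg]
        exact IsUltrametricDist.norm_add_le_max _ _
      rw [h3, max_self] at h5
      linarith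
  by_cases h1 : ‖r - s‖ < ‖2 * s‖
  · exact key r h hr h1
  · have h2 : ‖-r - s‖ < ‖2 * s‖ := by
      by_contra h3
      push Not at h1 h3
      have h4 : r ^ 2 - s ^ 2 = -((r - s) * (-r - s)) := by ring
      rw [h4, norm_neg, norm_mul] at h
      have h5 : ‖2 * s‖ ^ 2 ≤ ‖r - s‖ * ‖-r - s‖ := by
        rw [sq]
        exact mul_le_mul h1 h3 (norm_nonneg _) (norm_nonneg _)
      linarith
    have h3 := key (-r) (by rw [neg_sq]; exact h) (by rw [neg_sq]; exact hr) h2
    have h4 := E.neg_mem h3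
    rwa [neg_neg] at h4

section sys

variable {H : Subgroup (GG p)} {t : PadicAlgCl p} {m : H → Matrix (Fin 2) (Fin 2) (QQ p)}
  {lam : H → PadicAlgCl p}

theorem trace_tw {F : Type} [Field F] (j : QQ p →+* F) (τ : GG p → F →+* F)
    (hs : Sys H t m lam) (g : H) (A : Matrix (Fin 2) (Fin 2) F) :
    (tw j τ m g A).trace = τ g A.trace := by
  rw [tw_apply, Matrix.mul_assoc, Matrix.trace_mul_comm, Matrix.mul_assoc, ← Matrix.map_mul,
    mul_nonsing_inv _ (isUnit_iff_ne_zero.2 (hs.det g))]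
  have h1 : (1 : Matrix (Fin 2) (Fin 2) (QQ p)).map j = 1 := by simp
  rw [h1, mul_one, trace_fin_two, trace_fin_two, map_add]
  rfl

theorem det_tw {F : Type} [Field F] (j : QQ p →+* F) (τ : GG p → F →+* F)
    (hs : Sys H t m lam) (g : H) (A : Matrix (Fin 2) (Fin 2) F) :
    (tw j τ m g A).det = τ g A.det := by
  rw [tw_apply, det_mul_right_comm, ← Matrix.map_mul,
    nonsing_inv_mul _ (isUnit_iff_ne_zero.2 (hs.det g))]
  have h1 : (1 : Matrix (Fin 2) (Fin 2) (QQ p)).map j = 1 := by simp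
  rw [h1, one_mul, det_fin_two, det_fin_two, map_sub, map_mul, map_mul]
  rfl

theorem mp_sum {ι : Type*} (s : Finset ι) (c : ι → QQ p) (d : ι → Matrix (Fin 2) (Fin 2) (QQ p)) :
    mp (∑ i ∈ s, c i • d i) = ∑ i ∈ s, (c i : PadicAlgCl p) • mp (d i) := by
  ext i k
  simp only [mp, map_apply, Matrix.sum_apply, Matrix.smul_apply, map_sum]
  refine Finset.sum_congr rfl fun a _ => ?_
  rw [smul_eq_mul, map_mul]
  rfl

end sys

/-- an invariant matrix of algebraic numbers of rank one -/
theorem exists_inv_rank (E : IntermediateField ℚ_[p] (PadicAlgCl p)) {t : PadicAlgCl p}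
    {m : E.fixingSubgroup → Matrix (Fin 2) (Fin 2) (QQ p)} {lam : E.fixingSubgroup → PadicAlgCl p}
    (hs : Sys E.fixingSubgroup t m lam) (ht : ¬ IsAlgebraic ℚ t) :
    ∃ B : Matrix (Fin 2) (Fin 2) (QQ p), B ≠ 0 ∧ B.det = 0 ∧ ∀ g, twQ m g B = B := by
  classical
  obtain ⟨A, hAcol, hAfix, hAtr⟩ := exists_inv_col hs ht
  obtain ⟨b, hbD, hbspan, hbli⟩ := exists_linearIndependent (QQ p)
    {A : Matrix (Fin 2) (Fin 2) (QQ p) | ∀ g, twQ m g A = A}
  rw [span_inv hs ht] at hbspan
  have hbfin : b.Finite := hbli.setFinite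
  let : Fintype b := hbfin.fintype
  have hcard : Fintype.card b = 4 := by
    have h1 := Module.finrank_eq_card_basis (Module.Basis.mk hbli (by
      rw [Subtype.range_coe, hbspan]))
    rw [← h1, Module.finrank_matrix]
    simp
  -- the same matrices over the closure of `ℚ_p`
  have hspanC : ⊤ ≤ Submodule.span (PadicAlgCl p)
      (Set.range fun i : b => mp (i : Matrix (Fin 2) (Fin 2) (QQ p))) := by
    have h1 : ∀ X : Matrix (Fin 2) (Fin 2) (QQ p), mp X ∈ Submodule.span (PadicAlgCl p)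
        (Set.range fun i : b => mp (i : Matrix (Fin 2) (Fin 2) (QQ p))) := by
      intro X
      have hX : X ∈ Submodule.span (QQ p) b := by
        rw [hbspan]
        exact Submodule.mem_top
      induction hX using Submodule.span_induction with
      | mem x hx => exact Submodule.subset_span ⟨⟨x, hx⟩, rfl⟩
      | zero =>
        have : mp (0 : Matrix (Fin 2) (Fin 2) (QQ p)) = 0 := by
          ext i k
          simp [mp]
        rw [this]
        exact Submodule.zero_mem _
      | add x y _ _ hx hy =>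
        have : mp (x + y) = mp x + mp y := by
          ext i k
          simp [mp]
        rw [this]
        exact Submodule.add_mem _ hx hy
      | smul c x _ hx =>
        have : mp (c • x) = (c : PadicAlgCl p) • mp x := by
          ext i k
          simp only [mp, map_apply, Matrix.smul_apply, smul_eq_mul, map_mul]
          rfl
        rw [this]
        exact Submodule.smul_mem _ _ hx
    intro X _
    rw [matrix_eq_sum_single X]
    refine Submodule.sum_mem _ fun i _ => Submodule.sum_mem _ fun k _ => ?_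
    have h2 : Matrix.single i k (X i k) = X i k • mp (Matrix.single i k (1 : QQ p)) := by
      ext i' k'
      by_cases h4 : i = i' ∧ k = k'
      · obtain ⟨rfl, rfl⟩ := h4
        simp [mp]
      · simp [mp, single_apply_of_ne _ _ _ _ _ h4]
    rw [h2]
    exact Submodule.smul_mem _ _ (h1 _)
  have hliC : LinearIndependent (PadicAlgCl p)
      (fun i : b => mp (i : Matrix (Fin 2) (Fin 2) (QQ p))) := by
    refine linearIndependent_of_top_le_span_of_card_eq_finrank hspanC ?_
    rw [hcard, Module.finrank_matrix]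
    simp
  obtain ⟨e, he⟩ := (Submodule.mem_span_range_iff_exists_fun _).1 (hspanC (Submodule.mem_top :
    A ∈ (⊤ : Submodule (PadicAlgCl p) _)))
  have heE : ∀ i, e i ∈ E := by
    intro i
    apply mem_of_fixed
    intro g hg
    have h1 := hAfix ⟨g, hg⟩
    rw [← he, map_sum] at h1
    have h2 : ∑ i, (g (e i) - e i) • mp (i : Matrix (Fin 2) (Fin 2) (QQ p)) = 0 := by
      have h3 : ∀ i : b, twC m ⟨g, hg⟩ (e i • mp (i : Matrix (Fin 2) (Fin 2) (QQ p))) =
          g (e i) • mp (i : Matrix (Fin 2) (Fin 2) (QQ p)) := by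
        intro i
        have h4 : twC m ⟨g, hg⟩ (e i • mp (i : Matrix (Fin 2) (Fin 2) (QQ p))) =
            g (e i) • twC m ⟨g, hg⟩ (mp (i : Matrix (Fin 2) (Fin 2) (QQ p))) :=
          tw_smul _ _ m ⟨g, hg⟩ (e i) _
        rw [h4, twC_mp, hbD i.2 ⟨g, hg⟩]
      rw [Finset.sum_congr rfl fun i _ => h3 i] at h1
      simp only [sub_smul, Finset.sum_sub_distrib]
      rw [h1, sub_self]
    exact sub_eq_zero.1 (Fintype.linearIndependent_iff.1 hliC _ h2 i)
  -- approximation
  let M : (b → PadicAlgCl p) → Matrix (Fin 2) (Fin 2) (PadicAlgCl p) :=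
    fun x => ∑ i, x i • mp (i : Matrix (Fin 2) (Fin 2) (QQ p))
  have hMc : Continuous M :=
    continuous_finsetSum _ fun i _ => (continuous_apply i).smul continuous_const
  let F : (b → PadicAlgCl p) → PadicAlgCl p := fun x => (M x).trace ^ 2 - 4 * (M x).det
  have hFc : Continuous F :=
    ((hMc.matrix_trace).pow 2).sub (continuous_const.mul hMc.matrix_det)
  have hMe : M e = A := he
  have hdetA : A.det = 0 := by
    obtain ⟨w, rfl⟩ := hAcol
    rw [det_fin_two, vecMulVec_apply, vecMulVec_apply, vecMulVec_apply, vecMulVec_apply]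
    ring
  have hFe : F e = A.trace ^ 2 := by
    change (M e).trace ^ 2 - 4 * (M e).det = _
    rw [hMe, hdetA]
    ring
  have h2s : (0 : ℝ) < ‖2 * A.trace‖ ^ 2 := by
    have : (2 : PadicAlgCl p) * A.trace ≠ 0 := mul_ne_zero two_ne_zero hAtr
    have := norm_pos_iff.2 this
    positivity
  obtain ⟨δ, hδ, hδF⟩ := Metric.continuous_iff.1 hFc e _ h2s
  choose β hβalg hβnear hβadj using fun i : b => exists_algebraic_near (e i) hδ
  have hβE : ∀ i, β i ∈ E := by
    intro i
    have h1 : β i ∈ ℚ_[p]⟮e i⟯ := by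
      rw [← hβadj i]
      exact mem_adjoin_simple_self _ _
    have h2 : ℚ_[p]⟮e i⟯ ≤ E := by
      rw [adjoin_simple_le_iff]
      exact heE i
    exact h2 h1
  let β' : b → QQ p := fun i => ⟨β i, mem_QQ.2 (hβalg i)⟩
  obtain ⟨A', hA'⟩ : ∃ A' : Matrix (Fin 2) (Fin 2) (QQ p),
      A' = ∑ i, β' i • (i : Matrix (Fin 2) (Fin 2) (QQ p)) := ⟨_, rfl⟩
  have hmpA' : mp A' = M β := by
    rw [hA', mp_sum]
  have hA'fix : ∀ g, twQ m g A' = A' := by
    intro g
    rw [hA', map_sum]
    refine Finset.sum_congr rfl fun i _ => ?_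
    have h1 : twQ m g (β' i • (i : Matrix (Fin 2) (Fin 2) (QQ p))) =
        res (g : GG p) (β' i) • twQ m g (i : Matrix (Fin 2) (Fin 2) (QQ p)) :=
      tw_smul _ _ m g (β' i) _
    have h2 : res (g : GG p) (β' i) = β' i := Subtype.ext (fixed_of_mem E (hβE i) g.2)
    rw [h1, h2, hbD i.2 g]
  have htrfix : ∀ g : E.fixingSubgroup, res (g : GG p) A'.trace = A'.trace := by
    intro g
    have h1 := trace_tw (RingHom.id (QQ p)) res hs g A'
    have h2 : tw (RingHom.id (QQ p)) res m g A' = A' := hA'fix g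
    rw [h2] at h1
    exact h1.symm
  have hdetfix : ∀ g : E.fixingSubgroup, res (g : GG p) A'.det = A'.det := by
    intro g
    have h1 := det_tw (RingHom.id (QQ p)) res hs g A'
    have h2 : tw (RingHom.id (QQ p)) res m g A' = A' := hA'fix g
    rw [h2] at h1
    exact h1.symm
  have hsE : A.trace ∈ E := by
    apply mem_of_fixed
    intro g hg
    have h1 := trace_tw (algebraMap (QQ p) (PadicAlgCl p)) act hs ⟨g, hg⟩ A
    have h2 : tw (algebraMap (QQ p) (PadicAlgCl p)) act m ⟨g, hg⟩ A = A := hAfix ⟨g, hg⟩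
    rw [h2] at h1
    exact h1.symm
  obtain ⟨r, hr⟩ := IsAlgClosed.exists_pow_nat_eq (A'.trace ^ 2 - 4 * A'.det) two_pos
  have hrF : (r : PadicAlgCl p) ^ 2 = F β := by
    change _ = (M β).trace ^ 2 - 4 * (M β).det
    rw [← hmpA']
    have h1 : (mp A').trace = (A'.trace : PadicAlgCl p) := by
      rw [trace_fin_two, trace_fin_two]
      rfl
    have h2 : (mp A').det = (A'.det : PadicAlgCl p) := by
      rw [det_fin_two, det_fin_two]
      rfl
    rw [h1, h2]
    have h3 := congrArg (algebraMap (QQ p) (PadicAlgCl p)) hr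
    rw [map_pow, map_sub, map_mul, map_pow, map_ofNat] at h3
    exact h3
  have hnear : ‖(r : PadicAlgCl p) ^ 2 - A.trace ^ 2‖ < ‖2 * A.trace‖ ^ 2 := by
    rw [hrF, ← hFe, ← dist_eq_norm]
    apply hδF
    rw [dist_pi_lt_iff hδ]
    intro i
    rw [dist_comm, dist_eq_norm]
    exact hβnear i
  have hr2E : (r : PadicAlgCl p) ^ 2 ∈ E := by
    apply mem_of_fixed
    intro g hg
    have h1 : res g (r ^ 2) = r ^ 2 := by
      rw [hr, map_sub, map_mul, map_pow, htrfix ⟨g, hg⟩, hdetfix ⟨g, hg⟩, map_ofNat]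
    exact congrArg Subtype.val h1
  have hrE : (r : PadicAlgCl p) ∈ E := sqrt_mem E hsE hnear hr2E
  obtain ⟨μ, hμ⟩ : ∃ μ : QQ p, μ = (A'.trace - r) / 2 := ⟨_, rfl⟩
  have hμfix : ∀ g : E.fixingSubgroup, res (g : GG p) μ = μ := by
    intro g
    have h1 : res (g : GG p) r = r := Subtype.ext (fixed_of_mem E hrE g.2)
    rw [hμ, map_div₀, map_sub, htrfix g, h1, map_ofNat]
  refine ⟨A' - μ • 1, ?_, ?_, ?_⟩
  · intro h0
    have h1 : A' = μ • 1 := sub_eq_zero.1 h0
    have h2 : A'.trace = 2 * μ := by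
      rw [h1, trace_fin_two]
      simp
      ring
    have h3 : r = 0 := by
      rw [h2] at hμ
      have h4 : (2 : QQ p) ≠ 0 := two_ne_zero
      field_simp at hμ
      linear_combination hμ
    rw [h3] at hnear
    rw [ZeroMemClass.coe_zero, zero_pow two_ne_zero, zero_sub, norm_neg, norm_pow, norm_mul,
      mul_pow] at hnear
    have h4 : ‖(2 : PadicAlgCl p)‖ ≤ 1 := by
      have h5 := IsUltrametricDist.norm_add_le_max (1 : PadicAlgCl p) 1
      rw [norm_one, max_self, one_add_one_eq_two] at h5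
      exact h5
    have h5 : ‖(2 : PadicAlgCl p)‖ ^ 2 ≤ 1 := pow_le_one₀ (norm_nonneg _) h4
    have h6 : ‖(2 : PadicAlgCl p)‖ ^ 2 * ‖A.trace‖ ^ 2 ≤ 1 * ‖A.trace‖ ^ 2 :=
      mul_le_mul_of_nonneg_right h5 (by positivity)
    linarith
  · have h1 : (A' - μ • (1 : Matrix (Fin 2) (Fin 2) (QQ p))).det =
        A'.det - μ * A'.trace + μ ^ 2 := by
      rw [det_fin_two, det_fin_two, trace_fin_two]
      simp
      ring
    rw [h1, hμ]
    have h2 : A'.det = (A'.trace ^ 2 - r ^ 2) / 4 := by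
      rw [hr]
      ring
    rw [h2]
    ring
  · intro g
    have h1 : twQ m g (μ • (1 : Matrix (Fin 2) (Fin 2) (QQ p))) =
        res (g : GG p) μ • twQ m g (1 : Matrix (Fin 2) (Fin 2) (QQ p)) :=
      tw_smul _ _ m g μ _
    have h2 : twQ m g (1 : Matrix (Fin 2) (Fin 2) (QQ p)) = 1 := by
      have h3 : twQ m g (1 : Matrix (Fin 2) (Fin 2) (QQ p)) =
          (m g)⁻¹ * (1 : Matrix (Fin 2) (Fin 2) (QQ p)).map (res (g : GG p)) * m g := by
        unfold twQ
        rw [tw_apply]
        rfl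
      have h4 : (1 : Matrix (Fin 2) (Fin 2) (QQ p)).map (res (g : GG p)) = 1 := by
        ext i k
        by_cases hik : i = k
        · subst hik; simp
        · simp [hik]
      rw [h3, h4, mul_one, nonsing_inv_mul _ (isUnit_iff_ne_zero.2 (hs.det g))]
    rw [map_sub, hA'fix g, h1, h2, hμfix g]

end Run7.h788
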