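import Pool.Agent.Run7.h788.Moduli2

/-!
# Fractional linear transformations: the field of moduli is a field of definition
-/

set_option autoImplicit false

namespace Run7.h788

open Polynomial IntermediateField Matrix

variable {p : ℕ} [Fact p.Prime]

/-- a nonzero singular matrix is a product of a column and a row -/
theorem exists_vecMulVec {F : Type} [Field F] (B : Matrix (Fin 2) (Fin 2) F) (hB : B ≠ 0)
    (hdet : B.det = 0) : ∃ z y : Fin 2 → F, z ≠ 0 ∧ y ≠ 0 ∧ B = vecMulVec z y := by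
  have hne : ∃ i k, B i k ≠ 0 := by
    by_contra hcon
    push Not at hcon
    exact hB (by ext i k; exact hcon i k)
  obtain ⟨i, k, hik⟩ := hne
  rw [det_fin_two] at hdet
  refine ⟨fun a => B a k / B i k, B i, ?_, ?_, ?_⟩
  · intro h
    have := congrFun h i
    simp [hik] at this
  · intro h
    exact hik (congrFun h k)
  · ext a c
    rw [vecMulVec_apply]
    field_simp
    fin_cases i <;> fin_cases k <;> fin_cases a <;> fin_cases c <;> simp <;>
      first | linear_combination hdet | linear_combination -hdet | ring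

/-- the function `(x₀ t + x₁) / (y₀ t + y₁)` -/
noncomputable def phi (t : PadicAlgCl p) (y : Fin 2 → QQ p) :
    (Fin 2 → QQ p) →ₗ[QQ p] PadicAlgCl p where
  toFun x := ((x 0 : PadicAlgCl p) * t + x 1) / ((y 0 : PadicAlgCl p) * t + y 1)
  map_add' x x' := by
    rw [← add_div]
    congr 1
    simp only [Pi.add_apply]
    push_cast
    ring
  map_smul' c x := by
    have h1 : ∀ z : PadicAlgCl p, c • z = (c : PadicAlgCl p) * z := fun z => Algebra.smul_def c z
    rw [RingHom.id_apply, h1, ← mul_div_assoc]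
    congr 1
    simp only [Pi.smul_apply, smul_eq_mul]
    push_cast
    ring

theorem phi_apply (t : PadicAlgCl p) (y x : Fin 2 → QQ p) :
    phi t y x = ((x 0 : PadicAlgCl p) * t + x 1) / ((y 0 : PadicAlgCl p) * t + y 1) := rfl

/-- **The field of moduli is a field of definition.** -/
theorem moduli (E : IntermediateField ℚ_[p] (PadicAlgCl p)) {t : PadicAlgCl p}
    (ht : ¬ IsAlgebraic ℚ t) (h : ∀ g : GG p, g ∈ E.fixingSubgroup → Mob t (g t)) :
    ∃ t' ∈ E, Mob t t' := by
  obtain ⟨m, lam, hs⟩ := exists_sys ht h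
  obtain ⟨B, hB, hdet, hfix⟩ := exists_inv_rank E hs ht
  obtain ⟨z, y, hz, hy, rfl⟩ := exists_vecMulVec B hB hdet
  -- the row `y` is invariant up to multiples
  have hrow : ∀ g : E.fixingSubgroup, ∃ c : QQ p, c ≠ 0 ∧
      (fun i => res (g : GG p) (y i)) ᵥ* m g = c • y := by
    intro g
    have h1 : (vecMulVec z y).map (res (g : GG p)) * m g = m g * vecMulVec z y := by
      have h2 : twQ m g (vecMulVec z y) =
          (m g)⁻¹ * (vecMulVec z y).map (res (g : GG p)) * m g := by
        unfold twQ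
        rw [tw_apply]
        rfl
      have h3 := hfix g
      rw [h2] at h3
      conv_rhs => rw [← h3]
      rw [← mul_assoc, ← mul_assoc, mul_nonsing_inv _ (isUnit_iff_ne_zero.2 (hs.det g)), one_mul]
    have h4 : (vecMulVec z y).map (res (g : GG p)) =
        vecMulVec (fun i => res (g : GG p) (z i)) (fun i => res (g : GG p) (y i)) := by
      ext i k
      rw [map_apply, vecMulVec_apply, vecMulVec_apply, map_mul]
    rw [h4, vecMulVec_mul, mul_vecMulVec] at h1
    obtain ⟨i, hi⟩ : ∃ i, z i ≠ 0 := by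
      by_contra hcon
      push Not at hcon
      exact hz (funext hcon)
    have hi' : res (g : GG p) (z i) ≠ 0 := (_root_.map_ne_zero _).2 hi
    have h5 : (fun i => res (g : GG p) (y i)) ᵥ* m g =
        ((m g *ᵥ z) i / res (g : GG p) (z i)) • y := by
      funext k
      have h6 := congrFun (congrFun h1 i) k
      rw [vecMulVec_apply, vecMulVec_apply] at h6
      rw [Pi.smul_apply, smul_eq_mul]
      field_simp
      linear_combination h6
    refine ⟨_, ?_, h5⟩
    intro h0
    rw [h0, zero_smul] at h5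
    have h7 : (fun i => res (g : GG p) (y i)) = 0 := by
      have h8 : ((fun i => res (g : GG p) (y i)) ᵥ* m g) ᵥ* (m g)⁻¹ = 0 := by
        rw [h5, zero_vecMul]
      rwa [vecMul_vecMul, mul_nonsing_inv _ (isUnit_iff_ne_zero.2 (hs.det g)), vecMul_one] at h8
    apply hy
    funext i
    have h9 := congrFun h7 i
    exact (map_eq_zero _).1 h9
  have hl : (y 0 : PadicAlgCl p) * t + y 1 ≠ 0 := by
    intro h0
    obtain ⟨h1, h2⟩ := lin_zero ht _ _ h0
    apply hy
    funext i
    fin_cases i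
    · exact h1
    · exact h2
  -- the plane of the functions `(x₀ t + x₁) / (y₀ t + y₁)` is stable
  have hstable : ∀ g : GG p, g ∈ E.fixingSubgroup → ∀ x ∈ LinearMap.range (phi t y),
      g x ∈ LinearMap.range (phi t y) := by
    rintro g hg _ ⟨x, rfl⟩
    obtain ⟨c, hc, hcy⟩ := hrow ⟨g, hg⟩
    have key : ∀ u : Fin 2 → QQ p, lam ⟨g, hg⟩ * g ((u 0 : PadicAlgCl p) * t + u 1) =
        ((((fun i => res g (u i)) ᵥ* m ⟨g, hg⟩) 0 : QQ p) : PadicAlgCl p) * t +
          (((fun i => res g (u i)) ᵥ* m ⟨g, hg⟩) 1 : QQ p) := by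
      intro u
      have h1 := hs.eq ⟨g, hg⟩
      rw [mulVec_vv] at h1
      have h2 := congrFun h1 0
      have h3 := congrFun h1 1
      change (m ⟨g, hg⟩ 0 0 : PadicAlgCl p) * t + (m ⟨g, hg⟩ 0 1 : QQ p) =
        lam ⟨g, hg⟩ * g t at h2
      change (m ⟨g, hg⟩ 1 0 : PadicAlgCl p) * t + (m ⟨g, hg⟩ 1 1 : QQ p) =
        lam ⟨g, hg⟩ * 1 at h3
      have h4 : (fun i => res g (u i)) ᵥ* m ⟨g, hg⟩ = fun k => res g (u 0) * m ⟨g, hg⟩ 0 k +
          res g (u 1) * m ⟨g, hg⟩ 1 k := by
        funext k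
        rw [vecMul, dotProduct, Fin.sum_univ_two]
      rw [h4, map_add, map_mul]
      push_cast
      rw [res_coe, res_coe]
      linear_combination (-(g (u 0 : PadicAlgCl p))) * h2 - (g (u 1 : PadicAlgCl p)) * h3
    refine ⟨c⁻¹ • ((fun i => res g (x i)) ᵥ* m ⟨g, hg⟩), ?_⟩
    rw [map_smul, phi_apply, phi_apply, map_div₀, Algebra.smul_def, ← key x]
    have h5 : (c : PadicAlgCl p) * ((y 0 : PadicAlgCl p) * t + y 1) =
        lam ⟨g, hg⟩ * g ((y 0 : PadicAlgCl p) * t + y 1) := by
      rw [key y, hcy]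
      simp only [Pi.smul_apply, smul_eq_mul]
      push_cast
      ring
    have h6 : (c : PadicAlgCl p) ≠ 0 := fun h0 => hc (Subtype.ext h0)
    have h7 : g ((y 0 : PadicAlgCl p) * t + y 1) ≠ 0 := (_root_.map_ne_zero _).2 hl
    have h8 : lam ⟨g, hg⟩ ≠ 0 := hs.ne _
    change ((c⁻¹ : QQ p) : PadicAlgCl p) * _ = _
    push_cast
    rw [inv_mul_eq_div, div_div, div_eq_div_iff (mul_ne_zero hl h6) h7]
    linear_combination (-(g ((x 0 : PadicAlgCl p) * t + x 1))) * h5
  have hdesc := descent_sub E (LinearMap.range (phi t y)) hstable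
  -- an element of `E` which is not algebraic
  have hex : ∃ x, x ∈ LinearMap.range (phi t y) ∧ x ∈ E ∧ ¬ IsAlgebraic ℚ x := by
    by_contra hcon
    push Not at hcon
    have h1 : LinearMap.range (phi t y) ≤ LinearMap.range (Algebra.linearMap (QQ p) _) := by
      rw [hdesc, Submodule.span_le]
      rintro x ⟨hx1, hx2⟩
      exact ⟨⟨x, mem_QQ.2 (hcon x hx1 hx2)⟩, rfl⟩
    obtain ⟨a, ha⟩ := h1 ⟨![1, 0], rfl⟩
    obtain ⟨b, hb⟩ := h1 ⟨![0, 1], rfl⟩
    rw [phi_apply] at ha hb
    simp only [cons_val_zero, cons_val_one, OneMemClass.coe_one, ZeroMemClass.coe_zero, one_mul,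
      add_zero, zero_mul, zero_add] at ha hb
    have ha' : (a : PadicAlgCl p) = t / ((y 0 : PadicAlgCl p) * t + y 1) := ha
    have hb' : (b : PadicAlgCl p) = 1 / ((y 0 : PadicAlgCl p) * t + y 1) := hb
    have hb0 : (b : PadicAlgCl p) ≠ 0 := by
      rw [hb']
      exact one_div_ne_zero hl
    have h2 : t = (a : PadicAlgCl p) / b := by
      rw [ha', hb', div_div_div_cancel_right₀ hl, div_one]
    apply ht
    rw [h2, div_eq_mul_inv]
    exact (mem_QQ.1 a.2).mul (mem_QQ.1 b.2).inv
  obtain ⟨_, ⟨x, rfl⟩, hxE, hxalg⟩ := hex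
  refine ⟨phi t y x, hxE, !![x 0, x 1; y 0, y 1], ?_, ?_⟩
  · intro h0
    rw [det_fin_two_of] at h0
    apply hxalg
    rw [phi_apply]
    obtain ⟨k, hk⟩ : ∃ k, y k ≠ 0 := by
      by_contra hcon
      push Not at hcon
      exact hy (funext hcon)
    have h1 : ((x 0 : PadicAlgCl p) * t + x 1) / ((y 0 : PadicAlgCl p) * t + y 1) =
        ((x k / y k : QQ p) : PadicAlgCl p) := by
      have h0' : (x 0 : PadicAlgCl p) * y 1 - x 1 * y 0 = 0 := by exact_mod_cast h0
      have hk' : (y k : PadicAlgCl p) ≠ 0 := fun h => hk (Subtype.ext h)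
      push_cast
      rw [div_eq_div_iff hl hk']
      fin_cases k
      · change ((x 0 : PadicAlgCl p) * t + x 1) * y 0 = x 0 * ((y 0 : PadicAlgCl p) * t + y 1)
        linear_combination -h0'
      · change ((x 0 : PadicAlgCl p) * t + x 1) * y 1 = x 1 * ((y 0 : PadicAlgCl p) * t + y 1)
        linear_combination t * h0'
    rw [h1]
    exact mem_QQ.1 (x k / y k).2
  · rw [phi_apply]
    change _ / _ * ((y 0 : PadicAlgCl p) * t + y 1) = (x 0 : PadicAlgCl p) * t + x 1
    rw [div_mul_cancel₀ _ hl]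

end Run7.h788
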