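import Pool.Agent.Run7.h788.RandMix

/-!
# Random points and logarithms against given numbers
-/

set_option autoImplicit false

namespace Run7.h788

open Module Finset MvPolynomial Pool.Agent.R350

section

variable {κ C : Type*} [Field κ] [Field C] [Algebra κ C] {σ τ : Type*} [Fintype σ] [Fintype τ]

/-- substitution of values for the first group of variables -/
noncomputable def subF (t : σ → C) (P : MvPolynomial (σ ⊕ τ) κ) : MvPolynomial τ C :=
  aeval (Sum.elim (fun i => MvPolynomial.C (t i)) MvPolynomial.X : σ ⊕ τ → MvPolynomial τ C) P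

omit [Fintype σ] [Fintype τ] in
theorem eval_subF (t : σ → C) (y : τ → C) (P : MvPolynomial (σ ⊕ τ) κ) :
    eval y (subF t P) = aeval (Sum.elim t y) P := by
  unfold subF
  have h : (eval y).comp (aeval (R := κ) (Sum.elim (fun i => MvPolynomial.C (t i))
      MvPolynomial.X : σ ⊕ τ → MvPolynomial τ C)).toRingHom =
      (aeval (R := κ) (Sum.elim t y)).toRingHom := by
    refine MvPolynomial.ringHom_ext (fun a => ?_) (fun i => ?_)
    · simp only [AlgHom.toRingHom_eq_coe, RingHom.coe_comp, RingHom.coe_coe, Function.comp_apply,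
        algHom_C]
      rw [MvPolynomial.algebraMap_apply, eval_C]
    · rcases i with i | i
      · simp
      · simp
  exact congrFun (congrArg DFunLike.coe h) P

theorem subF_spec (t : σ → C) (D : ℕ) (P : MvPolynomial (σ ⊕ τ) κ)
    (hP : ∀ i, P.degreeOf (Sum.inl i) ≤ D) :
    (∀ β, (subF t P).coeff β ∈ Submodule.span κ (Set.range (mons t D))) ∧
      ∀ β ∈ (subF t P).support, ∃ γ ∈ P.support, ∀ j, β j = γ (Sum.inr j) := by
  classical
  let e : (σ ⊕ τ →₀ ℕ) ≃ (σ →₀ ℕ) × (τ →₀ ℕ) := Finsupp.sumFinsuppEquivProdFinsupp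
  have e2 : ∀ γ j, (e γ).2 j = γ (Sum.inr j) := fun γ j => Finsupp.snd_sumFinsuppEquivProdFinsupp γ j
  have hform : subF t P = ∑ γ ∈ P.support,
      monomial (e γ).2 (algebraMap κ C (P.coeff γ) * ∏ i, t i ^ γ (Sum.inl i)) := by
    unfold subF
    conv_lhs => rw [MvPolynomial.as_sum P, map_sum]
    refine Finset.sum_congr rfl fun γ _ => ?_
    rw [aeval_monomial, Finsupp.prod_fintype _ _ (fun i => pow_zero _), Fintype.prod_sum_type,
      MvPolynomial.monomial_eq, Finsupp.prod_fintype _ _ (fun i => pow_zero _)]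
    simp only [Sum.elim_inl, Sum.elim_inr, e2, map_mul, map_prod, map_pow]
    rw [MvPolynomial.algebraMap_apply]
    ring
  have hcoef : ∀ β, (subF t P).coeff β = ∑ γ ∈ P.support.filter (fun γ => (e γ).2 = β),
      algebraMap κ C (P.coeff γ) * ∏ i, t i ^ γ (Sum.inl i) := by
    intro β
    rw [hform]
    simp only [coeff_sum, coeff_monomial]
    rw [Finset.sum_filter]
  constructor
  · intro β
    rw [hcoef]
    refine Submodule.sum_mem _ fun γ hγ => ?_
    rw [← Algebra.smul_def]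
    refine Submodule.smul_mem _ _ (Submodule.subset_span ?_)
    refine ⟨fun i => ⟨γ (Sum.inl i), Nat.lt_succ_of_le ?_⟩, rfl⟩
    have := hP i
    rw [degreeOf_eq_sup] at this
    exact (Finset.le_sup (f := fun m : σ ⊕ τ →₀ ℕ => m (Sum.inl i))
      (Finset.mem_filter.1 hγ).1).trans this
  · intro β hβ
    rw [MvPolynomial.mem_support_iff, hcoef] at hβ
    obtain ⟨γ, hγ, -⟩ := Finset.exists_ne_zero_of_sum_ne_zero hβ
    refine ⟨γ, (Finset.mem_filter.1 hγ).1, fun j => ?_⟩
    rw [← (Finset.mem_filter.1 hγ).2, e2]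

/-- `y` is independent modulo `F`, and every relation of degree at most `D` in every `z i`, `x i`, `y i`
which is linear in elements of `L` independent modulo `F` and `y` is a consequence of relations
between the `z i` -/
def NoNew (L F : Submodule κ C) (D : ℕ) {ι : Type*} (z : ι → C) (x : σ → C) {n : ℕ}
    (y : Fin n → C) : Prop :=
  (∀ c : Fin n → κ, ∑ i, c i • y i ∈ F → ∀ i, c i = 0) ∧
  ∀ (r : ℕ) (l : Fin r → C), (∀ j, l j ∈ L) →
    (∀ c : Fin r → κ, ∑ j, c j • l j ∈ F ⊔ Submodule.span κ (Set.range y) → ∀ j, c j = 0) →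
    ∀ P : MvPolynomial (ι ⊕ (σ ⊕ (Fin n ⊕ Fin r))) κ,
      (∀ i, P.degreeOf (Sum.inl i) ≤ D) → (∀ i, P.degreeOf (Sum.inr (Sum.inl i)) ≤ D) →
      (∀ i, P.degreeOf (Sum.inr (Sum.inr (Sum.inl i))) ≤ D) →
      (∀ β ∈ P.support, ∑ j, β (Sum.inr (Sum.inr (Sum.inr j))) ≤ 1) →
      aeval (Sum.elim z (Sum.elim x (Sum.elim y l))) P = 0 → subF z P = 0

theorem noNew_of {L F : Submodule κ C} {D : ℕ} {ι : Type*} [Fintype ι] {z : ι → C} {x : σ → C}
    {n : ℕ} {y : Fin n → C}
    (h : NoRelJ L (Submodule.span κ (Set.range (mons z D))) F D x y) : NoNew L F D z x y := by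
  refine ⟨h.1, fun r l hl hli P h0 h1 h2 h3 h4 => ?_⟩
  obtain ⟨g1, g2⟩ := subF_spec z D P h0
  refine h.2 r l hl hli (subF z P) g1 (fun i => degreeOf_of_support g2 (h1 i))
    (fun i => degreeOf_of_support g2 (h2 i)) ?_ ?_
  · intro β hβ
    obtain ⟨γ, hγ, hγ2⟩ := g2 β hβ
    simp only [hγ2]
    exact h3 γ hγ
  · rw [eval_subF]
    exact h4

end

theorem mons_bound {κ C : Type} [Field κ] [Field C] [Algebra κ C] {ι : Type} [Fintype ι]
    [DecidableEq ι] (z : ι → C) (D : ℕ) :
    Module.Finite κ (Submodule.span κ (Set.range (mons z D)) : Submodule κ C) ∧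
      finrank κ (Submodule.span κ (Set.range (mons z D)) : Submodule κ C) ≤
        (D + 1) ^ Fintype.card ι := by
  refine ⟨FiniteDimensional.span_of_finite _ (Set.finite_range _),
    (finrank_range_le_card _).trans ?_⟩
  rw [Fintype.card_fun, Fintype.card_fin]

/-- relations which are linear in independent numbers `v i` -/
theorem linear_of {κ C : Type*} [Field κ] [Field C] [Algebra κ C] {σ : Type*} [Fintype σ]
    {L F : Submodule κ C} {D N : ℕ} {v : Fin N → C}
    (hv : LinearIndependent κ v) {x : σ → C} {n : ℕ} {y : Fin n → C}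
    (h : NoRelJ L (Submodule.span κ (Set.range v)) F D x y) (r : ℕ) (l : Fin r → C)
    (hl : ∀ j, l j ∈ L)
    (hli : ∀ c : Fin r → κ, ∑ j, c j • l j ∈ F ⊔ Submodule.span κ (Set.range y) → ∀ j, c j = 0)
    (A : Fin N → MvPolynomial (σ ⊕ (Fin n ⊕ Fin r)) κ)
    (h1 : ∀ s i, (A s).degreeOf (Sum.inl i) ≤ D)
    (h2 : ∀ s i, (A s).degreeOf (Sum.inr (Sum.inl i)) ≤ D)
    (h3 : ∀ s, ∀ β ∈ (A s).support, ∑ j, β (Sum.inr (Sum.inr j)) ≤ 1)
    (h0 : ∑ s, v s * aeval (Sum.elim x (Sum.elim y l)) (A s) = 0) : ∀ s, A s = 0 := by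
  classical
  set P : MvPolynomial (σ ⊕ (Fin n ⊕ Fin r)) C :=
    ∑ s, MvPolynomial.C (v s) * MvPolynomial.map (algebraMap κ C) (A s) with hP
  have hco : ∀ β, P.coeff β = ∑ s, (A s).coeff β • v s := by
    intro β
    rw [hP, coeff_sum]
    refine Finset.sum_congr rfl fun s _ => ?_
    rw [coeff_C_mul, coeff_map, Algebra.smul_def, mul_comm]
  have hsupp : ∀ β ∈ P.support, ∃ s, β ∈ (A s).support := by
    intro β hβ
    rw [MvPolynomial.mem_support_iff, hco] at hβ
    obtain ⟨s, -, hs⟩ := Finset.exists_ne_zero_of_sum_ne_zero hβ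
    refine ⟨s, MvPolynomial.mem_support_iff.2 fun h4 => hs ?_⟩
    rw [h4, zero_smul]
  have hdeg : ∀ t : σ ⊕ (Fin n ⊕ Fin r), (∀ s, (A s).degreeOf t ≤ D) → P.degreeOf t ≤ D := by
    intro t ht
    rw [degreeOf_le_iff]
    intro β hβ
    obtain ⟨s, hs⟩ := hsupp β hβ
    exact (degreeOf_le_iff.1 (ht s)) β hs
  have hP0 : P = 0 := by
    refine h.2 r l hl hli P (fun β => ?_) (fun i => hdeg _ fun s => h1 s i)
      (fun i => hdeg _ fun s => h2 s i) (fun β hβ => ?_) ?_
    · rw [hco]
      exact Submodule.sum_mem _ fun s _ => Submodule.smul_mem _ _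
        (Submodule.subset_span (Set.mem_range_self s))
    · obtain ⟨s, hs⟩ := hsupp β hβ
      exact h3 s β hs
    · rw [← h0, hP, map_sum]
      refine Finset.sum_congr rfl fun s _ => ?_
      rw [map_mul, eval_C, eval_map, aeval_def]
  intro s
  refine MvPolynomial.ext _ _ fun β => ?_
  rw [coeff_zero]
  have h4 := hco β
  rw [hP0, coeff_zero] at h4
  exact Fintype.linearIndependent_iff.1 hv (fun s => (A s).coeff β) h4.symm s

theorem span_bound {κ C : Type*} [Field κ] [Field C] [Algebra κ C] {N : ℕ} (v : Fin N → C) :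
    Module.Finite κ (Submodule.span κ (Set.range v) : Submodule κ C) ∧
      finrank κ (Submodule.span κ (Set.range v) : Submodule κ C) ≤ N := by
  refine ⟨FiniteDimensional.span_of_finite _ (Set.finite_range _),
    (finrank_range_le_card _).trans ?_⟩
  rw [Fintype.card_fin]

end Run7.h788
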