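import Pool.Agent.R350.GV
import Pool.Agent.Y918.OL.Cube

/-!
# Random combinations of many elements have only formal relations, with exponentially few exceptions
-/

set_option autoImplicit false

namespace Run7.h788

open Module Finset MvPolynomial Pool.Agent.R350
open Pool.Agent.Y918.OL (cube_count li_dirs)

theorem ratCast_mul_mem {κ A : Type} [Field κ] [CharZero κ] [Field A] [CharZero A] [Algebra κ A]
    (V : Submodule κ A) {z : A} (hz : z ∈ V) (q : ℚ) : (q : A) * z ∈ V := by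
  have h := V.smul_mem (q : κ) hz
  rwa [Algebra.smul_def, map_ratCast] at h

open Classical in
/-- One random combination. -/
theorem rand_one (D m v : ℕ) : ∃ (k₀ C : ℕ) (δ : ℝ), 0 < δ ∧ ∀ k ≥ k₀,
    ∀ (κ A : Type) [Field κ] [CharZero κ] [Field A] [CharZero A] [Algebra κ A]
    (L Ω F : Submodule κ A), FiniteDimensional κ Ω → FiniteDimensional κ F → HypV v L →
    (1 : A) ∈ L → (1 : A) ∈ Ω → finrank κ Ω ≤ m → finrank κ F ≤ m →
    ∀ lam : Fin k → A, (∀ i, lam i ∈ L) → LinearIndependent κ lam →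
    ∀ X : Finset ℚ, X.Nonempty → ∀ ζ ∈ L,
    (((Fintype.piFinset fun _ : Fin k => X).filter (fun P =>
      ζ + ∑ i, (P i : A) * lam i ∈ F ∨ ¬ GD D L Ω (ζ + ∑ i, (P i : A) * lam i))).card : ℝ) ≤
      C * (X.card : ℝ) ^ ((k : ℝ) - δ * k) := by
  obtain ⟨r, hr⟩ := PD_all D m v
  obtain ⟨k₀, C, δ, hδ, h⟩ := cube_count r
  refine ⟨k₀, C, δ, hδ, fun k hk κ A _ _ _ _ _ L Ω F hΩf hFf hL h1L h1Ω hΩm hFm lam hlam hli X hX
    ζ hζ => ?_⟩
  have hmain := h k hk X hX (fun P =>
    ζ + ∑ i, (P i : A) * lam i ∈ F ∨ ¬ GD D L Ω (ζ + ∑ i, (P i : A) * lam i)) ?_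
  · convert hmain
  intro β u hu hd
  have hli' := li_dirs hli u hu hd
  obtain ⟨S, -, hS1, hS2⟩ := hr κ A L Ω F hΩf hFf hL h1L h1Ω hΩm hFm
    (ζ + ∑ s, (β s : A) * lam s)
    (L.add_mem hζ (L.sum_mem fun s _ => ratCast_mul_mem L (hlam s) _))
    (fun i => ∑ s, (u i s : A) * lam s)
    (fun i => L.sum_mem fun s _ => ratCast_mul_mem L (hlam s) _) hli'
  refine ⟨S, ?_⟩
  have he : ζ + ∑ i, ((β + ∑ i ∈ S, u i) i : A) * lam i =
      ζ + ∑ s, (β s : A) * lam s + ∑ i ∈ S, ∑ s, (u i s : A) * lam s := by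
    rw [add_assoc]
    congr 1
    rw [Finset.sum_comm, ← Finset.sum_add_distrib]
    refine Finset.sum_congr rfl fun s _ => ?_
    rw [Pi.add_apply, Finset.sum_apply]
    push_cast
    rw [add_mul, Finset.sum_mul]
  rw [he]
  rintro (h7 | h7)
  · exact hS1 h7
  · exact h7 hS2

open Classical in
/-- Random tuples. -/
theorem rand_free (D n : ℕ) : ∀ m v : ℕ, ∃ (k₀ C : ℕ) (δ : ℝ), 0 < δ ∧ ∀ k ≥ k₀,
    ∀ (κ A : Type) [Field κ] [CharZero κ] [Field A] [CharZero A] [Algebra κ A]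
    (L E : Submodule κ A), FiniteDimensional κ E → HypV v L →
    (1 : A) ∈ L → (1 : A) ∈ E → finrank κ E ≤ m →
    ∀ lam : Fin n → Fin k → A, (∀ j i, lam j i ∈ L) → (∀ j, LinearIndependent κ (lam j)) →
    ∀ X : Finset ℚ, X.Nonempty → ∀ ζ : Fin n → A, (∀ j, ζ j ∈ L) →
    (((Fintype.piFinset fun _ : Fin n => Fintype.piFinset fun _ : Fin k => X).filter (fun P =>
      ¬ FreeT D L E (fun j => ζ j + ∑ i, (P j i : A) * lam j i))).card : ℝ) ≤
      C * (X.card : ℝ) ^ ((n * k : ℝ) - δ * k) := by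
  induction n with
  | zero =>
    intro m v
    refine ⟨0, 0, 1, one_pos, fun k _ κ A _ _ _ _ _ L E _ _ _ _ _ lam _ _ X _ ζ _ => ?_⟩
    rw [Finset.filter_false_of_mem]
    · simp
    · intro P _
      rw [not_not]
      exact FreeT.nil D L E _
  | succ n ih =>
    intro m v
    obtain ⟨k₁, C₁, δ₁, hδ₁, h₁⟩ := rand_one D (m + (m * (m + v) * m + m)) v
    obtain ⟨k₂, C₂, δ₂, hδ₂, h₂⟩ := ih ((D + 1) * m) v
    refine ⟨max k₁ k₂, C₁ + C₂, min δ₁ δ₂, lt_min hδ₁ hδ₂,
      fun k hk κ A _ _ _ _ _ L E hE hL h1L h1 hm lam hlam hli Y hY ζ hζ => ?_⟩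
    obtain ⟨hf, hfr⟩ := suppI_bound hL E
    have hF : FiniteDimensional κ (suppI L E ⊔ E : Submodule κ A) := inferInstance
    have hFr : finrank κ (suppI L E ⊔ E : Submodule κ A) ≤ m + (m * (m + v) * m + m) := by
      refine (Submodule.finrank_add_le_finrank_add_finrank _ _).trans ?_
      have : finrank κ (suppI L E) ≤ m * (m + v) * m := hfr.trans (by gcongr)
      omega
    obtain ⟨a, ha⟩ : ∃ a : ℝ, a = (Y.card : ℝ) := ⟨_, rfl⟩
    have ha1 : 1 ≤ a := by
      rw [ha]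
      exact_mod_cast hY.card_pos
    have ha0 : 0 < a := by linarith
    set X : Finset (Fin k → ℚ) := Fintype.piFinset fun _ : Fin k => Y with hX
    have hXc : (X.card : ℝ) = a ^ (k : ℝ) := by
      rw [hX, Fintype.card_piFinset_const, ha]
      push_cast
      rw [Real.rpow_natCast]
    set bad : (Fin (n + 1) → Fin k → ℚ) → Prop := fun P =>
      ¬ FreeT D L E (fun j => ζ j + ∑ i, (P j i : A) * lam j i) with hbad
    set B := (Fintype.piFinset fun _ : Fin (n + 1) => X).filter bad with hB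
    set H := X.filter (fun P =>
      ζ 0 + ∑ i, (P i : A) * lam 0 i ∈ (suppI L E ⊔ E : Submodule κ A) ∨
        ¬ GD D L E (ζ 0 + ∑ i, (P i : A) * lam 0 i)) with hH
    have hHc : (H.card : ℝ) ≤ C₁ * a ^ ((k : ℝ) - δ₁ * k) := by
      rw [ha]
      exact h₁ k (le_trans (le_max_left _ _) hk) κ A L E (suppI L E ⊔ E) hE hF hL h1L h1 (by omega)
        hFr (lam 0) (hlam 0) (hli 0) Y hY (ζ 0) (hζ 0)
    have hfib : B.card = ∑ p ∈ X, (B.filter (fun P => P 0 = p)).card := by
      apply Finset.card_eq_sum_card_fiberwise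
      intro P hP
      exact Fintype.mem_piFinset.1 (Finset.mem_filter.1 hP).1 0
    set Yn : Finset (Fin n → Fin k → ℚ) := Fintype.piFinset fun _ => X with hYn
    have hYc : (Yn.card : ℝ) = a ^ (n * k : ℝ) := by
      rw [hYn, Fintype.card_piFinset_const]
      push_cast
      rw [hXc, ← Real.rpow_natCast, ← Real.rpow_mul ha0.le]
      congr 1
      ring
    have hinj : ∀ p, Set.InjOn (fun P : Fin (n + 1) → Fin k → ℚ => Fin.tail P)
        (B.filter (fun P => P 0 = p)) := by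
      intro p P hP P' hP' hPP
      rw [Finset.mem_coe, Finset.mem_filter] at hP hP'
      rw [← Fin.cons_self_tail P, ← Fin.cons_self_tail P', hP.2, hP'.2]
      exact congrArg _ hPP
    have hall : ∀ p ∈ X, ((B.filter (fun P => P 0 = p)).card : ℝ) ≤ a ^ (n * k : ℝ) := by
      intro p _
      rw [← hYc]
      apply Nat.cast_le.2
      refine Finset.card_le_card_of_injOn (fun P => Fin.tail P) ?_ (hinj p)
      intro P hP
      rw [Finset.mem_coe, Finset.mem_filter, hB, Finset.mem_filter] at hP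
      have h3 := Fintype.mem_piFinset.1 hP.1.1
      exact Fintype.mem_piFinset.2 (fun j => h3 j.succ)
    have hgood : ∀ p ∈ X, p ∉ H → ((B.filter (fun P => P 0 = p)).card : ℝ) ≤
        C₂ * a ^ ((n * k : ℝ) - δ₂ * k) := by
      intro p hp hpH
      have hg' : ¬ (ζ 0 + ∑ i, (p i : A) * lam 0 i ∈ (suppI L E ⊔ E : Submodule κ A) ∨
            ¬ GD D L E (ζ 0 + ∑ i, (p i : A) * lam 0 i)) := fun h => hpH (Finset.mem_filter.2
              ⟨hp, h⟩)
      push Not at hg'
      obtain ⟨hpf, hpr⟩ := polyU_bound (ζ 0 + ∑ i, (p i : A) * lam 0 i) E (D + 1)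
      have h4 := h₂ k (le_trans (le_max_right _ _) hk) κ A L
        (polyU (ζ 0 + ∑ i, (p i : A) * lam 0 i) E (D + 1)) hpf hL h1L (by
            have := pow_mul_mem_polyU (ζ 0 + ∑ i, (p i : A) * lam 0 i) E (l := 0) (n := D + 1)
              (by omega) h1
            rwa [pow_zero, one_mul] at this) (hpr.trans (by gcongr)) (fun j => lam j.succ)
        (fun j => hlam j.succ) (fun j => hli j.succ) Y hY (fun j => ζ j.succ)
        (fun j => hζ j.succ)
      rw [← ha] at h4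
      refine le_trans (Nat.cast_le.2 ?_) h4
      refine Finset.card_le_card_of_injOn (fun P => Fin.tail P) ?_ (hinj p)
      intro P hP
      rw [Finset.mem_coe, Finset.mem_filter, hB, Finset.mem_filter] at hP
      obtain ⟨⟨hPA, hTi⟩, hP0⟩ := hP
      have h6 := Fintype.mem_piFinset.1 hPA
      rw [Finset.mem_coe, Finset.mem_filter]
      refine ⟨Fintype.mem_piFinset.2 (fun j => h6 j.succ), ?_⟩
      intro hfree
      apply hTi
      have hval : (fun j => ζ j + ∑ i, (P j i : A) * lam j i) =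
          (Fin.cons (ζ 0 + ∑ i, (p i : A) * lam 0 i)
            (fun j => ζ j.succ + ∑ i, (Fin.tail P j i : A) * lam j.succ i) :
              Fin (n + 1) → A) := by
        funext i
        refine Fin.cases ?_ (fun i => ?_) i
        · rw [Fin.cons_zero, hP0]
        · rw [Fin.cons_succ]
          rfl
      rw [hval]
      exact FreeT.cons h1L
        (L.add_mem (hζ 0) (L.sum_mem fun s _ => ratCast_mul_mem L (hlam 0 s) _))
        (fun j => L.add_mem (hζ j.succ) (L.sum_mem fun s _ => ratCast_mul_mem L (hlam j.succ s) _))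
        h1 hg'.2 hg'.1 hfree
    rw [hfib, ← ha]
    push_cast
    rw [← Finset.sum_filter_add_sum_filter_not X (fun p => p ∈ H)]
    have h1 : ∑ p ∈ X.filter (fun p => p ∈ H), ((B.filter (fun P => P 0 = p)).card : ℝ) ≤
        C₁ * a ^ ((k : ℝ) - δ₁ * k) * a ^ (n * k : ℝ) := by
      refine (Finset.sum_le_sum (fun p hp => hall p (Finset.mem_filter.1 hp).1)).trans ?_
      rw [Finset.sum_const, nsmul_eq_mul]
      have h3 : ((X.filter (fun p => p ∈ H)).card : ℝ) ≤ (H.card : ℝ) := by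
        have h4 : (X.filter (fun p => p ∈ H)).card ≤ H.card := by
          refine Finset.card_le_card ?_
          intro p hp
          exact (Finset.mem_filter.1 hp).2
        exact_mod_cast h4
      exact mul_le_mul_of_nonneg_right (h3.trans hHc) (Real.rpow_nonneg ha0.le _)
    have h2 : ∑ p ∈ X.filter (fun p => ¬ p ∈ H), ((B.filter (fun P => P 0 = p)).card : ℝ) ≤
        a ^ (k : ℝ) * (C₂ * a ^ ((n * k : ℝ) - δ₂ * k)) := by
      refine (Finset.sum_le_sum (fun p hp => hgood p (Finset.mem_filter.1 hp).1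
        (Finset.mem_filter.1 hp).2)).trans ?_
      rw [Finset.sum_const, nsmul_eq_mul, ← hXc]
      have h3 : ((X.filter (fun p => ¬ p ∈ H)).card : ℝ) ≤ (X.card : ℝ) := by
        exact_mod_cast Finset.card_le_card (Finset.filter_subset _ _)
      exact mul_le_mul_of_nonneg_right h3 (by positivity)
    have hk0 : (0 : ℝ) ≤ k := Nat.cast_nonneg _
    have h3 : C₁ * a ^ ((k : ℝ) - δ₁ * k) * a ^ (n * k : ℝ) ≤
        C₁ * a ^ (((n : ℝ) + 1) * k - min δ₁ δ₂ * k) := by
      rw [mul_assoc, ← Real.rpow_add ha0]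
      apply mul_le_mul_of_nonneg_left _ (Nat.cast_nonneg _)
      apply Real.rpow_le_rpow_of_exponent_le ha1
      have := mul_le_mul_of_nonneg_right (min_le_left δ₁ δ₂) hk0
      linarith
    have h4 : a ^ (k : ℝ) * (C₂ * a ^ ((n * k : ℝ) - δ₂ * k)) ≤
        C₂ * a ^ (((n : ℝ) + 1) * k - min δ₁ δ₂ * k) := by
      rw [mul_left_comm, ← Real.rpow_add ha0]
      apply mul_le_mul_of_nonneg_left _ (Nat.cast_nonneg _)
      apply Real.rpow_le_rpow_of_exponent_le ha1
      have := mul_le_mul_of_nonneg_right (min_le_right δ₁ δ₂) hk0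
      linarith
    have h5 := add_le_add (h1.trans h3) (h2.trans h4)
    rw [← add_mul] at h5
    exact h5

open Classical in
/-- **Random tuples have no relation with coefficients in `W` which is linear in arbitrary elements
of `L`, with exponentially few exceptions.** -/
theorem rand_lin (D n m v : ℕ) : ∃ (k₀ C : ℕ) (δ : ℝ), 0 < δ ∧ ∀ k ≥ k₀,
    ∀ (κ A : Type) [Field κ] [CharZero κ] [Field A] [CharZero A] [Algebra κ A]
    (L : Submodule κ A), HypV v L → (1 : A) ∈ L →
    ∀ W : Submodule κ A, Module.Finite κ W → finrank κ W ≤ m →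
    ∀ lam : Fin n → Fin k → A, (∀ j i, lam j i ∈ L) → (∀ j, LinearIndependent κ (lam j)) →
    ∀ X : Finset ℚ, X.Nonempty → ∀ ζ : Fin n → A, (∀ j, ζ j ∈ L) →
    (((Fintype.piFinset fun _ : Fin n => Fintype.piFinset fun _ : Fin k => X).filter (fun P =>
      ¬ NoRel' L W (exSp L W) D (fun j => ζ j + ∑ i, (P j i : A) * lam j i))).card : ℝ) ≤
      C * (X.card : ℝ) ^ ((n * k : ℝ) - δ * k) := by
  obtain ⟨k₁, C₁, δ₁, hδ₁, h₁⟩ := rand_free D n (m + 1) v
  obtain ⟨k₂, C₂, δ₂, hδ₂, h₂⟩ := rand_free (D + 1) n ((m + 1) * (m + 1 + v) * (m + 1) + 1) v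
  refine ⟨max k₁ k₂, C₁ + C₂, min δ₁ δ₂, lt_min hδ₁ hδ₂,
    fun k hk κ A _ _ _ _ _ L hL h1L W hW hWm lam hlam hli Y hY ζ hζ => ?_⟩
  obtain ⟨a, ha⟩ : ∃ a : ℝ, a = (Y.card : ℝ) := ⟨_, rfl⟩
  have ha1 : 1 ≤ a := by
    rw [ha]
    exact_mod_cast hY.card_pos
  have hE : FiniteDimensional κ (W ⊔ Submodule.span κ {(1 : A)} : Submodule κ A) := inferInstance
  have hEr : finrank κ (W ⊔ Submodule.span κ {(1 : A)} : Submodule κ A) ≤ m + 1 :=
    (Submodule.finrank_add_le_finrank_add_finrank _ _).trans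
      (Nat.add_le_add hWm (finrank_span_one κ A))
  have h1E : (1 : A) ∈ W ⊔ Submodule.span κ {(1 : A)} :=
    Submodule.mem_sup_right (Submodule.mem_span_singleton_self _)
  have h1F : (1 : A) ∈ exSp L W := Submodule.mem_sup_right (Submodule.mem_span_singleton_self _)
  obtain ⟨hF, hFr, -, -⟩ := exSp_bound hL h1L W hWm
  have h3 := h₁ k ((le_max_left _ _).trans hk) κ A L (W ⊔ Submodule.span κ {(1 : A)}) hE hL h1L h1E
    hEr lam hlam hli Y hY ζ hζ
  have h4 := h₂ k ((le_max_right _ _).trans hk) κ A L (exSp L W) hF hL h1L h1F hFr lam hlam hli Y hY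
    ζ hζ
  rw [← ha] at h3 h4 ⊢
  set U := Fintype.piFinset fun _ : Fin n => Fintype.piFinset fun _ : Fin k => Y with hU
  let y : (Fin n → Fin k → ℚ) → Fin n → A := fun P j => ζ j + ∑ i, (P j i : A) * lam j i
  have hsub : U.filter (fun P => ¬ NoRel' L W (exSp L W) D (y P)) ⊆
      U.filter (fun P => ¬ FreeT D L (W ⊔ Submodule.span κ {(1 : A)}) (y P)) ∪
        U.filter (fun P => ¬ FreeT (D + 1) L (exSp L W) (y P)) := by
    intro P hP
    rw [Finset.mem_filter] at hP
    rw [Finset.mem_union, Finset.mem_filter, Finset.mem_filter]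
    by_contra hno
    push Not at hno
    exact hP.2 (noRel_of_free h1L
      (fun j => L.add_mem (hζ j) (L.sum_mem fun s _ => ratCast_mul_mem L (hlam j s) _))
      (hno.1 hP.1) (hno.2 hP.1))
  have hk0 : (0 : ℝ) ≤ k := Nat.cast_nonneg _
  have e1 : C₁ * a ^ ((n * k : ℝ) - δ₁ * k) ≤ C₁ * a ^ ((n * k : ℝ) - min δ₁ δ₂ * k) := by
    apply mul_le_mul_of_nonneg_left _ (Nat.cast_nonneg _)
    apply Real.rpow_le_rpow_of_exponent_le ha1
    have := mul_le_mul_of_nonneg_right (min_le_left δ₁ δ₂) hk0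
    linarith
  have e2 : C₂ * a ^ ((n * k : ℝ) - δ₂ * k) ≤ C₂ * a ^ ((n * k : ℝ) - min δ₁ δ₂ * k) := by
    apply mul_le_mul_of_nonneg_left _ (Nat.cast_nonneg _)
    apply Real.rpow_le_rpow_of_exponent_le ha1
    have := mul_le_mul_of_nonneg_right (min_le_right δ₁ δ₂) hk0
    linarith
  have h5 := (Finset.card_le_card hsub).trans (Finset.card_union_le _ _)
  have h6 : ((U.filter (fun P => ¬ NoRel' L W (exSp L W) D (y P))).card : ℝ) ≤
      ((U.filter (fun P => ¬ FreeT D L (W ⊔ Submodule.span κ {(1 : A)}) (y P))).card : ℝ) +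
        ((U.filter (fun P => ¬ FreeT (D + 1) L (exSp L W) (y P))).card : ℝ) := by
    exact_mod_cast h5
  refine h6.trans ((add_le_add (h3.trans e1) (h4.trans e2)).trans (le_of_eq ?_))
  push_cast
  ring

end Run7.h788
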