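import Pool.Agent.Run7.h788.RandTwo
import Pool.Agent.R350.Kernel

/-!
# Random tuples are generic: linear relations with coefficients in the space they generate are alternating
-/

set_option autoImplicit false

namespace Run7.h788

open Module Finset Pool.Agent.R350
open Pool.Agent.Y918.OL (cube_count li_dirs)

open Classical in
/-- One random combination is not exceptional. -/
theorem rand_exc (m v : ℕ) : ∃ (k₀ C : ℕ) (δ : ℝ), 0 < δ ∧ ∀ k ≥ k₀,
    ∀ (κ A : Type) [Field κ] [CharZero κ] [Field A] [CharZero A] [Algebra κ A]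
    (L Ω0 Ω1 F : Submodule κ A), FiniteDimensional κ Ω0 → FiniteDimensional κ Ω1 →
    FiniteDimensional κ F → HypV v L →
    (1 : A) ∈ L → finrank κ Ω0 ≤ m → finrank κ Ω1 ≤ m → finrank κ F ≤ m →
    ∀ lam : Fin k → A, (∀ i, lam i ∈ L) → LinearIndependent κ lam →
    ∀ X : Finset ℚ, X.Nonempty → ∀ ζ ∈ L,
    (((Fintype.piFinset fun _ : Fin k => X).filter (fun P =>
      ζ + ∑ i, (P i : A) * lam i ∈ F ∨ Exc L Ω0 Ω1 (ζ + ∑ i, (P i : A) * lam i))).card : ℝ) ≤
      C * (X.card : ℝ) ^ ((k : ℝ) - δ * k) := by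
  obtain ⟨k₀, C, δ, hδ, h⟩ := cube_count (gridR m v + m + 1)
  refine ⟨k₀, C, δ, hδ, fun k hk κ A _ _ _ _ _ L Ω0 Ω1 F hΩ0 hΩ1 hFf hL h1L h0m h1m hFm lam hlam hli
    X hX ζ hζ => ?_⟩
  have hmain := h k hk X hX (fun P =>
    ζ + ∑ i, (P i : A) * lam i ∈ F ∨ Exc L Ω0 Ω1 (ζ + ∑ i, (P i : A) * lam i)) ?_
  · convert hmain
  intro β u hu hd
  have hli' := li_dirs hli u hu hd
  obtain ⟨S, -, hS1, hS2⟩ := grid_avoid hL h1L two_ne_zero Ω0 Ω1 F h0m h1m hFm
    (z := ζ + ∑ s, (β s : A) * lam s)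
    (L.add_mem hζ (L.sum_mem fun s _ => ratCast_mul_mem L (hlam s) _))
    (fun i => ∑ s, (u i s : A) * lam s)
    (fun i => L.sum_mem fun s _ => ratCast_mul_mem L (hlam s) _) hli'
  refine ⟨S, ?_⟩
  have he : ζ + ∑ i, ((β + ∑ i ∈ S, u i) i : A) * lam i =
      ζ + ∑ s, (β s : A) * lam s + ∑ i ∈ S, ∑ s, (u i s : A) * lam s := by
    rw [add_assoc ζ]
    congr 1
    rw [Finset.sum_comm, ← Finset.sum_add_distrib]
    refine Finset.sum_congr rfl fun s _ => ?_
    rw [Pi.add_apply, Finset.sum_apply]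
    push_cast
    rw [add_mul, Finset.sum_mul]
  rw [he]
  rintro (h7 | h7)
  · exact hS1 h7
  · exact hS2 h7

open Classical in
/-- **Random tuples are generic.** -/
theorem rand_gen (n m v : ℕ) : ∃ (k₀ C : ℕ) (δ : ℝ), 0 < δ ∧ ∀ k ≥ k₀, ∀ (κ A : Type)
    [Field κ] [CharZero κ] [Field A] [CharZero A] [Algebra κ A]
    (L : Submodule κ A), HypV v L → (1 : A) ∈ L → ∀ V : Submodule κ A, Module.Finite κ V →
    finrank κ V ≤ m →
    ∀ lam : Fin n → Fin k → A, (∀ j i, lam j i ∈ L ⊔ V) →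
    (∀ j, LinearIndependent κ (lam j)) →
    ∀ X : Finset ℚ, X.Nonempty → ∀ ζ : Fin n → A, (∀ j, ζ j ∈ L ⊔ V) →
    (((Fintype.piFinset fun _ : Fin n => Fintype.piFinset fun _ : Fin k => X).filter (fun P =>
      ¬ Gen (v + m) (L ⊔ V) V (fun j => ζ j + ∑ i, (P j i : A) * lam j i))).card : ℝ) ≤
      C * (X.card : ℝ) ^ ((n * k : ℝ) - δ * k) := by
  obtain ⟨M, hM⟩ : ∃ M, M = m + n + 1 := ⟨_, rfl⟩
  obtain ⟨k₀, C, δ, hδ, h⟩ := rand_exc (M * (M + (v + m)) * M + M) (v + m)
  refine ⟨k₀, n * C, δ, hδ, fun k hk κ A _ _ _ _ _ L hL h1L V hVf hVm lam hlam hli X hX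
    ζ hζ => ?_⟩
  have hyp := hL.sup V hVm
  have hfinS : ∀ (j : Fin n) (y : Fin n → A), Module.Finite κ (stage V y j) := fun j y =>
    stage_finite V y j
  have hrankS : ∀ (j : Fin n) (y : Fin n → A), finrank κ (stage V y j) ≤ M := by
    intro j y
    have h2 := finrank_stage_le V y j
    omega
  obtain ⟨L', hL'⟩ : ∃ L', L' = L ⊔ V := ⟨_, rfl⟩
  rw [← hL'] at hyp hlam hζ ⊢
  have h1L' : (1 : A) ∈ L' := by rw [hL']; exact Submodule.mem_sup_left h1L
  let y : (Fin n → Fin k → ℚ) → Fin n → A := fun P j => ζ j + ∑ i, (P j i : A) * lam j i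
  let F : Fin n → (Fin n → A) → Submodule κ A := fun j z =>
    suppSp (v + m) L' (stage V z j) ⊔ stage V z j
  have hF : ∀ j z, Module.Finite κ (F j z) ∧ finrank κ (F j z) ≤ M * (M + (v + m)) * M + M := by
    intro j z
    have h1 := hfinS j z
    have h2 := (suppSp_spec hyp (stage V z j)).1
    have h3 := (suppSp_spec hyp (stage V z j)).2.1
    have h4 := hrankS j z
    refine ⟨inferInstance, (Submodule.finrank_add_le_finrank_add_finrank _ _).trans ?_⟩
    refine Nat.add_le_add (h3.trans ?_) h4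
    gcongr
  set Y : Finset (Fin k → ℚ) := Fintype.piFinset fun _ : Fin k => X with hY
  obtain ⟨bad, hbad⟩ : ∃ bad : Fin n → (Fin n → Fin k → ℚ) → Prop, bad = fun j P =>
    y P j ∈ F j (y P) ∨ Exc L' (stage V (y P) j) (Submodule.span κ {1}) (y P j) := ⟨_, rfl⟩
  obtain ⟨a, ha⟩ : ∃ a : ℝ, a = (X.card : ℝ) := ⟨_, rfl⟩
  have ha1 : 1 ≤ a := by
    rw [ha]
    exact_mod_cast hX.card_pos
  have ha0 : 0 < a := by linarith
  have hYc : (Y.card : ℝ) = a ^ (k : ℝ) := by
    rw [hY, Fintype.card_piFinset_const, ha]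
    push_cast
    rw [Real.rpow_natCast]
  have h1M : 1 ≤ M := by omega
  have key := count_update (n := n) Y bad (C * a ^ ((k : ℝ) - δ * k)) (by positivity) (by
    intro j P
    have h1 := h k hk κ A L' (stage V (y P) j) (Submodule.span κ {1}) (F j (y P)) (hfinS j _)
      (FiniteDimensional.span_of_finite _ (Set.finite_singleton _)) (hF j _).1 hyp h1L'
      ((hrankS j _).trans (Nat.le_add_left _ _))
      (((finrank_span_one κ A).trans h1M).trans (Nat.le_add_left _ _)) (hF j _).2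
      (lam j) (hlam j) (hli j) X hX (ζ j) (hζ j)
    rw [← ha] at h1
    refine le_trans (Nat.cast_le.2 (Finset.card_le_card ?_)) h1
    intro p hp
    rw [Finset.mem_filter] at hp ⊢
    refine ⟨hp.1, ?_⟩
    have e1 : ∀ i < j, y (Function.update P j p) i = y P i := by
      intro i hi
      change ζ i + ∑ s, ((Function.update P j p) i s : A) * lam i s = ζ i + ∑ s, (P i s : A) * lam i s
      rw [Function.update_of_ne hi.ne]
    have e2 : stage V (y (Function.update P j p)) j = stage V (y P) j :=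
      stage_congr V j fun i hi => e1 i hi
    have e3 : y (Function.update P j p) j = ζ j + ∑ i, (p i : A) * lam j i := by
      change ζ j + ∑ s, ((Function.update P j p) j s : A) * lam j s = _
      rw [Function.update_self]
    have h2 := hp.2
    rw [hbad] at h2
    change y (Function.update P j p) j ∈ suppSp (v + m) L'
      (stage V (y (Function.update P j p)) j) ⊔
        stage V (y (Function.update P j p)) j ∨
      Exc L' (stage V (y (Function.update P j p)) j) (Submodule.span κ {1})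
        (y (Function.update P j p) j) at h2
    rw [e2, e3] at h2
    exact h2)
  refine le_trans (Nat.cast_le.2 (Finset.card_le_card ?_)) (key.trans ?_)
  · intro P hP
    rw [Finset.mem_filter] at hP ⊢
    refine ⟨hP.1, ?_⟩
    by_contra hno
    push Not at hno
    apply hP.2
    intro j
    have := hno j
    rw [hbad] at this
    change ¬ (_ ∨ _) at this
    push Not at this
    exact this
  · rw [hYc, ← ha]
    rcases Nat.eq_zero_or_pos n with hn | hn
    · subst hn
      simp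
    · obtain ⟨n', rfl⟩ : ∃ n', n = n' + 1 := ⟨n - 1, by omega⟩
      rw [Nat.add_sub_cancel, ← Real.rpow_natCast, ← Real.rpow_mul ha0.le]
      push_cast
      rw [mul_assoc (C : ℝ), ← Real.rpow_add ha0, mul_assoc]
      apply le_of_eq
      congr 3
      ring

end Run7.h788
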