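import Pool.Agent.Run7.h788.Compose
import Pool.Agent.R350.Inst

/-!
# Random points of elliptic curves and random logarithms
-/

set_option autoImplicit false

namespace Run7.h788

open Module Finset MvPolynomial Pool.Agent.R350
open scoped PeriodPair
open Pool.Agent.W245.EB (NoRelS NoRelTot EL EllFam zt)
open Pool.Agent.Y918.EL (CM SK pt Good Good2 pt2 cmpoints second Qb)

/-- the random points for the integrals of the second kind -/
noncomputable def qt {n k : ℕ} (c : Fin n → ℂ) (v : Fin n → Fin k → ℂ) (m : Fin n → Fin k → ℤ)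
    (j : Fin n) : ℂ := c j + ∑ i, (m j i : ℂ) * v j i

/-- all the elliptic numbers -/
noncomputable def ellN {n₁ n₂ k : ℕ} (d : Fin n₁ → CM) (b : Fin n₁ → ℂ) (u : Fin n₁ → Fin k → ℂ)
    (e : Fin n₂ → SK) (c : Fin n₂ → ℂ) (v : Fin n₂ → Fin k → ℂ)
    (p : (Fin n₁ → Fin k × Fin 2 → ℤ) × (Fin n₂ → Fin k → ℤ)) : (Fin n₁ ⊕ Fin n₁) ⊕ Fin n₂ → ℂ :=
  Sum.elim (Sum.elim (pt d b u p.1) fun j => zt (d j).L (pt d b u p.1 j))
    fun j => (e j).J (qt c v p.2 j)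

/-- the conclusion for the elliptic numbers -/
def GoodE {n₁ n₂ k : ℕ} (d : Fin n₁ → CM) (b : Fin n₁ → ℂ) (u : Fin n₁ → Fin k → ℂ)
    (e : Fin n₂ → SK) (c : Fin n₂ → ℂ) (v : Fin n₂ → Fin k → ℂ)
    (W : Submodule Qb ℂ) (D : ℕ) (p : (Fin n₁ → Fin k × Fin 2 → ℤ) × (Fin n₂ → Fin k → ℤ)) : Prop :=
  (∀ j, pt d b u p.1 j ∉ (d j).L.lattice ∧ pt d b u p.1 j ∈ EL (d j).L) ∧
  (∀ j, qt c v p.2 j ∉ (e j).L.lattice ∧ qt c v p.2 j ∈ EL (e j).L) ∧
  NoRelS W D (ellN d b u e c v p)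

theorem card_pow (A : Finset ℤ) (ι : Type) [Fintype ι] [DecidableEq ι] (n : ℕ) :
    ((Fintype.piFinset fun _ : Fin n => Fintype.piFinset fun _ : ι => A).card : ℝ) =
      (A.card : ℝ) ^ ((n : ℝ) * Fintype.card ι) := by
  rw [Fintype.card_piFinset, Finset.prod_const, Fintype.card_piFinset, Finset.prod_const,
    ← pow_mul, Finset.card_univ, Finset.card_univ, Fintype.card_fin]
  push_cast
  rw [← Real.rpow_natCast]
  congr 1
  push_cast
  ring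

open Classical in
/-- integrals of the second kind, one group of random points -/
theorem second' (n D N : ℕ) : ∃ (k₀ C : ℕ) (δ : ℝ), 0 < δ ∧ ∀ k ≥ k₀,
    ∀ (e : Fin n → SK) (v : Fin n → Fin k → ℂ), (∀ j, EllFam (e j).L (v j)) →
    ∀ c : Fin n → ℂ, (∀ j, c j ∈ EL (e j).L) → ∀ A : Finset ℤ, A.Nonempty →
    ∀ W : Submodule Qb ℂ, Module.Finite Qb W → finrank Qb W ≤ N →
    (((Fintype.piFinset fun _ : Fin n => Fintype.piFinset fun _ : Fin k => A).filter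
      (fun m => ¬ ((∀ j, qt c v m j ∉ (e j).L.lattice ∧ qt c v m j ∈ EL (e j).L) ∧
        NoRelS W D (fun j => (e j).J (qt c v m j))))).card : ℝ) ≤
      C * (A.card : ℝ) ^ ((n * k : ℝ) - δ * k) := by
  obtain ⟨k₀, C, δ, hδ, h⟩ := second 0 n (Fintype.card (Fin n) * D) N
  refine ⟨k₀, C, δ, hδ, fun k hk e v hv c hc A hA W hW hWN => ?_⟩
  have h1 := h k hk (fun l => l.elim0) (fun l => l.elim0) e v hv (fun l => l.elim0) c hc A hA W hW
    hWN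
  have h2 : (((0 : ℕ) : ℝ) + n) * k - δ * k = ((n * k : ℝ) - δ * k) := by
    push_cast
    ring
  rw [h2] at h1
  refine le_trans (Nat.cast_le.2 ?_) h1
  refine Finset.card_le_card_of_injOn
    (fun (m : Fin n → Fin k → ℤ) => Sum.elim (fun l : Fin 0 => l.elim0) m) ?_ ?_
  · intro m hm
    rw [Finset.mem_coe, Finset.mem_filter] at hm ⊢
    refine ⟨Fintype.mem_piFinset.2 ?_, fun hgood => hm.2 ?_⟩
    · rintro (l | j)
      · exact l.elim0
      · exact Fintype.mem_piFinset.1 hm.1 j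
    · refine ⟨hgood.1, noRelS_of_tot ?_⟩
      exact hgood.2.comp (Sum.inr : Fin n → Fin 0 ⊕ Fin n) Sum.inr_injective
  · intro m _ m' _ hmm
    funext j
    exact congrFun hmm (Sum.inr j)

open Classical in
/-- **Random points.** -/
theorem rand_ell (n₁ n₂ D N : ℕ) : ∃ (k₀ C : ℕ) (δ : ℝ), 0 < δ ∧ ∀ k ≥ k₀,
    ∀ (d : Fin n₁ → CM) (u : Fin n₁ → Fin k → ℂ), (∀ j, EllFam (d j).L (u j)) →
    ∀ b : Fin n₁ → ℂ, (∀ j, b j ∈ EL (d j).L) →
    ∀ (e : Fin n₂ → SK) (v : Fin n₂ → Fin k → ℂ), (∀ j, EllFam (e j).L (v j)) →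
    ∀ c : Fin n₂ → ℂ, (∀ j, c j ∈ EL (e j).L) → ∀ A : Finset ℤ, A.Nonempty →
    ∀ W : Submodule Qb ℂ, Module.Finite Qb W → finrank Qb W ≤ N →
    ((((Fintype.piFinset fun _ : Fin n₁ => Fintype.piFinset fun _ : Fin k × Fin 2 => A) ×ˢ
      (Fintype.piFinset fun _ : Fin n₂ => Fintype.piFinset fun _ : Fin k => A)).filter
      (fun p => ¬ GoodE d b u e c v W D p)).card : ℝ) ≤
      C * (A.card : ℝ) ^ (((2 * n₁ + n₂) * k : ℝ) - δ * k) := by
  obtain ⟨k₁, C₁, δ₁, hδ₁, h₁⟩ := cmpoints n₁ (Fintype.card (Fin n₁ ⊕ Fin n₁) * D) N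
  obtain ⟨k₂, C₂, δ₂, hδ₂, h₂⟩ := second' n₂ D (N * (D + 1) ^ Fintype.card (Fin n₁ ⊕ Fin n₁))
  refine ⟨max k₁ k₂, C₁ + C₂, min δ₁ δ₂, lt_min hδ₁ hδ₂,
    fun k hk d u hu b hb e v hv c hc A hA W hW hWN => ?_⟩
  obtain ⟨x, hx⟩ : ∃ x : (Fin n₁ → Fin k × Fin 2 → ℤ) → Fin n₁ ⊕ Fin n₁ → ℂ,
      x = fun m => Sum.elim (pt d b u m) fun j => zt (d j).L (pt d b u m j) := ⟨_, rfl⟩
  obtain ⟨a, ha⟩ : ∃ a : ℝ, a = (A.card : ℝ) := ⟨_, rfl⟩
  have ha1 : 1 ≤ a := by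
    rw [ha]
    exact_mod_cast hA.card_pos
  have ha0 : 0 < a := by linarith
  have g1 := h₁ k ((le_max_left _ _).trans hk) d u hu b hb A hA W hW hWN
  have g2 : ∀ m, ((((Fintype.piFinset fun _ : Fin n₂ => Fintype.piFinset fun _ : Fin k => A)).filter
      (fun q => ¬ ((∀ j, qt c v q j ∉ (e j).L.lattice ∧ qt c v q j ∈ EL (e j).L) ∧
        NoRelS (monSp W (x m) D) D (fun j => (e j).J (qt c v q j))))).card : ℝ) ≤
      C₂ * (A.card : ℝ) ^ ((n₂ * k : ℝ) - δ₂ * k) := by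
    intro m
    obtain ⟨h3, h4⟩ := monSp_bound W hWN (x m) D
    exact h₂ k ((le_max_right _ _).trans hk) e v hv c hc A hA _ h3 h4
  have key := count_prod
    (Fintype.piFinset fun _ : Fin n₁ => Fintype.piFinset fun _ : Fin k × Fin 2 => A)
    (Fintype.piFinset fun _ : Fin n₂ => Fintype.piFinset fun _ : Fin k => A)
    (fun m => ¬ Good d b u W (Fintype.card (Fin n₁ ⊕ Fin n₁) * D) m)
    (fun m q => ¬ ((∀ j, qt c v q j ∉ (e j).L.lattice ∧ qt c v q j ∈ EL (e j).L) ∧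
        NoRelS (monSp W (x m) D) D (fun j => (e j).J (qt c v q j))))
    (C₁ * a ^ ((2 * n₁ * k : ℝ) - δ₁ * k)) (C₂ * a ^ ((n₂ * k : ℝ) - δ₂ * k))
    (by positivity) (by rw [ha]; exact g1) (fun m _ _ => by rw [ha]; exact g2 m)
  rw [← ha]
  refine le_trans (Nat.cast_le.2 (Finset.card_le_card ?_)) (key.trans ?_)
  · rintro p hp
    rw [Finset.mem_filter] at hp ⊢
    refine ⟨hp.1, ?_⟩
    by_contra hno
    push Not at hno
    obtain ⟨hno1, hno2⟩ := hno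
    apply hp.2
    refine ⟨hno1.1, hno2.1, ?_⟩
    have hxp : NoRelS W D (x p.1) := by
      rw [hx]
      exact noRelS_of_tot hno1.2
    have := noRelS_comp hxp hno2.2
    rw [hx] at this
    exact this
  · rw [card_pow, card_pow, ← ha, Fintype.card_prod, Fintype.card_fin, Fintype.card_fin]
    have hk0 : (0 : ℝ) ≤ k := Nat.cast_nonneg k
    have e1 : C₁ * a ^ ((2 * n₁ * k : ℝ) - δ₁ * k) * a ^ ((n₂ : ℝ) * (k : ℝ)) ≤
        C₁ * a ^ (((2 * n₁ + n₂) * k : ℝ) - min δ₁ δ₂ * k) := by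
      rw [mul_assoc, ← Real.rpow_add ha0]
      refine mul_le_mul_of_nonneg_left (Real.rpow_le_rpow_of_exponent_le ha1 ?_)
        (Nat.cast_nonneg _)
      have := mul_le_mul_of_nonneg_right (min_le_left δ₁ δ₂) hk0
      linarith
    have e2 : a ^ ((n₁ : ℝ) * ((k * 2 : ℕ) : ℝ)) * (C₂ * a ^ ((n₂ * k : ℝ) - δ₂ * k)) ≤
        C₂ * a ^ (((2 * n₁ + n₂) * k : ℝ) - min δ₁ δ₂ * k) := by
      rw [mul_left_comm, ← Real.rpow_add ha0]
      refine mul_le_mul_of_nonneg_left (Real.rpow_le_rpow_of_exponent_le ha1 ?_)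
        (Nat.cast_nonneg _)
      have := mul_le_mul_of_nonneg_right (min_le_right δ₁ δ₂) hk0
      push_cast
      linarith
    push_cast
    rw [add_mul]
    push_cast at e2
    exact add_le_add e1 e2

open Classical in
/-- **Random points and random logarithms.** -/
theorem rand_mix (n₁ n₂ r D N : ℕ) : ∃ (k₀ C : ℕ) (δ : ℝ), 0 < δ ∧ ∀ k ≥ k₀,
    ∀ (d : Fin n₁ → CM) (u : Fin n₁ → Fin k → ℂ), (∀ j, EllFam (d j).L (u j)) →
    ∀ b : Fin n₁ → ℂ, (∀ j, b j ∈ EL (d j).L) →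
    ∀ (e : Fin n₂ → SK) (v : Fin n₂ → Fin k → ℂ), (∀ j, EllFam (e j).L (v j)) →
    ∀ c : Fin n₂ → ℂ, (∀ j, c j ∈ EL (e j).L) →
    ∀ lam : Fin r → Fin k → ℂ, (∀ j i, lam j i ∈ Pool.Agent.H301R2.SSE.Lt) →
    (∀ j, LinearIndependent Qb (lam j)) →
    ∀ ζ : Fin r → ℂ, (∀ j, ζ j ∈ Pool.Agent.H301R2.SSE.Lt) → ∀ A : Finset ℤ, A.Nonempty →
    ∀ W : Submodule Qb ℂ, Module.Finite Qb W → finrank Qb W ≤ N →
    (((((Fintype.piFinset fun _ : Fin n₁ => Fintype.piFinset fun _ : Fin k × Fin 2 => A) ×ˢ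
      (Fintype.piFinset fun _ : Fin n₂ => Fintype.piFinset fun _ : Fin k => A)) ×ˢ
      (Fintype.piFinset fun _ : Fin r => Fintype.piFinset fun _ : Fin k => A)).filter
      (fun p => ¬ (GoodE d b u e c v W D p.1 ∧
        ∃ F : Submodule Qb ℂ, Module.Finite Qb F ∧ finrank Qb F ≤ C ∧
          F ≤ Pool.Agent.H301R2.SSE.Lt ∧
          NoRelJ Pool.Agent.H301R2.SSE.Lt W F D (ellN d b u e c v p.1)
            (fun j => ζ j + ∑ i, (p.2 j i : ℂ) * lam j i)))).card : ℝ) ≤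
      C * (A.card : ℝ) ^ (((2 * n₁ + n₂ + r) * k : ℝ) - δ * k) := by
  obtain ⟨k₁, C₁, δ₁, hδ₁, h₁⟩ := rand_ell n₁ n₂ D N
  obtain ⟨M, hM⟩ : ∃ M, M = N * (D + 1) ^ Fintype.card ((Fin n₁ ⊕ Fin n₁) ⊕ Fin n₂) := ⟨_, rfl⟩
  obtain ⟨k₂, C₂, δ₂, hδ₂, h₂⟩ := rand_lin D r M 0
  refine ⟨max k₁ k₂, C₁ + C₂ + ((M + 1) * (M + 1 + 0) * (M + 1) + 1), min δ₁ δ₂, lt_min hδ₁ hδ₂,
    fun k hk d u hu b hb e v hv c hc lam hlam hli ζ hζ A hA W hW hWN => ?_⟩
  have hS := Pool.Agent.R350.setup_complex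
  obtain ⟨x, hx⟩ : ∃ x : (Fin n₁ → Fin k × Fin 2 → ℤ) × (Fin n₂ → Fin k → ℤ) →
      (Fin n₁ ⊕ Fin n₁) ⊕ Fin n₂ → ℂ, x = fun m => ellN d b u e c v m := ⟨_, rfl⟩
  obtain ⟨a, ha⟩ : ∃ a : ℝ, a = (A.card : ℝ) := ⟨_, rfl⟩
  have ha1 : 1 ≤ a := by
    rw [ha]
    exact_mod_cast hA.card_pos
  have ha0 : 0 < a := by linarith
  have g1 := h₁ k ((le_max_left _ _).trans hk) d u hu b hb e v hv c hc A hA W hW hWN
  have g2 : ∀ m, ((((Fintype.piFinset fun _ : Fin r => Fintype.piFinset fun _ : Fin k => A)).filter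
      (fun q => ¬ NoRel' Pool.Agent.H301R2.SSE.Lt (monSp W (x m) D)
        (exSp Pool.Agent.H301R2.SSE.Lt (monSp W (x m) D)) D
        (fun j => ζ j + ∑ i, (q j i : ℂ) * lam j i))).card : ℝ) ≤
      C₂ * (A.card : ℝ) ^ ((r * k : ℝ) - δ₂ * k) := by
    intro m
    obtain ⟨h3, h4⟩ := monSp_bound W hWN (x m) D
    have h5 := h₂ k ((le_max_right _ _).trans hk) Qb ℂ Pool.Agent.H301R2.SSE.Lt hS.hyp hS.one
      (monSp W (x m) D) h3 (h4.trans hM.symm.le) lam hlam hli (A.image (fun z : ℤ => (z : ℚ)))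
      (hA.image _) ζ hζ
    rw [Pool.Agent.Y918.EL.card_image_cast] at h5
    refine le_trans (Nat.cast_le.2 ?_) h5
    refine Pool.Agent.Y918.EL.card_cast A _ _ fun q hq hgood => hq ?_
    have he : (fun j => ζ j + ∑ i, (((fun j i => ((q j i : ℤ) : ℚ)) j i : ℚ) : ℂ) * lam j i) =
        fun j => ζ j + ∑ i, (q j i : ℂ) * lam j i := by
      funext j
      simp only [Rat.cast_intCast]
    rw [he] at hgood
    exact hgood
  have key := count_prod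
    ((Fintype.piFinset fun _ : Fin n₁ => Fintype.piFinset fun _ : Fin k × Fin 2 => A) ×ˢ
      (Fintype.piFinset fun _ : Fin n₂ => Fintype.piFinset fun _ : Fin k => A))
    (Fintype.piFinset fun _ : Fin r => Fintype.piFinset fun _ : Fin k => A)
    (fun m => ¬ GoodE d b u e c v W D m)
    (fun m q => ¬ NoRel' Pool.Agent.H301R2.SSE.Lt (monSp W (x m) D)
        (exSp Pool.Agent.H301R2.SSE.Lt (monSp W (x m) D)) D
        (fun j => ζ j + ∑ i, (q j i : ℂ) * lam j i))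
    (C₁ * a ^ (((2 * n₁ + n₂) * k : ℝ) - δ₁ * k)) (C₂ * a ^ ((r * k : ℝ) - δ₂ * k))
    (by positivity) (by rw [ha]; exact g1) (fun m _ _ => by rw [ha]; exact g2 m)
  rw [← ha]
  refine le_trans (Nat.cast_le.2 (Finset.card_le_card ?_)) (key.trans ?_)
  · rintro p hp
    rw [Finset.mem_filter] at hp ⊢
    refine ⟨hp.1, ?_⟩
    by_contra hno
    push Not at hno
    obtain ⟨hno1, hno2⟩ := hno
    apply hp.2
    obtain ⟨h3, h4⟩ := monSp_bound W hWN (x p.1) D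
    obtain ⟨h6, h7, h8, -⟩ := exSp_bound hS.hyp hS.one (monSp W (x p.1) D) (h4.trans hM.symm.le)
    refine ⟨hno1, _, h6, h7.trans (Nat.le_add_left _ _), h8, ?_⟩
    have hxp : NoRelS W D (x p.1) := by
      rw [hx]
      exact hno1.2.2
    have := noRelJ_of hxp hno2
    rw [hx] at this
    rw [hx]
    exact this
  · rw [Finset.card_product]
    push_cast
    rw [card_pow, card_pow, card_pow, ← ha, Fintype.card_prod, Fintype.card_fin, Fintype.card_fin]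
    have hk0 : (0 : ℝ) ≤ k := Nat.cast_nonneg k
    have e1 : C₁ * a ^ (((2 * n₁ + n₂) * k : ℝ) - δ₁ * k) * a ^ ((r : ℝ) * (k : ℝ)) ≤
        C₁ * a ^ (((2 * n₁ + n₂ + r) * k : ℝ) - min δ₁ δ₂ * k) := by
      rw [mul_assoc, ← Real.rpow_add ha0]
      refine mul_le_mul_of_nonneg_left (Real.rpow_le_rpow_of_exponent_le ha1 ?_)
        (Nat.cast_nonneg _)
      have := mul_le_mul_of_nonneg_right (min_le_left δ₁ δ₂) hk0
      linarith
    have e2 : a ^ ((n₁ : ℝ) * ((k * 2 : ℕ) : ℝ)) * a ^ ((n₂ : ℝ) * (k : ℝ)) *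
          (C₂ * a ^ ((r * k : ℝ) - δ₂ * k)) ≤
        C₂ * a ^ (((2 * n₁ + n₂ + r) * k : ℝ) - min δ₁ δ₂ * k) := by
      rw [mul_left_comm, ← Real.rpow_add ha0, ← Real.rpow_add ha0]
      refine mul_le_mul_of_nonneg_left (Real.rpow_le_rpow_of_exponent_le ha1 ?_)
        (Nat.cast_nonneg _)
      have := mul_le_mul_of_nonneg_right (min_le_right δ₁ δ₂) hk0
      push_cast
      linarith
    refine (add_le_add e1 e2).trans ?_
    rw [← add_mul]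
    refine mul_le_mul_of_nonneg_right ?_ (Real.rpow_nonneg ha0.le _)
    have : (0 : ℝ) ≤ ((M : ℝ) + 1) * (M + 1 + 0) * (M + 1) + 1 := by positivity
    linarith

end Run7.h788
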