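import Mathlib

/-!
# Quadratic units over `F(w)` and multiplicative independence

`F` is a subfield of `ℂ` which is algebraically closed in `ℂ` and `w` is not in `F`.  Nonzero
numbers `x i` with `x i - (x i)⁻¹ = a i * w`, `a i ∈ F` nonzero with pairwise different squares,
are multiplicatively independent.
-/

open Polynomial

namespace Pool.Agent.Run7.h788.Refl

/-- `F` is algebraically closed in `ℂ`. -/
def Closed (F : Subfield ℂ) : Prop := ∀ x : ℂ, IsAlgebraic F x → x ∈ F

theorem rm_sq {R : Type*} [CommRing R] [IsDomain R] {p : R[X]} (hp : p ≠ 0) (x : R) :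
    rootMultiplicity x (p ^ 2) = 2 * rootMultiplicity x p := by
  rw [pow_two, rootMultiplicity_mul (mul_ne_zero hp hp)]
  ring

/-- `(A X^2 + 4)(B X^2 + 4)` times a square is a square only for `A = B`. -/
theorem not_square {A B : ℂ} (hA : A ≠ 0) (hAB : A ≠ B) (r s : ℂ[X]) (hs : s ≠ 0)
    (h : r ^ 2 = (C A * X ^ 2 + C 4) * (C B * X ^ 2 + C 4) * s ^ 2) : False := by
  obtain ⟨ρ, hρ⟩ : ∃ ρ : ℂ, ρ ^ 2 = -4 / A := IsAlgClosed.exists_pow_nat_eq _ (by norm_num)
  have hρA : A * ρ ^ 2 + 4 = 0 := by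
    rw [hρ]; field_simp; ring
  have hρ0 : ρ ≠ 0 := by
    rintro rfl
    norm_num at hρA
  have hf : (C A * X ^ 2 + C 4 : ℂ[X]) = (X - C ρ) * (C A * (X + C ρ)) := by
    have h4 : (C 4 : ℂ[X]) = - (C A * C ρ ^ 2) := by
      rw [← C_pow, ← C_mul, ← C_neg]
      congr 1
      linear_combination hρA
    rw [h4]
    ring
  have hf0 : (C A * (X + C ρ) : ℂ[X]) ≠ 0 := by
    apply mul_ne_zero (C_ne_zero.2 hA)
    exact (monic_X_add_C ρ).ne_zero
  have hg0 : (C B * X ^ 2 + C 4 : ℂ[X]) ≠ 0 := by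
    intro h0
    have := congrArg (fun p => p.coeff 0) h0
    simp at this
  have hX0 : (X - C ρ : ℂ[X]) ≠ 0 := X_sub_C_ne_zero ρ
  have hr0 : r ≠ 0 := by
    rintro rfl
    have : (C A * X ^ 2 + C 4) * (C B * X ^ 2 + C 4) * s ^ 2 ≠ 0 := by
      rw [hf]
      exact mul_ne_zero (mul_ne_zero (mul_ne_zero hX0 hf0) hg0) (pow_ne_zero _ hs)
    apply this
    rw [← h]
    simp
  have h1 : rootMultiplicity ρ (C A * (X + C ρ) : ℂ[X]) = 0 := by
    apply rootMultiplicity_eq_zero
    rw [IsRoot.def]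
    simp only [eval_mul, eval_C, eval_add, eval_X]
    apply mul_ne_zero hA
    intro h0
    apply hρ0
    linear_combination h0 / 2
  have h2 : rootMultiplicity ρ (C B * X ^ 2 + C 4 : ℂ[X]) = 0 := by
    apply rootMultiplicity_eq_zero
    rw [IsRoot.def]
    simp only [eval_mul, eval_C, eval_add, eval_X, eval_pow]
    intro h0
    apply hAB
    have : (A - B) * ρ ^ 2 = 0 := by linear_combination hρA - h0
    rcases mul_eq_zero.1 this with h | h
    · exact sub_eq_zero.1 h
    · exact absurd (pow_eq_zero_iff (two_ne_zero) |>.1 h) hρ0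
  have h3 := congrArg (rootMultiplicity ρ) h
  rw [rm_sq hr0, rootMultiplicity_mul, rootMultiplicity_mul, hf, rootMultiplicity_mul, rm_sq hs,
    h1, rootMultiplicity_X_sub_C_self] at h3
  · rw [h2] at h3
    omega
  · exact mul_ne_zero hX0 hf0
  · rw [hf]
    exact mul_ne_zero (mul_ne_zero hX0 hf0) hg0
  · rw [hf]
    exact mul_ne_zero (mul_ne_zero (mul_ne_zero hX0 hf0) hg0) (pow_ne_zero _ hs)

theorem transc {F : Subfield ℂ} (hF : Closed F) {w : ℂ} (hw : w ∉ F) : Transcendental F w :=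
  fun h => hw (hF w h)

/-- the discriminants `A w ^ 2 + 4` and `B w ^ 2 + 4` are in different square classes of `F(w)` -/
theorem no_root {F : Subfield ℂ} (hF : Closed F) {w : ℂ} (hw : w ∉ F) {A B : ℂ} (hAF : A ∈ F)
    (hBF : B ∈ F) (hA : A ≠ 0) (hB : B ≠ 0) (hAB : A ≠ B) (y : ℂ)
    (hy : y ∈ IntermediateField.adjoin F {w})
    (h : y ^ 2 = (A * w ^ 2 + 4) * (B * w ^ 2 + 4)) : False := by
  have htr := transc hF hw
  rw [IntermediateField.mem_adjoin_simple_iff] at hy
  obtain ⟨r, s, rfl⟩ := hy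
  have key : ∀ A' : ℂ, A' ∈ F → A' ≠ 0 → A' * w ^ 2 + 4 ≠ 0 := by
    intro A' hA'F hA' h0
    have hw2 : w ^ 2 ∈ F := by
      have : w ^ 2 = -4 / A' := by field_simp; linear_combination h0
      rw [this]
      exact F.div_mem (F.neg_mem (ofNat_mem F 4)) hA'F
    apply hw
    apply hF
    refine ⟨X ^ 2 - C (⟨w ^ 2, hw2⟩ : F), X_pow_sub_C_ne_zero (by norm_num) _, ?_⟩
    simp only [map_sub, map_pow, aeval_X, aeval_C]
    exact sub_self _
  have hs0 : aeval w s ≠ 0 := by
    intro h0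
    rw [h0, div_zero, zero_pow two_ne_zero] at h
    rcases mul_eq_zero.1 h.symm with h | h
    · exact key A hAF hA h
    · exact key B hBF hB h
  have h1 : (aeval w) (r ^ 2 - (C (⟨A, hAF⟩ : F) * X ^ 2 + C 4) *
      (C (⟨B, hBF⟩ : F) * X ^ 2 + C 4) * s ^ 2) = 0 := by
    have e1 : (algebraMap F ℂ) ⟨A, hAF⟩ = A := rfl
    have e2 : (algebraMap F ℂ) ⟨B, hBF⟩ = B := rfl
    simp only [map_sub, map_mul, map_add, map_pow, aeval_X, aeval_C, e1, e2, map_ofNat]
    rw [div_pow, div_eq_iff (pow_ne_zero 2 hs0)] at h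
    rw [h]
    ring
  have h2 := (transcendental_iff.1 htr) _ h1
  have h3 := congrArg (Polynomial.map (algebraMap F ℂ)) h2
  simp only [Polynomial.map_sub, Polynomial.map_mul, Polynomial.map_add, Polynomial.map_pow,
    Polynomial.map_X, Polynomial.map_C, Polynomial.map_zero, map_ofNat] at h3
  have e1 : (algebraMap F ℂ) ⟨A, hAF⟩ = A := rfl
  have e2 : (algebraMap F ℂ) ⟨B, hBF⟩ = B := rfl
  rw [e1, e2] at h3
  refine not_square hA hAB (r.map (algebraMap F ℂ)) (s.map (algebraMap F ℂ)) ?_ ?_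
  · intro h0
    apply hs0
    have : s = 0 := by
      apply Polynomial.map_injective (algebraMap F ℂ) (algebraMap F ℂ).injective
      rw [h0, Polynomial.map_zero]
    rw [this, map_zero]
  · have e4 : Polynomial.map (algebraMap F ℂ) 4 = C 4 := by
      rw [Polynomial.map_ofNat]
      exact (map_ofNat C 4).symm
    rw [e4] at h3
    linear_combination h3

theorem quad_alg (K : Subfield ℂ) {x c : ℂ} (hc : c ∈ K) (hx : x ≠ 0) (h : x - x⁻¹ = c) :
    IsAlgebraic K x := by
  have h1 : x ^ 2 - c * x - 1 = 0 := by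
    field_simp at h
    linear_combination h
  refine ⟨X ^ 2 - C (⟨c, hc⟩ : K) * X - 1, ?_, ?_⟩
  · intro h0
    have := congrArg (fun p => p.coeff 2) h0
    simp [coeff_one] at this
  · have e1 : (algebraMap K ℂ) ⟨c, hc⟩ = c := rfl
    simp only [map_sub, map_mul, map_pow, aeval_X, aeval_C, e1, map_one]
    linear_combination h1

/-- `f` or `- f⁻¹` -/
theorem conj_cases {x y c : ℂ} (hx : x ≠ 0) (hy : y ≠ 0) (h : x - x⁻¹ = c) (h' : y - y⁻¹ = c) :
    y = x ∨ y = -x⁻¹ := by
  have h1 : (y - x) * (y + x⁻¹) = 0 := by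
    rw [← h'] at h
    field_simp at h ⊢
    linear_combination (-1) * h
  rcases mul_eq_zero.1 h1 with h | h
  · exact Or.inl (sub_eq_zero.1 h)
  · exact Or.inr (eq_neg_of_add_eq_zero_left h)

/-- an automorphism that fixes `w` and moves exactly one of two of the square roots -/
theorem exists_aut {F : Subfield ℂ} {w : ℂ}
    (y : algebraicClosure (IntermediateField.adjoin F {w}) ℂ)
    (hn : (y : ℂ) ∉ IntermediateField.adjoin F {w}) :
    ∃ σ : algebraicClosure (IntermediateField.adjoin F {w}) ℂ ≃ₐ[IntermediateField.adjoin F {w}]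
      algebraicClosure (IntermediateField.adjoin F {w}) ℂ, σ y ≠ y := by
  by_contra hcon
  push Not at hcon
  have h1 : y ∈ (⊥ : IntermediateField (IntermediateField.adjoin F {w})
        (algebraicClosure (IntermediateField.adjoin F {w}) ℂ)) := by
    rw [InfiniteGalois.mem_bot_iff_fixed]
    exact hcon
  rw [IntermediateField.mem_bot] at h1
  obtain ⟨k, hk⟩ := h1
  apply hn
  rw [← hk]
  exact k.2

theorem alg_K {F : Subfield ℂ} {w x a : ℂ} (ha : a ∈ F) (hx : x ≠ 0) (h : x - x⁻¹ = a * w) :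
    x ∈ algebraicClosure (IntermediateField.adjoin F {w}) ℂ := by
  rw [mem_algebraicClosure_iff]
  have hc : a * w ∈ (IntermediateField.adjoin F {w}).toSubfield := by
    apply mul_mem
    · exact (IntermediateField.adjoin F {w}).algebraMap_mem ⟨a, ha⟩
    · exact IntermediateField.mem_adjoin_simple_self F w
  exact quad_alg (IntermediateField.adjoin F {w}).toSubfield hc hx h

theorem core {F : Subfield ℂ} (hF : Closed F) {w : ℂ} (hw : w ∉ F) {ι : Type*} (x a : ι → ℂ)
    (haF : ∀ i, a i ∈ F) (ha0 : ∀ i, a i ≠ 0) (hx : ∀ i, x i ≠ 0)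
    (h : ∀ i, x i - (x i)⁻¹ = a i * w) (hd : ∀ i j, i ≠ j → a i ^ 2 ≠ a j ^ 2) :
    ∀ (k : ℕ) (I : Finset ι) (n : ι → ℤ) (ε : ℂ), I.card = k → (∀ i ∈ I, n i ≠ 0) →
      ∏ i ∈ I, x i ^ n i = ε → ε ^ 2 = 1 → I = ∅ := by
  classical
  intro k
  induction k using Nat.strong_induction_on with
  | _ k ih =>
  intro I n ε hk hn hprod hε
  by_contra hne
  have hI : I.Nonempty := Finset.nonempty_iff_ne_empty.2 hne
  rcases Nat.lt_or_ge 1 I.card with h1 | h1
  · obtain ⟨i, hi, j, hj, hij⟩ := Finset.one_lt_card.1 h1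
    set K := IntermediateField.adjoin F {w} with hK
    set L := algebraicClosure K ℂ with hL
    have hxL : ∀ i, x i ∈ L := fun i => alg_K (haF i) (hx i) (h i)
    let xL : ι → L := fun i => ⟨x i, hxL i⟩
    have hwK : w ∈ K := IntermediateField.mem_adjoin_simple_self F w
    have hcK : ∀ i, a i * w ∈ K := by
      intro i
      exact mul_mem (K.algebraMap_mem ⟨a i, haF i⟩) hwK
    let y : L := (xL i + (xL i)⁻¹) * (xL j + (xL j)⁻¹)
    have hy : (y : ℂ) = (x i + (x i)⁻¹) * (x j + (x j)⁻¹) := rfl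
    have hsq : ∀ i, (x i + (x i)⁻¹) ^ 2 = a i ^ 2 * w ^ 2 + 4 := by
      intro i
      have h1 : (x i + (x i)⁻¹) ^ 2 = (x i - (x i)⁻¹) ^ 2 + 4 * (x i * (x i)⁻¹) := by ring
      rw [h1, h i, mul_inv_cancel₀ (hx i)]
      ring
    have hyK : (y : ℂ) ∉ K := by
      intro hmem
      refine no_root hF hw (F.pow_mem (haF i) 2) (F.pow_mem (haF j) 2) (pow_ne_zero 2 (ha0 i))
        (pow_ne_zero 2 (ha0 j)) (hd i j hij) (y : ℂ) hmem ?_
      rw [hy, mul_pow, hsq i, hsq j]
    obtain ⟨σ, hσ⟩ := exists_aut y hyK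
    have hxL0 : ∀ i, xL i ≠ 0 := by
      intro i h0
      exact hx i (congrArg (fun t : L => (t : ℂ)) h0)
    have hσx : ∀ i, ((σ (xL i) : L) : ℂ) = x i ∨ ((σ (xL i) : L) : ℂ) = -(x i)⁻¹ := by
      intro i
      have e1 : xL i - (xL i)⁻¹ = algebraMap K L ⟨a i * w, hcK i⟩ := Subtype.ext (h i)
      have e2 : σ (xL i) - (σ (xL i))⁻¹ = algebraMap K L ⟨a i * w, hcK i⟩ := by
        rw [← map_inv₀, ← map_sub, e1, AlgEquiv.commutes]
      have e3 : ((σ (xL i) : L) : ℂ) - (((σ (xL i) : L) : ℂ))⁻¹ = a i * w :=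
        congrArg (fun t : L => (t : ℂ)) e2
      refine conj_cases (hx i) ?_ (h i) e3
      intro h0
      have : σ (xL i) = 0 := Subtype.ext h0
      exact hxL0 i ((map_eq_zero σ).1 this)
    have hσx' : ∀ i, σ (xL i) = xL i ∨ σ (xL i) = -(xL i)⁻¹ := by
      intro i
      rcases hσx i with h | h
      · exact Or.inl (Subtype.ext h)
      · exact Or.inr (Subtype.ext h)
    let J := I.filter fun k => σ (xL k) ≠ xL k
    have hflip : ∀ k ∈ J, σ (xL k) = -(xL k)⁻¹ := by
      intro k hk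
      rcases hσx' k with h | h
      · exact absurd h (Finset.mem_filter.1 hk).2
      · exact h
    have hσy : σ y = (σ (xL i) + (σ (xL i))⁻¹) * (σ (xL j) + (σ (xL j))⁻¹) := by
      simp only [y, map_mul, map_add, map_inv₀]
    have hnot : ¬ (i ∈ J ↔ j ∈ J) := by
      intro hiff
      by_cases hiJ : i ∈ J
      · have hjJ := hiff.1 hiJ
        apply hσ
        rw [hσy, hflip i hiJ, hflip j hjJ]
        simp only [y, inv_neg, inv_inv]
        ring
      · have hjJ : j ∉ J := fun h => hiJ (hiff.2 h)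
        have e1 : σ (xL i) = xL i := by
          by_contra h
          exact hiJ (Finset.mem_filter.2 ⟨hi, h⟩)
        have e2 : σ (xL j) = xL j := by
          by_contra h
          exact hjJ (Finset.mem_filter.2 ⟨hj, h⟩)
        apply hσ
        rw [hσy, e1, e2]
    have hJI : J ⊆ I := Finset.filter_subset _ _
    have hJne : J ≠ I := by
      intro h
      apply hnot
      rw [h]
      exact ⟨fun _ => hj, fun _ => hi⟩
    have hJcard : J.card < k := by
      rw [← hk]
      exact Finset.card_lt_card (Finset.ssubset_iff_subset_ne.2 ⟨hJI, hJne⟩)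
    have hprodL : ∏ i ∈ I, xL i ^ n i = 1 ∨ ∏ i ∈ I, xL i ^ n i = -1 := by
      have e1 : (∏ i ∈ I, xL i ^ n i) ^ 2 = 1 := by
        apply Subtype.ext
        have : (((∏ i ∈ I, xL i ^ n i : L) : ℂ)) = ∏ i ∈ I, x i ^ n i := by
          have := map_prod (algebraMap L ℂ) (fun i => xL i ^ n i) I
          simp only [map_zpow₀] at this
          exact this
        show ((∏ i ∈ I, xL i ^ n i : L) : ℂ) ^ 2 = 1
        rw [this, hprod, hε]
      rw [sq] at e1
      exact mul_self_eq_one_iff.1 e1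
    have hprodσ : ∏ i ∈ I, σ (xL i) ^ n i = ∏ i ∈ I, xL i ^ n i := by
      have e1 : σ (∏ i ∈ I, xL i ^ n i) = ∏ i ∈ I, σ (xL i) ^ n i := by
        rw [map_prod]
        simp only [map_zpow₀]
      rw [← e1]
      rcases hprodL with h | h
      · rw [h, map_one]
      · rw [h, map_neg, map_one]
    have hdiv : ∏ i ∈ J, (xL i / σ (xL i)) ^ n i = 1 := by
      have e1 : ∏ i ∈ I, (xL i / σ (xL i)) ^ n i = 1 := by
        simp only [div_zpow, Finset.prod_div_distrib]
        rw [hprodσ, div_self]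
        rw [Finset.prod_ne_zero_iff]
        intro i _
        exact zpow_ne_zero _ (hxL0 i)
      rw [← e1]
      apply Finset.prod_subset hJI
      intro k hkI hkJ
      have : σ (xL k) = xL k := by
        by_contra h
        exact hkJ (Finset.mem_filter.2 ⟨hkI, h⟩)
      rw [this, div_self (hxL0 k), one_zpow]
    have hrel : (∏ i ∈ J, (-1 : L) ^ n i) * ∏ i ∈ J, xL i ^ (2 * n i) = 1 := by
      rw [← Finset.prod_mul_distrib]
      refine Eq.trans ?_ hdiv
      apply Finset.prod_congr rfl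
      intro k hk
      rw [hflip k hk, zpow_mul, ← mul_zpow]
      congr 1
      rw [div_neg, div_inv_eq_mul]
      norm_num [sq, zpow_ofNat]
    have hε' : (∏ i ∈ J, (-1 : ℂ) ^ n i) ^ 2 = 1 := by
      rw [← Finset.prod_pow]
      apply Finset.prod_eq_one
      intro k _
      rw [← zpow_natCast, ← zpow_mul, mul_comm, zpow_mul]
      norm_num
    have hrelC : ∏ i ∈ J, x i ^ (2 * n i) = ∏ i ∈ J, (-1 : ℂ) ^ n i := by
      have e1 := congrArg (algebraMap L ℂ) hrel
      rw [map_mul, map_prod, map_prod, map_one] at e1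
      simp only [map_zpow₀, map_neg, map_one] at e1
      have e2 : (∏ i ∈ J, (-1 : ℂ) ^ n i) * (∏ i ∈ J, x i ^ (2 * n i)) = 1 := e1
      have e3 : (∏ i ∈ J, (-1 : ℂ) ^ n i) ≠ 0 := left_ne_zero_of_mul_eq_one e2
      apply mul_left_cancel₀ e3
      rw [e2, ← sq, hε']
    have hJe := ih J.card hJcard J (fun i => 2 * n i) _ rfl
      (fun i hi => mul_ne_zero two_ne_zero (hn i (hJI hi))) hrelC hε'
    apply hnot
    rw [hJe]
    simp
  · have hc : I.card = 1 := le_antisymm h1 (Finset.card_pos.2 hI)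
    obtain ⟨i, rfl⟩ := Finset.card_eq_one.1 hc
    rw [Finset.prod_singleton] at hprod
    have h2 : x i ^ (2 * n i) = 1 := by
      rw [mul_comm, zpow_mul, hprod]
      exact_mod_cast hε
    have h3 : x i ^ (2 * (n i).natAbs) = 1 := by
      rcases Int.natAbs_eq (n i) with h | h
      · rw [h] at h2
        exact_mod_cast h2
      · rw [h, mul_neg, zpow_neg, inv_eq_one] at h2
        exact_mod_cast h2
    have hn0 : 2 * (n i).natAbs ≠ 0 := by
      have := hn i (Finset.mem_singleton_self i)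
      omega
    have hxF : x i ∈ F := by
      apply hF
      refine ⟨X ^ (2 * (n i).natAbs) - 1, ?_, ?_⟩
      · exact (monic_X_pow_sub_C (1 : F) hn0).ne_zero
      · simp only [map_sub, map_pow, aeval_X, map_one]
        rw [h3, sub_self]
    apply hw
    have : w = (x i - (x i)⁻¹) / a i := by
      rw [h i]
      field_simp [ha0 i]
    rw [this]
    exact F.div_mem (F.sub_mem hxF (F.inv_mem hxF)) (haF i)

end Pool.Agent.Run7.h788.Refl
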