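import Pool.Agent.Run7.h788.Refl

/-!
# Products `Γ(z) Γ(1 - z)` in an algebraically closed field without `π`
-/

open Polynomial

namespace Pool.Agent.Run7.h788.Refl

theorem mult_indep {F : Subfield ℂ} (hF : Closed F) {w : ℂ} (hw : w ∉ F) {ι : Type*}
    (x a : ι → ℂ) (haF : ∀ i, a i ∈ F) (ha0 : ∀ i, a i ≠ 0) (hx : ∀ i, x i ≠ 0)
    (h : ∀ i, x i - (x i)⁻¹ = a i * w) (hd : ∀ i j, i ≠ j → a i ^ 2 ≠ a j ^ 2)
    (I : Finset ι) (n : ι → ℤ) (hprod : ∏ i ∈ I, x i ^ n i = 1) : ∀ i ∈ I, n i = 0 := by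
  classical
  intro i hi
  by_contra hni
  have h1 := core hF hw x a haF ha0 hx h hd _ (I.filter fun i => n i ≠ 0) n 1 rfl
    (fun i hi => (Finset.mem_filter.1 hi).2) ?_ (one_pow 2)
  · have h2 : i ∈ I.filter fun i => n i ≠ 0 := Finset.mem_filter.2 ⟨hi, hni⟩
    rw [h1] at h2
    simp at h2
  · rw [Finset.prod_filter]
    refine Eq.trans ?_ hprod
    apply Finset.prod_congr rfl
    intro k _
    split_ifs with hk
    · rfl
    · push Not at hk
      rw [hk, zpow_zero]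

theorem I_mem {F : Subfield ℂ} (hF : Closed F) : Complex.I ∈ F := by
  apply hF
  refine ⟨X ^ 2 + 1, ?_, ?_⟩
  · exact (monic_X_pow_add_C (1 : F) two_ne_zero).ne_zero
  · simp

theorem sin_ne {z : ℂ} (hz : ∀ m : ℤ, z ≠ m) : Complex.sin (Real.pi * z) ≠ 0 := by
  intro h
  rw [Complex.sin_eq_zero_iff] at h
  obtain ⟨k, hk⟩ := h
  apply hz k
  have hpi : (Real.pi : ℂ) ≠ 0 := by exact_mod_cast Real.pi_ne_zero
  apply mul_left_cancel₀ hpi
  rw [hk, mul_comm]

/-- `e^{iπz}` -/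
noncomputable def ex (z : ℂ) : ℂ := Complex.exp (Real.pi * z * Complex.I)

theorem ex_sub (z : ℂ) : ex z - (ex z)⁻¹ = 2 * Complex.I * Complex.sin (Real.pi * z) := by
  unfold ex
  rw [← Complex.exp_neg, Complex.sin]
  have : -(Real.pi * z) * Complex.I = -(Real.pi * z * Complex.I) := by ring
  rw [this]
  linear_combination (Complex.exp (Real.pi * z * Complex.I) -
    Complex.exp (-(Real.pi * z * Complex.I))) * Complex.I_sq

/-- the product of the two Gamma values -/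
noncomputable def gam (z : ℂ) : ℂ := Complex.Gamma z * Complex.Gamma (1 - z)

theorem gam_ne {z : ℂ} (hz : ∀ m : ℤ, z ≠ m) : gam z ≠ 0 := by
  unfold gam
  rw [Complex.Gamma_mul_Gamma_one_sub]
  exact div_ne_zero (by exact_mod_cast Real.pi_ne_zero) (sin_ne hz)

theorem ex_gam {z : ℂ} (hz : ∀ m : ℤ, z ≠ m) :
    ex z - (ex z)⁻¹ = (2 * Complex.I / gam z) * (Real.pi : ℂ) := by
  rw [ex_sub]
  unfold gam
  rw [Complex.Gamma_mul_Gamma_one_sub]
  have h1 := sin_ne hz
  have hpi : (Real.pi : ℂ) ≠ 0 := by exact_mod_cast Real.pi_ne_zero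
  field_simp

theorem gam_inj {z z' : ℂ} (hz : ∀ m : ℤ, z ≠ m) (hz' : ∀ m : ℤ, z' ≠ m)
    (h : gam z ^ 2 = gam z' ^ 2) : ∃ m : ℤ, z = z' + m ∨ z = -z' + m := by
  have hpi : (Real.pi : ℂ) ≠ 0 := by exact_mod_cast Real.pi_ne_zero
  have h1 := sin_ne hz
  have h2 := sin_ne hz'
  have h3 : Complex.sin (Real.pi * z) = Complex.sin (Real.pi * z') ∨
      Complex.sin (Real.pi * z) = Complex.sin (Real.pi * (-z')) := by
    unfold gam at h
    rw [Complex.Gamma_mul_Gamma_one_sub, Complex.Gamma_mul_Gamma_one_sub] at h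
    have h4 : Complex.sin (Real.pi * z) ^ 2 = Complex.sin (Real.pi * z') ^ 2 := by
      field_simp at h
      exact h.symm
    rcases sq_eq_sq_iff_eq_or_eq_neg.1 h4 with h | h
    · exact Or.inl h
    · right
      rw [h, mul_neg, Complex.sin_neg]
  have key : ∀ u v : ℂ, Complex.sin (Real.pi * u) = Complex.sin (Real.pi * v) →
      ∃ m : ℤ, u = v + m ∨ u = -v + m := by
    intro u v huv
    rw [Complex.sin_eq_sin_iff] at huv
    obtain ⟨k, hk | hk⟩ := huv
    · refine ⟨-(2 * k), Or.inl ?_⟩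
      apply mul_left_cancel₀ hpi
      push_cast
      linear_combination -hk
    · refine ⟨2 * k + 1, Or.inr ?_⟩
      apply mul_left_cancel₀ hpi
      push_cast
      linear_combination hk
  rcases h3 with h | h
  · exact key _ _ h
  · obtain ⟨m, hm | hm⟩ := key _ _ h
    · exact ⟨m, Or.inr hm⟩
    · exact ⟨m, Or.inl (by rw [hm, neg_neg])⟩

/-- the classes of `z` modulo sign and integers are different -/
def Apart {ι : Type*} (z : ι → ℂ) : Prop :=
  (∀ i, ∀ m : ℤ, z i ≠ m) ∧ ∀ i j, i ≠ j → ∀ m : ℤ, z i ≠ z j + m ∧ z i ≠ -z j + m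

theorem indep_int {F : Subfield ℂ} (hF : Closed F) (hpi : (Real.pi : ℂ) ∉ F) {ι : Type*}
    (z : ι → ℂ) (hz : Apart z) (h : ∀ i, gam (z i) ∈ F) (I : Finset ι) (n : ι → ℤ) (n0 : ℤ)
    (hs : ∑ i ∈ I, (n i : ℂ) * z i = n0) : ∀ i ∈ I, n i = 0 := by
  have h1 : ∏ i ∈ I, ex (z i) ^ (2 * n i) = 1 := by
    have : ∏ i ∈ I, ex (z i) ^ (2 * n i) =
        Complex.exp (∑ i ∈ I, ((2 * n i : ℤ) : ℂ) * (Real.pi * z i * Complex.I)) := by
      rw [Complex.exp_sum]
      apply Finset.prod_congr rfl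
      intro i _
      rw [ex, Complex.exp_int_mul]
    rw [this]
    have e : ∑ i ∈ I, ((2 * n i : ℤ) : ℂ) * (Real.pi * z i * Complex.I) =
        (n0 : ℂ) * (2 * Real.pi * Complex.I) := by
      rw [← hs, Finset.sum_mul]
      apply Finset.sum_congr rfl
      intro i _
      push_cast
      ring
    rw [e]
    exact Complex.exp_int_mul_two_pi_mul_I n0
  have h2 := mult_indep hF hpi (fun i => ex (z i)) (fun i => 2 * Complex.I / gam (z i))
    (fun i => F.div_mem (F.mul_mem (ofNat_mem F 2) (I_mem hF)) (h i))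
    (fun i => div_ne_zero (mul_ne_zero two_ne_zero Complex.I_ne_zero) (gam_ne (hz.1 i)))
    (fun i => Complex.exp_ne_zero _) (fun i => ex_gam (hz.1 i)) ?_ I (fun i => 2 * n i) h1
  · intro i hi
    have := h2 i hi
    omega
  · intro i j hij heq
    have h3 : gam (z i) ^ 2 = gam (z j) ^ 2 := by
      have hi := gam_ne (hz.1 i)
      have hj := gam_ne (hz.1 j)
      rw [div_pow, div_pow] at heq
      have hI : (2 * Complex.I) ^ 2 ≠ 0 :=
        pow_ne_zero 2 (mul_ne_zero two_ne_zero Complex.I_ne_zero)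
      rw [div_eq_div_iff (pow_ne_zero 2 hi) (pow_ne_zero 2 hj)] at heq
      exact (mul_left_cancel₀ hI heq).symm
    obtain ⟨m, hm | hm⟩ := gam_inj (hz.1 i) (hz.1 j) h3
    · exact (hz.2 i j hij m).1 hm
    · exact (hz.2 i j hij m).2 hm

/-- clearing denominators -/
theorem indep_rat {ι : Type*} (z : ι → ℂ)
    (hint : ∀ (I : Finset ι) (n : ι → ℤ) (n0 : ℤ), ∑ i ∈ I, (n i : ℂ) * z i = n0 →
      ∀ i ∈ I, n i = 0) (I : Finset ι) (c : ι → ℚ) (c0 : ℚ)
    (hs : ∑ i ∈ I, (c i : ℂ) * z i = c0) : ∀ i ∈ I, c i = 0 := by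
  classical
  let D : ℕ := (∏ i ∈ I, (c i).den) * c0.den
  have hD0 : D ≠ 0 := by
    apply mul_ne_zero
    · rw [Finset.prod_ne_zero_iff]
      exact fun i _ => (c i).den_nz
    · exact c0.den_nz
  have hDi : ∀ i ∈ I, ∃ m : ℤ, (D : ℚ) * c i = m := by
    intro i hi
    obtain ⟨e, he⟩ : (c i).den ∣ D := (Finset.dvd_prod_of_mem _ hi).mul_right _
    refine ⟨e * (c i).num, ?_⟩
    rw [he]
    push_cast
    rw [mul_comm ((c i).den : ℚ), mul_assoc, Rat.den_mul_eq_num]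
  obtain ⟨m0, hm0⟩ : ∃ m : ℤ, (D : ℚ) * c0 = m := by
    obtain ⟨e, he⟩ : c0.den ∣ D := dvd_mul_left _ _
    refine ⟨e * c0.num, ?_⟩
    rw [he]
    push_cast
    rw [mul_comm (c0.den : ℚ), mul_assoc, Rat.den_mul_eq_num]
  choose! m hm using hDi
  have h1 := hint I m m0 (by
    have e1 : (D : ℂ) * ∑ i ∈ I, (c i : ℂ) * z i = D * c0 := by rw [hs]
    have e2 : (D : ℂ) * c0 = m0 := by exact_mod_cast hm0
    rw [e2, Finset.mul_sum] at e1
    rw [← e1]
    apply Finset.sum_congr rfl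
    intro i hi
    have : (D : ℂ) * c i = m i := by exact_mod_cast hm i hi
    rw [← this]
    ring)
  intro i hi
  have h2 := hm i hi
  rw [h1 i hi] at h2
  have hDq : (D : ℚ) ≠ 0 := by exact_mod_cast hD0
  simpa [hDq] using h2

/-- **Linear independence of the exceptional points.** -/
theorem indep {F : Subfield ℂ} (hF : Closed F) (hpi : (Real.pi : ℂ) ∉ F) {n : ℕ}
    (z : Fin n → ℂ) (hz : Apart z) (h : ∀ i, gam (z i) ∈ F) :
    LinearIndependent ℚ (Fin.cons 1 z : Fin (n + 1) → ℂ) := by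
  rw [Fintype.linearIndependent_iff]
  intro g hg
  rw [Fin.sum_univ_succ] at hg
  simp only [Fin.cons_zero, Fin.cons_succ, Rat.smul_def, mul_one] at hg
  have h1 := indep_rat z (fun I n n0 hs => indep_int hF hpi z hz h I n n0 hs) Finset.univ
    (fun i => g i.succ) (-g 0) (by
      push_cast
      linear_combination hg)
  have h2 : ∀ i : Fin n, g i.succ = 0 := fun i => h1 i (Finset.mem_univ i)
  have h3 : g 0 = 0 := by
    simp only [h2, Rat.cast_zero, zero_mul, Finset.sum_const_zero, add_zero] at hg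
    exact_mod_cast hg
  intro i
  refine Fin.cases h3 h2 i

end Pool.Agent.Run7.h788.Refl
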