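import Pool.Agent.Run7.h788.ReflT
import Pool.Agent.H183R3.Mix
import Pool.Agent.W242.GG.Count

/-!
# Pairs of points of a number field: almost all pairs, up to signs, satisfy the conjecture
-/

open Polynomial Module

namespace Pool.Agent.Run7.h788.Refl

open Pool.Agent.W243.TD (Al)

theorem alg_of_sub {A : Type*} [Field A] [Algebra A ℂ] {F : Subfield ℂ}
    (h : ∀ a : A, algebraMap A ℂ a ∈ F) {x : ℂ} (hx : IsAlgebraic A x) : IsAlgebraic F x := by
  obtain ⟨p, hp0, hp⟩ := hx
  let φ : A →+* F := (algebraMap A ℂ).codRestrict F h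
  have hφ : Function.Injective φ := φ.injective
  refine ⟨p.map φ, (Polynomial.map_ne_zero_iff hφ).2 hp0, ?_⟩
  rw [aeval_def, eval₂_map]
  exact hp

theorem al_self (θ : ℂ) : Al θ θ :=
  isAlgebraic_algebraMap
    (⟨θ, IntermediateField.mem_adjoin_simple_self ℚ θ⟩ : IntermediateField.adjoin ℚ {θ})

theorem al_of_alg {θ x : ℂ} (h : IsAlgebraic ℚ x) : Al θ x := h.tower_top _

theorem al_trans {θ θ' x : ℂ} (h : Al θ θ') (hx : Al θ' x) : Al θ x := by
  rw [← mem_Cl_adj]
  apply closed_Cl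
  refine alg_of_sub (A := IntermediateField.adjoin ℚ {θ'}) ?_ hx
  intro a
  have h1 : IntermediateField.adjoin ℚ {θ'} ≤
      (algebraicClosure (IntermediateField.adjoin ℚ {θ}) ℂ).restrictScalars ℚ := by
    rw [IntermediateField.adjoin_le_iff]
    rintro _ rfl
    exact mem_Cl_adj.2 h
  exact h1 a.2

theorem swap {a b : ℂ} (h : AlgebraicIndependent ℚ ![a, b]) :
    AlgebraicIndependent ℚ ![b, a] := by
  have h1 := h.comp (Equiv.swap (0 : Fin 2) 1) (Equiv.swap (0 : Fin 2) 1).injective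
  convert h1 using 1
  funext i
  fin_cases i <;> rfl

theorem of_pair {a b : ℂ} (h : AlgebraicIndependent ℚ ![a, b]) : ¬ Al a b := by
  intro h1
  rw [AlgebraicIndependent.iff_transcendental_adjoin_image (1 : Fin 2)] at h
  have h2 : (![a, b] '' ({1}ᶜ : Set (Fin 2))) = {a} := by
    ext z
    simp only [Set.mem_image, Set.mem_compl_iff, Set.mem_singleton_iff]
    constructor
    · rintro ⟨i, hi, rfl⟩
      fin_cases i
      · rfl
      · exact absurd rfl hi
    · rintro rfl
      exact ⟨0, by decide, rfl⟩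
  have h3 := h.2
  rw [h2] at h3
  exact (IntermediateField.transcendental_adjoin_iff.2 h3) h1

theorem dep1 {g x : ℂ} (hg : Transcendental ℚ g) (h : ¬ AlgebraicIndependent ℚ ![g, x]) :
    Al g x := by
  by_contra hb
  exact h (Pool.Agent.W242.GG.algInd_pair hg hb)

theorem dep2 {g x : ℂ} (hg : Transcendental ℚ g) (h : ¬ AlgebraicIndependent ℚ ![x, g]) :
    Al g x := dep1 hg (fun h1 => h (swap h1))

theorem exch {θ g : ℂ} (hg : Transcendental ℚ g) (h : Al θ g) : Al g θ := by
  by_contra hn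
  exact of_pair (swap (Pool.Agent.W242.GG.algInd_pair hg hn)) h

theorem gam_eq {z : ℂ} (hz : z ≠ 0) : gam z = -(z * (Complex.Gamma z * Complex.Gamma (-z))) := by
  unfold gam
  have h1 : Complex.Gamma (1 - z) = -z * Complex.Gamma (-z) := by
    rw [← Complex.Gamma_add_one (-z) (neg_ne_zero.2 hz)]
    congr 1
    ring
  rw [h1]
  ring

theorem gam_al {θ z : ℂ} (hz : z ≠ 0) (hza : Al θ z) (h : ∀ s, s = z ∨ s = -z → Al θ (Complex.Gamma s)) :
    Al θ (gam z) := by
  rw [gam_eq hz]
  exact (hza.mul ((h z (Or.inl rfl)).mul (h (-z) (Or.inr rfl)))).neg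

/-- for no choice of signs the two values are algebraically independent -/
def NoPair (z z' : ℂ) : Prop := ∀ s t : ℂ, (s = z ∨ s = -z) → (t = z' ∨ t = -z') →
  ¬ AlgebraicIndependent ℚ ![Complex.Gamma s, Complex.Gamma t]

theorem noPair_dep {z z' : ℂ} (hz : z ≠ 0) (hz' : z' ≠ 0) (hza : IsAlgebraic ℚ z)
    (hza' : IsAlgebraic ℚ z') (h : NoPair z z') : ∃ θ, Al θ (gam z) ∧ Al θ (gam z') := by
  by_cases h1 : ∀ t, t = z' ∨ t = -z' → IsAlgebraic ℚ (Complex.Gamma t)
  · refine ⟨gam z, al_self _, gam_al hz' (al_of_alg hza') fun t ht => al_of_alg (h1 t ht)⟩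
  push Not at h1
  obtain ⟨t, ht, htr⟩ := h1
  have h2 : ∀ s, s = z ∨ s = -z → Al (Complex.Gamma t) (Complex.Gamma s) :=
    fun s hs => dep2 htr (h s t hs ht)
  by_cases h3 : ∀ s, s = z ∨ s = -z → IsAlgebraic ℚ (Complex.Gamma s)
  · exact ⟨gam z', gam_al hz (al_of_alg hza) fun s hs => al_of_alg (h3 s hs), al_self _⟩
  push Not at h3
  obtain ⟨s, hs, hsr⟩ := h3
  have h4 : ∀ t, t = z' ∨ t = -z' → Al (Complex.Gamma s) (Complex.Gamma t) :=
    fun t ht => dep1 hsr (h s t hs ht)
  refine ⟨Complex.Gamma s, gam_al hz (al_of_alg hza) fun u hu => ?_,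
    gam_al hz' (al_of_alg hza') h4⟩
  exact al_trans (h4 t ht) (h2 u hu)

section lattice

variable {k : ℕ} (ω : Fin k → ℂ)

/-- the point with coordinates `m` -/
noncomputable def pt (m : Fin k → ℤ) : ℂ := ∑ i, (m i : ℂ) * ω i

/-- the cube -/
noncomputable def box (k H : ℕ) : Finset (Fin k → ℤ) := Fintype.piFinset fun _ => Finset.Icc (-(H : ℤ)) H

theorem card_box (k H : ℕ) : (box k H).card = (2 * H + 1) ^ k := by
  unfold box
  rw [Fintype.card_piFinset_const, Int.card_Icc]
  congr 1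
  omega

variable {ω}

theorem pt_int (hω : LinearIndependent ℚ (Fin.cons 1 ω : Fin (k + 1) → ℂ)) {m : Fin k → ℤ} {n : ℤ}
    (h : pt ω m = n) : m = 0 := by
  rw [Fintype.linearIndependent_iff] at hω
  have h1 := hω (Fin.cons (-(n : ℚ)) fun i => (m i : ℚ)) (by
    rw [Fin.sum_univ_succ]
    simp only [Fin.cons_zero, Fin.cons_succ, Rat.smul_def, mul_one]
    push_cast
    have h2 : ∑ i, (m i : ℂ) * ω i = n := h
    rw [h2]
    ring)
  funext i
  have h2 := h1 i.succ
  rw [Fin.cons_succ] at h2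
  exact_mod_cast h2

theorem pt_sub (m m' : Fin k → ℤ) : pt ω (m - m') = pt ω m - pt ω m' := by
  unfold pt
  rw [← Finset.sum_sub_distrib]
  apply Finset.sum_congr rfl
  intro i _
  rw [Pi.sub_apply]
  push_cast
  ring

theorem pt_neg (m : Fin k → ℤ) : pt ω (-m) = -pt ω m := by
  unfold pt
  rw [← Finset.sum_neg_distrib]
  apply Finset.sum_congr rfl
  intro i _
  rw [Pi.neg_apply]
  push_cast
  ring

/-- few lattice points have their product in a closed field without `π` -/
theorem few (hω : LinearIndependent ℚ (Fin.cons 1 ω : Fin (k + 1) → ℂ)) {F : Subfield ℂ}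
    (hF : Closed F) (hpi : (Real.pi : ℂ) ∉ F) (S : Finset (Fin k → ℤ)) (hS0 : 0 ∉ S)
    (hS : ∀ m ∈ S, gam (pt ω m) ∈ F) : S.card ≤ 2 * k := by
  classical
  let q : (Fin k → ℤ) → Finset (Fin k → ℤ) := fun m => {m, -m}
  have hq : ∀ m m', q m = q m' → m = m' ∨ m = -m' := by
    intro m m' h
    have h1 : m ∈ q m' := by
      rw [← h]
      simp [q]
    simpa [q] using h1
  have hfib : S.card ≤ 2 * (S.image q).card := by
    apply Finset.card_le_mul_card_image
    intro e he
    obtain ⟨m, hm, rfl⟩ := Finset.mem_image.1 he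
    have h1 : (S.filter fun x => q x = q m) ⊆ {m, -m} := by
      intro x hx
      rcases hq _ _ (Finset.mem_filter.1 hx).2 with h | h
      · rw [h]; simp
      · rw [h]; simp
    exact (Finset.card_le_card h1).trans Finset.card_le_two
  have hrep : ∀ e : S.image q, ∃ m ∈ S, q m = e := fun e => Finset.mem_image.1 e.2
  choose rep hrep1 hrep2 using hrep
  let en := (S.image q).equivFin
  let z : Fin (S.image q).card → ℂ := fun i => pt ω (rep (en.symm i))
  have hz : Apart z := by
    constructor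
    · intro i n h
      have h1 := pt_int hω h
      exact hS0 (h1 ▸ hrep1 (en.symm i))
    · intro i j hij n
      have key : rep (en.symm i) ≠ rep (en.symm j) ∧ rep (en.symm i) ≠ -rep (en.symm j) := by
        constructor
        · intro h
          apply hij
          apply en.symm.injective
          apply Subtype.ext
          rw [← hrep2, ← hrep2, h]
        · intro h
          apply hij
          apply en.symm.injective
          apply Subtype.ext
          rw [← hrep2, ← hrep2, h]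
          simp only [q, neg_neg]
          exact Finset.pair_comm _ _
      constructor
      · intro h
        apply key.1
        have h1 : pt ω (rep (en.symm i) - rep (en.symm j)) = n := by
          rw [pt_sub]
          show z i - z j = n
          rw [h]
          ring
        exact sub_eq_zero.1 (pt_int hω h1)
      · intro h
        apply key.2
        have h1 : pt ω (rep (en.symm i) - -rep (en.symm j)) = n := by
          rw [pt_sub, pt_neg]
          show z i - -z j = n
          rw [h]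
          ring
        exact sub_eq_zero.1 (pt_int hω h1)
  have hli := indep hF hpi z hz fun i => hS _ (hrep1 _)
  have hle : sp z ≤ sp ω := by
    unfold sp
    rw [Submodule.span_le]
    rintro _ ⟨i, rfl⟩
    refine Fin.cases ?_ (fun i => ?_) i
    · exact Submodule.subset_span ⟨0, rfl⟩
    · show pt ω (rep (en.symm i)) ∈ Submodule.span ℚ (Set.range (Fin.cons 1 ω : Fin (k + 1) → ℂ))
      unfold pt
      apply Submodule.sum_mem
      intro j _
      have h1 : ((rep (en.symm i) j : ℤ) : ℂ) * ω j =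
          ((rep (en.symm i) j : ℤ) : ℚ) • (Fin.cons 1 ω : Fin (k + 1) → ℂ) j.succ := by
        rw [Rat.smul_def, Fin.cons_succ]
        push_cast
        rfl
      rw [h1]
      exact Submodule.smul_mem _ _ (Submodule.subset_span ⟨j.succ, rfl⟩)
  have hfd : FiniteDimensional ℚ (sp ω) := FiniteDimensional.span_of_finite ℚ (Set.finite_range _)
  have h1 := Submodule.finrank_mono hle
  have h2 : finrank ℚ (sp z) = (S.image q).card + 1 := by
    unfold sp
    rw [finrank_span_eq_card hli, Fintype.card_fin]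
  have h3 : finrank ℚ (sp ω) = k + 1 := by
    unfold sp
    rw [finrank_span_eq_card hω, Fintype.card_fin]
  omega

/-- lattice points in a subspace that contains `1` -/
theorem count_T (hω : LinearIndependent ℚ (Fin.cons 1 ω : Fin (k + 1) → ℂ)) (T : Submodule ℚ ℂ)
    [FiniteDimensional ℚ T] (h1T : (1 : ℂ) ∈ T) (H : ℕ) (S : Finset (Fin k → ℤ)) (hS : S ⊆ box k H)
    (hST : ∀ m ∈ S, pt ω m ∈ T) : S.card ≤ (2 * H + 1) ^ (finrank ℚ T - 1) := by
  classical
  let Φ : (Fin k → ℚ) →ₗ[ℚ] ℂ := Fintype.linearCombination ℚ ω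
  have hω' : LinearIndependent ℚ ω := by
    exact hω.comp Fin.succ (Fin.succ_injective k)
  have hΦ : Function.Injective Φ := by
    intro a b hab
    rw [Fintype.linearIndependent_iff] at hω'
    have h1 : Φ (a - b) = 0 := by rw [map_sub, hab, sub_self]
    funext i
    exact sub_eq_zero.1 (hω' (a - b) h1 i)
  have hΦpt : ∀ m : Fin k → ℤ, Φ (Pool.Agent.H183R3.toQ m) = pt ω m := by
    intro m
    simp only [Φ, Fintype.linearCombination_apply, Pool.Agent.H183R3.toQ, pt, Rat.smul_def]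
    push_cast
    rfl
  have h1n : (1 : ℂ) ∉ (T.comap Φ).map Φ := by
    rintro ⟨c, _, hc⟩
    rw [Fintype.linearIndependent_iff] at hω
    have h1 := hω (Fin.cons (-1) c) (by
      rw [Fin.sum_univ_succ]
      simp only [Fin.cons_zero, Fin.cons_succ]
      have h2 : ∑ i, c i • ω i = 1 := hc
      rw [h2]
      simp) 0
    simp at h1
  have hlt : (T.comap Φ).map Φ < T := by
    refine lt_of_le_of_ne (Submodule.map_comap_le Φ T) ?_
    intro h
    rw [h] at h1n
    exact h1n h1T
  have h2 := Submodule.finrank_lt_finrank_of_lt hlt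
  have h3 : finrank ℚ ((T.comap Φ).map Φ) = finrank ℚ (T.comap Φ) :=
    (LinearEquiv.finrank_eq (Submodule.equivMapOfInjective Φ hΦ (T.comap Φ))).symm
  have h4 := Pool.Agent.H183R3.card_coset_le (Finset.Icc (-(H : ℤ)) H)
    ⟨0, by simp⟩ (finrank ℚ T - 1) (T.comap Φ) (by omega) S ?_ ?_
  · rw [Int.card_Icc] at h4
    have : ((H : ℤ) + 1 - -(H : ℤ)).toNat = 2 * H + 1 := by omega
    rwa [this] at h4
  · intro x hx i
    exact Fintype.mem_piFinset.1 (hS hx) i
  · intro x hx y hy
    rw [Submodule.mem_comap, map_sub, hΦpt, hΦpt]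
    exact T.sub_mem (hST x hx) (hST y hy)

end lattice

/-- the points with `e^{iπz}` algebraic over `ℚ(π)` -/
noncomputable def TT (K : IntermediateField ℚ ℂ) : Submodule ℚ ℂ :=
  Submodule.span ℚ {z | z ∈ K ∧ Al (Real.pi : ℂ) (Complex.exp (Real.pi * Complex.I * z))}

theorem TT_le (K : IntermediateField ℚ ℂ) : TT K ≤ Subalgebra.toSubmodule K.toSubalgebra := by
  unfold TT
  rw [Submodule.span_le]
  exact fun z hz => hz.1

theorem TT_exp (K : IntermediateField ℚ ℂ) {z : ℂ} (hz : z ∈ TT K) :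
    Al (Real.pi : ℂ) (Complex.exp (Real.pi * Complex.I * z)) := by
  let S : Set ℂ := {z | z ∈ K ∧ Al (Real.pi : ℂ) (Complex.exp (Real.pi * Complex.I * z))}
  let μ : ℂ →ₗ[ℚ] ℂ := LinearMap.mulLeft ℚ (Real.pi * Complex.I : ℂ)
  have h1 := Pool.Agent.W243.TD.al_exp_span (θ := (Real.pi : ℂ)) (f := fun i : S => μ i)
    (fun i => i.2.2) (μ z) ?_
  · exact h1
  · have h2 : z ∈ Submodule.span ℚ (Set.range (Subtype.val : S → ℂ)) := by
      rw [Subtype.range_coe]
      exact hz
    have := Submodule.mem_map_of_mem (f := μ) h2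
    rwa [Submodule.map_span, ← Set.range_comp] at this

theorem TT_dim (K : IntermediateField ℚ ℂ) [FiniteDimensional ℚ K] :
    (finrank ℚ (TT K) + 1) ^ 2 ≤ 4 * finrank ℚ K + 1 :=
  w_bound Pool.Agent.H340R2.LW.transcendental_pi_complex K (TT K) (fun _ hz => TT_le K hz)
    (al_self _) (fun _ hz => TT_exp K hz)

theorem one_TT (K : IntermediateField ℚ ℂ) : (1 : ℂ) ∈ TT K := by
  apply Submodule.subset_span
  refine ⟨K.one_mem, ?_⟩
  rw [mul_one, Complex.exp_pi_mul_I]
  exact isAlgebraic_one.neg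

theorem pi_not (hpi : Transcendental ℚ (Real.pi : ℂ)) : (Real.pi : ℂ) ∉ Cl ⊥ := by
  intro hmem
  rw [mem_Cl] at hmem
  exact hpi (IsAlgebraic.restrictScalars ℚ hmem)

/-- **Almost all pairs.** -/
theorem pairs (K : IntermediateField ℚ ℂ) [FiniteDimensional ℚ K] {k : ℕ} (ω : Fin k → ℂ)
    (hωK : ∀ i, ω i ∈ K) (hω : LinearIndependent ℚ (Fin.cons 1 ω : Fin (k + 1) → ℂ)) (H : ℕ)
    (D : Finset ((Fin k → ℤ) × (Fin k → ℤ)))
    (hD : ∀ p ∈ D, p.1 ∈ box k H ∧ p.2 ∈ box k H ∧ p.1 ≠ 0 ∧ p.2 ≠ 0 ∧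
      NoPair (pt ω p.1) (pt ω p.2)) :
    D.card ≤ 4 * k * (2 * H + 1) ^ k + (2 * H + 1) ^ (2 * (finrank ℚ (TT K) - 1)) := by
  classical
  have hpi := Pool.Agent.H340R2.LW.transcendental_pi_complex
  have hptK : ∀ m : Fin k → ℤ, pt ω m ∈ K := by
    intro m
    unfold pt
    exact K.sum_mem fun i _ => K.mul_mem (intCast_mem K (m i)) (hωK i)
  have hAlg : ∀ z ∈ K, IsAlgebraic ℚ z := by
    intro z hz
    have h1 : IsAlgebraic ℚ (⟨z, hz⟩ : K) := Algebra.IsAlgebraic.isAlgebraic _
    exact h1.algebraMap (A := ℂ)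
  have hpt0 : ∀ m : Fin k → ℤ, m ≠ 0 → ∀ n : ℤ, pt ω m ≠ n := fun m hm n h => hm (pt_int hω h)
  have hpt0' : ∀ m : Fin k → ℤ, m ≠ 0 → pt ω m ≠ 0 := by
    intro m hm h
    exact hpt0 m hm 0 (by rw [h]; simp)
  let A := (box k H).filter fun m => m ≠ 0 ∧ IsAlgebraic ℚ (gam (pt ω m))
  let B := (box k H).filter fun m => pt ω m ∈ TT K
  let S : (Fin k → ℤ) → Finset (Fin k → ℤ) := fun m =>
    (box k H).filter fun m' => m' ≠ 0 ∧ Al (gam (pt ω m)) (gam (pt ω m'))
  let C := (box k H).filter fun m => (Real.pi : ℂ) ∉ Cl (IntermediateField.adjoin ℚ {gam (pt ω m)})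
  let E := (C.sigma S).image fun p => (p.1, p.2)
  have hA : A.card ≤ 2 * k := by
    apply few hω (closed_Cl ⊥) (pi_not hpi)
    · simp [A]
    · intro m hm
      exact alg_of_rat (Finset.mem_filter.1 hm).2.2
  have hS : ∀ m ∈ C, (S m).card ≤ 2 * k := by
    intro m hm
    apply few hω (closed_Cl _) (Finset.mem_filter.1 hm).2
    · simp [S]
    · intro m' hm'
      exact mem_Cl_adj.2 (Finset.mem_filter.1 hm').2.2
  have hE : E.card ≤ (2 * H + 1) ^ k * (2 * k) := by
    refine Finset.card_image_le.trans ?_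
    rw [Finset.card_sigma]
    refine (Finset.sum_le_card_nsmul C _ (2 * k) hS).trans ?_
    rw [smul_eq_mul]
    apply Nat.mul_le_mul_right
    rw [← card_box]
    exact Finset.card_filter_le _ _
  have hfd : FiniteDimensional ℚ (TT K) := by
    have hKf : FiniteDimensional ℚ (Subalgebra.toSubmodule K.toSubalgebra) :=
      inferInstanceAs (FiniteDimensional ℚ K)
    exact Submodule.finiteDimensional_of_le (TT_le K)
  have hB : B.card ≤ (2 * H + 1) ^ (finrank ℚ (TT K) - 1) :=
    count_T hω (TT K) (one_TT K) H B (Finset.filter_subset _ _)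
      (fun m hm => (Finset.mem_filter.1 hm).2)
  have hsub : D ⊆ (A ×ˢ box k H) ∪ E ∪ (B ×ˢ B) := by
    intro p hp
    obtain ⟨h1, h2, h3, h4, h5⟩ := hD p hp
    obtain ⟨θ, hθ1, hθ2⟩ := noPair_dep (hpt0' _ h3) (hpt0' _ h4) (hAlg _ (hptK _))
      (hAlg _ (hptK _)) h5
    rw [Finset.mem_union, Finset.mem_union]
    by_cases ha : IsAlgebraic ℚ (gam (pt ω p.1))
    · left; left
      exact Finset.mem_product.2 ⟨Finset.mem_filter.2 ⟨h1, h3, ha⟩, h2⟩
    · have hθ3 : Al (gam (pt ω p.1)) (gam (pt ω p.2)) := al_trans (exch ha hθ1) hθ2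
      by_cases hc : (Real.pi : ℂ) ∉ Cl (IntermediateField.adjoin ℚ {gam (pt ω p.1)})
      · left; right
        refine Finset.mem_image.2 ⟨⟨p.1, p.2⟩, ?_, rfl⟩
        exact Finset.mem_sigma.2 ⟨Finset.mem_filter.2 ⟨h1, hc⟩, Finset.mem_filter.2 ⟨h2, h4, hθ3⟩⟩
      · right
        rw [not_not, mem_Cl_adj] at hc
        have hc' : Al (Real.pi : ℂ) (gam (pt ω p.1)) := exch hpi hc
        have key : ∀ m : Fin k → ℤ, m ≠ 0 → Al (Real.pi : ℂ) (gam (pt ω m)) → pt ω m ∈ TT K := by
          intro m hm hal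
          apply Submodule.subset_span
          refine ⟨hptK m, ?_⟩
          rw [← ex_eq, ← mem_Cl_adj]
          exact ex_mem (hpt0 m hm) (mem_Cl_adj.2 (al_self _)) (mem_Cl_adj.2 hal)
        exact Finset.mem_product.2 ⟨Finset.mem_filter.2 ⟨h1, key _ h3 hc'⟩,
          Finset.mem_filter.2 ⟨h2, key _ h4 (al_trans hc' hθ3)⟩⟩
  have hN : (A ×ˢ box k H).card ≤ 2 * k * (2 * H + 1) ^ k := by
    rw [Finset.card_product, card_box]
    exact Nat.mul_le_mul_right _ hA
  have hBB : (B ×ˢ B).card ≤ (2 * H + 1) ^ (2 * (finrank ℚ (TT K) - 1)) := by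
    rw [Finset.card_product, mul_comm 2 (finrank ℚ (TT K) - 1), pow_mul, sq]
    exact Nat.mul_le_mul hB hB
  have h1 := Finset.card_le_card hsub
  have h2 := Finset.card_union_le ((A ×ˢ box k H) ∪ E) (B ×ˢ B)
  have h3 := Finset.card_union_le (A ×ˢ box k H) E
  have h4 : 4 * k * (2 * H + 1) ^ k = 2 * k * (2 * H + 1) ^ k + (2 * H + 1) ^ k * (2 * k) := by ring
  omega

end Pool.Agent.Run7.h788.Refl
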