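import Pool.Agent.Run7.h788.ReflG
import Pool.Agent.W243.TD.Use
import Pool.Agent.H340R2.LW

/-!
# Number fields: few exceptional points, and transcendence degree two
-/

open Polynomial Module

namespace Pool.Agent.Run7.h788.Refl

open Pool.Agent.W243.TD (Al)

/-- the algebraic closure in `ℂ` of a subfield -/
noncomputable def Cl (E : IntermediateField ℚ ℂ) : Subfield ℂ := (algebraicClosure E ℂ).toSubfield

theorem mem_Cl {E : IntermediateField ℚ ℂ} {x : ℂ} : x ∈ Cl E ↔ IsAlgebraic E x := by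
  show x ∈ algebraicClosure E ℂ ↔ _
  exact mem_algebraicClosure_iff

theorem closed_Cl (E : IntermediateField ℚ ℂ) : Closed (Cl E) := by
  intro x hx
  have h1 : IsAlgebraic (algebraicClosure E ℂ) x := hx
  rw [mem_Cl]
  exact IsAlgebraic.restrictScalars E h1

theorem alg_of_rat {E : IntermediateField ℚ ℂ} {x : ℂ} (h : IsAlgebraic ℚ x) : x ∈ Cl E := by
  rw [mem_Cl]
  exact h.tower_top E

theorem ex_mem {E : IntermediateField ℚ ℂ} {z : ℂ} (hz : ∀ m : ℤ, z ≠ m)
    (hpi : (Real.pi : ℂ) ∈ Cl E) (h : gam z ∈ Cl E) : ex z ∈ Cl E := by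
  have hF := closed_Cl E
  apply hF
  refine quad_alg (Cl E) ?_ (Complex.exp_ne_zero _) (ex_gam hz)
  exact (Cl E).mul_mem ((Cl E).div_mem ((Cl E).mul_mem (ofNat_mem _ 2) (I_mem hF)) h) hpi

theorem num {w d : ℕ} (hd : 1 ≤ d) (h : ∀ k, k ≤ d → k * w ≤ d + k * (k - 1)) :
    (w + 1) ^ 2 ≤ 4 * d + 1 := by
  have h1 := h 1 hd
  simp only [one_mul, Nat.sub_self, mul_zero, add_zero] at h1
  have h2 := h ((w + 1) / 2) (by omega)
  rcases Nat.even_or_odd' (w + 1) with ⟨k, hk | hk⟩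
  · have e1 : (w + 1) / 2 = k := by omega
    rw [e1] at h2
    obtain rfl | ⟨k, rfl⟩ : k = 0 ∨ ∃ j, k = j + 1 := by
      rcases k with _ | k
      · left; rfl
      · right; exact ⟨k, rfl⟩
    · omega
    · have e2 : w = 2 * k + 1 := by omega
      subst e2
      simp only [Nat.add_sub_cancel] at h2
      nlinarith
  · have e1 : (w + 1) / 2 = k := by omega
    rw [e1] at h2
    obtain rfl | ⟨k, rfl⟩ : k = 0 ∨ ∃ j, k = j + 1 := by
      rcases k with _ | k
      · left; rfl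
      · right; exact ⟨k, rfl⟩
    · have : w = 0 := by omega
      subst this
      omega
    · have e2 : w = 2 * k + 2 := by omega
      subst e2
      simp only [Nat.add_sub_cancel] at h2
      nlinarith

theorem w_bound {θ : ℂ} (hθ : Transcendental ℚ θ) (K : IntermediateField ℚ ℂ)
    [FiniteDimensional ℚ K] (T : Submodule ℚ ℂ) (hT : ∀ z ∈ T, z ∈ K) (hpi : Al θ (Real.pi : ℂ))
    (hex : ∀ z ∈ T, Al θ (Complex.exp (Real.pi * Complex.I * z))) :
    (finrank ℚ T + 1) ^ 2 ≤ 4 * finrank ℚ K + 1 := by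
  classical
  have hc0 : (Real.pi * Complex.I : ℂ) ≠ 0 :=
    mul_ne_zero (by exact_mod_cast Real.pi_ne_zero) Complex.I_ne_zero
  have hI : IsAlgebraic ℚ Complex.I := by
    refine ⟨X ^ 2 + 1, ?_, ?_⟩
    · exact (monic_X_pow_add_C (1 : ℚ) two_ne_zero).ne_zero
    · simp
  have hAlg : ∀ z ∈ K, IsAlgebraic ℚ z := by
    intro z hz
    have h1 : IsAlgebraic ℚ (⟨z, hz⟩ : K) := Algebra.IsAlgebraic.isAlgebraic _
    exact h1.algebraMap (A := ℂ)
  have hup : ∀ z : ℂ, IsAlgebraic ℚ z → Al θ z := fun z h => h.tower_top _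
  let μ : ℂ →ₗ[ℚ] ℂ := LinearMap.mulLeft ℚ (Real.pi * Complex.I : ℂ)
  have hμ : Function.Injective μ := by
    intro a b hab
    exact mul_left_cancel₀ hc0 hab
  have hKf : FiniteDimensional ℚ (Subalgebra.toSubmodule K.toSubalgebra) :=
    inferInstanceAs (FiniteDimensional ℚ K)
  have hTK : T ≤ Subalgebra.toSubmodule K.toSubalgebra := hT
  have hTf : FiniteDimensional ℚ T := Submodule.finiteDimensional_of_le hTK
  have hfin : ∀ S : Submodule ℚ ℂ, finrank ℚ (S.map μ) = finrank ℚ S := by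
    intro S
    exact (LinearEquiv.finrank_eq (Submodule.equivMapOfInjective μ hμ S)).symm
  apply num
  · exact Module.finrank_pos
  intro k hk
  obtain ⟨f, hf⟩ := exists_linearIndependent_of_le_finrank (R := ℚ) (M := K) hk
  let g : Fin k → ℂ := fun i => (f i : ℂ)
  have hg : LinearIndependent ℚ g :=
    hf.map' (K.val.toLinearMap) (LinearMap.ker_eq_bot.2 Subtype.val_injective)
  have hX : finrank ℚ (Submodule.span ℚ (Set.range g)) = k := by
    rw [finrank_span_eq_card hg, Fintype.card_fin]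
  have hXK : ∀ x ∈ Submodule.span ℚ (Set.range g), x ∈ K := by
    intro x hx
    have : Submodule.span ℚ (Set.range g) ≤ Subalgebra.toSubmodule K.toSubalgebra := by
      rw [Submodule.span_le]
      rintro _ ⟨i, rfl⟩
      exact (f i).2
    exact this hx
  have hXf : FiniteDimensional ℚ (Submodule.span ℚ (Set.range g)) :=
    FiniteDimensional.span_of_finite ℚ (Set.finite_range g)
  have h := Pool.Agent.W243.TD.prod1 hθ (Submodule.span ℚ (Set.range g)) (T.map μ)
    ((Subalgebra.toSubmodule K.toSubalgebra).map μ) ?_ ?_ ?_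
  · rw [hX, hfin, hfin] at h
    exact h
  · rintro _ ⟨z, hz, rfl⟩
    exact (hpi.mul (hup _ hI)).mul (hup _ (hAlg z (hT z hz)))
  · rintro _ ⟨z, hz, rfl⟩
    exact hex z hz
  · rintro x hx _ ⟨z, hz, rfl⟩
    refine ⟨x * z, K.mul_mem (hXK x hx) (hT z hz), ?_⟩
    show Real.pi * Complex.I * (x * z) = x * (Real.pi * Complex.I * z)
    ring

theorem ex_eq (z : ℂ) : ex z = Complex.exp (Real.pi * Complex.I * z) := by
  unfold ex
  congr 1
  ring

/-- the rational space of the `z i` and `1` -/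
noncomputable def sp {n : ℕ} (z : Fin n → ℂ) : Submodule ℚ ℂ :=
  Submodule.span ℚ (Set.range (Fin.cons 1 z : Fin (n + 1) → ℂ))

theorem sp_le (K : IntermediateField ℚ ℂ) {n : ℕ} (z : Fin n → ℂ) (hz : ∀ i, z i ∈ K) :
    ∀ x ∈ sp z, x ∈ K := by
  intro x hx
  have : sp z ≤ Subalgebra.toSubmodule K.toSubalgebra := by
    unfold sp
    rw [Submodule.span_le]
    rintro _ ⟨i, rfl⟩
    refine Fin.cases ?_ (fun i => ?_) i
    · exact K.one_mem
    · exact hz i
  exact this hx

theorem sp_exp {θ : ℂ} {n : ℕ} (z : Fin n → ℂ) (h : ∀ i, Al θ (ex (z i))) :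
    ∀ x ∈ sp z, Al θ (Complex.exp (Real.pi * Complex.I * x)) := by
  intro x hx
  let μ : ℂ →ₗ[ℚ] ℂ := LinearMap.mulLeft ℚ (Real.pi * Complex.I : ℂ)
  have h1 := Pool.Agent.W243.TD.al_exp_span (θ := θ)
    (f := fun i => μ ((Fin.cons 1 z : Fin (n + 1) → ℂ) i)) (fun i => ?_) (μ x) ?_
  · exact h1
  · refine Fin.cases ?_ (fun i => ?_) i
    · show Al θ (Complex.exp (Real.pi * Complex.I * 1))
      rw [mul_one, Complex.exp_pi_mul_I]
      exact isAlgebraic_one.neg
    · show Al θ (Complex.exp (Real.pi * Complex.I * z i))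
      rw [← ex_eq]
      exact h i
  · have := Submodule.mem_map_of_mem (f := μ) hx
    unfold sp at this
    rwa [Submodule.map_span, ← Set.range_comp] at this

/-- the closure of `ℚ(θ)` -/
theorem mem_Cl_adj {θ x : ℂ} : x ∈ Cl (IntermediateField.adjoin ℚ {θ}) ↔ Al θ x := mem_Cl

/-- if `π` and all products are algebraic over `ℚ(θ)`, the space of the `z i` is small -/
theorem bound_of_pi {θ : ℂ} (hθ : Transcendental ℚ θ) (K : IntermediateField ℚ ℂ)
    [FiniteDimensional ℚ K] {n : ℕ} (z : Fin n → ℂ) (hzK : ∀ i, z i ∈ K)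
    (hz : ∀ i, ∀ m : ℤ, z i ≠ m) (hpi : Al θ (Real.pi : ℂ)) (h : ∀ i, Al θ (gam (z i))) :
    (finrank ℚ (sp z) + 1) ^ 2 ≤ 4 * finrank ℚ K + 1 := by
  apply w_bound hθ K (sp z) (sp_le K z hzK) hpi
  apply sp_exp
  intro i
  rw [← mem_Cl_adj]
  exact ex_mem (hz i) (mem_Cl_adj.2 hpi) (mem_Cl_adj.2 (h i))

/-- **Number fields.** -/
theorem number_field (K : IntermediateField ℚ ℂ) [FiniteDimensional ℚ K] {n : ℕ} (z : Fin n → ℂ)
    (hzK : ∀ i, z i ∈ K) (hz : Apart z) (h : ∀ i, IsAlgebraic ℚ (gam (z i))) :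
    (n + 2) ^ 2 ≤ 4 * finrank ℚ K + 1 := by
  have hpi := Pool.Agent.H340R2.LW.transcendental_pi_complex
  have h1 := bound_of_pi hpi K z hzK hz.1 (mem_Cl_adj.1 (by
      rw [mem_Cl]
      exact isAlgebraic_algebraMap
        (⟨_, IntermediateField.mem_adjoin_simple_self ℚ (Real.pi : ℂ)⟩ :
          IntermediateField.adjoin ℚ {(Real.pi : ℂ)})))
    (fun i => (h i).tower_top _)
  have h2 : LinearIndependent ℚ (Fin.cons 1 z : Fin (n + 1) → ℂ) := by
    apply indep (closed_Cl ⊥) (fun hmem => hpi ?_) z hz (fun i => alg_of_rat (h i))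
    rw [mem_Cl] at hmem
    exact IsAlgebraic.restrictScalars ℚ hmem
  have h3 : finrank ℚ (sp z) = n + 1 := by
    unfold sp
    rw [finrank_span_eq_card h2, Fintype.card_fin]
  rwa [h3] at h1

/-- **Transcendence degree two.** -/
theorem trdeg_two (K : IntermediateField ℚ ℂ) [FiniteDimensional ℚ K] {n : ℕ} (z : Fin n → ℂ)
    (hzK : ∀ i, z i ∈ K) (hz : Apart z) (hn : finrank ℚ (sp z) ≤ n)
    (hw : 4 * finrank ℚ K + 1 < (finrank ℚ (sp z) + 1) ^ 2) (θ : ℂ) :
    ∃ i, ¬ Al θ (gam (z i)) := by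
  by_contra hcon
  push Not at hcon
  have hpi := Pool.Agent.H340R2.LW.transcendental_pi_complex
  have hdep : ¬ LinearIndependent ℚ (Fin.cons 1 z : Fin (n + 1) → ℂ) := by
    intro h2
    have h3 : finrank ℚ (sp z) = n + 1 := by
      unfold sp
      rw [finrank_span_eq_card h2, Fintype.card_fin]
    omega
  have hpiθ : Al θ (Real.pi : ℂ) := by
    rw [← mem_Cl_adj]
    by_contra hno
    exact hdep (indep (closed_Cl _) hno z hz (fun i => mem_Cl_adj.2 (hcon i)))
  have hθ : Transcendental ℚ θ := by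
    intro hθ
    apply hpi
    have h1 : Algebra.IsAlgebraic ℚ (IntermediateField.adjoin ℚ {θ}) :=
      IntermediateField.isAlgebraic_adjoin_simple (isAlgebraic_iff_isIntegral.1 hθ)
    exact IsAlgebraic.restrictScalars ℚ hpiθ
  have h1 := bound_of_pi hθ K z hzK hz.1 hpiθ hcon
  omega

theorem trdeg_ge_two {S : Set ℂ} (h : ∀ θ : ℂ, ∃ x ∈ S, ¬ Al θ x) :
    2 ≤ Algebra.trdeg ℚ (IntermediateField.adjoin ℚ S) := by
  classical
  by_contra hcon
  rw [not_le] at hcon
  obtain ⟨s, hs⟩ := exists_isTranscendenceBasis ℚ (IntermediateField.adjoin ℚ S)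
  rw [← hs.cardinalMk_eq_trdeg] at hcon
  obtain ⟨θ, hθ⟩ : ∃ θ : ℂ, ∀ y ∈ s, (y : ℂ) = θ := by
    rcases s.eq_empty_or_nonempty with h0 | ⟨y, hy⟩
    · exact ⟨0, by rw [h0]; simp⟩
    · refine ⟨y, fun y' hy' => ?_⟩
      by_contra hne
      have h2 : (2 : Cardinal) ≤ Cardinal.mk s := by
        rw [Cardinal.two_le_iff]
        exact ⟨⟨y', hy'⟩, ⟨y, hy⟩, fun h => hne (by rw [Subtype.mk.injEq] at h; rw [h])⟩
      exact absurd hcon (not_lt.2 h2)
  obtain ⟨x, hx, hxθ⟩ := h θ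
  apply hxθ
  have h1 := hs.isAlgebraic
  have h2 : IsAlgebraic (Algebra.adjoin ℚ (Set.range ((↑) : s → IntermediateField.adjoin ℚ S)))
    (⟨x, IntermediateField.subset_adjoin ℚ S hx⟩ : IntermediateField.adjoin ℚ S) := h1.1 _
  have hmem : ∀ a ∈ Algebra.adjoin ℚ (Set.range ((↑) : s → IntermediateField.adjoin ℚ S)),
      (a : ℂ) ∈ IntermediateField.adjoin ℚ {θ} := by
    intro a ha
    induction ha using Algebra.adjoin_induction with
    | mem a ha =>
      obtain ⟨y, rfl⟩ := ha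
      rw [hθ y y.2]
      exact IntermediateField.mem_adjoin_simple_self ℚ θ
    | algebraMap r => exact (IntermediateField.adjoin ℚ {θ}).algebraMap_mem r
    | add a b _ _ ha hb => exact add_mem ha hb
    | mul a b _ _ ha hb => exact mul_mem ha hb
  obtain ⟨p, hp0, hp⟩ := h2
  let φ : Algebra.adjoin ℚ (Set.range ((↑) : s → IntermediateField.adjoin ℚ S)) →+*
      IntermediateField.adjoin ℚ {θ} :=
    { toFun := fun a => ⟨((a : IntermediateField.adjoin ℚ S) : ℂ), hmem a.1 a.2⟩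
      map_one' := rfl
      map_mul' := fun _ _ => rfl
      map_zero' := rfl
      map_add' := fun _ _ => rfl }
  have hφ : Function.Injective φ := by
    intro a b hab
    apply Subtype.ext
    apply Subtype.ext
    exact congrArg (fun t : IntermediateField.adjoin ℚ {θ} => (t : ℂ)) hab
  refine ⟨p.map φ, (Polynomial.map_ne_zero_iff hφ).2 hp0, ?_⟩
  rw [aeval_def, eval₂_map]
  have h3 := congrArg (algebraMap (IntermediateField.adjoin ℚ S) ℂ) hp
  rw [aeval_def, hom_eval₂, map_zero] at h3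
  exact h3

end Pool.Agent.Run7.h788.Refl
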