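import Pool.Agent.R351.SlpTup
import Pool.Agent.TH681.QC.Rate
import Pool.Agent.W245.PB.PLog

/-!
# Computations with few additions at the values of an abstract logarithm

This is the abstract form of the starting file `Pool.Agent.R351.SlpRate`, which treats the complex
logarithm; it applies to the `p`-adic logarithm, uniformly in `p`.
-/

set_option autoImplicit false

namespace Run7.h788

open Module Finset
open Pool.Agent.R351
open Pool.Agent.W245.PB (LogLike count_cons QbarP)
open Pool.Agent.TH681.QC (er er_pos er_half er_nonneg cubes_er HasCube)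

/-- An uncountable field has infinite transcendence degree over a countable subfield. -/
theorem infTrd_of_countable {κ C : Type} [Field κ] [Field C] [Algebra κ C] [Countable κ]
    [Uncountable C] : InfTrd κ C := by
  intro s hs halg
  have hc : (Set.univ : Set C).Countable := by
    have h4 : Countable (Algebra.adjoin κ s) := by
      have h5 : Countable s := hs.countable.to_subtype
      have h6 : Cardinal.mk (Algebra.adjoin κ s) ≤
          max (max (Cardinal.mk κ) (Cardinal.mk s)) Cardinal.aleph0 := by
        have h7 : Function.Surjective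
            (MvPolynomial.aeval (R := κ) (fun x : s => (x : C))).rangeRestrict :=
          AlgHom.rangeRestrict_surjective _
        have h8 := Cardinal.mk_le_of_surjective h7
        have h9 : Algebra.adjoin κ s = (MvPolynomial.aeval (R := κ) (fun x : s => (x : C))).range := by
          rw [← Algebra.adjoin_range_eq_range_aeval, Subtype.range_coe]
        rw [h9]
        exact h8.trans MvPolynomial.cardinalMk_le_max
      rw [← Cardinal.mk_le_aleph0_iff]
      refine h6.trans (max_le (max_le ?_ ?_) le_rfl)
      · exact Cardinal.mk_le_aleph0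
      · exact Cardinal.mk_le_aleph0
    have h10 : Cardinal.mk C ≤ max (Cardinal.mk (Algebra.adjoin κ s)) Cardinal.aleph0 :=
      Algebra.IsAlgebraic.cardinalMk_le_max (Algebra.adjoin κ s) C
    rw [Set.countable_univ_iff, ← Cardinal.mk_le_aleph0_iff]
    refine h10.trans (max_le ?_ le_rfl)
    exact Cardinal.mk_le_aleph0
  exact Set.not_countable_univ hc

/-- The one-variable theorem with its rate. -/
theorem rate_slp1 (g L : ℕ) : ∃ c : ℕ, ∀ x ≥ 16,
    ∀ (κ C : Type) [Field κ] [IsAlgClosed κ] [CharZero κ] [Field C] [CharZero C] [Algebra κ C],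
    InfTrd κ C → ∀ lg : ℕ → C, LogLike κ lg → ∀ (t : Fin g → C) (A : Finset ℕ), A ⊆ Ioc 0 x →
    (∀ a ∈ A, ¬ Good1 κ t L (lg a)) → (A.card : ℝ) ≤ er c x * x := by
  classical
  obtain ⟨r, hr⟩ := cube_good g L
  obtain ⟨c, hc⟩ := cubes_er r 0
  refine ⟨c, fun x hx κ C _ _ _ _ _ _ hinf lg hlg t A hA hbad => ?_⟩
  by_contra hcon
  push Not at hcon
  obtain ⟨a, p, q, ha, hp, hq, hinj, hcube⟩ := hc x hx A hA hcon
  obtain ⟨S, hS⟩ := hr κ C hinf t (lg (a * ∏ i, p i))
    (fun i => lg (q i) - lg (p i))
    (hlg.indep r p q (fun i => (hp i).1) (fun i => (hq i).1) hinj)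
  apply hbad _ (hcube S)
  have h1 := hlg.cube a p q ha (fun i => (hp i).1.pos) (fun i => (hq i).1.pos) S
  rw [h1]
  exact hS

/-- **The theorem for tuples.** -/
theorem rate_slp (L m : ℕ) : ∀ g : ℕ, ∃ c : ℕ, ∀ x : ℕ, x ≥ 16 →
    ∀ (κ C : Type) [Field κ] [IsAlgClosed κ] [CharZero κ] [Field C] [CharZero C] [Algebra κ C],
    InfTrd κ C → ∀ lg : ℕ → C, LogLike κ lg → ∀ t : Fin g → C,
    ∀ B : Finset (Fin m → ℕ), B ⊆ (Fintype.piFinset fun _ : Fin m => Ioc 0 x) →
      (∀ n ∈ B, ¬ GoodT κ t L (fun i => lg (n i))) →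
      (B.card : ℝ) ≤ er c x * x ^ m := by
  induction m with
  | zero =>
    intro g
    refine ⟨0, fun x hx κ C _ _ _ _ _ _ hinf lg hlg t B hB hbad => ?_⟩
    have hB0 : B = ∅ := by
      rw [Finset.eq_empty_iff_forall_notMem]
      intro a ha
      exact hbad a ha (goodT_zero _ _)
    rw [hB0]
    simp [er_nonneg 0 hx]
  | succ m ih =>
    intro g
    obtain ⟨c₁, hc₁⟩ := rate_slp1 g L
    obtain ⟨c₂, hc₂⟩ := ih (g + 1)
    classical
    refine ⟨2 * (c₁ + c₂ + 1), fun x hx κ C _ _ _ _ _ _ hinf lg hlg t B hB hbad => ?_⟩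
    have hinfk : Infinite κ := IsAlgClosed.instInfinite
    refine count_cons m x _ (er_pos _ (by omega) hx)
      (fun n => ¬ GoodT κ t L (fun i => lg (n i)))
      ((Ioc 0 x).filter (fun a : ℕ => ¬ Good1 κ t L (lg a)))
      (Finset.filter_subset _ _) ?_ ?_ B hB hbad
    · refine (hc₁ x hx κ C hinf lg hlg t _ (Finset.filter_subset _ _)
        (fun a ha => (Finset.mem_filter.1 ha).2)).trans ?_
      have := er_half (c := c₁) (d := c₁ + c₂ + 1) (by omega) hx
      gcongr
    · intro a ha haA B' hB' hbad'
      have h₀ : Good1 κ t L (lg a) := by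
        by_contra hcon
        exact haA (Finset.mem_filter.2 ⟨ha, hcon⟩)
      have h1 := hc₂ x hx κ C hinf lg hlg (Fin.cons (lg a) t : Fin (g + 1) → C) B' hB' (by
        intro n hn hgood
        apply hbad' n hn
        have h2 := goodT_cons h₀ hgood
        have h3 : (fun i => lg ((Fin.cons a n : Fin (m + 1) → ℕ) i)) =
            (Fin.cons (lg a) (fun i => lg (n i)) : Fin (m + 1) → C) := by
          funext i
          refine Fin.cases ?_ (fun j => ?_) i
          · simp
          · simp
        rw [h3]
        exact h2)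
      refine h1.trans ?_
      have := er_half (c := c₂) (d := c₁ + c₂ + 1) (by omega) hx
      gcongr

end Run7.h788
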