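import Pool.Agent.Run7.h788.RandTwo
import Pool.Agent.H301R2.SSE.Forms
import Pool.Agent.H297R2.InBakerThm
import Pool.Agent.Y918.OL.Cube
import Pool.Agent.Y918.EL.Main

/-!
# Numbers `v exp(c y)` with random logarithms `y` are independent modulo linear forms in logarithms
-/

set_option autoImplicit false

namespace Run7.h788.Tow

open Module Finset Pool.Agent.H301R2.SSE
open Pool.Agent.Y918.OL (cube_count li_dirs)

theorem alg_QB {u : ℂ} (h : IsAlgebraic QB u) : IsAlgebraic ℚ u := by
  have : Algebra.IsAlgebraic ℚ QB := algebraicClosure.isAlgebraic ℚ ℂ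
  exact h.restrictScalars ℚ

/-- multiplication by a transcendental number enlarges a space -/
theorem grow {V : Submodule QB ℂ} [Module.Finite QB V] (hV : V ≠ ⊥) {u : ℂ}
    (hu : ¬ IsAlgebraic ℚ u) {V' : Submodule QB ℂ} [Module.Finite QB V'] (h1 : V ≤ V')
    (h2 : ∀ y ∈ V, u * y ∈ V') : finrank QB V + 1 ≤ finrank QB V' := by
  by_contra hlt
  push Not at hlt
  have heq : V = V' := Submodule.eq_of_le_of_finrank_le h1 (by omega)
  rw [← heq] at h2
  have h3 : IsIntegral QB u := isIntegral_of_smul_mem_submodule (R := QB) (A := ℂ) (M := ℂ) V hV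
    (Module.Finite.iff_fg.1 inferInstance) u (fun y hy => h2 y hy)
  exact hu (alg_QB h3.isAlgebraic)

/-- the span of the products over the subsets of `I` -/
noncomputable def cubeSp {r : ℕ} (z : ℂ) (X : Fin r → ℂ) (I : Finset (Fin r)) : Submodule QB ℂ :=
  Submodule.span QB ((fun J => z * ∏ i ∈ J, X i) '' (I.powerset : Set (Finset (Fin r))))

instance {r : ℕ} (z : ℂ) (X : Fin r → ℂ) (I : Finset (Fin r)) : Module.Finite QB (cubeSp z X I) := by
  unfold cubeSp
  exact FiniteDimensional.span_of_finite _ (Set.Finite.image _ (Finset.finite_toSet _))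

theorem mem_cubeSp {r : ℕ} (z : ℂ) (X : Fin r → ℂ) {I J : Finset (Fin r)} (h : J ⊆ I) :
    z * ∏ i ∈ J, X i ∈ cubeSp z X I :=
  Submodule.subset_span ⟨J, Finset.mem_coe.2 (Finset.mem_powerset.2 h), rfl⟩

theorem card_cubeSp {r : ℕ} {z : ℂ} (hz : z ≠ 0) {X : Fin r → ℂ} (I : Finset (Fin r))
    (hX : ∀ i ∈ I, ¬ IsAlgebraic ℚ (X i)) : I.card + 1 ≤ finrank QB (cubeSp z X I) := by
  classical
  induction I using Finset.induction_on with
  | empty =>
    rw [Finset.card_empty, zero_add, Nat.one_le_iff_ne_zero, ← Nat.pos_iff_ne_zero]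
    have h1 : z ∈ cubeSp z X (∅ : Finset (Fin r)) := by
      have := mem_cubeSp z X (Finset.Subset.refl (∅ : Finset (Fin r)))
      simpa using this
    rw [Module.finrank_pos_iff_exists_ne_zero]
    exact ⟨⟨z, h1⟩, fun h2 => hz (congrArg Subtype.val h2)⟩
  | insert a I ha ih =>
    have h1 := ih fun i hi => hX i (Finset.mem_insert_of_mem hi)
    rw [Finset.card_insert_of_notMem ha]
    refine (Nat.succ_le_succ h1).trans (grow ?_ (hX a (Finset.mem_insert_self a I)) ?_ ?_)
    · intro h2
      have : finrank QB (cubeSp z X I) = 0 := by rw [h2]; exact finrank_bot QB ℂ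
      omega
    · refine Submodule.span_mono ?_
      rintro w ⟨J, hJ, rfl⟩
      refine ⟨J, ?_, rfl⟩
      rw [Finset.mem_coe, Finset.mem_powerset] at hJ ⊢
      exact hJ.trans (Finset.subset_insert a I)
    · intro y hy
      induction hy using Submodule.span_induction with
      | mem w hw =>
        obtain ⟨J, hJ, rfl⟩ := hw
        rw [Finset.mem_coe, Finset.mem_powerset] at hJ
        have haJ : a ∉ J := fun h => ha (hJ h)
        have h3 := mem_cubeSp z X (Finset.insert_subset_insert a hJ)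
        rw [Finset.prod_insert haJ] at h3
        have : X a * (z * ∏ i ∈ J, X i) = z * (X a * ∏ i ∈ J, X i) := by ring
        change X a * (z * ∏ i ∈ J, X i) ∈ _
        rw [this]
        exact h3
      | zero =>
        rw [mul_zero]
        exact Submodule.zero_mem _
      | add x y _ _ hx hy =>
        rw [mul_add]
        exact Submodule.add_mem _ hx hy
      | smul c x _ hx =>
        rw [mul_smul_comm]
        exact Submodule.smul_mem _ _ hx

/-- the strong six exponentials theorem modulo a space of finite dimension -/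
theorem six_mod (F : Submodule QB ℂ) [Module.Finite QB F] {u : ℂ} (hu : ¬ IsAlgebraic ℚ u)
    (V : Submodule QB ℂ) [Module.Finite QB V] (hV : 2 * finrank QB F + 3 ≤ finrank QB V)
    (h : ∀ y ∈ V, y ∈ Lt ⊔ F ∧ u * y ∈ Lt ⊔ F) : False := by
  classical
  let ψ : V →ₗ[QB] (ℂ ⧸ Lt) × (ℂ ⧸ Lt) :=
    (Lt.mkQ.comp V.subtype).prod (Lt.mkQ.comp ((LinearMap.mulLeft QB u).comp V.subtype))
  let φ : F × F →ₗ[QB] (ℂ ⧸ Lt) × (ℂ ⧸ Lt) :=
    (Lt.mkQ.comp F.subtype).prodMap (Lt.mkQ.comp F.subtype)
  have hmod : ∀ y ∈ Lt ⊔ F, ∃ b : F, Lt.mkQ (b : ℂ) = Lt.mkQ y := by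
    intro y hy
    obtain ⟨a, ha, b, hb, rfl⟩ := Submodule.mem_sup.1 hy
    refine ⟨⟨b, hb⟩, ?_⟩
    have h0 : Lt.mkQ a = 0 := (Submodule.Quotient.mk_eq_zero Lt).2 ha
    rw [map_add, h0, zero_add]
  have hrange : LinearMap.range ψ ≤ LinearMap.range φ := by
    rintro _ ⟨y, rfl⟩
    obtain ⟨b1, hb1⟩ := hmod _ (h y y.2).1
    obtain ⟨b2, hb2⟩ := hmod _ (h y y.2).2
    exact ⟨(b1, b2), Prod.ext hb1 hb2⟩
  have hfin : finrank QB (LinearMap.range ψ) ≤ 2 * finrank QB F := by
    refine (Submodule.finrank_mono hrange).trans ((LinearMap.finrank_range_le φ).trans ?_)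
    rw [Module.finrank_prod]
    omega
  have hker : 3 ≤ finrank QB (LinearMap.ker ψ) := by
    have := LinearMap.finrank_range_add_finrank_ker ψ
    omega
  let b := Module.finBasis QB (LinearMap.ker ψ)
  let y : Fin 3 → ℂ := fun i => ((b (Fin.castLE hker i) : LinearMap.ker ψ) : V)
  have hyli : LinearIndependent QB y := by
    have h1 : LinearIndependent QB (fun i : Fin 3 => b (Fin.castLE hker i)) :=
      b.linearIndependent.comp _ (Fin.castLE_injective hker)
    have h2 := h1.map' (V.subtype.comp (LinearMap.ker ψ).subtype) (by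
      rw [LinearMap.ker_eq_bot]
      exact Subtype.val_injective.comp Subtype.val_injective)
    exact h2
  have hy1 : ∀ i, y i ∈ Lt ∧ u * y i ∈ Lt := by
    intro i
    have h1 : ψ (b (Fin.castLE hker i) : LinearMap.ker ψ) = 0 :=
      (b (Fin.castLE hker i) : LinearMap.ker ψ).2
    exact ⟨(Submodule.Quotient.mk_eq_zero Lt).1 (congrArg Prod.fst h1),
      (Submodule.Quotient.mk_eq_zero Lt).1 (congrArg Prod.snd h1)⟩
  refine strong_six ![1, u] y ?_ ?_ ?_
  · intro a b ha hb hab
    simp only [Matrix.cons_val_zero, Matrix.cons_val_one, mul_one] at hab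
    have hb0 : b = 0 := by
      by_contra hb0
      refine hu ?_
      have : u = -a / b := by
        field_simp
        linear_combination hab
      rw [this, div_eq_mul_inv]
      exact ha.neg.mul hb.inv
    refine ⟨?_, hb0⟩
    rw [hb0, zero_mul, add_zero] at hab
    exact hab
  · intro c hc h0 j
    rw [Fintype.linearIndependent_iff] at hyli
    have := hyli (fun j => (⟨c j, mem_QB.2 (hc j)⟩ : QB)) h0 j
    exact congrArg Subtype.val this
  · intro i j
    fin_cases i
    · simpa using (hy1 j).1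
    · simpa using (hy1 j).2

/-- the theorem of Gelfond and Schneider -/
theorem gs {c μ : ℂ} (hc : IsAlgebraic ℚ c) (hci : ∀ q : ℚ, c ≠ q) (hμ0 : μ ≠ 0)
    (hμ : IsAlgebraic ℚ (Complex.exp μ)) : ¬ IsAlgebraic ℚ (Complex.exp (c * μ)) := by
  intro h
  have hli : LinearIndependent ℚ ![μ, c * μ] := by
    rw [LinearIndependent.pair_iff]
    intro s t hst
    have h1 : ((s : ℂ) + t * c) * μ = 0 := by
      rw [← hst, Rat.smul_def, Rat.smul_def]; ring
    have h2 : (s : ℂ) + t * c = 0 := by
      rcases mul_eq_zero.mp h1 with h2 | h2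
      · exact h2
      · exact absurd h2 hμ0
    by_cases ht : t = 0
    · subst ht
      refine ⟨?_, rfl⟩
      simpa using h2
    · exfalso
      apply hci (-s / t)
      have ht' : (t : ℂ) ≠ 0 := by exact_mod_cast ht
      push_cast
      field_simp
      linear_combination h2
  have := Pool.Agent.H297R2.baker_inhom ![μ, c * μ] (by
    intro i
    fin_cases i
    · exact hμ
    · exact h) hli 0 isAlgebraic_zero ![c, -1] (by
    intro i
    fin_cases i
    · exact hc
    · exact (isAlgebraic_one (R := ℚ) (A := ℂ)).neg) (by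
    simp [Fin.sum_univ_two])
  have h3 := this.2 1
  simp at h3

/-- by the six exponentials theorem at most two of the numbers `exp(c μ_i)` are algebraic -/
theorem few_bad {c : ℂ} (hc : ∀ q : ℚ, c ≠ q) {r : ℕ} (μ : Fin r → ℂ)
    (hμ : ∀ i, IsAlgebraic ℚ (Complex.exp (μ i))) (hli : LinearIndependent QB μ) [DecidablePred
      fun i => IsAlgebraic ℚ (Complex.exp (c * μ i))] :
    (univ.filter fun i => IsAlgebraic ℚ (Complex.exp (c * μ i))).card ≤ 2 := by
  classical
  by_cases hca : IsAlgebraic ℚ c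
  · rw [Finset.filter_false_of_mem]
    · simp
    · intro i _
      exact gs hca hc (hli.ne_zero i) (hμ i)
  · by_contra h3
    push Not at h3
    set s := univ.filter fun i => IsAlgebraic ℚ (Complex.exp (c * μ i)) with hs
    let e : Fin 3 → Fin r := fun i => s.orderEmbOfFin rfl (Fin.castLE h3 i)
    have he : Function.Injective e :=
      (s.orderEmbOfFin rfl).injective.comp (Fin.castLE_injective h3)
    have hes : ∀ i, IsAlgebraic ℚ (Complex.exp (c * μ (e i))) := fun i =>
      (Finset.mem_filter.1 (Finset.orderEmbOfFin_mem s rfl (Fin.castLE h3 i))).2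
    refine strong_six ![1, c] (fun i => μ (e i)) ?_ ?_ ?_
    · intro a b ha hb hab
      simp only [Matrix.cons_val_zero, Matrix.cons_val_one, mul_one] at hab
      have hb0 : b = 0 := by
        by_contra hb0
        refine hca ?_
        have : c = -a / b := by
          field_simp
          linear_combination hab
        rw [this, div_eq_mul_inv]
        exact ha.neg.mul hb.inv
      refine ⟨?_, hb0⟩
      rw [hb0, zero_mul, add_zero] at hab
      exact hab
    · intro a ha h0 j
      have h1 := hli.comp e he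
      rw [Fintype.linearIndependent_iff] at h1
      exact congrArg Subtype.val (h1 (fun j => (⟨a j, mem_QB.2 (ha j)⟩ : QB)) h0 j)
    · intro i j
      fin_cases i
      · have h1 : μ (e j) ∈ Lt := Submodule.subset_span (Or.inr (hμ (e j)))
        simp only [Fin.zero_eta, Matrix.cons_val_zero, one_mul]
        exact h1
      · have h1 : c * μ (e j) ∈ Lt := Submodule.subset_span (Or.inr (hes j))
        simp only [Fin.mk_one, Matrix.cons_val_one]
        exact h1

theorem alg_exp_rat {z : ℂ} (hz : IsAlgebraic ℚ (Complex.exp z)) (q : ℚ) :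
    IsAlgebraic ℚ (Complex.exp ((q : ℂ) * z)) := by
  have h1 : Complex.exp ((q : ℂ) * z) ^ q.den = Complex.exp z ^ q.num := by
    rw [← Complex.exp_nat_mul, ← Complex.exp_int_mul]
    congr 1
    have h2 : ((q.den : ℂ)) ≠ 0 := by exact_mod_cast q.den_nz
    have h3 : (q : ℂ) = q.num / q.den := by exact_mod_cast (Rat.num_div_den q).symm
    rw [h3]
    field_simp
  refine IsAlgebraic.of_pow q.den_pos ?_
  rw [h1]
  rw [← mem_QB] at hz ⊢
  exact zpow_mem hz _

/-- **Cubes.** -/
theorem cube_avoid {N k : ℕ} {v c : ℂ} (hv : v ≠ 0) (hc : ∀ q : ℚ, c ≠ q) (lam : Fin k → ℂ)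
    (hlam : ∀ i, IsAlgebraic ℚ (Complex.exp (lam i))) (hli : LinearIndependent QB lam)
    (F : Submodule QB ℂ) [Module.Finite QB F] (hF : finrank QB F ≤ N)
    (β : Fin k → ℚ) (u : Fin (2 * N + 5) → Fin k → ℚ) (hu : ∀ i, u i ≠ 0)
    (hd : ∀ i j, i ≠ j → ∀ s, u i s = 0 ∨ u j s = 0) :
    ∃ S : Finset (Fin (2 * N + 5)),
      ¬ (v * Complex.exp (c * ∑ s, (((β + ∑ i ∈ S, u i) s : ℚ) : ℂ) * lam s) ∈ Lt ⊔ F) := by
  classical
  by_contra hall
  push Not at hall
  set μ : Fin (2 * N + 5) → ℂ := fun i => ∑ s, (u i s : ℂ) * lam s with hμ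
  have hμli : LinearIndependent QB μ := li_dirs hli u hu hd
  have hμa : ∀ i, IsAlgebraic ℚ (Complex.exp (μ i)) := by
    intro i
    rw [hμ]
    simp only [Complex.exp_sum]
    rw [← mem_QB]
    exact prod_mem fun s _ => mem_QB.2 (alg_exp_rat (hlam s) _)
  set X : Fin (2 * N + 5) → ℂ := fun i => Complex.exp (c * μ i) with hX
  set z : ℂ := v * Complex.exp (c * ∑ s, (β s : ℂ) * lam s) with hz
  have hz0 : z ≠ 0 := mul_ne_zero hv (Complex.exp_ne_zero _)
  have hval : ∀ S : Finset (Fin (2 * N + 5)), z * ∏ i ∈ S, X i ∈ Lt ⊔ F := by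
    intro S
    have h1 := hall S
    have h2 : z * ∏ i ∈ S, X i =
        v * Complex.exp (c * ∑ s, (((β + ∑ i ∈ S, u i) s : ℚ) : ℂ) * lam s) := by
      rw [hz, hX]
      simp only
      rw [← Complex.exp_sum, mul_assoc, ← Complex.exp_add, ← Finset.mul_sum, ← mul_add]
      congr 3
      rw [hμ, Finset.sum_comm, ← Finset.sum_add_distrib]
      refine Finset.sum_congr rfl fun s _ => ?_
      rw [Pi.add_apply, Finset.sum_apply]
      push_cast
      rw [add_mul, Finset.sum_mul]
    rw [h2]
    exact h1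
  have hbad := few_bad hc μ hμa hμli
  obtain ⟨G, hG⟩ : ∃ G, G = univ.filter fun i => ¬ IsAlgebraic ℚ (Complex.exp (c * μ i)) :=
    ⟨_, rfl⟩
  have hGc : 2 * N + 3 ≤ G.card := by
    have h1 := Finset.card_filter_add_card_filter_not (s := (univ : Finset (Fin (2 * N + 5))))
      (fun i => IsAlgebraic ℚ (Complex.exp (c * μ i)))
    rw [← hG, Finset.card_univ, Fintype.card_fin] at h1
    omega
  obtain ⟨i₀, hi₀⟩ : G.Nonempty := Finset.card_pos.1 (by omega)
  have hGX : ∀ i ∈ G, ¬ IsAlgebraic ℚ (X i) := by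
    intro i hi
    rw [hG] at hi
    exact (Finset.mem_filter.1 hi).2
  have hI := card_cubeSp hz0 (X := X) (G.erase i₀) fun i hi => hGX i (Finset.mem_of_mem_erase hi)
  rw [Finset.card_erase_of_mem hi₀] at hI
  have hV1 : cubeSp z X (G.erase i₀) ≤ Lt ⊔ F := by
    unfold cubeSp
    rw [Submodule.span_le]
    rintro _ ⟨J, -, rfl⟩
    exact hval J
  have hV2 : cubeSp z X (G.erase i₀) ≤ (Lt ⊔ F).comap (LinearMap.mulLeft QB (X i₀)) := by
    unfold cubeSp
    rw [Submodule.span_le]
    rintro _ ⟨J, hJ, rfl⟩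
    rw [Finset.mem_coe, Finset.mem_powerset] at hJ
    have h1 : i₀ ∉ J := fun h => (Finset.notMem_erase i₀ G : i₀ ∉ G.erase i₀) (hJ h)
    have h2 := hval (insert i₀ J)
    rw [Finset.prod_insert h1] at h2
    have h3 : X i₀ * (z * ∏ i ∈ J, X i) = z * (X i₀ * ∏ i ∈ J, X i) := by ring
    change X i₀ * (z * ∏ i ∈ J, X i) ∈ Lt ⊔ F
    rw [h3]
    exact h2
  refine six_mod F (hGX i₀ hi₀) (cubeSp z X (G.erase i₀)) ?_ fun y hy => ⟨hV1 hy, hV2 hy⟩
  omega

/-- independence modulo a space -/
def IndepMod (L : Submodule QB ℂ) {n : ℕ} (y : Fin n → ℂ) : Prop :=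
  ∀ a : Fin n → QB, ∑ i, a i • y i ∈ L → ∀ i, a i = 0

theorem indepMod_of_stage {L F : Submodule QB ℂ} {n : ℕ} {y : Fin n → ℂ}
    (h : ∀ j : Fin n, y j ∉ L ⊔ Pool.Agent.R350.stage F y j) : IndepMod (L ⊔ F) y := by
  classical
  intro a ha
  by_contra hno
  push Not at hno
  have hne : (univ.filter fun i => a i ≠ 0).Nonempty := by
    obtain ⟨i, hi⟩ := hno
    exact ⟨i, by simpa using hi⟩
  set j := (univ.filter fun i => a i ≠ 0).max' hne with hj
  have hj0 : a j ≠ 0 := (Finset.mem_filter.1 (Finset.max'_mem _ hne)).2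
  have hgt : ∀ i, j < i → a i = 0 := by
    intro i hi
    by_contra h0
    have := Finset.le_max' (univ.filter fun i => a i ≠ 0) i (by simpa using h0)
    exact absurd hi (not_lt.2 this)
  refine h j ?_
  have h1 : ∑ i, a i • y i = a j • y j + ∑ i ∈ univ.filter (fun i => i < j), a i • y i := by
    rw [← Finset.add_sum_erase _ _ (Finset.mem_univ j)]
    congr 1
    symm
    refine Finset.sum_subset ?_ ?_
    · intro i hi
      rw [Finset.mem_filter] at hi
      exact Finset.mem_erase.2 ⟨hi.2.ne, Finset.mem_univ i⟩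
    · intro i hi hi2
      rw [Finset.mem_erase] at hi
      have : j < i := by
        rcases lt_trichotomy i j with h3 | h3 | h3
        · exact absurd (Finset.mem_filter.2 ⟨Finset.mem_univ i, h3⟩) hi2
        · exact absurd h3 hi.1
        · exact h3
      rw [hgt i this, zero_smul]
  rw [h1] at ha
  have h2 : ∑ i ∈ univ.filter (fun i => i < j), a i • y i ∈
      L ⊔ Pool.Agent.R350.stage F y j := by
    refine Submodule.sum_mem _ fun i hi => Submodule.smul_mem _ _ (Submodule.mem_sup_right ?_)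
    exact Submodule.mem_sup_right (Submodule.subset_span ⟨i, (Finset.mem_filter.1 hi).2, rfl⟩)
  have h3 : L ⊔ F ≤ L ⊔ Pool.Agent.R350.stage F y j := sup_le_sup_left le_sup_left L
  have h4 : a j • y j ∈ L ⊔ Pool.Agent.R350.stage F y j := by
    have := Submodule.sub_mem _ (h3 ha) h2
    rwa [add_sub_cancel_right] at this
  have h5 := Submodule.smul_mem (L ⊔ Pool.Agent.R350.stage F y j) (a j)⁻¹ h4
  rwa [smul_smul, inv_mul_cancel₀ hj0, one_smul] at h5

open Classical in
/-- **Random towers.** -/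
theorem rand_tow (n N : ℕ) : ∃ (k₀ C : ℕ) (δ : ℝ), 0 < δ ∧ ∀ k ≥ k₀,
    ∀ v c : Fin n → ℂ, (∀ j, v j ≠ 0) → (∀ j, ∀ q : ℚ, c j ≠ q) →
    ∀ lam : Fin n → Fin k → ℂ, (∀ j i, IsAlgebraic ℚ (Complex.exp (lam j i))) →
    (∀ j, LinearIndependent ℚ (lam j)) → ∀ A : Finset ℤ, A.Nonempty →
    ∀ F : Submodule QB ℂ, Module.Finite QB F → finrank QB F ≤ N →
    (((Fintype.piFinset fun _ : Fin n => Fintype.piFinset fun _ : Fin k => A).filter (fun P =>
      ¬ IndepMod (Lt ⊔ F)
        (fun j => v j * Complex.exp (c j * ∑ i, (P j i : ℂ) * lam j i)))).card : ℝ) ≤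
      C * (A.card : ℝ) ^ ((n * k : ℝ) - δ * k) := by
  obtain ⟨k₀, C, δ, hδ, h⟩ := cube_count (2 * (N + n) + 5)
  refine ⟨k₀, n * C, δ, hδ, fun k hk v c hv hc lam hlam hli A hA F hFf hFN => ?_⟩
  obtain ⟨y, hy⟩ : ∃ y : (Fin n → Fin k → ℚ) → Fin n → ℂ,
      y = fun P j => v j * Complex.exp (c j * ∑ i, (P j i : ℂ) * lam j i) := ⟨_, rfl⟩
  set X : Finset ℚ := A.image (fun z : ℤ => (z : ℚ)) with hX
  have hXne : X.Nonempty := hA.image _
  have hXc : X.card = A.card := Pool.Agent.Y918.EL.card_image_cast A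
  obtain ⟨a, ha⟩ : ∃ a : ℝ, a = (A.card : ℝ) := ⟨_, rfl⟩
  have ha1 : 1 ≤ a := by
    rw [ha]
    exact_mod_cast hA.card_pos
  have ha0 : 0 < a := by linarith
  have hfin : ∀ (j : Fin n) (z : Fin n → ℂ),
      Module.Finite QB (Pool.Agent.R350.stage F z j) := fun j z =>
    Pool.Agent.R350.stage_finite F z j
  obtain ⟨bad, hbad⟩ : ∃ bad : Fin n → (Fin n → Fin k → ℚ) → Prop, bad = fun (j : Fin n) P =>
    y P j ∈ Lt ⊔ Pool.Agent.R350.stage F (y P) j := ⟨_, rfl⟩
  have key := count_update (n := n) (Fintype.piFinset fun _ : Fin k => X) bad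
    (C * a ^ ((k : ℝ) - δ * k)) (by positivity) (by
    intro j P
    have := hfin j (y P)
    have h1 := h k hk X hXne (fun p => v j * Complex.exp (c j * ∑ s, (p s : ℂ) * lam j s) ∈
      Lt ⊔ Pool.Agent.R350.stage F (y P) j) (fun β u hu hd => by
        refine cube_avoid (hv j) (hc j) (lam j) (hlam j)
          (Pool.Agent.R350.li_complex _ (hlam j) (hli j)) _ ?_ β u hu hd
        have := Pool.Agent.R350.finrank_stage_le F (y P) j
        omega)
    rw [hXc, ← ha] at h1
    refine le_trans (Nat.cast_le.2 (Finset.card_le_card ?_)) h1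
    intro p hp
    rw [Finset.mem_filter] at hp ⊢
    refine ⟨hp.1, ?_⟩
    have e1 : ∀ i < j, y (Function.update P j p) i = y P i := by
      intro i hi
      rw [hy]
      simp only [Function.update_of_ne hi.ne]
    have e2 : Pool.Agent.R350.stage F (y (Function.update P j p)) j =
        Pool.Agent.R350.stage F (y P) j :=
      Pool.Agent.R350.stage_congr F j fun i hi => e1 i hi
    have e3 : y (Function.update P j p) j =
        v j * Complex.exp (c j * ∑ s, (p s : ℂ) * lam j s) := by
      rw [hy]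
      simp only [Function.update_self]
    have h2 := hp.2
    rw [hbad] at h2
    change y (Function.update P j p) j ∈
      Lt ⊔ Pool.Agent.R350.stage F (y (Function.update P j p)) j at h2
    rw [e2, e3] at h2
    exact h2)
  have hbound : (((Fintype.piFinset fun _ : Fin n => Fintype.piFinset fun _ : Fin k => X).filter
      (fun P => ∃ j, bad j P)).card : ℝ) ≤ ((n * C : ℕ) : ℝ) * a ^ ((n * k : ℝ) - δ * k) := by
    refine key.trans ?_
    rcases Nat.eq_zero_or_pos n with rfl | hn
    · simp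
    · have hYc : ((Fintype.piFinset fun _ : Fin k => X).card : ℝ) = a ^ (k : ℝ) := by
        rw [Fintype.card_piFinset_const, hXc, ha]
        push_cast
        rw [Real.rpow_natCast]
      rw [hYc, ← Real.rpow_natCast, ← Real.rpow_mul ha0.le, mul_assoc, ← Real.rpow_add ha0]
      push_cast
      rw [← mul_assoc]
      refine le_of_eq ?_
      congr 2
      rw [Nat.cast_sub hn]
      push_cast
      ring
  rw [← ha]
  refine le_trans (Nat.cast_le.2 ?_) hbound
  refine (Pool.Agent.Y918.EL.card_cast A _ (fun P => ∃ j, bad j P) fun m hm => ?_)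
  by_contra hno
  push Not at hno
  refine hm ?_
  have h3 : IndepMod (Lt ⊔ F) (y fun j i => ((m j i : ℤ) : ℚ)) := by
    refine indepMod_of_stage fun j => ?_
    have := hno j
    rw [hbad] at this
    exact this
  rw [hy] at h3
  simpa only [Rat.cast_intCast] using h3

end Run7.h788.Tow
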