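import Pool.Agent.Run7.h788.TraCo
import Pool.Agent.Run7.h788.RandMix

/-!
# Relations at a translate of a point of the Lie algebra of `E^n × G_m^s` by an algebraic point

After `ell_rel` of the library file `Pool.Agent.Y916.Sch.Ell` (starting tree), over the field of all
algebraic numbers.
-/

open Module
open scoped PeriodPair

namespace Pool.Agent.Run7.h788.Tra

open Pool.Agent.Y918.EL (Qb)

/-- the numbers `p_i`, `ζ(p_i)`, `t_l` -/
noncomputable def XL (Λ : PeriodPair) {n s : ℕ} (p : Fin n → ℂ) (t : Fin s → ℂ) :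
    Fin n × Fin 2 ⊕ Fin s → ℂ :=
  Sum.elim (fun a => ![p a.1, H667R3.zeta Λ (p a.1)] a.2) t

/-- the numbers `℘(p_i)`, `℘'(p_i)`, `exp(t_l)` -/
noncomputable def XE (Λ : PeriodPair) {n s : ℕ} (p : Fin n → ℂ) (t : Fin s → ℂ) :
    Fin n × Fin 2 ⊕ Fin s → ℂ :=
  Sum.elim (fun a => ![℘[Λ] (p a.1), ℘'[Λ] (p a.1)] a.2) fun l => Complex.exp (t l)

/-- relations of degree `≤ δ` with algebraic coefficients are identities in the logarithms -/
def Fr (Λ : PeriodPair) (δ : ℕ) {υ : Type} {n s : ℕ} (w : υ → ℂ) (p : Fin n → ℂ) (t : Fin s → ℂ) :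
    Prop :=
  ∀ P : MvPolynomial (υ ⊕ ((Fin n × Fin 2 ⊕ Fin s) ⊕ (Fin n × Fin 2 ⊕ Fin s))) Qb,
    P.totalDegree ≤ δ →
    MvPolynomial.aeval (Sum.elim w (Sum.elim (XL Λ p t) (XE Λ p t))) P = 0 →
    ∀ v : Fin n × Fin 2 ⊕ Fin s → ℂ, MvPolynomial.aeval (Sum.elim w (Sum.elim v (XE Λ p t))) P = 0

open Classical in
/-- the additive constant of the zeta function -/
noncomputable def zt (Λ : PeriodPair) (z : ℂ) : ℂ :=
  if z ∈ Λ.lattice then H667R3.eta Λ z else H667R3.zeta Λ z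

/-- the constants -/
noncomputable def cst (Λ : PeriodPair) {υ : Type} {n s : ℕ} (w : υ → ℂ) (z : Fin n → ℂ)
    (y : Fin s → ℂ) : Option ((υ ⊕ Fin 2) ⊕ (Fin n × Fin 4 ⊕ Fin s × Fin 2)) → ℂ := fun o =>
  o.elim 1 (Sum.elim (Sum.elim w ![Λ.ω₁, Λ.ω₂])
    (Sum.elim (fun a => ![z a.1, ℘[Λ] (z a.1), ℘'[Λ] (z a.1), zt Λ (z a.1)] a.2)
      fun a => ![y a.1, Complex.exp (y a.1)] a.2))

/-- the space of the constants -/
noncomputable def VV (Λ : PeriodPair) {υ : Type} {n s : ℕ} (w : υ → ℂ) (z : Fin n → ℂ)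
    (y : Fin s → ℂ) : Submodule Qb ℂ := Submodule.span Qb (Set.range (cst Λ w z y))

theorem prod_memV {K : IntermediateField ℚ ℂ} {V : Submodule K ℂ} {ι : Type} (S : Finset ι) (e : ℕ)
    (x : ι → ℂ) (hx : ∀ i, x i ∈ V ^ e) : ∏ i ∈ S, x i ∈ V ^ (e * S.card) := by
  classical
  induction S using Finset.induction_on with
  | empty =>
    rw [Finset.prod_empty, Finset.card_empty, mul_zero, pow_zero]
    exact Submodule.one_le.1 le_rfl
  | insert i S hi ih =>
    rw [Finset.prod_insert hi, Finset.card_insert_of_notMem hi, mul_add, mul_one, add_comm, pow_add]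
    exact Submodule.mul_mem_mul (hx i) ih

section

variable (Λ : PeriodPair) {υ : Type} [Fintype υ] {n s : ℕ}

omit [Fintype υ] in
theorem one_VV (w : υ → ℂ) (z : Fin n → ℂ) (y : Fin s → ℂ) : (1 : ℂ) ∈ VV Λ w z y :=
  Submodule.subset_span ⟨none, rfl⟩

/-- the translation theorem -/
theorem fr_of (h2 : IsAlgebraic ℚ Λ.g₂) (δ : ℕ)
    (w : υ → ℂ) (z : Fin n → ℂ) (y : Fin s → ℂ) (p : Fin n → ℂ) (t : Fin s → ℂ)
    (hp : ∀ i, p i ∉ Λ.lattice) (h2p : ∀ i, 2 * p i ∉ Λ.lattice) (hzp : ∀ i, z i + p i ∉ Λ.lattice)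
    (hα : ∀ i, ℘[Λ] (p i) ∈ Qb) (hβ : ∀ i, ℘'[Λ] (p i) ∈ Qb) (ht : ∀ l, Complex.exp (t l) ∈ Qb)
    (hne : ∀ i, z i ∉ Λ.lattice → ℘[Λ] (z i) ≠ ℘[Λ] (p i))
    (hNR : ∀ Q : MvPolynomial (Fin n × Fin 2 ⊕ Fin s) ℂ,
      (∀ c, Q.coeff c ∈ VV Λ w z y ^ ((5 * n + 1) * δ)) → Q.totalDegree ≤ δ →
      MvPolynomial.aeval (XL Λ p t) Q = 0 → Q = 0) :
    Fr Λ δ w (fun i => z i + p i) (fun l => y l + t l) := by
  classical
  intro P hP1 hP2 v₀
  set V : Submodule Qb ℂ := VV Λ w z y with hV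
  have h1V : (1 : ℂ) ∈ V := one_VV Λ w z y
  have hzV : ∀ (i : Fin n) (c : Fin 4), (![z i, ℘[Λ] (z i), ℘'[Λ] (z i), zt Λ (z i)] : Fin 4 → ℂ) c ∈ V :=
    fun i c => Submodule.subset_span ⟨some (Sum.inr (Sum.inl (i, c))), rfl⟩
  have hyV : ∀ (l : Fin s) (c : Fin 2), (![y l, Complex.exp (y l)] : Fin 2 → ℂ) c ∈ V :=
    fun l c => Submodule.subset_span ⟨some (Sum.inr (Sum.inr (l, c))), rfl⟩
  have hwV : ∀ j, w j ∈ V := fun j => Submodule.subset_span ⟨some (Sum.inl (Sum.inl j)), rfl⟩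
  have hg : Λ.g₂ ∈ Qb := (mem_algebraicClosure_iff (F := ℚ) (E := ℂ)).2 h2
  have hadd : ∀ i, ∃ D : ℂ, D ≠ 0 ∧ D ∈ V ^ 5 ∧ D * ℘[Λ] (z i + p i) ∈ V ^ 5 ∧
      D * ℘'[Λ] (z i + p i) ∈ V ^ 5 ∧
      D * (H667R3.zeta Λ (z i + p i) - H667R3.zeta Λ (p i)) ∈ V ^ 5 := by
    intro i
    exact add_den Λ h1V (z := z i) (hp i) (h2p i) (hzp i) (hne i) (hα i) (hβ i) hg (hzV i 1) (hzV i 2)
      (fun hz => by
        have h := hzV i 3
        have h5 : zt Λ (z i) = H667R3.zeta Λ (z i) := if_neg hz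
        rw [← h5]
        exact h) (fun hz => by
        have h := hzV i 3
        have h5 : zt Λ (z i) = H667R3.eta Λ (z i) := if_pos hz
        rw [← h5]
        exact h)
  choose D hD0 hD1 hD2 hD3 hD4 using hadd
  have hDt : ∏ i, D i ∈ V ^ (5 * n) := by
    have := prod_memV (V := V) Finset.univ 5 D hD1
    rwa [Finset.card_univ, Fintype.card_fin] at this
  have hDt0 : ∏ i, D i ≠ 0 := Finset.prod_ne_zero_iff.2 fun i _ => hD0 i
  have hDx : ∀ (i : Fin n) (x : ℂ), D i * x ∈ V ^ 5 → (∏ j, D j) * x ∈ V ^ (5 * n + 1) := by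
    intro i x hx
    have h3 : (∏ j, D j) * x = (D i * x) * ∏ j ∈ Finset.univ.erase i, D j := by
      rw [← Finset.mul_prod_erase Finset.univ D (Finset.mem_univ i)]
      ring
    have h4 := prod_memV (V := V) (Finset.univ.erase i) 5 D hD1
    rw [Finset.card_erase_of_mem (Finset.mem_univ i), Finset.card_univ, Fintype.card_fin] at h4
    rw [h3]
    refine pow_le h1V (?_ : 5 + 5 * (n - 1) ≤ 5 * n + 1) ?_
    · have := i.pos
      omega
    · rw [pow_add]
      exact Submodule.mul_mem_mul hx h4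
  have hDv : ∀ x : ℂ, x ∈ V → (∏ j, D j) * x ∈ V ^ (5 * n + 1) := by
    intro x hx
    rw [pow_add, pow_one]
    exact Submodule.mul_mem_mul hDt hx
  let sh : Fin n × Fin 2 ⊕ Fin s → ℂ := Sum.elim
    (fun c => ![z c.1, H667R3.zeta Λ (z c.1 + p c.1) - H667R3.zeta Λ (p c.1)] c.2) y
  let g : υ ⊕ ((Fin n × Fin 2 ⊕ Fin s) ⊕ (Fin n × Fin 2 ⊕ Fin s)) →
      MvPolynomial (Fin n × Fin 2 ⊕ Fin s) ℂ :=
    Sum.elim (fun j => MvPolynomial.C (w j)) (Sum.elim (fun c => MvPolynomial.X c + MvPolynomial.C (sh c))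
      fun c => MvPolynomial.C (XE Λ (fun i => z i + p i) (fun l => y l + t l) c))
  have hg : ∀ c, Co V (5 * n + 1) (MvPolynomial.C (∏ j, D j) * g c) := by
    rintro (j | (⟨i, c⟩ | l) | (⟨i, c⟩ | l))
    · show Co V (5 * n + 1) (MvPolynomial.C (∏ j, D j) * MvPolynomial.C (w j))
      rw [← MvPolynomial.C_mul]
      exact Co.C (hDv _ (hwV j))
    · show Co V (5 * n + 1) (MvPolynomial.C (∏ j, D j) *
        (MvPolynomial.X (Sum.inl (i, c)) + MvPolynomial.C (sh (Sum.inl (i, c)))))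
      rw [mul_add, ← MvPolynomial.C_mul]
      refine Co.add ?_ (Co.C ?_)
      · have h3 := (Co.C (κ := Fin n × Fin 2 ⊕ Fin s) (V := V) hDt).mul (Co.X (V := V) (Sum.inl (i, c)))
        exact h3.mono h1V (by omega)
      · fin_cases c
        · exact hDv _ (hzV i 0)
        · exact hDx i _ (hD4 i)
    · show Co V (5 * n + 1) (MvPolynomial.C (∏ j, D j) *
        (MvPolynomial.X (Sum.inr l) + MvPolynomial.C (sh (Sum.inr l))))
      rw [mul_add, ← MvPolynomial.C_mul]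
      refine Co.add ?_ (Co.C ?_)
      · have h3 := (Co.C (κ := Fin n × Fin 2 ⊕ Fin s) (V := V) hDt).mul (Co.X (V := V) (Sum.inr l))
        exact h3.mono h1V (by omega)
      · exact hDv _ (hyV l 0)
    · show Co V (5 * n + 1) (MvPolynomial.C (∏ j, D j) *
        MvPolynomial.C (XE Λ (fun i => z i + p i) (fun l => y l + t l) (Sum.inl (i, c))))
      rw [← MvPolynomial.C_mul]
      refine Co.C ?_
      fin_cases c
      · exact hDx i _ (hD2 i)
      · exact hDx i _ (hD3 i)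
    · show Co V (5 * n + 1) (MvPolynomial.C (∏ j, D j) * MvPolynomial.C (Complex.exp (y l + t l)))
      rw [← MvPolynomial.C_mul]
      refine Co.C ?_
      rw [Complex.exp_add, show (∏ j, D j) * (Complex.exp (y l) * Complex.exp (t l)) =
        Complex.exp (t l) * ((∏ j, D j) * Complex.exp (y l)) by ring]
      exact smul_mem' (ht l) (hDv _ (hyV l 1))
  have hgd : ∀ c, (g c).totalDegree ≤ 1 := by
    rintro (j | c | c)
    · show (MvPolynomial.C (w j) : MvPolynomial (Fin n × Fin 2 ⊕ Fin s) ℂ).totalDegree ≤ 1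
      rw [MvPolynomial.totalDegree_C]
      exact Nat.zero_le _
    · show (MvPolynomial.X c + MvPolynomial.C (sh c) :
        MvPolynomial (Fin n × Fin 2 ⊕ Fin s) ℂ).totalDegree ≤ 1
      refine (MvPolynomial.totalDegree_add _ _).trans (max_le (MvPolynomial.totalDegree_X _).le ?_)
      rw [MvPolynomial.totalDegree_C]
      exact Nat.zero_le _
    · show (MvPolynomial.C (XE Λ (fun i => z i + p i) (fun l => y l + t l) c) :
        MvPolynomial (Fin n × Fin 2 ⊕ Fin s) ℂ).totalDegree ≤ 1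
      rw [MvPolynomial.totalDegree_C]
      exact Nat.zero_le _
  have hev : ∀ v : Fin n × Fin 2 ⊕ Fin s → ℂ, MvPolynomial.aeval v (MvPolynomial.aeval g P) =
      MvPolynomial.aeval (Sum.elim w (Sum.elim (fun c => v c + sh c)
        (XE Λ (fun i => z i + p i) (fun l => y l + t l)))) P := by
    intro v
    have h3 : ((MvPolynomial.aeval v : MvPolynomial (Fin n × Fin 2 ⊕ Fin s) ℂ →ₐ[ℂ] ℂ).restrictScalars
        Qb).comp (MvPolynomial.aeval g :
          MvPolynomial (υ ⊕ ((Fin n × Fin 2 ⊕ Fin s) ⊕ (Fin n × Fin 2 ⊕ Fin s))) Qb →ₐ[Qb]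
            MvPolynomial (Fin n × Fin 2 ⊕ Fin s) ℂ) =
        MvPolynomial.aeval (Sum.elim w (Sum.elim (fun c => v c + sh c)
          (XE Λ (fun i => z i + p i) (fun l => y l + t l)))) := by
      refine MvPolynomial.algHom_ext fun c => ?_
      rcases c with c | c | c
      · simp [g]
      · simp [g]
      · simp [g]
    exact DFunLike.congr_fun h3 P
  have hev2 : ∀ v : Fin n × Fin 2 ⊕ Fin s → ℂ, MvPolynomial.aeval v
      (MvPolynomial.C ((∏ j, D j) ^ δ) * MvPolynomial.aeval g P) = (∏ j, D j) ^ δ *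
      MvPolynomial.aeval (Sum.elim w (Sum.elim (fun c => v c + sh c)
        (XE Λ (fun i => z i + p i) (fun l => y l + t l)))) P := by
    intro v
    rw [map_mul, hev, MvPolynomial.aeval_C]
    rfl
  have hQ0 : MvPolynomial.C ((∏ j, D j) ^ δ) * MvPolynomial.aeval g P = 0 := by
    apply hNR
    · intro c
      exact co_sub Qb le_rfl V h1V (5 * n + 1) δ _ (pow_le h1V (by omega) hDt) g hg P hP1 c
    · exact deg_aeval Qb g hgd P hP1 _
    · rw [hev2]
      have h3 : (fun c => XL Λ p t c + sh c) =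
          XL Λ (fun i => z i + p i) (fun l => y l + t l) := by
        funext c
        rcases c with ⟨i, c⟩ | l
        · fin_cases c
          · show p i + z i = z i + p i
            ring
          · show H667R3.zeta Λ (p i) + (H667R3.zeta Λ (z i + p i) - H667R3.zeta Λ (p i)) =
              H667R3.zeta Λ (z i + p i)
            ring
        · show t l + y l = y l + t l
          ring
      rw [h3, hP2, mul_zero]
  have h3 := hev2 fun c => v₀ c - sh c
  rw [hQ0, map_zero] at h3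
  have h4 := (mul_eq_zero.1 h3.symm).resolve_left (pow_ne_zero _ hDt0)
  rw [← h4]
  congr 2
  funext c
  rcases c with c | c | c
  · rfl
  · simp
  · rfl

end

end Pool.Agent.Run7.h788.Tra
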