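import Pool.Agent.Run7.h788.Trans

/-!
# Random translates
-/

open Module
open scoped PeriodPair

namespace Pool.Agent.Run7.h788.Tra

open Pool.Agent.Y918.EL (Qb CM SK pt)
open Pool.Agent.W245.EB (EL ELg mem_ELg EllFam zt_of_notMem)
open Pool.Agent.H301R2.SSE (Lt)
open _root_.Run7.h788 (NoRelJ ellN GoodE rand_mix)

/-- no relation of bounded partial degrees over `W` -/
def NR (Λ : PeriodPair) {n s : ℕ} (p : Fin n → ℂ) (t : Fin s → ℂ) (W : Submodule Qb ℂ) (D : ℕ) :
    Prop :=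
  ∀ Q : MvPolynomial (Fin n × Fin 2 ⊕ Fin s) ℂ, (∀ c, Q.coeff c ∈ W) → (∀ i, Q.degreeOf i ≤ D) →
    MvPolynomial.aeval (XL Λ p t) Q = 0 → Q = 0

/-- from the engine -/
theorem nr_of (d : CM) {n s k : ℕ} (b : Fin n → ℂ) (u : Fin n → Fin k → ℂ) (W F : Submodule Qb ℂ)
    (D : ℕ) (m : Fin n → Fin k × Fin 2 → ℤ) (e : Fin 0 → SK) (c : Fin 0 → ℂ) (v : Fin 0 → Fin k → ℂ)
    (m' : Fin 0 → Fin k → ℤ) (t : Fin s → ℂ)
    (hp : ∀ j, pt (fun _ => d) b u m j ∉ d.L.lattice)
    (h : NoRelJ Lt W F D (ellN (fun _ => d) b u e c v (m, m')) t) :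
    NR d.L (pt (fun _ => d) b u m) t W D := by
  classical
  intro Q hQ hd h0
  let f : Fin n × Fin 2 ⊕ Fin s → ((Fin n ⊕ Fin n) ⊕ Fin 0) ⊕ (Fin s ⊕ Fin 0) :=
    Sum.elim (fun a => Sum.inl (Sum.inl ((![Sum.inl a.1, Sum.inr a.1] : Fin 2 → Fin n ⊕ Fin n) a.2)))
      (fun l => Sum.inr (Sum.inl l))
  have hf : Function.Injective f := by
    rintro (⟨i, a⟩ | l) (⟨j, a'⟩ | l') hh
    · fin_cases a <;> fin_cases a' <;> simp_all [f]
    · simp [f] at hh
    · simp [f] at hh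
    · simp only [f, Sum.elim_inr, Sum.inr.injEq, Sum.inl.injEq] at hh
      rw [hh]
  have hco : ∀ β, (MvPolynomial.rename f Q).coeff β ∈ W := by
    intro β
    by_cases hβ : ∃ γ, Finsupp.mapDomain f γ = β
    · obtain ⟨γ, rfl⟩ := hβ
      rw [MvPolynomial.coeff_rename_mapDomain _ hf]
      exact hQ γ
    · rw [MvPolynomial.coeff_rename_eq_zero _ _ _ (fun γ hγ => absurd ⟨γ, hγ⟩ hβ)]
      exact zero_mem _
  have h1 := h.2 0 (fun l => l.elim0) (fun l => l.elim0) (fun c _ j => j.elim0)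
    (MvPolynomial.rename f Q) hco ?_ ?_ ?_ ?_
  · exact MvPolynomial.rename_injective f hf (h1.trans (map_zero _).symm)
  · rintro ((i | i) | i)
    · have := MvPolynomial.degreeOf_rename_of_injective (p := Q) hf (Sum.inl (i, 0))
      exact this.le.trans (hd _)
    · have := MvPolynomial.degreeOf_rename_of_injective (p := Q) hf (Sum.inl (i, 1))
      exact this.le.trans (hd _)
    · exact i.elim0
  · intro i
    have := MvPolynomial.degreeOf_rename_of_injective (p := Q) hf (Sum.inr i)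
    exact this.le.trans (hd _)
  · intro β _
    simp
  · rw [MvPolynomial.eval_rename]
    have h2 : (Sum.elim (ellN (fun _ => d) b u e c v (m, m')) (Sum.elim t fun l : Fin 0 => l.elim0)) ∘ f =
        XL d.L (pt (fun _ => d) b u m) t := by
      funext a
      rcases a with ⟨i, a⟩ | l
      · fin_cases a
        · rfl
        · exact zt_of_notMem (hp i)
      · rfl
    rw [h2]
    exact h0

/-- the dimension of the powers of the space of the constants -/
theorem VV_bound (Λ : PeriodPair) {υ : Type} [Fintype υ] {n s : ℕ} (w : υ → ℂ) (z : Fin n → ℂ)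
    (y : Fin s → ℂ) (e : ℕ) : Module.Finite Qb (VV Λ w z y ^ e : Submodule Qb ℂ) ∧
      finrank Qb (VV Λ w z y ^ e : Submodule Qb ℂ) ≤
        (Fintype.card (Option ((υ ⊕ Fin 2) ⊕ (Fin n × Fin 4 ⊕ Fin s × Fin 2)))) ^ e := by
  haveI h1 : Module.Finite Qb (VV Λ w z y) := FiniteDimensional.span_of_finite _ (Set.finite_range _)
  exact Pool.Agent.W245.finrank_pow_le (VV Λ w z y) _ (finrank_range_le_card _) e

/-- one good point -/
theorem good_tr (d : CM) {q n s : ℕ} (D : ℕ) (w : Fin q → ℂ) (z : Fin n → ℂ) (y : Fin s → ℂ)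
    (p : Fin n → ℂ) (t : Fin s → ℂ) (b : Fin n → ℂ)
    (hb : ∀ i, (z i ∈ EL d.L ∧ b i = z i) ∨ (z i ∉ EL d.L ∧ b i = 0))
    (hp : ∀ i, p i ∉ d.L.lattice) (hpE : ∀ i, p i ∈ EL d.L)
    (ht : ∀ l, IsAlgebraic ℚ (Complex.exp (t l)))
    (hN : NR d.L p t (VV d.L w (fun i => z i - b i) y ^ ((5 * n + 1) * (D + 1))) (D + 1)) :
    (∀ i, z i - b i + p i ∉ d.L.lattice) ∧
      Fr d.L D w (fun i => z i - b i + p i) (fun l => y l + t l) := by
  classical
  have hcub := d.g2
  have hz : ∀ i, z i - b i + p i ∉ d.L.lattice := by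
    intro i
    rcases hb i with ⟨h1, h2⟩ | ⟨h1, h2⟩
    · rw [h2, sub_self, zero_add]
      exact hp i
    · rw [h2, sub_zero]
      intro h3
      apply h1
      have h4 : z i + p i ∈ ELg d.L d.g2 d.g3 := (mem_ELg d.g2 d.g3).2 (Or.inl h3)
      have h5 := sub_mem h4 ((mem_ELg d.g2 d.g3).2 (hpE i))
      rw [add_sub_cancel_right] at h5
      exact (mem_ELg d.g2 d.g3).1 h5
  refine ⟨hz, fr_of d.L d.g2 D w (fun i => z i - b i) y p t hp ?_ hz ?_ ?_ ?_ ?_ ?_⟩
  · intro i h2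
    obtain ⟨a, c, hac⟩ := PeriodPair.mem_lattice.1 h2
    have hV : p i ∈ VV d.L w (fun i => z i - b i) y := by
      have h3 : p i = ((a : Qb) / 2) • d.L.ω₁ + ((c : Qb) / 2) • d.L.ω₂ := by
        rw [Algebra.smul_def, Algebra.smul_def]
        push_cast [map_div₀, map_intCast, map_ofNat]
        linear_combination (-1 / 2 : ℂ) * hac
      rw [h3]
      refine add_mem (Submodule.smul_mem _ _ ?_) (Submodule.smul_mem _ _ ?_)
      · exact Submodule.subset_span ⟨some (Sum.inl (Sum.inr 0)), rfl⟩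
      · exact Submodule.subset_span ⟨some (Sum.inl (Sum.inr 1)), rfl⟩
    have h1V := one_VV d.L w (fun i => z i - b i) y
    have hle : VV d.L w (fun i => z i - b i) y ≤
        VV d.L w (fun i => z i - b i) y ^ ((5 * n + 1) * (D + 1)) := by
      calc VV d.L w (fun i => z i - b i) y = VV d.L w (fun i => z i - b i) y ^ 1 := (pow_one _).symm
        _ ≤ _ := pow_le h1V (Nat.mul_pos (by omega) (by omega))
    have hX : (MvPolynomial.X (Sum.inl (i, 0)) - MvPolynomial.C (p i) :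
        MvPolynomial (Fin n × Fin 2 ⊕ Fin s) ℂ) = 0 := by
      refine hN _ ?_ ?_ ?_
      · intro c
        rw [MvPolynomial.coeff_sub, MvPolynomial.coeff_X, MvPolynomial.coeff_C]
        refine sub_mem ?_ ?_
        · split_ifs
          · exact hle h1V
          · exact zero_mem _
        · split_ifs
          · exact hle hV
          · exact zero_mem _
      · intro j
        refine (MvPolynomial.degreeOf_le_totalDegree _ _).trans ?_
        refine (MvPolynomial.totalDegree_sub _ _).trans ?_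
        rw [MvPolynomial.totalDegree_X, MvPolynomial.totalDegree_C]
        omega
      · rw [map_sub, MvPolynomial.aeval_X, MvPolynomial.aeval_C]
        show p i - p i = 0
        exact sub_self _
    have h5 := congrArg (MvPolynomial.eval (fun _ => p i + 1)) hX
    rw [map_sub, MvPolynomial.eval_X, MvPolynomial.eval_C, map_zero] at h5
    simp at h5
  · intro i
    exact (mem_algebraicClosure_iff (F := ℚ) (E := ℂ)).2 ((hpE i).resolve_left (hp i))
  · intro i
    exact (mem_algebraicClosure_iff (F := ℚ) (E := ℂ)).2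
      (Pool.Agent.W245.EB.wp'_alg d.g2 d.g3 (hp i) ((hpE i).resolve_left (hp i)))
  · intro l
    exact (mem_algebraicClosure_iff (F := ℚ) (E := ℂ)).2 (ht l)
  · intro i hzi heq
    rcases hb i with ⟨h1, h2⟩ | ⟨h1, h2⟩
    · rw [h2, sub_self] at hzi
      exact hzi (zero_mem _)
    · rw [h2, sub_zero] at heq
      exact h1 (Or.inr (heq ▸ (hpE i).resolve_left (hp i)))
  · intro Q hQ hd h0
    refine hN Q (fun c => ?_) (fun i => ?_) h0
    · exact pow_le (one_VV d.L w (fun i => z i - b i) y) (Nat.mul_le_mul_left _ (Nat.le_succ D)) (hQ c)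
    · exact (MvPolynomial.degreeOf_le_totalDegree _ _).trans (hd.trans (Nat.le_succ D))

open Classical in
/-- **Random translates.** -/
theorem rand_tr (n q s D : ℕ) : ∃ (k₀ C : ℕ) (δ : ℝ), 0 < δ ∧ ∀ k ≥ k₀,
    ∀ (d : CM) (u : Fin n → Fin k → ℂ), (∀ j, EllFam d.L (u j)) →
    ∀ lam : Fin s → Fin k → ℂ, (∀ j i, IsAlgebraic ℚ (Complex.exp (lam j i))) →
    (∀ j, LinearIndependent ℚ (lam j)) → ∀ A : Finset ℤ, A.Nonempty →
    ∀ (w : Fin q → ℂ) (z : Fin n → ℂ) (y : Fin s → ℂ),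
    ((((Fintype.piFinset fun _ : Fin n => Fintype.piFinset fun _ : Fin k × Fin 2 => A) ×ˢ
      (Fintype.piFinset fun _ : Fin s => Fintype.piFinset fun _ : Fin k => A)).filter
      (fun m => ¬ ((∀ i, z i + ∑ a, ((m.1 i (a, 0) : ℂ) + m.1 i (a, 1) * d.α) * u i a ∉ d.L.lattice) ∧
        Fr d.L D w (fun i => z i + ∑ a, ((m.1 i (a, 0) : ℂ) + m.1 i (a, 1) * d.α) * u i a)
          (fun l => y l + ∑ a, (m.2 l a : ℂ) * lam l a)))).card : ℝ) ≤
      C * (A.card : ℝ) ^ (((2 * n + s) * k : ℝ) - δ * k) := by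
  obtain ⟨k₀, C, δ, hδ, h⟩ := rand_mix n 0 s (D + 1)
    ((Fintype.card (Option ((Fin q ⊕ Fin 2) ⊕ (Fin n × Fin 4 ⊕ Fin s × Fin 2)))) ^
      ((5 * n + 1) * (D + 1)))
  refine ⟨k₀, C, δ, hδ, fun k hk d u hu lam hlam hli A hA w z y => ?_⟩
  obtain ⟨b, hb⟩ : ∃ b : Fin n → ℂ,
      ∀ i, (z i ∈ EL d.L ∧ b i = z i) ∨ (z i ∉ EL d.L ∧ b i = 0) := by
    refine ⟨fun i => if z i ∈ EL d.L then z i else 0, fun i => ?_⟩
    by_cases hi : z i ∈ EL d.L
    · exact Or.inl ⟨hi, if_pos hi⟩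
    · exact Or.inr ⟨hi, if_neg hi⟩
  have hbE : ∀ i, b i ∈ EL d.L := by
    intro i
    rcases hb i with ⟨h1, h2⟩ | ⟨h1, h2⟩
    · rw [h2]
      exact h1
    · rw [h2]
      exact Or.inl (zero_mem _)
  obtain ⟨hW, hWN⟩ := VV_bound d.L w (fun i => z i - b i) y ((5 * n + 1) * (D + 1))
  have h1 := h k hk (fun _ => d) u hu b hbE (fun j => j.elim0) (fun j => j.elim0) (fun j => j.elim0)
    (fun j => j.elim0) (fun j => j.elim0) lam (fun j i => Pool.Agent.H301R2.SSE.Lt_log (hlam j i))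
    (fun j => Pool.Agent.R350.li_complex _ (hlam j) (hli j)) (fun _ => 0) (fun _ => zero_mem _) A hA
    _ hW hWN
  have h2 : ((2 * (n : ℝ) + ((0 : ℕ) : ℝ) + s) * k - δ * k) = ((2 * n + s) * k : ℝ) - δ * k := by
    push_cast
    ring
  rw [h2] at h1
  refine le_trans (Nat.cast_le.2 ?_) h1
  refine Finset.card_le_card_of_injOn (fun m => ((m.1, fun j : Fin 0 => j.elim0), m.2)) ?_ ?_
  · intro m hm
    rw [Finset.mem_coe, Finset.mem_filter] at hm ⊢
    obtain ⟨hm1, hm2⟩ := hm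
    rw [Finset.mem_product] at hm1
    refine ⟨Finset.mem_product.2 ⟨Finset.mem_product.2 ⟨hm1.1, Fintype.mem_piFinset.2
      fun j => j.elim0⟩, hm1.2⟩, fun hG => hm2 ?_⟩
    obtain ⟨⟨hp, -, -⟩, F, -, -, -, hF⟩ := hG
    have hnr := nr_of d b u _ F (D + 1) m.1 _ _ _ _ _ (fun j => (hp j).1) hF
    have hg := good_tr d D w z y (pt (fun _ => d) b u m.1)
      (fun j => 0 + ∑ i, (m.2 j i : ℂ) * lam j i) b hb (fun j => (hp j).1) (fun j => (hp j).2) ?_ hnr
    · have e1 : (fun i => z i - b i + pt (fun _ => d) b u m.1 i) =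
          fun i => z i + ∑ a, ((m.1 i (a, 0) : ℂ) + m.1 i (a, 1) * d.α) * u i a := by
        funext i
        show z i - b i + (b i + ∑ a, ((m.1 i (a, 0) : ℂ) + m.1 i (a, 1) * d.α) * u i a) = _
        ring
      have e2 : (fun l => y l + (0 + ∑ i, (m.2 l i : ℂ) * lam l i)) =
          fun l => y l + ∑ i, (m.2 l i : ℂ) * lam l i := by
        funext l
        rw [zero_add]
      rw [e1, e2] at hg
      refine ⟨fun i => ?_, hg.2⟩
      have h7 := hg.1 i
      have e3 : z i - b i + pt (fun _ => d) b u m.1 i =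
          z i + ∑ a, ((m.1 i (a, 0) : ℂ) + m.1 i (a, 1) * d.α) * u i a := congrFun e1 i
      rwa [e3] at h7
    · intro l
      rw [zero_add, Complex.exp_sum]
      have : ∀ i, Complex.exp ((m.2 l i : ℂ) * lam l i) ∈ algebraicClosure ℚ ℂ := by
        intro i
        rw [Complex.exp_int_mul]
        exact zpow_mem ((mem_algebraicClosure_iff (F := ℚ) (E := ℂ)).2 (hlam l i)) _
      exact (mem_algebraicClosure_iff (F := ℚ) (E := ℂ)).1 (prod_mem fun i _ => this i)
  · intro m _ m' _ hmm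
    have h3 := congrArg (fun x => x.1.1) hmm
    have h4 := congrArg (fun x => x.2) hmm
    exact Prod.ext h3 h4

end Pool.Agent.Run7.h788.Tra
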