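import Pool.Agent.Run7.h788.GalDesc

/-!
# The twisted action on matrices
-/

set_option autoImplicit false

namespace Run7.h788

open Polynomial IntermediateField Matrix

variable {p : ℕ} [Fact p.Prime]

theorem transc {t : PadicAlgCl p} (ht : ¬ IsAlgebraic ℚ t) : Transcendental (QQ p) t := by
  intro h
  have : Algebra.IsAlgebraic ℚ (QQ p) := algebraicClosure.isAlgebraic ℚ (PadicAlgCl p)
  exact ht (h.restrictScalars ℚ)

theorem quad_zero {t : PadicAlgCl p} (ht : ¬ IsAlgebraic ℚ t) (a b c : QQ p)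
    (h : (a : PadicAlgCl p) * t ^ 2 + b * t + c = 0) : a = 0 ∧ b = 0 ∧ c = 0 := by
  have h1 := transcendental_iff.1 (transc ht) (C a * X ^ 2 + C b * X + C c) (by
    rw [map_add, map_add, map_mul, map_mul, aeval_C, aeval_C, aeval_C, map_pow, aeval_X]
    exact h)
  have h2 := congrArg (fun q => q.coeff 2) h1
  have h3 := congrArg (fun q => q.coeff 1) h1
  have h4 := congrArg (fun q => q.coeff 0) h1
  simp [coeff_X, coeff_C] at h2 h3 h4
  exact ⟨h2, h3, h4⟩

theorem lin_zero {t : PadicAlgCl p} (ht : ¬ IsAlgebraic ℚ t) (b c : QQ p)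
    (h : (b : PadicAlgCl p) * t + c = 0) : b = 0 ∧ c = 0 :=
  (quad_zero ht 0 b c (by rw [ZeroMemClass.coe_zero, zero_mul, zero_add]; exact h)).2

/-- the denominator of a fractional linear transformation -/
theorem den_ne {t : PadicAlgCl p} (ht : ¬ IsAlgebraic ℚ t) {P : Matrix (Fin 2) (Fin 2) (QQ p)}
    (hP : P.det ≠ 0) : (P 1 0 : PadicAlgCl p) * t + P 1 1 ≠ 0 := by
  intro h
  obtain ⟨h1, h2⟩ := lin_zero ht _ _ h
  rw [det_fin_two, h1, h2] at hP
  simp at hP

/-- the vector `(t, 1)` -/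
noncomputable def vv (t : PadicAlgCl p) : Fin 2 → PadicAlgCl p := ![t, 1]

/-- a matrix of algebraic numbers as a matrix over the algebraic closure of `ℚ_p` -/
noncomputable def mp (A : Matrix (Fin 2) (Fin 2) (QQ p)) :
    Matrix (Fin 2) (Fin 2) (PadicAlgCl p) :=
  A.map (algebraMap (QQ p) (PadicAlgCl p))

theorem mp_mul (A B : Matrix (Fin 2) (Fin 2) (QQ p)) : mp (A * B) = mp A * mp B :=
  Matrix.map_mul

theorem mp_one : mp (1 : Matrix (Fin 2) (Fin 2) (QQ p)) = 1 := by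
  unfold mp
  simp

theorem mulVec_vv (P : Matrix (Fin 2) (Fin 2) (QQ p)) (t : PadicAlgCl p) :
    mp P *ᵥ vv t = ![(P 0 0 : PadicAlgCl p) * t + P 0 1, (P 1 0 : PadicAlgCl p) * t + P 1 1] := by
  funext i
  rw [mulVec, dotProduct, Fin.sum_univ_two]
  fin_cases i
  · change (P 0 0 : PadicAlgCl p) * t + (P 0 1 : PadicAlgCl p) * 1 = _
    rw [mul_one]
    rfl
  · change (P 1 0 : PadicAlgCl p) * t + (P 1 1 : PadicAlgCl p) * 1 = _
    rw [mul_one]
    rfl

/-- a matrix with a transcendental eigenvector is scalar -/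
theorem scalar_of_fix {t : PadicAlgCl p} (ht : ¬ IsAlgebraic ℚ t)
    (P : Matrix (Fin 2) (Fin 2) (QQ p)) {lam : PadicAlgCl p} (h : mp P *ᵥ vv t = lam • vv t) :
    ∃ c : QQ p, P = c • (1 : Matrix (Fin 2) (Fin 2) (QQ p)) := by
  rw [mulVec_vv] at h
  have h0 := congrFun h 0
  have h1 := congrFun h 1
  change (P 0 0 : PadicAlgCl p) * t + P 0 1 = lam * t at h0
  change (P 1 0 : PadicAlgCl p) * t + P 1 1 = lam * 1 at h1
  obtain ⟨h2, h3, h4⟩ := quad_zero ht (P 1 0) (P 1 1 - P 0 0) (-P 0 1) (by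
    push_cast
    linear_combination t * h1 - h0)
  refine ⟨P 0 0, ?_⟩
  ext i j
  fin_cases i <;> fin_cases j
  · simp
  · simp [neg_eq_zero.1 h4]
  · simp [h2]
  · simp [sub_eq_zero.1 h3]

theorem prop_of {t s : PadicAlgCl p} (ht : ¬ IsAlgebraic ℚ t)
    (P Q : Matrix (Fin 2) (Fin 2) (QQ p)) (hP : P.det ≠ 0) (hQ : Q.det ≠ 0)
    {lam mu : PadicAlgCl p} (hmu : mu ≠ 0)
    (h1 : mp P *ᵥ vv t = lam • vv s) (h2 : mp Q *ᵥ vv t = mu • vv s) :
    ∃ c : QQ p, c ≠ 0 ∧ P = c • Q := by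
  have hQ' : IsUnit Q.det := isUnit_iff_ne_zero.2 hQ
  obtain ⟨c, hc⟩ := scalar_of_fix ht (Q⁻¹ * P) (lam := lam * mu⁻¹) (by
    rw [mp_mul, ← mulVec_mulVec, h1]
    have h3 : lam • vv s = (lam * mu⁻¹) • mp Q *ᵥ vv t := by
      rw [h2, smul_smul, mul_assoc, inv_mul_cancel₀ hmu, mul_one]
    rw [h3, mulVec_smul, mulVec_mulVec, ← mp_mul, nonsing_inv_mul _ hQ', mp_one, one_mulVec])
  have hPQ : P = c • Q := by
    have h4 : Q * (Q⁻¹ * P) = P := by rw [← mul_assoc, mul_nonsing_inv _ hQ', one_mul]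
    rw [← h4, hc, mul_smul_comm, mul_one]
  refine ⟨c, ?_, hPQ⟩
  rintro rfl
  rw [zero_smul] at hPQ
  rw [hPQ] at hP
  simp at hP

section generic

variable {F : Type} [Field F] (j : QQ p →+* F) (τ : GG p → F →+* F)
  (hτ : ∀ g x, τ g (j x) = j (res g x)) (τ_mul : ∀ g h x, τ (g * h) x = τ g (τ h x))
  (τ_one : ∀ x, τ 1 x = x)
  {H : Subgroup (GG p)} (m : H → Matrix (Fin 2) (Fin 2) (QQ p))

/-- the twisted action -/
noncomputable def tw (g : H) : Matrix (Fin 2) (Fin 2) F →+ Matrix (Fin 2) (Fin 2) F where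
  toFun A := ((m g)⁻¹).map j * A.map (τ g) * (m g).map j
  map_zero' := by
    have : (0 : Matrix (Fin 2) (Fin 2) F).map (τ g) = 0 := by
      ext i k
      simp
    rw [this, mul_zero, zero_mul]
  map_add' A B := by
    have : (A + B).map (τ g) = A.map (τ g) + B.map (τ g) := by
      ext i k
      simp
    rw [this, mul_add, add_mul]

theorem tw_apply (g : H) (A : Matrix (Fin 2) (Fin 2) F) :
    tw j τ m g A = ((m g)⁻¹).map j * A.map (τ g) * (m g).map j := rfl

theorem tw_smul (g : H) (c : F) (A : Matrix (Fin 2) (Fin 2) F) :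
    tw j τ m g (c • A) = τ g c • tw j τ m g A := by
  have : (c • A).map (τ g) = τ g c • A.map (τ g) := by
    ext i k
    simp
  rw [tw_apply, tw_apply, this, mul_smul_comm, smul_mul_assoc]

theorem conj_smul (c : QQ p) (hc : c ≠ 0) (X : Matrix (Fin 2) (Fin 2) (QQ p)) (hX : X.det ≠ 0)
    (A : Matrix (Fin 2) (Fin 2) F) :
    ((c • X)⁻¹).map j * A * (c • X).map j = (X⁻¹).map j * A * X.map j := by
  have h1 : (c • X)⁻¹ = c⁻¹ • X⁻¹ := by
    apply inv_eq_left_inv
    rw [smul_mul_smul_comm, inv_mul_cancel₀ hc, one_smul,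
      nonsing_inv_mul _ (isUnit_iff_ne_zero.2 hX)]
  have h2 : ∀ (d : QQ p) (Y : Matrix (Fin 2) (Fin 2) (QQ p)),
      (d • Y).map j = j d • Y.map j := by
    intro d Y
    ext i k
    simp
  rw [h1, h2, h2, smul_mul_assoc, smul_mul_assoc, mul_smul_comm, smul_smul, ← map_mul,
    inv_mul_cancel₀ hc, map_one, one_smul]

/-- on a matrix with scalar twist the action is the usual one -/
theorem tw_of_scalar (g : H) (c : QQ p) (hc : c ≠ 0) (h : m g = c • 1)
    (A : Matrix (Fin 2) (Fin 2) F) : tw j τ m g A = A.map (τ g) := by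
  rw [tw_apply, h, conj_smul j c hc 1 (by simp)]
  simp

include hτ τ_mul in
theorem tw_mul (hm : ∀ g, (m g).det ≠ 0)
    (hcoc : ∀ g h : H, ∃ c : QQ p, c ≠ 0 ∧ m (g * h) = c • ((m h).map (res g) * m g))
    (g h : H) (A : Matrix (Fin 2) (Fin 2) F) :
    tw j τ m (g * h) A = tw j τ m g (tw j τ m h A) := by
  obtain ⟨c, hc, hgh⟩ := hcoc g h
  have hres : ∀ Y : Matrix (Fin 2) (Fin 2) (QQ p), (Y.map (res (g : GG p))).map j =
      (Y.map j).map (τ g) := by
    intro Y
    ext i k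
    simp [hτ]
  have hdet : ((m h).map (res (g : GG p))).det ≠ 0 := by
    have h1 := RingHom.map_det (res (g : GG p)) (m h)
    rw [RingHom.mapMatrix_apply] at h1
    rw [← h1]
    exact (_root_.map_ne_zero _).2 (hm h)
  have hinv : ((m h).map (res (g : GG p)))⁻¹ = ((m h)⁻¹).map (res (g : GG p)) := by
    apply inv_eq_left_inv
    rw [← Matrix.map_mul, nonsing_inv_mul _ (isUnit_iff_ne_zero.2 (hm h))]
    ext i k
    by_cases hik : i = k
    · subst hik; simp
    · simp [hik]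
  have hA : A.map (τ ((g * h : H) : GG p)) = (A.map (τ h)).map (τ g) := by
    ext i k
    simp [τ_mul]
  rw [tw_apply, tw_apply, tw_apply, hgh, conj_smul j c hc _ (by
    rw [det_mul]; exact mul_ne_zero hdet (hm g)), hA, Matrix.mul_inv_rev, hinv, Matrix.map_mul,
    Matrix.map_mul, hres, hres, Matrix.map_mul, Matrix.map_mul]
  simp only [Matrix.mul_assoc]

end generic

end Run7.h788
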